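import Pool.Agent.KS6_63.GFF.Defs4
import Pool.Agent.KS6_63.GFF.A3
import Pool.Agent.KS6_63.GFF.C.gs_psd_

open MeasureTheory ProbabilityTheory

namespace H941.GC_facts

theorem _root_.H941.GC_facts (u w : ℕ) (h : ParC u w) (a : ℤ × ℤ) :
    (∀ k, (GC u w a k).PosSemidef) ∧
    (∑ k : Fin (nb u w + 1), GC u w a k = Matrix.of fun x y : ↥(Dw w) => (1 / 4) * green (Dw w) x y) ∧
    (∀ j ≤ nb u w, ∑ k ∈ Finset.Ico j (nb u w + 1), GC u w a k = Matrix.of fun x y : ↥(Dw w) =>
      (1 / 4) * green (Dw w) x y - ∑ i ∈ Finset.range j, Gs (Dw w) (cc w i) a x y) := by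
  have hlt : ∀ k, k < nb u w → ∀ x y, GC u w a k x y = Gs (Dw w) (cc w k) a x y := by
    intro k hk x y
    unfold GC
    rw [if_pos hk, Matrix.of_apply]
  have hge : ∀ x y, GC u w a (nb u w) x y =
      (1 / 4) * green (Dw w) x y - ∑ i ∈ Finset.range (nb u w), Gs (Dw w) (cc w i) a x y := by
    intro x y
    unfold GC
    rw [if_neg (lt_irrefl _), Matrix.of_apply]
  have h3 : ∀ j ≤ nb u w, ∑ k ∈ Finset.Ico j (nb u w + 1), GC u w a k =
      Matrix.of fun x y : ↥(Dw w) =>
        (1 / 4) * green (Dw w) x y - ∑ i ∈ Finset.range j, Gs (Dw w) (cc w i) a x y := by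
    intro j hj
    ext x y
    rw [Matrix.sum_apply, Matrix.of_apply, Finset.sum_Ico_succ_top hj, hge,
      Finset.sum_congr rfl (fun k hk => hlt k (Finset.mem_Ico.1 hk).2 x y),
      ← Finset.sum_range_add_sum_Ico _ hj]
    ring
  refine ⟨?_, ?_, h3⟩
  · intro k
    obtain ⟨h1, h2⟩ := gs_psd (Dw w) (Dw w) ∅ (cc w) a (nb u w)
      (fun i hi => (h.cc_dvd i hi).1) (Finset.empty_subset _) (fun _ => Finset.empty_subset _)
    by_cases hk : k < nb u w
    · unfold GC
      rw [if_pos hk]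
      exact h1 k
    · unfold GC
      rw [if_neg hk]
      have he : ∀ x y, green ∅ x y = 0 := fun x y =>
        (green_basic ∅).2.1 x y (Or.inl (Finset.notMem_empty _))
      simpa only [he, mul_zero, sub_zero] using h2
  · have h0 := h3 0 (Nat.zero_le _)
    rw [← Finset.range_eq_Ico, Finset.sum_range] at h0
    rw [h0]
    ext x y
    simp

end H941.GC_facts
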