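import Pool.Agent.KS6_63.GFF.Defs4

open MeasureTheory ProbabilityTheory

namespace H941.caccioppoli

theorem c5_mem_ball (x z : ℤ × ℤ) (r : ℤ) : z ∈ ball x r ↔
    (x.1 - r ≤ z.1 ∧ z.1 ≤ x.1 + r) ∧ (x.2 - r ≤ z.2 ∧ z.2 ≤ x.2 + r) := by
  simp [ball, rect, Finset.mem_product]

theorem c5_nbrs (f : ℤ × ℤ → ℝ) (u : ℤ × ℤ) : ∑ y ∈ nbrs u, f y =
    f (u + (1, 0)) + f (u - (1, 0)) + f (u + (0, 1)) + f (u - (0, 1)) := by
  have e1 : u + (1, 0) = (u.1 + 1, u.2) := by ext <;> simp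
  have e2 : u - (1, 0) = (u.1 - 1, u.2) := by ext <;> simp
  have e3 : u + (0, 1) = (u.1, u.2 + 1) := by ext <;> simp
  have e4 : u - (0, 1) = (u.1, u.2 - 1) := by ext <;> simp
  rw [e1, e2, e3, e4, nbrs, Finset.sum_insert, Finset.sum_insert, Finset.sum_insert,
    Finset.sum_singleton]
  · ring
  · simp only [Finset.mem_singleton, Prod.mk.injEq]; omega
  · simp only [Finset.mem_insert, Finset.mem_singleton, Prod.mk.injEq]; omega
  · simp only [Finset.mem_insert, Finset.mem_singleton, Prod.mk.injEq]; omega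

/-- the distance in the maximum norm -/
def c5d (x0 z : ℤ × ℤ) : ℤ := max |z.1 - x0.1| |z.2 - x0.2|

/-- the cut-off function -/
noncomputable def c5chi (x0 : ℤ × ℤ) (n : ℕ) (z : ℤ × ℤ) : ℝ :=
  max 0 (min 1 ((2 * (n : ℝ) + 1 - (c5d x0 z : ℝ)) / n))

theorem c5_d_le (x0 z : ℤ × ℤ) (r : ℤ) : c5d x0 z ≤ r ↔ z ∈ ball x0 r := by
  rw [c5_mem_ball, c5d, max_le_iff, abs_le, abs_le]
  constructor
  · rintro ⟨⟨h1, h2⟩, h3, h4⟩
    refine ⟨⟨by linarith, by linarith⟩, by linarith, by linarith⟩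
  · rintro ⟨⟨h1, h2⟩, h3, h4⟩
    refine ⟨⟨by linarith, by linarith⟩, by linarith, by linarith⟩

theorem c5_chi_one (x0 z : ℤ × ℤ) (n : ℕ) (hn : 1 ≤ n) (hz : z ∈ ball x0 (n + 1)) :
    c5chi x0 n z = 1 := by
  have hd : c5d x0 z ≤ n + 1 := (c5_d_le x0 z (n + 1)).2 hz
  have hd' : (c5d x0 z : ℝ) ≤ n + 1 := by exact_mod_cast hd
  have hn' : (0 : ℝ) < n := by exact_mod_cast hn
  have : (1 : ℝ) ≤ (2 * (n : ℝ) + 1 - (c5d x0 z : ℝ)) / n := by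
    rw [le_div_iff₀ hn']; linarith
  rw [c5chi, min_eq_left this, max_eq_right zero_le_one]

theorem c5_chi_zero (x0 z : ℤ × ℤ) (n : ℕ) (hn : 1 ≤ n) (hz : z ∉ ball x0 (2 * n)) :
    c5chi x0 n z = 0 := by
  have hd : ¬ c5d x0 z ≤ 2 * n := fun h => hz ((c5_d_le x0 z (2 * n)).1 h)
  have hd2 : 2 * (n : ℤ) + 1 ≤ c5d x0 z := by omega
  have hd' : 2 * (n : ℝ) + 1 ≤ (c5d x0 z : ℝ) := by exact_mod_cast hd2
  have hn' : (0 : ℝ) < n := by exact_mod_cast hn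
  have : (2 * (n : ℝ) + 1 - (c5d x0 z : ℝ)) / n ≤ 0 := by
    apply div_nonpos_of_nonpos_of_nonneg _ hn'.le
    linarith
  rw [c5chi, max_eq_left]
  exact (min_le_right _ _).trans this

theorem c5_lip (a b : ℝ) : |max 0 (min 1 a) - max 0 (min 1 b)| ≤ |a - b| := by
  have h1 : |max 0 (min 1 a) - max 0 (min 1 b)| ≤ |min 1 a - min 1 b| := by
    have := abs_max_sub_max_le_max (0 : ℝ) (min 1 a) 0 (min 1 b)
    simpa using this
  have h2 : |min 1 a - min 1 b| ≤ |a - b| := by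
    have := abs_min_sub_min_le_max (1 : ℝ) a 1 b
    simpa using this
  exact h1.trans h2

theorem c5_d_lip (x0 z e : ℤ × ℤ) (he : |e.1| ≤ 1 ∧ |e.2| ≤ 1) :
    |c5d x0 (z + e) - c5d x0 z| ≤ 1 := by
  obtain ⟨h1, h2⟩ := he
  rw [abs_le] at h1 h2
  unfold c5d
  simp only [Prod.fst_add, Prod.snd_add]
  rw [abs_le]
  constructor
  · rcases abs_cases (z.1 + e.1 - x0.1) with ⟨a1, _⟩ | ⟨a1, _⟩ <;>
    rcases abs_cases (z.2 + e.2 - x0.2) with ⟨a2, _⟩ | ⟨a2, _⟩ <;>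
    rcases abs_cases (z.1 - x0.1) with ⟨a3, _⟩ | ⟨a3, _⟩ <;>
    rcases abs_cases (z.2 - x0.2) with ⟨a4, _⟩ | ⟨a4, _⟩ <;>
    rw [a1, a2, a3, a4] <;> omega
  · rcases abs_cases (z.1 + e.1 - x0.1) with ⟨a1, _⟩ | ⟨a1, _⟩ <;>
    rcases abs_cases (z.2 + e.2 - x0.2) with ⟨a2, _⟩ | ⟨a2, _⟩ <;>
    rcases abs_cases (z.1 - x0.1) with ⟨a3, _⟩ | ⟨a3, _⟩ <;>
    rcases abs_cases (z.2 - x0.2) with ⟨a4, _⟩ | ⟨a4, _⟩ <;>
    rw [a1, a2, a3, a4] <;> omega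

theorem c5_chi_lip (x0 z e : ℤ × ℤ) (n : ℕ) (hn : 1 ≤ n) (he : |e.1| ≤ 1 ∧ |e.2| ≤ 1) :
    |c5chi x0 n (z + e) - c5chi x0 n z| ≤ 1 / n := by
  have hn' : (0 : ℝ) < n := by exact_mod_cast hn
  unfold c5chi
  refine (c5_lip _ _).trans ?_
  rw [← sub_div, abs_div, abs_of_pos hn']
  apply div_le_div_of_nonneg_right _ hn'.le
  have h := c5_d_lip x0 z e he
  have h' : |(c5d x0 (z + e) : ℝ) - (c5d x0 z : ℝ)| ≤ 1 := by exact_mod_cast h
  have : 2 * (n : ℝ) + 1 - (c5d x0 (z + e) : ℝ) - (2 * (n : ℝ) + 1 - (c5d x0 z : ℝ)) =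
    -((c5d x0 (z + e) : ℝ) - (c5d x0 z : ℝ)) := by ring
  rw [this, abs_neg]
  exact h'

/-- shift of a finitely supported function -/
theorem c5_shift (x0 e : ℤ × ℤ) (n : ℕ) (he : |e.1| ≤ 1 ∧ |e.2| ≤ 1) (F : ℤ × ℤ → ℝ)
    (hF : ∀ z, z ∉ ball x0 (2 * n) → F z = 0) :
    ∑ x ∈ ball x0 (2 * n + 1), F (x + e) = ∑ x ∈ ball x0 (2 * n + 1), F x := by
  have h1 : ∑ᶠ x, F (x + e) = ∑ x ∈ ball x0 (2 * n + 1), F (x + e) := by
    apply finsum_eq_sum_of_support_subset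
    intro x hx
    have hx' : x + e ∈ ball x0 (2 * n) := by
      by_contra hc
      exact hx (hF _ hc)
    rw [Finset.mem_coe, c5_mem_ball]
    rw [c5_mem_ball] at hx'
    simp only [Prod.fst_add, Prod.snd_add] at hx'
    obtain ⟨h1, h2⟩ := he
    rw [abs_le] at h1 h2
    omega
  have h2 : ∑ᶠ x, F x = ∑ x ∈ ball x0 (2 * n + 1), F x := by
    apply finsum_eq_sum_of_support_subset
    intro x hx
    have hx' : x ∈ ball x0 (2 * n) := by
      by_contra hc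
      exact hx (hF _ hc)
    rw [Finset.mem_coe, c5_mem_ball]
    rw [c5_mem_ball] at hx'
    omega
  rw [← h1, ← h2]
  exact finsum_comp_equiv (Equiv.addRight e) (f := F)

theorem c5_dir (x0 e : ℤ × ℤ) (n : ℕ) (he : |e.1| ≤ 1 ∧ |e.2| ≤ 1) (g φ : ℤ × ℤ → ℝ)
    (hφ : ∀ z, z ∉ ball x0 (2 * n) → φ z = 0) :
    ∑ x ∈ ball x0 (2 * n + 1), (g (x + e) - g x) * (φ (x + e) - φ x) =
    ∑ x ∈ ball x0 (2 * n + 1), φ x * (2 * g x - g (x - e) - g (x + e)) := by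
  have h := c5_shift x0 e n he (fun x => (g x - g (x - e)) * φ x) (by
    intro z hz
    simp only [hφ z hz, mul_zero])
  simp only [add_sub_cancel_right] at h
  have h1 : ∑ x ∈ ball x0 (2 * n + 1), (g (x + e) - g x) * (φ (x + e) - φ x) =
      ∑ x ∈ ball x0 (2 * n + 1), (g (x + e) - g x) * φ (x + e) -
      ∑ x ∈ ball x0 (2 * n + 1), (g (x + e) - g x) * φ x := by
    rw [← Finset.sum_sub_distrib]
    apply Finset.sum_congr rfl
    intro x _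
    ring
  rw [h1, h, ← Finset.sum_sub_distrib]
  apply Finset.sum_congr rfl
  intro x _
  ring

/-- the error term of one direction -/
theorem c5_err (g : ℤ × ℤ → ℝ) (x0 e : ℤ × ℤ) (n : ℕ) (M : ℝ) (hn : 1 ≤ n)
    (he : |e.1| ≤ 1 ∧ |e.2| ≤ 1) (hg : ∀ z, 0 ≤ g z)
    (hM : ∀ z ∈ ball x0 (2 * n + 1), g z ≤ M) :
    ∑ x ∈ ball x0 (2 * n + 1), g x * g (x + e) * (c5chi x0 n (x + e) - c5chi x0 n x) ^ 2 ≤
      49 * M ^ 2 := by
  have hn' : (0 : ℝ) < n := by exact_mod_cast hn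
  have key : ∀ x ∈ ball x0 (2 * n + 1),
      g x * g (x + e) * (c5chi x0 n (x + e) - c5chi x0 n x) ^ 2 ≤ M ^ 2 / n ^ 2 := by
    intro x hx
    by_cases hxe : x + e ∈ ball x0 (2 * n + 1)
    · have h1 := hM x hx
      have h2 := hM _ hxe
      have h3 : g x * g (x + e) ≤ M ^ 2 := by
        rw [sq]; exact mul_le_mul h1 h2 (hg _) ((hg x).trans h1)
      have h4 : (c5chi x0 n (x + e) - c5chi x0 n x) ^ 2 ≤ (1 / n) ^ 2 := by
        rw [← sq_abs]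
        exact pow_le_pow_left₀ (abs_nonneg _) (c5_chi_lip x0 x e n hn he) 2
      calc _ ≤ M ^ 2 * (1 / n) ^ 2 := mul_le_mul h3 h4 (sq_nonneg _) (sq_nonneg _)
        _ = _ := by field_simp
    · have h1 : x ∉ ball x0 (2 * n) := by
        intro hc
        apply hxe
        rw [c5_mem_ball] at hc ⊢
        simp only [Prod.fst_add, Prod.snd_add]
        obtain ⟨h1, h2⟩ := he
        rw [abs_le] at h1 h2
        omega
      have h2 : x + e ∉ ball x0 (2 * n) := by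
        intro hc
        apply hxe
        rw [c5_mem_ball] at hc ⊢
        omega
      rw [c5_chi_zero x0 x n hn h1, c5_chi_zero x0 (x + e) n hn h2]
      simp only [sub_self, ne_eq, OfNat.ofNat_ne_zero, not_false_eq_true, zero_pow, mul_zero]
      positivity
  refine (Finset.sum_le_card_nsmul _ _ _ key).trans ?_
  have hc : (ball x0 (2 * n + 1)).card = (4 * n + 3) ^ 2 := by
    rw [ball, rect, Finset.card_product, Int.card_Icc, Int.card_Icc, sq]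
    congr 1 <;> omega
  rw [hc, nsmul_eq_mul]
  have h5 : (1 : ℝ) ≤ n := by exact_mod_cast hn
  have h6 : (((4 * n + 3) ^ 2 : ℕ) : ℝ) ≤ 49 * n ^ 2 := by
    push_cast
    nlinarith
  calc (((4 * n + 3) ^ 2 : ℕ) : ℝ) * (M ^ 2 / n ^ 2) ≤ (49 * n ^ 2) * (M ^ 2 / n ^ 2) :=
        mul_le_mul_of_nonneg_right h6 (by positivity)
    _ = 49 * M ^ 2 := by field_simp

theorem c5_id (g χ : ℤ × ℤ → ℝ) (x e : ℤ × ℤ) :
    (χ (x + e) * g (x + e) - χ x * g x) ^ 2 =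
    (g (x + e) - g x) * (χ (x + e) ^ 2 * g (x + e) - χ x ^ 2 * g x) +
      g x * g (x + e) * (χ (x + e) - χ x) ^ 2 := by ring

/-- sum of shifted nonnegative values over the small ball -/
theorem c5_sub (x0 e : ℤ × ℤ) (n : ℕ) (he : |e.1| ≤ 1 ∧ |e.2| ≤ 1) (H : ℤ × ℤ → ℝ)
    (hH : ∀ z, 0 ≤ H z) :
    ∑ x ∈ ball x0 n, H (x - e) ≤ ∑ x ∈ ball x0 (2 * n + 1), H x := by
  have hinj : Function.Injective (fun x : ℤ × ℤ => x - e) := sub_left_injective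
  rw [← Finset.sum_image (s := ball x0 n) (g := fun x => x - e) (f := H)
    (fun a _ b _ h => hinj h)]
  apply Finset.sum_le_sum_of_subset_of_nonneg
  · intro z hz
    rw [Finset.mem_image] at hz
    obtain ⟨x, hx, rfl⟩ := hz
    rw [c5_mem_ball] at hx ⊢
    simp only [Prod.fst_sub, Prod.snd_sub]
    obtain ⟨h1, h2⟩ := he
    rw [abs_le] at h1 h2
    omega
  · intro z _ _; exact hH z

theorem _root_.H941.caccioppoli : ∃ C : ℝ, 0 < C ∧ ∀ (g : ℤ × ℤ → ℝ) (x0 : ℤ × ℤ) (n : ℕ) (M : ℝ), 1 ≤ n → (∀ z, 0 ≤ g z) →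
    (∀ z ∈ ball x0 (2 * n), g z ≤ (1 / 4) * ∑ z' ∈ nbrs z, g z') → (∀ z ∈ ball x0 (2 * n + 1), g z ≤ M) →
    ∑ x ∈ ball x0 n, en g x ≤ C * M ^ 2 := by
  refine ⟨196, by norm_num, ?_⟩
  intro g x0 n M hn hg hsub hM
  set χ : ℤ × ℤ → ℝ := c5chi x0 n with hχ
  set φ : ℤ × ℤ → ℝ := fun x => χ x ^ 2 * g x with hφ
  have hφ0 : ∀ z, z ∉ ball x0 (2 * n) → φ z = 0 := by
    intro z hz
    rw [hφ]
    simp only [hχ, c5_chi_zero x0 z n hn hz]
    ring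
  have he1 : |((1, 0) : ℤ × ℤ).1| ≤ 1 ∧ |((1, 0) : ℤ × ℤ).2| ≤ 1 := by simp
  have he2 : |((0, 1) : ℤ × ℤ).1| ≤ 1 ∧ |((0, 1) : ℤ × ℤ).2| ≤ 1 := by simp
  set H : ℤ × ℤ → ℤ × ℤ → ℝ := fun e x => (χ (x + e) * g (x + e) - χ x * g x) ^ 2 with hH
  have hdir : ∀ e : ℤ × ℤ, (|e.1| ≤ 1 ∧ |e.2| ≤ 1) → ∑ x ∈ ball x0 (2 * n + 1), H e x ≤
      ∑ x ∈ ball x0 (2 * n + 1), φ x * (2 * g x - g (x - e) - g (x + e)) + 49 * M ^ 2 := by
    intro e he
    rw [← c5_dir x0 e n he g φ hφ0]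
    have h1 := c5_err g x0 e n M hn he hg hM
    have h2 : ∑ x ∈ ball x0 (2 * n + 1), H e x =
        ∑ x ∈ ball x0 (2 * n + 1), (g (x + e) - g x) * (φ (x + e) - φ x) +
        ∑ x ∈ ball x0 (2 * n + 1),
          g x * g (x + e) * (c5chi x0 n (x + e) - c5chi x0 n x) ^ 2 := by
      rw [← Finset.sum_add_distrib]
      apply Finset.sum_congr rfl
      intro x _
      exact c5_id g χ x e
    rw [h2]
    linarith
  have hneg : ∑ x ∈ ball x0 (2 * n + 1), φ x * (2 * g x - g (x - (1, 0)) - g (x + (1, 0))) +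
      ∑ x ∈ ball x0 (2 * n + 1), φ x * (2 * g x - g (x - (0, 1)) - g (x + (0, 1))) ≤ 0 := by
    rw [← Finset.sum_add_distrib]
    apply Finset.sum_nonpos
    intro x _
    by_cases hx : x ∈ ball x0 (2 * n)
    · have h1 := hsub x hx
      rw [c5_nbrs] at h1
      have h2 : 0 ≤ φ x := mul_nonneg (sq_nonneg _) (hg x)
      nlinarith
    · rw [hφ0 x hx]; simp
  have hsum : ∑ x ∈ ball x0 (2 * n + 1), H (1, 0) x + ∑ x ∈ ball x0 (2 * n + 1), H (0, 1) x ≤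
      98 * M ^ 2 := by
    have h1 := hdir (1, 0) he1
    have h2 := hdir (0, 1) he2
    linarith
  have hHnn : ∀ e x, 0 ≤ H e x := fun e x => sq_nonneg _
  have hen : ∀ x ∈ ball x0 n, en g x = H (1, 0) x + H (1, 0) (x - (1, 0)) + H (0, 1) x +
      H (0, 1) (x - (0, 1)) := by
    intro x hx
    rw [c5_mem_ball] at hx
    have hc : ∀ z : ℤ × ℤ, (|z.1 - x.1| ≤ 1 ∧ |z.2 - x.2| ≤ 1) → χ z = 1 := by
      intro z hz
      apply c5_chi_one x0 z n hn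
      rw [c5_mem_ball]
      obtain ⟨h1, h2⟩ := hz
      rw [abs_le] at h1 h2
      omega
    have c0 : χ x = 1 := hc x (by simp)
    have c1 : χ (x + (1, 0)) = 1 := hc _ (by simp)
    have c2 : χ (x - (1, 0)) = 1 := hc _ (by simp)
    have c3 : χ (x + (0, 1)) = 1 := hc _ (by simp)
    have c4 : χ (x - (0, 1)) = 1 := hc _ (by simp)
    rw [en, c5_nbrs (fun y => (g x - g y) ^ 2) x]
    simp only [hH, sub_add_cancel, c0, c1, c2, c3, c4]
    ring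
  rw [Finset.sum_congr rfl hen]
  simp only [Finset.sum_add_distrib]
  have s1 := c5_sub x0 (1, 0) n he1 (H (1, 0)) (hHnn _)
  have s2 := c5_sub x0 (0, 1) n he2 (H (0, 1)) (hHnn _)
  have s3 := c5_sub x0 0 n (by simp) (H (1, 0)) (hHnn _)
  have s4 := c5_sub x0 0 n (by simp) (H (0, 1)) (hHnn _)
  simp only [sub_zero] at s3 s4
  linarith

end H941.caccioppoli
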