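import Pool.Agent.KS6_63.GFF.Defs4
import Pool.Agent.KS6_63.GFF.A3
import Pool.Agent.KS6_63.GFF.C.beurling_
import Pool.Agent.KS6_63.GFF.C.trunc_energy_

open MeasureTheory ProbabilityTheory

namespace H941.box_slice

theorem mem_ball {x z : ℤ × ℤ} {r : ℤ} : z ∈ ball x r ↔
    (x.1 - r ≤ z.1 ∧ z.1 ≤ x.1 + r) ∧ (x.2 - r ≤ z.2 ∧ z.2 ≤ x.2 + r) := by
  unfold ball rect
  rw [Finset.mem_product, Finset.mem_Icc, Finset.mem_Icc]

theorem mem_nbrs_iff {u y : ℤ × ℤ} : y ∈ nbrs u ↔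
    y = (u.1 + 1, u.2) ∨ y = (u.1 - 1, u.2) ∨ y = (u.1, u.2 + 1) ∨ y = (u.1, u.2 - 1) := by
  unfold nbrs
  simp only [Finset.mem_insert, Finset.mem_singleton]

theorem nbrs_near {u y : ℤ × ℤ} (h : y ∈ nbrs u) : |y.1 - u.1| ≤ 1 ∧ |y.2 - u.2| ≤ 1 := by
  rcases mem_nbrs_iff.1 h with h | h | h | h <;> subst h <;> constructor <;> simp

theorem card_nbrs_le (u : ℤ × ℤ) : (nbrs u).card ≤ 4 := by
  unfold nbrs
  exact Finset.card_le_four

theorem gp_nonneg' (E Q : Finset (ℤ × ℤ)) (ρ : ℤ × ℤ → ℝ) (hρ : ∀ z, 0 ≤ ρ z) (x : ℤ × ℤ) :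
    0 ≤ gp E Q ρ x :=
  Finset.sum_nonneg fun z _ => mul_nonneg (hρ z) ((green_basic E).1 z x)

theorem gp_zero' (E Q : Finset (ℤ × ℤ)) (ρ : ℤ × ℤ → ℝ) (x : ℤ × ℤ) (hx : x ∉ E) :
    gp E Q ρ x = 0 :=
  Finset.sum_eq_zero fun z _ => by rw [(green_basic E).2.1 z x (Or.inr hx), mul_zero]

theorem gp_harm' (E Q : Finset (ℤ × ℤ)) (ρ : ℤ × ℤ → ℝ) (x : ℤ × ℤ) (hx : x ∈ E) (hxQ : x ∉ Q) :
    gp E Q ρ x = (1 / 4) * ∑ y ∈ nbrs x, gp E Q ρ y := by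
  obtain ⟨_, _, hsym, _, heq, _⟩ := green_basic E
  unfold gp
  rw [Finset.sum_comm, Finset.mul_sum]
  refine Finset.sum_congr rfl fun z hz => ?_
  have hne : x ≠ z := fun h => hxQ (h ▸ hz)
  rw [hsym z x, heq x hx z, if_neg hne, zero_add, ← Finset.mul_sum]
  have : ∑ y ∈ nbrs x, green E z y = ∑ y ∈ nbrs x, green E y z :=
    Finset.sum_congr rfl fun y _ => hsym z y
  rw [this]; ring

/-- one class -/
theorem class_bound (S : Finset (ℤ × ℤ)) (g F : ℤ × ℤ → ℝ) (r : ℕ) (hr : 1 ≤ r) (h M A κc : ℝ) (N : ℝ)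
    (hg0 : ∀ z, 0 ≤ g z) (h0 : 0 ≤ h) (hgu : ∀ u ∈ S, g u ≤ h)
    (hen : ∑ u ∈ S, ∑ y ∈ nbrs u, (g y - g u) ^ 2 ≤ A)
    (hcard : (S.card : ℝ) ≤ (7 * r) ^ 2)
    (hN : ∑ u ∈ S, (F u) ^ 2 ≤ N) :
    ∑ u ∈ S, |F u| * (g u / (r : ℝ) ^ 2 + (1 / (r : ℝ)) * ∑ y ∈ nbrs u, |g y - g u|) ≤
      (7 * h + 2 * Real.sqrt A) * Real.sqrt ((1 / (r : ℝ) ^ 2) * N) := by
  have hrpos : (0 : ℝ) < r := by exact_mod_cast hr
  have hN0 : 0 ≤ N := le_trans (Finset.sum_nonneg fun _ _ => sq_nonneg _) hN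
  have hA0 : 0 ≤ A := le_trans (Finset.sum_nonneg fun _ _ => Finset.sum_nonneg fun _ _ => sq_nonneg _) hen
  have hsN : Real.sqrt ((1 / (r : ℝ) ^ 2) * N) = (1 / r) * Real.sqrt N := by
    rw [Real.sqrt_mul (by positivity)]
    congr 1
    rw [show (1 : ℝ) / (r : ℝ) ^ 2 = (1 / r) ^ 2 by ring, Real.sqrt_sq (by positivity)]
  have hsplit : ∑ u ∈ S, |F u| * (g u / (r : ℝ) ^ 2 + (1 / (r : ℝ)) * ∑ y ∈ nbrs u, |g y - g u|) =
      (1 / (r : ℝ) ^ 2) * (∑ u ∈ S, |F u| * g u) +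
        (1 / r) * ∑ u ∈ S, |F u| * ∑ y ∈ nbrs u, |g y - g u| := by
    rw [Finset.mul_sum, Finset.mul_sum, ← Finset.sum_add_distrib]
    refine Finset.sum_congr rfl fun u _ => ?_
    ring
  have hF2 : Real.sqrt (∑ u ∈ S, |F u| ^ 2) ≤ Real.sqrt N := by
    apply Real.sqrt_le_sqrt
    simpa [sq_abs] using hN
  have hB : ∑ u ∈ S, |F u| * g u ≤ Real.sqrt N * (7 * r * h) := by
    refine le_trans (Finset.sum_le_sum fun u hu =>
      mul_le_mul_of_nonneg_left (hgu u hu) (abs_nonneg _)) ?_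
    refine le_trans (Real.sum_mul_le_sqrt_mul_sqrt S (fun u => |F u|) (fun _ => h)) ?_
    refine mul_le_mul hF2 ?_ (Real.sqrt_nonneg _) (Real.sqrt_nonneg _)
    rw [Finset.sum_const, nsmul_eq_mul]
    refine Real.sqrt_le_iff.2 ⟨by positivity, ?_⟩
    calc (S.card : ℝ) * h ^ 2 ≤ (7 * r) ^ 2 * h ^ 2 := by gcongr
      _ = (7 * r * h) ^ 2 := by ring
  have hAA : ∑ u ∈ S, |F u| * ∑ y ∈ nbrs u, |g y - g u| ≤ Real.sqrt N * (2 * Real.sqrt A) := by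
    refine le_trans (Real.sum_mul_le_sqrt_mul_sqrt S (fun u => |F u|)
      (fun u => ∑ y ∈ nbrs u, |g y - g u|)) ?_
    refine mul_le_mul hF2 ?_ (Real.sqrt_nonneg _) (Real.sqrt_nonneg _)
    refine Real.sqrt_le_iff.2 ⟨by positivity, ?_⟩
    rw [mul_pow, Real.sq_sqrt hA0]
    calc ∑ u ∈ S, (∑ y ∈ nbrs u, |g y - g u|) ^ 2
        ≤ ∑ u ∈ S, 4 * ∑ y ∈ nbrs u, (g y - g u) ^ 2 := by
          refine Finset.sum_le_sum fun u _ => ?_
          refine le_trans sq_sum_le_card_mul_sum_sq ?_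
          simp only [sq_abs]
          refine mul_le_mul_of_nonneg_right ?_ (Finset.sum_nonneg fun _ _ => sq_nonneg _)
          exact_mod_cast card_nbrs_le u
      _ = 4 * ∑ u ∈ S, ∑ y ∈ nbrs u, (g y - g u) ^ 2 := by rw [Finset.mul_sum]
      _ ≤ 2 ^ 2 * A := by nlinarith
  rw [hsplit, hsN]
  calc (1 / (r : ℝ) ^ 2) * (∑ u ∈ S, |F u| * g u) +
        (1 / r) * ∑ u ∈ S, |F u| * ∑ y ∈ nbrs u, |g y - g u|
      ≤ (1 / (r : ℝ) ^ 2) * (Real.sqrt N * (7 * r * h)) +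
        (1 / r) * (Real.sqrt N * (2 * Real.sqrt A)) := by gcongr
    _ = (7 * h + 2 * Real.sqrt A) * ((1 / r) * Real.sqrt N) := by
        field_simp

theorem _root_.H941.box_slice : ∃ C kappa : ℝ, 0 < C ∧ 0 < kappa ∧ kappa ≤ 1 ∧ ∀ (D K Q : Finset (ℤ × ℤ)) (ρ F : ℤ × ℤ → ℝ) (c : ℤ × ℤ)
    (r : ℕ) (M : ℝ), 1 ≤ r → (∀ z, 0 ≤ ρ z) → Disjoint (ball c (32 * r)) Q →
    (∀ z ∈ ball c (32 * r + 1), gp (D \ K) Q ρ z ≤ M) →
    (∀ a ∈ ball c (8 * r), a ∉ D \ K → ∃ b : ℤ × ℤ, ((r : ℤ) ≤ |b.1 - a.1| ∨ (r : ℤ) ≤ |b.2 - a.2|) ∧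
      ∃ p : grid.Walk a b, ∀ z ∈ p.support, z ∉ D \ K) →
    ∑ u ∈ (D \ K).filter (fun u => u ∈ ball c (2 * r + 1)), |F u| *
        (gp (D \ K) Q ρ u / (r : ℝ) ^ 2 + (1 / (r : ℝ)) * ∑ y ∈ nbrs u, |gp (D \ K) Q ρ y - gp (D \ K) Q ρ u|) ≤
      C * M * ∑ l ∈ Finset.range (Nat.log 2 r + 2), (2 : ℝ) ^ (-(kappa * l)) *
        Real.sqrt ((1 / (r : ℝ) ^ 2) * ∑ u ∈ (ball c (2 * r + 1)).filter
          (fun u => ball u ((r / 2 ^ (l + 1) : ℕ) : ℤ) ⊆ D \ K), (F u) ^ 2) := by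
  classical
  obtain ⟨CB, c0, hCB, hc0, hc01, HB⟩ := beurling
  obtain ⟨CT, hCT, HT⟩ := trunc_energy
  obtain ⟨C', hC'⟩ : ∃ C' : ℝ, C' = max 1 (2 ^ c0 * CB) := ⟨_, rfl⟩
  have hC'1 : 1 ≤ C' := by rw [hC']; exact le_max_left _ _
  have hC'2 : 2 ^ c0 * CB ≤ C' := by rw [hC']; exact le_max_right _ _
  have hC'0 : 0 < C' := lt_of_lt_of_le one_pos hC'1
  refine ⟨7 * C' + 2 * Real.sqrt (CT * C'), c0 / 2, by positivity, by positivity, by linarith, ?_⟩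
  intro D K Q ρ F c r M hr hρ hdisj hM hconn
  generalize hE : D \ K = E at *
  obtain ⟨g, hg⟩ : ∃ g, g = gp E Q ρ := ⟨_, rfl⟩
  rw [← hg] at hM ⊢
  have hg0 : ∀ z, 0 ≤ g z := fun z => by rw [hg]; exact gp_nonneg' E Q ρ hρ z
  have hgZ : ∀ z, z ∉ E → g z = 0 := fun z hz => by rw [hg]; exact gp_zero' E Q ρ z hz
  have hharm : ∀ z, z ∈ E → z ∉ Q → g z = (1 / 4) * ∑ z' ∈ nbrs z, g z' := fun z hz hzQ => by
    rw [hg]; exact gp_harm' E Q ρ z hz hzQ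
  have hsub : ∀ z, z ∉ Q → g z ≤ (1 / 4) * ∑ z' ∈ nbrs z, g z' := fun z hzQ => by
    by_cases hz : z ∈ E
    · exact (hharm z hz hzQ).le
    · rw [hgZ z hz]
      exact mul_nonneg (by norm_num) (Finset.sum_nonneg fun y _ => hg0 y)
  have hrZ : (1 : ℤ) ≤ r := by exact_mod_cast hr
  have hrpos : (0 : ℝ) < r := by exact_mod_cast hr
  have hnQ : ∀ z, z ∈ ball c (32 * r) → z ∉ Q := fun z hz hzQ =>
    (Finset.disjoint_left.1 hdisj hz) hzQ
  have hM0 : 0 ≤ M := le_trans (hg0 c) (hM c (mem_ball.2 (by constructor <;> constructor <;> linarith)))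
  have hmono : ∀ (a b : ℤ) (z : ℤ × ℤ), a ≤ b → z ∈ ball c a → z ∈ ball c b := fun a b z hab hz => by
    obtain ⟨⟨h1, h2⟩, h3, h4⟩ := mem_ball.1 hz
    exact mem_ball.2 ⟨⟨by linarith, by linarith⟩, by linarith, by linarith⟩
  -- Beurling
  have HB' := HB g {z | z ∉ E} c r M hr hg0 (fun z hz => hgZ z hz)
    (fun z hz => hsub z (hnQ z hz)) hM (fun a ha hab => hconn a hab ha)
  -- classes
  have hself : ∀ u ∈ E, ball u 0 ⊆ E := fun u hu z hz => by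
    obtain ⟨⟨h1, h2⟩, h3, h4⟩ := mem_ball.1 hz
    have e1 : z.1 = u.1 := by linarith
    have e2 : z.2 = u.2 := by linarith
    have : z = u := Prod.ext e1 e2
    rw [this]; exact hu
  have hlast : ∀ u ∈ E, ball u ((r / 2 ^ (Nat.log 2 r + 1) : ℕ) : ℤ) ⊆ E := fun u hu => by
    have : r / 2 ^ (Nat.log 2 r + 1) = 0 :=
      Nat.div_eq_of_lt (Nat.lt_pow_succ_log_self (by norm_num) r)
    rw [this]; exact_mod_cast hself u hu
  have hex : ∀ u ∈ E, ∃ l, ball u ((r / 2 ^ (l + 1) : ℕ) : ℤ) ⊆ E := fun u hu => ⟨_, hlast u hu⟩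
  obtain ⟨cls, hcls⟩ : ∃ cls : ℤ × ℤ → ℕ, ∀ u ∈ E, ball u ((r / 2 ^ (cls u + 1) : ℕ) : ℤ) ⊆ E ∧
      cls u < Nat.log 2 r + 2 ∧ ∀ m < cls u, ¬ ball u ((r / 2 ^ (m + 1) : ℕ) : ℤ) ⊆ E := by
    refine ⟨fun u => if h : ∃ l, ball u ((r / 2 ^ (l + 1) : ℕ) : ℤ) ⊆ E then Nat.find h else 0, ?_⟩
    intro u hu
    have h := hex u hu
    simp only [dif_pos h]
    refine ⟨Nat.find_spec h, ?_, fun m hm => Nat.find_min h hm⟩
    have := Nat.find_min' h (hlast u hu)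
    omega
  obtain ⟨hh, hhh⟩ : ∃ hh : ℕ → ℝ, ∀ l, hh l = C' * (2 : ℝ) ^ (-(c0 * l)) * M := ⟨_, fun _ => rfl⟩
  have hh0 : ∀ l, 0 ≤ hh l := fun l => by rw [hhh]; positivity
  have hnear : ∀ u ∈ E, u ∈ ball c (2 * r + 1) → ∀ y, |y.1 - u.1| ≤ 1 → |y.2 - u.2| ≤ 1 →
      g y ≤ hh (cls u) := by
    intro u hu hub y hy1 hy2
    obtain ⟨hb1, hb2⟩ := mem_ball.1 hub
    obtain ⟨a1, a2⟩ := abs_le.1 hy1
    obtain ⟨a3, a4⟩ := abs_le.1 hy2
    obtain ⟨hc1, hc2, hc3⟩ := hcls u hu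
    rw [hhh]
    rcases Nat.eq_zero_or_pos (cls u) with h0 | h0
    · rw [h0]
      simp only [Nat.cast_zero, mul_zero, neg_zero, Real.rpow_zero, mul_one]
      have : g y ≤ M := hM y (mem_ball.2 (by constructor <;> constructor <;> linarith))
      nlinarith
    · obtain ⟨l, hl⟩ : ∃ l : ℕ, cls u = l + 1 := ⟨cls u - 1, (Nat.succ_pred_eq_of_pos h0).symm⟩
      have hnot := hc3 l (by rw [hl]; exact Nat.lt_succ_self l)
      obtain ⟨a, hab, haE⟩ := Finset.not_subset.1 hnot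
      rw [hl]
      set d : ℕ := r / 2 ^ (l + 1) with hd
      have hd1 : 1 ≤ d := by
        by_contra hcon
        have hd0 : d = 0 := Nat.lt_one_iff.1 (not_le.1 hcon)
        apply haE
        apply hself u hu
        rw [hd0] at hab
        exact_mod_cast hab
      obtain ⟨⟨b1, b2⟩, b3, b4⟩ := mem_ball.1 hab
      have hdZ : (1 : ℤ) ≤ d := by exact_mod_cast hd1
      have h2d : 2 * d ≤ r := by
        have : d ≤ r / 2 := by
          rw [hd, pow_succ']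
          rw [← Nat.div_div_eq_div_mul]
          exact Nat.div_le_self _ _
        omega
      have key := HB' y (mem_ball.2 (by constructor <;> constructor <;> linarith)) a haE (2 * d) (by omega) h2d
        (by push_cast; rw [abs_le]; constructor <;> linarith)
        (by push_cast; rw [abs_le]; constructor <;> linarith)
      refine le_trans key ?_
      have hdr : (d : ℝ) ≤ r / 2 ^ (l + 1) := by
        rw [hd]
        have := @Nat.cast_div_le ℝ _ _ _ r (2 ^ (l + 1))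
        push_cast at this
        exact this
      have h3 : ((2 * d : ℕ) : ℝ) / r ≤ (2 : ℝ) ^ (1 - ((l : ℝ) + 1)) := by
        rw [Real.rpow_sub (by norm_num), Real.rpow_one]
        have e : (2 : ℝ) ^ ((l : ℝ) + 1) = 2 ^ (l + 1) := by
          rw [← Real.rpow_natCast]; push_cast; rfl
        rw [e, div_le_div_iff₀ hrpos (by positivity)]
        push_cast
        rw [le_div_iff₀ (by positivity)] at hdr
        linarith
      have h4 : (((2 * d : ℕ) : ℝ) / r) ^ c0 ≤ 2 ^ c0 * (2 : ℝ) ^ (-(c0 * ((l : ℝ) + 1))) := by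
        refine le_trans (Real.rpow_le_rpow (by positivity) h3 hc0.le) ?_
        rw [← Real.rpow_mul (by norm_num), ← Real.rpow_add (by norm_num)]
        refine le_of_eq ?_
        congr 1
        ring
      push_cast at h4 ⊢
      calc CB * (2 * (d : ℝ) / r) ^ c0 * M
          ≤ CB * (2 ^ c0 * (2 : ℝ) ^ (-(c0 * ((l : ℝ) + 1)))) * M := by gcongr
        _ = (2 ^ c0 * CB) * (2 : ℝ) ^ (-(c0 * ((l : ℝ) + 1))) * M := by ring
        _ ≤ C' * (2 : ℝ) ^ (-(c0 * ((l : ℝ) + 1))) * M := by gcongr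
  -- decomposition
  set S := E.filter (fun u => u ∈ ball c (2 * r + 1)) with hS
  have hSE : ∀ u ∈ S, u ∈ E := fun u hu => (Finset.mem_filter.1 hu).1
  have hSb : ∀ u ∈ S, u ∈ ball c (2 * r + 1) := fun u hu => (Finset.mem_filter.1 hu).2
  have hmaps : ∀ u ∈ S, cls u ∈ Finset.range (Nat.log 2 r + 2) := fun u hu =>
    Finset.mem_range.2 (hcls u (hSE u hu)).2.1
  rw [← Finset.sum_fiberwise_of_maps_to hmaps, Finset.mul_sum]
  refine Finset.sum_le_sum fun l _ => ?_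
  set Sl := S.filter (fun u => cls u = l) with hSl
  have hSlS : ∀ u ∈ Sl, u ∈ S := fun u hu => (Finset.mem_filter.1 hu).1
  have hSlc : ∀ u ∈ Sl, cls u = l := fun u hu => (Finset.mem_filter.1 hu).2
  have hgy : ∀ u ∈ Sl, ∀ y, |y.1 - u.1| ≤ 1 → |y.2 - u.2| ≤ 1 → g y ≤ hh l := fun u hu y h1 h2 => by
    have := hnear u (hSE u (hSlS u hu)) (hSb u (hSlS u hu)) y h1 h2
    rwa [hSlc u hu] at this
  have hgu : ∀ u ∈ Sl, g u ≤ hh l := fun u hu => hgy u hu u (by simp) (by simp)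
  have HT' := HT g {z | z ∉ E} c (3 * r) M (hh l) (by omega) (hh0 l) hg0 (fun z hz => hgZ z hz)
    (fun z hz hzE => hharm z (not_not.1 hzE) (hnQ z (hmono _ _ z (by push_cast; linarith) hz)))
    (fun z hz => hM z (hmono _ _ z (by push_cast; linarith) hz))
  have hSlsub : Sl ⊆ ball c ((3 * r : ℕ) : ℤ) := fun u hu =>
    hmono _ _ u (by push_cast; linarith) (hSb u (hSlS u hu))
  have hen : ∑ u ∈ Sl, ∑ y ∈ nbrs u, (g y - g u) ^ 2 ≤ CT * hh l * M := by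
    refine le_trans ?_ HT'
    calc ∑ u ∈ Sl, ∑ y ∈ nbrs u, (g y - g u) ^ 2
        = ∑ u ∈ Sl, ∑ y ∈ nbrs u, (min (g u) (hh l) - min (g y) (hh l)) ^ 2 := by
          refine Finset.sum_congr rfl fun u hu => Finset.sum_congr rfl fun y hy => ?_
          obtain ⟨h1, h2⟩ := nbrs_near hy
          rw [min_eq_left (hgu u hu), min_eq_left (hgy u hu y h1 h2)]
          ring
      _ ≤ _ := Finset.sum_le_sum_of_subset_of_nonneg hSlsub
          (fun u _ _ => Finset.sum_nonneg fun _ _ => sq_nonneg _)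
  have hcard : (Sl.card : ℝ) ≤ (7 * r) ^ 2 := by
    have h1 : Sl.card ≤ (ball c (2 * r + 1)).card :=
      Finset.card_le_card fun u hu => hSb u (hSlS u hu)
    have h2 : (ball c (2 * (r : ℤ) + 1)).card = (4 * r + 3) ^ 2 := by
      unfold ball rect
      rw [Finset.card_product, Int.card_Icc, Int.card_Icc]
      have e1 : (c.1 + (2 * (r : ℤ) + 1) + 1 - (c.1 - (2 * (r : ℤ) + 1))).toNat = 4 * r + 3 := by
        omega
      have e2 : (c.2 + (2 * (r : ℤ) + 1) + 1 - (c.2 - (2 * (r : ℤ) + 1))).toNat = 4 * r + 3 := by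
        omega
      rw [e1, e2]; ring
    rw [h2] at h1
    have h3 : (4 * r + 3) ^ 2 ≤ (7 * r) ^ 2 := Nat.pow_le_pow_left (by omega) 2
    exact_mod_cast le_trans h1 h3
  have hN : ∑ u ∈ Sl, (F u) ^ 2 ≤ ∑ u ∈ (ball c (2 * r + 1)).filter
          (fun u => ball u ((r / 2 ^ (l + 1) : ℕ) : ℤ) ⊆ E), (F u) ^ 2 := by
    refine Finset.sum_le_sum_of_subset_of_nonneg (fun u hu => ?_) (fun _ _ _ => sq_nonneg _)
    refine Finset.mem_filter.2 ⟨hSb u (hSlS u hu), ?_⟩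
    have := (hcls u (hSE u (hSlS u hu))).1
    rwa [hSlc u hu] at this
  refine le_trans (class_bound Sl g F r hr (hh l) M (CT * hh l * M) 0 _ hg0 (hh0 l) hgu hen hcard hN) ?_
  rw [← mul_assoc]
  refine mul_le_mul_of_nonneg_right ?_ (Real.sqrt_nonneg _)
  have hx : (2 : ℝ) ^ (-(c0 * (l : ℝ))) = ((2 : ℝ) ^ (-(c0 / 2 * (l : ℝ)))) ^ 2 := by
    rw [← Real.rpow_natCast, ← Real.rpow_mul (by norm_num)]
    congr 1
    push_cast
    ring
  obtain ⟨t, ht⟩ : ∃ t : ℝ, t = (2 : ℝ) ^ (-(c0 / 2 * (l : ℝ))) := ⟨_, rfl⟩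
  have ht0 : 0 < t := by rw [ht]; positivity
  have ht1 : t ≤ 1 := by
    rw [ht]
    apply Real.rpow_le_one_of_one_le_of_nonpos (by norm_num)
    have : 0 ≤ c0 / 2 * (l : ℝ) := by positivity
    linarith
  have hsq : Real.sqrt (CT * hh l * M) = Real.sqrt (CT * C') * t * M := by
    rw [hhh, hx, ← ht, show CT * (C' * t ^ 2 * M) * M = (CT * C') * (t * M) ^ 2 by ring,
      Real.sqrt_mul (by positivity), Real.sqrt_sq (by positivity)]
    ring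
  rw [hsq, hhh, hx, ← ht]
  have h1 : C' * t ^ 2 * M ≤ C' * t * M := by
    have : t ^ 2 ≤ t := by nlinarith
    gcongr
  calc 7 * (C' * t ^ 2 * M) + 2 * (Real.sqrt (CT * C') * t * M)
      ≤ 7 * (C' * t * M) + 2 * (Real.sqrt (CT * C') * t * M) := by linarith
    _ = (7 * C' + 2 * Real.sqrt (CT * C')) * M * t := by ring

end H941.box_slice
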