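import Pool.Agent.KS6_63.GFF.Defs4
import Pool.Agent.KS6_63.GFF.A3
import Pool.Agent.KS6_63.GFF.B.expl_disconnect_
import Pool.Agent.KS6_63.GFF.B.expl_facts_
import Pool.Agent.KS6_63.GFF.C.contour_ineq_
import Pool.Agent.KS6_63.GFF.C.prod_cut_
import Pool.Agent.KS6_63.GFF.C.slice_bound_

open MeasureTheory ProbabilityTheory

namespace H941.det_front

theorem th_mem (r t : ℝ) : 0 ≤ th r t ∧ th r t ≤ 1 := by
  unfold th
  set m := max 0 (min 1 ((|t| - r) / r)) with hm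
  have h0 : 0 ≤ m := le_max_left _ _
  have h1 : m ≤ 1 := max_le zero_le_one (min_le_left _ _)
  have h2 : m ^ 2 ≤ 1 := by nlinarith
  have h3 : 0 ≤ m ^ 2 := sq_nonneg m
  constructor
  · positivity
  · nlinarith

theorem th_one {r t : ℝ} (hr : 0 < r) (h : |t| ≤ r) : th r t = 1 := by
  unfold th
  have h1 : (|t| - r) / r ≤ 0 := div_nonpos_of_nonpos_of_nonneg (by linarith) hr.le
  have h2 : max 0 (min 1 ((|t| - r) / r)) = 0 := by
    apply max_eq_left
    exact le_trans (min_le_right _ _) h1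
  rw [h2]; norm_num

theorem th_zero {r t : ℝ} (hr : 0 < r) (h : 2 * r ≤ |t|) : th r t = 0 := by
  unfold th
  have h1 : 1 ≤ (|t| - r) / r := by
    rw [le_div_iff₀ hr]; linarith
  have h2 : max 0 (min 1 ((|t| - r) / r)) = 1 := by
    rw [min_eq_left h1]
    exact max_eq_right zero_le_one
  rw [h2]; norm_num

theorem chi_mem (c : ℤ × ℤ) (r : ℕ) (z : ℤ × ℤ) : 0 ≤ chi c r z ∧ chi c r z ≤ 1 := by
  unfold chi
  obtain ⟨a0, a1⟩ := th_mem (r : ℝ) ((z.1 : ℝ) - c.1)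
  obtain ⟨b0, b1⟩ := th_mem (r : ℝ) ((z.2 : ℝ) - c.2)
  constructor
  · positivity
  · nlinarith

theorem mem_ball {x z : ℤ × ℤ} {r : ℤ} : z ∈ ball x r ↔ |z.1 - x.1| ≤ r ∧ |z.2 - x.2| ≤ r := by
  unfold ball rect
  simp only [Finset.mem_product, Finset.mem_Icc, abs_le]
  constructor
  · rintro ⟨⟨h1, h2⟩, h3, h4⟩
    exact ⟨⟨by linarith, by linarith⟩, by linarith, by linarith⟩
  · rintro ⟨⟨h1, h2⟩, h3, h4⟩
    exact ⟨⟨by linarith, by linarith⟩, by linarith, by linarith⟩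

theorem chi_one {c : ℤ × ℤ} {r : ℕ} (hr : 1 ≤ r) {z : ℤ × ℤ} (h : z ∈ ball c r) : chi c r z = 1 := by
  rw [mem_ball] at h
  have hr' : (0 : ℝ) < r := by exact_mod_cast hr
  unfold chi
  rw [th_one hr', th_one hr', one_mul]
  · have := h.2
    exact_mod_cast this
  · have := h.1
    exact_mod_cast this

theorem chi_zero {c : ℤ × ℤ} {r : ℕ} (hr : 1 ≤ r) {z : ℤ × ℤ} (h : z ∉ ball c (2 * r + 1)) : chi c r z = 0 := by
  rw [mem_ball, not_and_or, not_le, not_le] at h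
  have hr' : (0 : ℝ) < r := by exact_mod_cast hr
  unfold chi
  rcases h with h | h
  · rw [th_zero hr', zero_mul]
    have h' : (2 : ℤ) * r ≤ |z.1 - c.1| := by omega
    have : ((2 * r : ℤ) : ℝ) ≤ ((|z.1 - c.1| : ℤ) : ℝ) := by exact_mod_cast h'
    push_cast at this
    exact this
  · rw [th_zero hr' (t := ((z.2 : ℝ) - c.2)), mul_zero]
    have h' : (2 : ℤ) * r ≤ |z.2 - c.2| := by omega
    have : ((2 * r : ℤ) : ℝ) ≤ ((|z.2 - c.2| : ℤ) : ℝ) := by exact_mod_cast h'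
    push_cast at this
    exact this

theorem mem_nbrs {u v : ℤ × ℤ} : v ∈ nbrs u ↔ |v.1 - u.1| + |v.2 - u.2| = 1 := by
  unfold nbrs
  obtain ⟨a, b⟩ := u
  obtain ⟨c, e⟩ := v
  simp only [Finset.mem_insert, Finset.mem_singleton, Prod.mk.injEq]
  constructor
  · rintro (⟨rfl, rfl⟩ | ⟨rfl, rfl⟩ | ⟨rfl, rfl⟩ | ⟨rfl, rfl⟩) <;> simp
  · intro h
    rcases abs_cases (c - a) with ⟨h1, _⟩ | ⟨h1, _⟩ <;> rcases abs_cases (e - b) with ⟨h2, _⟩ | ⟨h2, _⟩ <;>
      rw [h1, h2] at h <;> omega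

theorem nbrs_symm {u v : ℤ × ℤ} (h : v ∈ nbrs u) : u ∈ nbrs v := by
  rw [mem_nbrs] at *
  rw [abs_sub_comm u.1, abs_sub_comm u.2]
  exact h

theorem prod_one {I : Finset ((ℤ × ℤ) × ℕ)} (hI : ∀ i ∈ I, 1 ≤ i.2) {z : ℤ × ℤ} {i : (ℤ × ℤ) × ℕ} (hi : i ∈ I)
    (hz : z ∈ ball i.1 i.2) : 1 - ∏ i ∈ I, (1 - chi i.1 i.2 z) = 1 := by
  rw [Finset.prod_eq_zero hi]
  · ring
  · rw [chi_one (hI i hi) hz]; ring

theorem _root_.H941.det_front : ∃ C : ℝ, 0 < C ∧ ∀ (w d : ℕ), 1 ≤ d → 2 * d + 1 ≤ w → 4 ≤ w → ∀ (lam : ℝ), 0 ≤ lam → ∀ (f : ℤ × ℤ → ℝ) (k : ℕ),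
    (∀ i ≤ k, ∀ v ∈ Lk w d lam f i, v.1 ≠ 5 * w) →
    ∃ Xt Xb : ℤ, w ≤ Xt ∧ Xt ≤ 5 * w ∧ w ≤ Xb ∧ Xb ≤ 5 * w ∧
    ∀ (ρ : ℤ × ℤ → ℝ) (I : Finset ((ℤ × ℤ) × ℕ)) (A : ℝ) (Sg : Finset (ℤ × ℤ)), (∀ z, 0 ≤ ρ z) → 1 ≤ A → (∀ i ∈ I, 1 ≤ i.2) →
      (∀ u : ℤ × ℤ, ∀ i ∈ I, u ∈ ball i.1 (2 * i.2 + 1) →
        ∑ l ∈ I.filter (fun l => u ∈ ball l.1 (2 * l.2 + 1) ∧ i.2 ≤ l.2), 1 / (l.2 : ℝ) ≤ A / i.2) →
      (∀ i ∈ I, Disjoint (ball i.1 (2 * i.2 + 1)) (Qs w)) → Sg ⊆ Lk w d lam f k →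
      (∀ v ∈ Lk w d lam f k, v ∉ Sg → (∃ i ∈ I, v ∈ ball i.1 ((i.2 : ℤ) - 1)) ∨
        ∀ u ∈ nbrs v, gp (Dw w \ Kk w d lam f k) (Qs w) ρ u = 0) →
      (∃ i ∈ I, rect (Xb - 1) (Xb + 1) 0 d ⊆ ball i.1 i.2) →
      (∃ i ∈ I, rect (Xt - 1) (Xt + 1) (w - d) w ⊆ ball i.1 i.2) →
      ∑ v ∈ Kk w d lam f k, (∑ z ∈ Qs w, ρ z * hit (Dw w) (Kk w d lam f k) z v) * (lam - f v) ≤
        ∑ v ∈ Sg, (∑ z ∈ Qs w, ρ z * hit (Dw w) (Kk w d lam f k) z v) * max 0 (lam - f v) +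
        C * A ^ 2 * ∑ i ∈ I, ∑ u ∈ (Dw w \ Kk w d lam f k).filter (fun u => u ∈ ball i.1 (2 * i.2 + 1)),
          |lam - hx (Dw w) (Kk w d lam f k) f u| *
          (gp (Dw w \ Kk w d lam f k) (Qs w) ρ u / (i.2 : ℝ) ^ 2 + (1 / (i.2 : ℝ)) * ∑ y ∈ nbrs u,
            |gp (Dw w \ Kk w d lam f k) (Qs w) ρ y - gp (Dw w \ Kk w d lam f k) (Qs w) ρ u|) := by
  obtain ⟨C, hC, hpc⟩ := prod_cut
  refine ⟨C, hC, ?_⟩
  intro w d hd hwd hw4 lam hlam f k hno
  obtain ⟨Xt, Xb, hXt1, hXt2, hXb1, hXb2, hdis⟩ := expl_disconnect w d hd hwd (fun v => f v ≤ lam) k hno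
  refine ⟨Xt, Xb, hXt1, hXt2, hXb1, hXb2, ?_⟩
  intro ρ I A Sg hρ hA hI hIA hIQ hSg hcov htb htt
  set K := Kk w d lam f k with hK
  set E := Dw w \ K with hE
  set g := gp E (Qs w) ρ with hg
  set S : Finset (ℤ × ℤ) := rect Xt Xt (w - d + 1) (w - 1) ∪ rect Xb Xb 1 (d - 1) with hS
  set Xbar : ℤ × ℤ → ℝ := fun z => 1 - ∏ i ∈ I, (1 - chi i.1 i.2 z) with hXbar
  obtain ⟨gr0, grout, grsymm, grmono, grrec, -⟩ := green_basic (E \ S)
  obtain ⟨ge0, geout, gesymm, gemono, gerec, -⟩ := green_basic E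
  set Acc : Set (ℤ × ℤ) := {u | ∃ z ∈ rect (5 * w + 1) (6 * w) 1 (w - 1), green (E \ S) z u ≠ 0} with hAcc
  classical
  set X : ℤ × ℤ → ℝ := fun u => if u ∈ Acc then Xbar u else 1 with hX
  have hK0 : rect (w : ℤ) w d (w - d) ⊆ rect w (5 * w) d (w - d) := by
    intro z hz
    unfold rect at *
    simp only [Finset.mem_product, Finset.mem_Icc] at *
    omega
  obtain ⟨ef1, ef2, ef3, ef4, ef5, ef6, -⟩ := expl_facts (rect w (5 * w) d (w - d)) (rect w w d (w - d)) hK0 (fun v => f v ≤ lam)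
  have hKR : K ⊆ rect w (5 * w) d (w - d) := (ef1 k).2.1
  have hprod01 : ∀ z, 0 ≤ ∏ i ∈ I, (1 - chi i.1 i.2 z) ∧ ∏ i ∈ I, (1 - chi i.1 i.2 z) ≤ 1 := by
    intro z
    constructor
    · exact Finset.prod_nonneg fun i _ => by linarith [(chi_mem i.1 i.2 z).2]
    · exact Finset.prod_le_one (fun i _ => by linarith [(chi_mem i.1 i.2 z).2])
        fun i _ => by linarith [(chi_mem i.1 i.2 z).1]
  have hXb0 : ∀ z, 0 ≤ Xbar z := fun z => by simp only [hXbar]; linarith [(hprod01 z).2]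
  have hXb1' : ∀ z, Xbar z ≤ 1 := fun z => by simp only [hXbar]; linarith [(hprod01 z).1]
  have hX0 : ∀ z, 0 ≤ X z := by
    intro z; simp only [hX]; split_ifs
    · exact hXb0 z
    · exact zero_le_one
  have hX1 : ∀ z, X z ≤ 1 := by
    intro z; simp only [hX]; split_ifs
    · exact hXb1' z
    · exact le_refl _
  have hstep : ∀ z u y, u ∈ E → u ∉ S → y ∈ nbrs u → green (E \ S) z y ≠ 0 → green (E \ S) z u ≠ 0 := by
    intro z u y hu huS hy hne
    have h1 := grrec u (Finset.mem_sdiff.2 ⟨hu, huS⟩) z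
    have h2 : green (E \ S) y z ≤ ∑ z' ∈ nbrs u, green (E \ S) z' z :=
      Finset.single_le_sum (f := fun z' => green (E \ S) z' z) (fun i _ => gr0 i z) hy
    have h3 : 0 < green (E \ S) y z := by
      rw [grsymm y z]
      exact lt_of_le_of_ne (gr0 z y) (Ne.symm hne)
    have h4 : (0 : ℝ) ≤ if u = z then 1 else 0 := by split_ifs <;> norm_num
    rw [grsymm z u]
    have : 0 < green (E \ S) u z := by rw [h1]; linarith
    exact this.ne'
  have hSball : ∀ y ∈ S, Xbar y = 1 := by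
    intro y hy
    rw [hS, Finset.mem_union] at hy
    rcases hy with hy | hy
    · obtain ⟨i, hi, hsub⟩ := htt
      refine prod_one hI hi (hsub ?_)
      unfold rect at *
      simp only [Finset.mem_product, Finset.mem_Icc] at *
      omega
    · obtain ⟨i, hi, hsub⟩ := htb
      refine prod_one hI hi (hsub ?_)
      unfold rect at *
      simp only [Finset.mem_product, Finset.mem_Icc] at *
      omega
  have hSnb : ∀ u ∈ S, ∀ y ∈ nbrs u, Xbar y = 1 := by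
    intro u hu y hy
    rw [mem_nbrs] at hy
    have hy1 : |y.1 - u.1| ≤ 1 := by have := abs_nonneg (y.2 - u.2); omega
    have hy2 : |y.2 - u.2| ≤ 1 := by have := abs_nonneg (y.1 - u.1); omega
    rw [abs_le] at hy1 hy2
    rw [hS, Finset.mem_union] at hu
    rcases hu with hu | hu
    · obtain ⟨i, hi, hsub⟩ := htt
      refine prod_one hI hi (hsub ?_)
      unfold rect at *
      simp only [Finset.mem_product, Finset.mem_Icc] at *
      omega
    · obtain ⟨i, hi, hsub⟩ := htb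
      refine prod_one hI hi (hsub ?_)
      unfold rect at *
      simp only [Finset.mem_product, Finset.mem_Icc] at *
      omega
  have hXQ : ∀ z ∈ Qs w, X z = 0 := by
    intro z hz
    have hzE : z ∈ E ∧ z ∉ S ∧ z ∈ rect (5 * w + 1) (6 * w) 1 (w - 1) := by
      have hz' := hz
      unfold Qs rect at hz'
      simp only [Finset.mem_product, Finset.mem_Icc] at hz'
      refine ⟨?_, ?_, ?_⟩
      · rw [hE, Finset.mem_sdiff]
        refine ⟨?_, fun hzK => ?_⟩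
        · unfold Dw rect
          simp only [Finset.mem_product, Finset.mem_Icc]
          omega
        · have := hKR hzK
          unfold rect at this
          simp only [Finset.mem_product, Finset.mem_Icc] at this
          omega
      · rw [hS, Finset.mem_union]
        unfold rect
        simp only [Finset.mem_product, Finset.mem_Icc]
        omega
      · unfold rect
        simp only [Finset.mem_product, Finset.mem_Icc]
        omega
    have hzA : z ∈ Acc := by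
      refine ⟨z, hzE.2.2, ?_⟩
      have h1 := grrec z (Finset.mem_sdiff.2 ⟨hzE.1, hzE.2.1⟩) z
      have h2 : 0 ≤ ∑ z' ∈ nbrs z, green (E \ S) z' z := Finset.sum_nonneg fun i _ => gr0 i z
      rw [if_pos rfl] at h1
      have : 0 < green (E \ S) z z := by rw [h1]; linarith
      exact this.ne'
    simp only [hX, if_pos hzA, hXbar]
    rw [Finset.prod_eq_one, sub_self]
    intro i hi
    rw [chi_zero (hI i hi), sub_zero]
    intro hzb
    exact Finset.disjoint_left.1 (hIQ i hi) hzb hz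
  have hcl : ∀ u ∈ Dw w \ K, X u < 1 → gp (Dw w \ K) (Qs w) ρ u ≠ 0 → ∀ v ∈ nbrs u ∩ K, lam < f v ∨ v ∈ Sg := by
    intro u hu hXu hgu v hv
    rw [Finset.mem_inter] at hv
    obtain ⟨hvu, hvK⟩ := hv
    by_cases hfv : lam < f v
    · exact Or.inl hfv
    right
    push Not at hfv
    have huA : u ∈ Acc := by
      by_contra hcon
      simp only [hX, if_neg hcon] at hXu
      exact lt_irrefl _ hXu
    have huv : u ∈ nbrs v := nbrs_symm hvu
    obtain ⟨i, hik, hvi⟩ := ef5 k v hvK hfv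
    rcases Nat.lt_or_ge i k with hlt | hge
    · exfalso
      obtain ⟨z, hz, hne⟩ := huA
      exact hne (hdis i hlt v hvi u huv z hz)
    · have : i = k := le_antisymm hik hge
      subst this
      by_contra hvS
      rcases hcov v hvi hvS with ⟨i', hi', hvb⟩ | hz
      · have hub : u ∈ ball i'.1 i'.2 := by
          rw [mem_ball] at *
          rw [mem_nbrs] at huv
          have h1 := abs_sub_le u.1 v.1 i'.1.1
          have h2 := abs_sub_le u.2 v.2 i'.1.2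
          have h3 := abs_nonneg (u.1 - v.1)
          have h4 := abs_nonneg (u.2 - v.2)
          constructor <;> omega
        have := prod_one hI hi' hub
        simp only [hX, if_pos huA, hXbar] at hXu
        linarith
      · exact hgu (hz u huv)
  have hmain := contour_ineq (Dw w) K (Qs w) Sg f ρ X lam hlam hρ hX0 hX1 hXQ
    (fun v hv => (ef2 k).1 (hSg hv)) hcl
  have hslice := slice_bound E Acc g (fun u => lam - hx (Dw w) K f u) X Xbar
    (by
      intro z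
      simp only [hg, gp]
      exact Finset.sum_nonneg fun i _ => mul_nonneg (hρ i) (ge0 i z))
    (by
      intro z hz
      simp only [hg, gp]
      exact Finset.sum_eq_zero fun i _ => by rw [geout i z (Or.inr hz), mul_zero])
    (by
      intro u _ hu
      simp only [hX, if_neg hu])
    (by
      intro u hu
      simp only [hX, if_pos hu])
    (by
      intro u huE huA y hy
      rw [Finset.mem_inter] at hy
      by_cases hyA : y ∈ Acc
      · simp only [hX, if_pos hyA]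
        by_cases huS : u ∈ S
        · exact hSnb u huS y hy.1
        · exfalso
          obtain ⟨z, hz, hne⟩ := hyA
          exact huA ⟨z, hz, hstep z u y huE huS hy.1 hne⟩
      · simp only [hX, if_neg hyA])
    (by
      intro u hu y hy hyA
      rw [Finset.mem_inter] at hy
      by_cases hyS : y ∈ S
      · exact hSball y hyS
      · exfalso
        obtain ⟨z, hz, hne⟩ := hu
        exact hyA ⟨z, hz, hstep z y u hy.2 hyS (nbrs_symm hy.1) hne⟩)
  refine le_trans hmain ?_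
  refine add_le_add le_rfl ?_
  refine le_trans hslice ?_
  have hgnn : ∀ u, 0 ≤ g u := by
    intro z
    simp only [hg, gp]
    exact Finset.sum_nonneg fun i _ => mul_nonneg (hρ i) (ge0 i z)
  set F : ℤ × ℤ → ℝ := fun u => lam - hx (Dw w) K f u with hF
  have hA2 : 1 ≤ A ^ 2 := by nlinarith
  have hpt : ∀ u ∈ E, |F u| * (g u * |(1 / 4) * ∑ y ∈ nbrs u, (Xbar u - Xbar y)| +
        (1 / 4) * ∑ y ∈ nbrs u, |g y - g u| * |Xbar u - Xbar y|) ≤
      ∑ i ∈ I.filter (fun i => u ∈ ball i.1 (2 * i.2 + 1)), C * A ^ 2 * (|F u| *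
        (g u / (i.2 : ℝ) ^ 2 + (1 / (i.2 : ℝ)) * ∑ y ∈ nbrs u, |g y - g u|)) := by
    intro u _
    obtain ⟨hp1, hp2⟩ := hpc I A hA hI hIA u
    set s2 := ∑ i ∈ I.filter (fun i => u ∈ ball i.1 (2 * i.2 + 1)), 1 / (i.2 : ℝ) ^ 2 with hs2
    set s1 := ∑ i ∈ I.filter (fun i => u ∈ ball i.1 (2 * i.2 + 1)), 1 / (i.2 : ℝ) with hs1
    have hs1nn : 0 ≤ s1 := Finset.sum_nonneg fun i _ => by positivity
    have e1 : ∑ i ∈ I.filter (fun i => u ∈ ball i.1 (2 * i.2 + 1)), C * A ^ 2 * (|F u| *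
        (g u / (i.2 : ℝ) ^ 2 + (1 / (i.2 : ℝ)) * ∑ y ∈ nbrs u, |g y - g u|)) =
        |F u| * (g u * (C * A ^ 2 * s2) + (C * A ^ 2 * s1) * ∑ y ∈ nbrs u, |g y - g u|) := by
      set T := ∑ y ∈ nbrs u, |g y - g u| with hT
      have e2 : ∀ i ∈ I.filter (fun i => u ∈ ball i.1 (2 * i.2 + 1)), C * A ^ 2 * (|F u| *
        (g u / (i.2 : ℝ) ^ 2 + (1 / (i.2 : ℝ)) * T)) =
          (|F u| * (g u * (C * A ^ 2))) * (1 / (i.2 : ℝ) ^ 2) + (|F u| * (C * A ^ 2) * T) * (1 / (i.2 : ℝ)) := by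
        intro i _
        ring
      rw [Finset.sum_congr rfl e2, Finset.sum_add_distrib, ← Finset.mul_sum, ← Finset.mul_sum, ← hs2, ← hs1]
      ring
    rw [e1]
    refine mul_le_mul_of_nonneg_left ?_ (abs_nonneg _)
    refine add_le_add (mul_le_mul_of_nonneg_left hp1 (hgnn u)) ?_
    have h3 : ∑ y ∈ nbrs u, |g y - g u| * |Xbar u - Xbar y| ≤ ∑ y ∈ nbrs u, |g y - g u| * (C * s1) :=
      Finset.sum_le_sum fun y hy => mul_le_mul_of_nonneg_left (hp2 y hy) (abs_nonneg _)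
    rw [← Finset.sum_mul] at h3
    have h4 : 0 ≤ ∑ y ∈ nbrs u, |g y - g u| := Finset.sum_nonneg fun y _ => abs_nonneg _
    have h5 : 0 ≤ C * s1 := by positivity
    have h6 : 0 ≤ (∑ y ∈ nbrs u, |g y - g u|) * (C * s1) := mul_nonneg h4 h5
    calc (1 / 4) * ∑ y ∈ nbrs u, |g y - g u| * |Xbar u - Xbar y|
        ≤ (1 / 4) * ((∑ y ∈ nbrs u, |g y - g u|) * (C * s1)) := by linarith
      _ ≤ (∑ y ∈ nbrs u, |g y - g u|) * (C * s1) := by linarith
      _ ≤ A ^ 2 * ((∑ y ∈ nbrs u, |g y - g u|) * (C * s1)) := by nlinarith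
      _ = (C * A ^ 2 * s1) * ∑ y ∈ nbrs u, |g y - g u| := by ring
  refine le_trans (Finset.sum_le_sum hpt) ?_
  apply le_of_eq
  rw [Finset.mul_sum]
  simp only [Finset.mul_sum (Finset.filter _ E)]
  simp only [Finset.sum_filter]
  rw [Finset.sum_comm]

end H941.det_front
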