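import Pool.Agent.KS6_63.GFF.Defs4
import Pool.Agent.KS6_63.GFF.A3
import Pool.Agent.KS6_63.GFF.B.expl_facts_
import Pool.Agent.KS6_63.GFF.B.green_conn_

open MeasureTheory ProbabilityTheory

namespace H941.shield

theorem _root_.H941.shield (w d : ℕ) (hd : 1 ≤ d) (hw : 2 * d + 1 ≤ w) (lam : ℝ) (f ρ : ℤ × ℤ → ℝ) (c : ℤ × ℤ) (W : ℕ)
    (H : Finset (ℤ × ℤ)) (hH : ∀ z ∈ H, f z ≤ lam ∧ z ∈ rect w (5 * w) d (w - d))
    (hconn : (grid.induce (H : Set (ℤ × ℤ))).Connected)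
    (sep : ∀ a b : ℤ × ℤ, a ∈ ball c W → b ∉ ball c (2 * W) → ∀ r : grid.Walk a b, ∃ z ∈ r.support, z ∈ H)
    (hK : ∀ z ∈ ball c (2 * W), (w : ℤ) < z.1) (hQ : Disjoint (ball c (2 * W)) (Qs w))
    (k k' m : ℕ) (v : ℤ × ℤ) (hv : v ∈ Lk w d lam f k') (hvc : v ∈ ball c W) (hk : k' ≤ k) (hm : H.card ≤ m) :
    ∀ z ∈ ball c W, gp (Dw w \ Kk w d lam f (k + m)) (Qs w) ρ z = 0 := by
  classical
  obtain ⟨F1, F2, -, F4, F5, F6, -⟩ := expl_facts (rect w (5 * w) d (w - d))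
    (rect w w d (w - d)) (by
      intro x hx
      simp only [rect, Finset.mem_product, Finset.mem_Icc] at hx ⊢
      omega) (fun v => f v ≤ lam)
  have hadj : ∀ y x : ℤ × ℤ, grid.Adj y x → x ∈ nbrs y := by
    intro y x h
    change |y.1 - x.1| + |y.2 - x.2| = 1 at h
    simp only [nbrs, Finset.mem_insert, Finset.mem_singleton, Prod.ext_iff]
    rcases abs_cases (y.1 - x.1) with ⟨h1, h2⟩ | ⟨h1, h2⟩ <;>
    rcases abs_cases (y.2 - x.2) with ⟨h3, h4⟩ | ⟨h3, h4⟩ <;> omega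
  -- monotonicity
  have hmono : ∀ i j, i ≤ j → (expl (rect w (5 * w) d (w - d)) (rect w w d (w - d))
      (fun v => f v ≤ lam) i).1 ⊆ (expl (rect w (5 * w) d (w - d)) (rect w w d (w - d))
      (fun v => f v ≤ lam) j).1 := by
    intro i j hij
    induction j, hij using Nat.le_induction with
    | base => exact subset_rfl
    | succ j _ ih => exact ih.trans (F1 j).2.2
  -- a vertex of `H` found at a step at most `k'`
  obtain ⟨u0, hu0, p, -, hp⟩ := F6 k' v hv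
  have hu0c : u0 ∉ ball c (2 * W) := by
    intro h
    have h1 := hK u0 h
    simp only [rect, Finset.mem_product, Finset.mem_Icc] at hu0
    omega
  obtain ⟨h, hh1, hh2⟩ := sep v u0 hvc hu0c p.reverse
  rw [SimpleGraph.Walk.support_reverse, List.mem_reverse] at hh1
  obtain ⟨i0, hi0, hhL⟩ := F5 k' h (hp h hh1).1 (hp h hh1).2
  -- all vertices of `H` are found
  have hwalk : ∀ (x y : (H : Set (ℤ × ℤ))) (q : (grid.induce (H : Set (ℤ × ℤ))).Walk x y),
      ∀ n, (∃ i ≤ n, (x : ℤ × ℤ) ∈ (expl (rect w (5 * w) d (w - d)) (rect w w d (w - d))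
        (fun v => f v ≤ lam) i).2) →
      ∃ i ≤ n + q.length, (y : ℤ × ℤ) ∈ (expl (rect w (5 * w) d (w - d)) (rect w w d (w - d))
        (fun v => f v ≤ lam) i).2 := by
    intro x y q
    induction q with
    | nil =>
      intro n hn
      simpa using hn
    | @cons a b e hab q ih =>
      rintro n ⟨i, hi, hx⟩
      have h1 : grid.Adj a.1 b.1 := by simpa using hab
      have h2 := F4 i (i + 1) (Nat.lt_succ_self i) a.1 hx b.1 (hadj _ _ h1) (hH b.1 b.2).2
      obtain ⟨j, hj, hb⟩ := F5 (i + 1) b.1 h2 (hH b.1 b.2).1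
      obtain ⟨j', hj', he⟩ := ih (n + 1) ⟨j, by omega, hb⟩
      refine ⟨j', ?_, he⟩
      rw [SimpleGraph.Walk.length_cons]
      omega
  have hHK : ∀ x ∈ H, x ∈ Kk w d lam f (k + m) := by
    intro x hx
    obtain ⟨q⟩ := hconn.preconnected ⟨h, hh2⟩ ⟨x, hx⟩
    have hlt := (q.toPath.2).length_lt
    have hcard : Fintype.card (H : Set (ℤ × ℤ)) = H.card := by simp
    rw [hcard] at hlt
    obtain ⟨i, hi, hxi⟩ := hwalk _ _ q.toPath.1 k' ⟨i0, hi0, hhL⟩
    exact hmono i (k + m) (by omega) ((F2 i).1 hxi)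
  -- the potential vanishes
  intro z hz
  unfold gp
  refine Finset.sum_eq_zero fun z' hz' => ?_
  have : green (Dw w \ Kk w d lam f (k + m)) z' z = 0 := by
    by_contra hne
    obtain ⟨r, hr⟩ := green_conn _ z' z hne
    have hz'c : z' ∉ ball c (2 * W) := fun h1 => (Finset.disjoint_left.1 hQ) h1 hz'
    obtain ⟨x, hx1, hx2⟩ := sep z z' hz hz'c r.reverse
    rw [SimpleGraph.Walk.support_reverse, List.mem_reverse] at hx1
    exact (Finset.mem_sdiff.1 (hr x hx1)).2 (hHK x hx2)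
  rw [this, mul_zero]

end H941.shield
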