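import Pool.Agent.KS6_63.GFF.Defs4
import Pool.Agent.KS6_63.GFF.A3
import Pool.Agent.KS6_63.GFF.C.energy_drop_
import Pool.Agent.KS6_63.GFF.C.poincare_
import Pool.Agent.KS6_63.GFF.C.submean_

open MeasureTheory ProbabilityTheory

namespace H941.energy_sum

theorem es_gp_nonneg (E Q : Finset (ℤ × ℤ)) (ρ : ℤ × ℤ → ℝ) (hρ : ∀ z, 0 ≤ ρ z) (x : ℤ × ℤ) :
    0 ≤ gp E Q ρ x :=
  Finset.sum_nonneg fun z _ => mul_nonneg (hρ z) ((green_basic E).1 _ _)

theorem es_gp_zero (E Q : Finset (ℤ × ℤ)) (ρ : ℤ × ℤ → ℝ) {x : ℤ × ℤ} (hx : x ∉ E) :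
    gp E Q ρ x = 0 := by
  unfold gp
  apply Finset.sum_eq_zero
  intro z _
  rw [(green_basic E).2.1 z x (Or.inr hx), mul_zero]

theorem es_gp_sub (E Q : Finset (ℤ × ℤ)) (ρ : ℤ × ℤ → ℝ) (hρ : ∀ z, 0 ≤ ρ z) {x : ℤ × ℤ}
    (hx : x ∉ Q) : gp E Q ρ x ≤ (1 / 4) * ∑ z' ∈ nbrs x, gp E Q ρ z' := by
  by_cases hE : x ∈ E
  · have h1 : ∀ z ∈ Q, green E z x = (1 / 4) * ∑ z' ∈ nbrs x, green E z z' := by
      intro z hz
      rw [(green_basic E).2.2.1 z x, (green_basic E).2.2.2.2.1 x hE z, if_neg, zero_add]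
      · congr 1
        apply Finset.sum_congr rfl
        intro z' _
        exact (green_basic E).2.2.1 _ _
      · rintro rfl
        exact hx hz
    apply le_of_eq
    unfold gp
    rw [Finset.sum_comm, Finset.mul_sum]
    apply Finset.sum_congr rfl
    intro z hz
    rw [h1 z hz, ← Finset.mul_sum]
    ring
  · rw [es_gp_zero E Q ρ hE]
    have := Finset.sum_nonneg (s := nbrs x) fun z' _ => es_gp_nonneg E Q ρ hρ z'
    linarith

theorem es_mem_ball {x z : ℤ × ℤ} {r : ℤ} :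
    z ∈ ball x r ↔ (x.1 - r ≤ z.1 ∧ z.1 ≤ x.1 + r) ∧ (x.2 - r ≤ z.2 ∧ z.2 ≤ x.2 + r) := by
  unfold ball rect
  rw [Finset.mem_product, Finset.mem_Icc, Finset.mem_Icc]

theorem es_count (A : Finset (ℤ × ℤ)) (R : ℕ) (hR : 1 ≤ R)
    (hA : ∀ c ∈ A, (R : ℤ) ∣ c.1 ∧ (R : ℤ) ∣ c.2) (x : ℤ × ℤ) :
    (A.filter fun c => x ∈ ball c (128 * R)).card ≤ 257 ^ 2 := by
  have hRp : (0 : ℤ) < R := by exact_mod_cast hR
  have key : ∀ t s : ℤ, (R : ℤ) ∣ t → t - 128 * R ≤ s → s ≤ t + 128 * R →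
      s / R - 128 ≤ t / R ∧ t / R ≤ s / R + 128 := by
    intro t s ht h1 h2
    obtain ⟨i, rfl⟩ := ht
    rw [Int.mul_ediv_cancel_left _ hRp.ne']
    have h3 := Int.mul_ediv_add_emod s R
    have h4 := Int.emod_nonneg s hRp.ne'
    have h5 := Int.emod_lt_of_pos s hRp
    constructor
    · by_contra hcon
      rw [not_le] at hcon
      have : i + 1 ≤ s / R - 128 := by omega
      nlinarith
    · by_contra hcon
      rw [not_le] at hcon
      have : s / R + 128 + 1 ≤ i := by omega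
      nlinarith
  have h1 : (A.filter fun c => x ∈ ball c (128 * R)).card ≤
      (Finset.Icc (x.1 / R - 128) (x.1 / R + 128) ×ˢ
        Finset.Icc (x.2 / R - 128) (x.2 / R + 128)).card := by
    apply Finset.card_le_card_of_injOn (fun c => (c.1 / (R : ℤ), c.2 / (R : ℤ)))
    · intro c hc
      rw [Finset.mem_coe, Finset.mem_filter] at hc
      obtain ⟨hcA, hcx⟩ := hc
      rw [es_mem_ball] at hcx
      obtain ⟨hd1, hd2⟩ := hA c hcA
      have k1 := key c.1 x.1 hd1 hcx.1.1 hcx.1.2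
      have k2 := key c.2 x.2 hd2 hcx.2.1 hcx.2.2
      rw [Finset.mem_coe, Finset.mem_product, Finset.mem_Icc, Finset.mem_Icc]
      exact ⟨k1, k2⟩
    · intro c hc c' hc' heq
      rw [Finset.mem_coe, Finset.mem_filter] at hc hc'
      obtain ⟨hd1, hd2⟩ := hA c hc.1
      obtain ⟨hd1', hd2'⟩ := hA c' hc'.1
      simp only [Prod.mk.injEq] at heq
      apply Prod.ext
      · rw [← Int.ediv_mul_cancel hd1, heq.1, Int.ediv_mul_cancel hd1']
      · rw [← Int.ediv_mul_cancel hd2, heq.2, Int.ediv_mul_cancel hd2']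
  refine h1.trans (le_of_eq ?_)
  rw [Finset.card_product, Int.card_Icc, Int.card_Icc]
  have e1 : (x.1 / (R : ℤ) + 128 + 1 - (x.1 / R - 128)).toNat = 257 := by
    have : x.1 / (R : ℤ) + 128 + 1 - (x.1 / R - 128) = 257 := by ring
    rw [this]; rfl
  have e2 : (x.2 / (R : ℤ) + 128 + 1 - (x.2 / R - 128)).toNat = 257 := by
    have : x.2 / (R : ℤ) + 128 + 1 - (x.2 / R - 128) = 257 := by ring
    rw [this]; rfl
  rw [e1, e2]
  norm_num

theorem es_overlap (A : Finset (ℤ × ℤ)) (R : ℕ) (hR : 1 ≤ R)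
    (hA : ∀ c ∈ A, (R : ℤ) ∣ c.1 ∧ (R : ℤ) ∣ c.2) (f : ℤ × ℤ → ℝ) (hf : ∀ x, 0 ≤ f x) :
    ∑ c ∈ A, ∑ x ∈ ball c (128 * R), f x ≤
      257 ^ 2 * ∑ x ∈ A.biUnion (fun c => ball c (128 * R)), f x := by
  set S := A.biUnion (fun c => ball c (128 * R)) with hS
  have h1 : ∀ c ∈ A, ∑ x ∈ ball c (128 * R), f x =
      ∑ x ∈ S, if x ∈ ball c (128 * R) then f x else 0 := by
    intro c hc
    rw [← Finset.sum_filter]
    apply Finset.sum_congr _ (fun _ _ => rfl)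
    ext x
    rw [Finset.mem_filter, hS, Finset.mem_biUnion]
    constructor
    · intro hx
      exact ⟨⟨c, hc, hx⟩, hx⟩
    · exact fun hx => hx.2
  rw [Finset.sum_congr rfl h1, Finset.sum_comm, Finset.mul_sum]
  apply Finset.sum_le_sum
  intro x _
  rw [← Finset.sum_filter, Finset.sum_const, nsmul_eq_mul]
  apply mul_le_mul_of_nonneg_right _ (hf x)
  exact_mod_cast es_count A R hR hA x

theorem es_en_nonneg (u : ℤ × ℤ → ℝ) (x : ℤ × ℤ) : 0 ≤ en u x :=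
  Finset.sum_nonneg fun _ _ => sq_nonneg _

theorem es_shift (e : ℕ → ℝ) (he : ∀ k, 0 ≤ e k) (hd : ∀ k, e (k + 1) ≤ e k) (m T : ℕ) :
    ∑ k ∈ Finset.range T, (e k - e (k + m)) ≤ m * e 0 := by
  have hanti : Antitone e := antitone_nat_of_succ_le hd
  have h1 := Finset.sum_range_add e T m
  have h2 := Finset.sum_range_add e m T
  rw [add_comm m T] at h2
  rw [Finset.sum_sub_distrib]
  have h3 : ∑ k ∈ Finset.range m, e k ≤ m * e 0 := by
    calc ∑ k ∈ Finset.range m, e k ≤ ∑ _k ∈ Finset.range m, e 0 :=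
          Finset.sum_le_sum fun k _ => hanti (Nat.zero_le k)
      _ = m * e 0 := by simp
  have h4 : 0 ≤ ∑ k ∈ Finset.range m, e (T + k) := Finset.sum_nonneg fun _ _ => he _
  have h5 : ∑ k ∈ Finset.range T, e (m + k) = ∑ k ∈ Finset.range T, e (k + m) :=
    Finset.sum_congr rfl fun k _ => by rw [add_comm]
  linarith

theorem _root_.H941.energy_sum : ∃ C : ℝ, 0 < C ∧ ∀ (D Q : Finset (ℤ × ℤ)) (ρ : ℤ × ℤ → ℝ) (K : ℕ → Finset (ℤ × ℤ)) (R m T : ℕ)
    (A : ℕ → Finset (ℤ × ℤ)) (Mx : ℕ → ℤ × ℤ → ℝ), (∀ z, 0 ≤ ρ z) → (∀ k, K k ⊆ K (k + 1)) → 1 ≤ R → 1 ≤ m →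
    (∀ k, ∀ c ∈ A k, (R : ℤ) ∣ c.1 ∧ (R : ℤ) ∣ c.2) → (∀ k, ∀ c ∈ A k, Disjoint (ball c (128 * R)) Q) →
    (∀ k, ∀ c ∈ A k, ∀ z ∈ ball c (128 * R), gp (D \ K (k + m)) Q ρ z = 0) →
    (∀ k, ∀ c ∈ A k, ∃ (a b : ℤ × ℤ) (p : grid.Walk a b),
      (∀ z ∈ p.support, z ∈ ball c (128 * R) ∧ z ∉ D \ K k) ∧ (2 * (R : ℤ) ≤ |a.1 - b.1| ∨ 2 * (R : ℤ) ≤ |a.2 - b.2|)) →
    (∀ k, ∀ c ∈ A k, ∃ z ∈ ball c (64 * R + 1), Mx k c = gp (D \ K k) Q ρ z) →
    ∑ k ∈ Finset.range T, ∑ c ∈ A k, (Mx k c) ^ 2 ≤ C * m * ∑ x ∈ Q, ∑ y ∈ Q, ρ x * green D x y * ρ y := by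
  obtain ⟨C1, hC1, h1⟩ := submean
  obtain ⟨C2, hC2, h2⟩ := poincare
  refine ⟨C1 ^ 2 * C2 * 256 * 257 ^ 2 * 8, by positivity, ?_⟩
  intro D Q ρ K R m T A Mx hρ hK hR hm hA hAQ hz hw hM
  have hKm : ∀ k n, K k ⊆ K (k + n) := by
    intro k n
    induction n with
    | zero => exact subset_rfl
    | succ n ih => exact ih.trans (hK (k + n))
  set e : ℕ → ℝ := fun k => ∑ x ∈ Q, ∑ y ∈ Q, ρ x * green (D \ K k) x y * ρ y with he
  have he0 : ∀ k, 0 ≤ e k := fun k => Finset.sum_nonneg fun x _ => Finset.sum_nonneg fun y _ =>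
    mul_nonneg (mul_nonneg (hρ x) ((green_basic _).1 x y)) (hρ y)
  have hed : ∀ k, e (k + 1) ≤ e k := by
    intro k
    apply Finset.sum_le_sum
    intro x _
    apply Finset.sum_le_sum
    intro y _
    apply mul_le_mul_of_nonneg_right _ (hρ y)
    apply mul_le_mul_of_nonneg_left _ (hρ x)
    exact (green_basic (D \ K (k + 1))).2.2.2.1 (D \ K k)
      (Finset.sdiff_subset_sdiff subset_rfl (hK k)) x y
  have heE : e 0 ≤ ∑ x ∈ Q, ∑ y ∈ Q, ρ x * green D x y * ρ y := by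
    apply Finset.sum_le_sum
    intro x _
    apply Finset.sum_le_sum
    intro y _
    apply mul_le_mul_of_nonneg_right _ (hρ y)
    apply mul_le_mul_of_nonneg_left _ (hρ x)
    exact (green_basic (D \ K 0)).2.2.2.1 D Finset.sdiff_subset x y
  have hRp : (1 : ℤ) ≤ R := by exact_mod_cast hR
  have hRr : (0 : ℝ) < R := by exact_mod_cast hR
  -- one square
  have one : ∀ k, ∀ c ∈ A k, (Mx k c) ^ 2 ≤ C1 ^ 2 * C2 * 256 *
      ∑ x ∈ ball c (128 * R), en (fun x => gp (D \ K k) Q ρ x - gp (D \ K (k + m)) Q ρ x) x := by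
    intro k c hc
    set g := gp (D \ K k) Q ρ with hg
    have hg0 : ∀ z, 0 ≤ g z := es_gp_nonneg _ Q ρ hρ
    obtain ⟨z0, hz0, hMx⟩ := hM k c hc
    rw [es_mem_ball] at hz0
    have hsub : ball z0 (((32 * R : ℕ) : ℤ) + 1) ⊆ ball c (128 * R) := by
      intro z hz
      rw [es_mem_ball] at hz ⊢
      push_cast at hz
      omega
    have hsub' : ball z0 ((32 * R : ℕ) : ℤ) ⊆ ball c (128 * R) := by
      intro z hz
      rw [es_mem_ball] at hz ⊢
      push_cast at hz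
      omega
    have s1 := h1 g z0 (32 * R) (by omega) hg0 (by
      intro z hz
      apply es_gp_sub _ Q ρ hρ
      intro hQ
      exact (Finset.disjoint_left.1 (hAQ k c hc)) (hsub' hz) hQ)
    have s2 : ∑ z ∈ ball z0 (((32 * R : ℕ) : ℤ) + 1), g z ≤ ∑ z ∈ ball c (128 * R), g z :=
      Finset.sum_le_sum_of_subset_of_nonneg hsub fun z _ _ => hg0 z
    set Sg := ∑ z ∈ ball c (128 * R), g z with hSg
    have hSg0 : 0 ≤ Sg := Finset.sum_nonneg fun z _ => hg0 z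
    have s3 : Mx k c ≤ C1 / ((32 * R : ℕ) : ℝ) ^ 2 * Sg := by
      rw [hMx]
      refine s1.trans ?_
      apply mul_le_mul_of_nonneg_left s2
      positivity
    have s4 : 0 ≤ Mx k c := by rw [hMx]; exact hg0 z0
    have s5 : (Mx k c) ^ 2 ≤ (C1 / ((32 * R : ℕ) : ℝ) ^ 2) ^ 2 * Sg ^ 2 := by
      rw [← mul_pow]
      exact pow_le_pow_left₀ s4 s3 2
    obtain ⟨a, b, p, hp, hpl⟩ := hw k c hc
    have c128 : ((128 * R : ℕ) : ℤ) = 128 * (R : ℤ) := by push_cast; ring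
    have s6 := h2 g c (128 * R) a b p (by omega) (by
      intro z hz
      obtain ⟨q1, q2⟩ := hp z hz
      rw [c128]
      exact ⟨q1, es_gp_zero _ Q ρ q2⟩) (by
      rw [c128]
      rcases hpl with h | h
      · left; linarith
      · right; linarith)
    rw [c128] at s6
    have s7 : ∑ z ∈ ball c (128 * R), |g z| = Sg :=
      Finset.sum_congr rfl fun z _ => abs_of_nonneg (hg0 z)
    rw [s7] at s6
    have s8 : ∑ x ∈ ball c (128 * R), ∑ y ∈ nbrs x ∩ ball c (128 * R), (g x - g y) ^ 2 ≤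
        ∑ x ∈ ball c (128 * R),
          en (fun x => gp (D \ K k) Q ρ x - gp (D \ K (k + m)) Q ρ x) x := by
      apply Finset.sum_le_sum
      intro x hx
      unfold en
      calc ∑ y ∈ nbrs x ∩ ball c (128 * R), (g x - g y) ^ 2
          = ∑ y ∈ nbrs x ∩ ball c (128 * R), ((gp (D \ K k) Q ρ x - gp (D \ K (k + m)) Q ρ x) -
              (gp (D \ K k) Q ρ y - gp (D \ K (k + m)) Q ρ y)) ^ 2 := by
            apply Finset.sum_congr rfl
            intro y hy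
            rw [hz k c hc x hx, hz k c hc y (Finset.mem_inter.1 hy).2, sub_zero, sub_zero]
        _ ≤ _ := Finset.sum_le_sum_of_subset_of_nonneg Finset.inter_subset_left
            fun y _ _ => sq_nonneg _
    have s9 := s5.trans (mul_le_mul_of_nonneg_left s6 (by positivity))
    refine s9.trans ?_
    have s10 : (C1 / ((32 * R : ℕ) : ℝ) ^ 2) ^ 2 * (C2 * ((128 * R : ℕ) : ℝ) ^ 4 *
        ∑ x ∈ ball c (128 * R), ∑ y ∈ nbrs x ∩ ball c (128 * R), (g x - g y) ^ 2) =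
        C1 ^ 2 * C2 * 256 *
        ∑ x ∈ ball c (128 * R), ∑ y ∈ nbrs x ∩ ball c (128 * R), (g x - g y) ^ 2 := by
      push_cast
      field_simp
      ring
    rw [s10]
    exact mul_le_mul_of_nonneg_left s8 (by positivity)
  -- one time
  have two : ∀ k, ∑ c ∈ A k, (Mx k c) ^ 2 ≤ C1 ^ 2 * C2 * 256 * 257 ^ 2 * 8 *
      (e k - e (k + m)) := by
    intro k
    have t1 := es_overlap (A k) R hR (hA k)
      (en (fun x => gp (D \ K k) Q ρ x - gp (D \ K (k + m)) Q ρ x)) (es_en_nonneg _)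
    have t2 := energy_drop D (K k) (K (k + m)) Q
      ((A k).biUnion (fun c => ball c (128 * R))) (hKm k m) ρ
    calc ∑ c ∈ A k, (Mx k c) ^ 2 ≤ ∑ c ∈ A k, C1 ^ 2 * C2 * 256 * ∑ x ∈ ball c (128 * R),
          en (fun x => gp (D \ K k) Q ρ x - gp (D \ K (k + m)) Q ρ x) x :=
          Finset.sum_le_sum (one k)
      _ = C1 ^ 2 * C2 * 256 * ∑ c ∈ A k, ∑ x ∈ ball c (128 * R),
          en (fun x => gp (D \ K k) Q ρ x - gp (D \ K (k + m)) Q ρ x) x := by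
          rw [Finset.mul_sum]
      _ ≤ C1 ^ 2 * C2 * 256 * (257 ^ 2 * (8 * (e k - e (k + m)))) := by
          apply mul_le_mul_of_nonneg_left _ (by positivity)
          refine t1.trans ?_
          exact mul_le_mul_of_nonneg_left t2 (by positivity)
      _ = _ := by ring
  calc ∑ k ∈ Finset.range T, ∑ c ∈ A k, (Mx k c) ^ 2
      ≤ ∑ k ∈ Finset.range T, C1 ^ 2 * C2 * 256 * 257 ^ 2 * 8 * (e k - e (k + m)) :=
        Finset.sum_le_sum fun k _ => two k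
    _ = C1 ^ 2 * C2 * 256 * 257 ^ 2 * 8 * ∑ k ∈ Finset.range T, (e k - e (k + m)) := by
        rw [Finset.mul_sum]
    _ ≤ C1 ^ 2 * C2 * 256 * 257 ^ 2 * 8 *
        (m * ∑ x ∈ Q, ∑ y ∈ Q, ρ x * green D x y * ρ y) := by
        apply mul_le_mul_of_nonneg_left _ (by positivity)
        refine (es_shift e he0 hed m T).trans ?_
        exact mul_le_mul_of_nonneg_left heE (by positivity)
    _ = _ := by ring

end H941.energy_sum
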