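import Pool.Agent.KS6_63.GFF.Defs4
import Pool.Agent.KS6_63.GFF.A3
import Pool.Agent.KS6_63.GFF.B.expl_facts_
import Pool.Agent.KS6_63.GFF.B.hit_basic_
import Pool.Agent.KS6_63.GFF.B.quad_drop_
import Pool.Agent.KS6_63.GFF.B.row_le_
import Pool.Agent.KS6_63.GFF.C.det_step_
import Pool.Agent.KS6_63.GFF.C.energy_sum_
import Pool.Agent.KS6_63.GFF.C.shield_

open MeasureTheory ProbabilityTheory

namespace H941.det_total

lemma h835_walk_cut (c : ℤ × ℤ) (r : ℤ) : ∀ {a b : ℤ × ℤ} (p : grid.Walk a b), a ∈ ball c r → b ∉ ball c r →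
    ∃ (e : ℤ × ℤ) (q : grid.Walk a e), (∀ z ∈ q.support, z ∈ p.support ∧ z ∈ ball c r) ∧
      (|e.1 - c.1| = r ∨ |e.2 - c.2| = r) := by
  intro a b p
  induction p with
  | nil => intro h1 h2; exact absurd h1 h2
  | @cons a a' b h p ih =>
    intro h1 h2
    by_cases h3 : a' ∈ ball c r
    · obtain ⟨e, q, hq, he⟩ := ih h3 h2
      refine ⟨e, SimpleGraph.Walk.cons h q, ?_, he⟩
      intro z hz
      rw [SimpleGraph.Walk.support_cons, List.mem_cons] at hz
      rcases hz with rfl | hz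
      · exact ⟨by simp, h1⟩
      · exact ⟨by rw [SimpleGraph.Walk.support_cons]; exact List.mem_cons_of_mem _ (hq z hz).1,
          (hq z hz).2⟩
    · refine ⟨a, SimpleGraph.Walk.nil, ?_, ?_⟩
      · intro z hz
        simp only [SimpleGraph.Walk.support_nil, List.mem_singleton] at hz
        subst hz
        exact ⟨by simp, h1⟩
      · have hadj : |a.1 - a'.1| + |a.2 - a'.2| = 1 := h
        simp only [ball, rect, Finset.mem_product, Finset.mem_Icc, not_and_or, not_le] at h1 h3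
        obtain ⟨⟨h11, h12⟩, h13, h14⟩ := h1
        have e1 := abs_nonneg (a.1 - a'.1)
        have e2 := abs_nonneg (a.2 - a'.2)
        have e3 := le_abs_self (a.1 - a'.1)
        have e4 := le_abs_self (a.2 - a'.2)
        have e5 := neg_abs_le (a.1 - a'.1)
        have e6 := neg_abs_le (a.2 - a'.2)
        have hr : 0 ≤ r := by omega
        rw [abs_eq hr, abs_eq hr]
        omega

lemma h835_mem_rect (a b c d : ℤ) (z : ℤ × ℤ) :
    z ∈ rect a b c d ↔ (a ≤ z.1 ∧ z.1 ≤ b) ∧ (c ≤ z.2 ∧ z.2 ≤ d) := by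
  simp only [rect, Finset.mem_product, Finset.mem_Icc]

lemma h835_K0R (w d : ℕ) : rect (w : ℤ) w d (w - d) ⊆ rect (w : ℤ) (5 * w) d (w - d) := by
  intro z hz
  rw [h835_mem_rect] at hz ⊢
  omega

lemma h835_KR (w d : ℕ) (lam : ℝ) (f : ℤ × ℤ → ℝ) (k : ℕ) :
    Kk w d lam f k ⊆ rect (w : ℤ) (5 * w) d (w - d) :=
  ((expl_facts _ _ (h835_K0R w d) (fun v => f v ≤ lam)).1 k).2.1

lemma h835_Kmono (w d : ℕ) (lam : ℝ) (f : ℤ × ℤ → ℝ) (k : ℕ) :
    Kk w d lam f k ⊆ Kk w d lam f (k + 1) :=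
  ((expl_facts _ _ (h835_K0R w d) (fun v => f v ≤ lam)).1 k).2.2

lemma h835_Kmono' (w d : ℕ) (lam : ℝ) (f : ℤ × ℤ → ℝ) {k l : ℕ} (h : k ≤ l) :
    Kk w d lam f k ⊆ Kk w d lam f l := by
  induction h with
  | refl => exact Finset.Subset.refl _
  | step _ ih => exact ih.trans (h835_Kmono w d lam f _)

lemma h835_LK (w d : ℕ) (lam : ℝ) (f : ℤ × ℤ → ℝ) (k : ℕ) :
    Lk w d lam f k ⊆ Kk w d lam f k :=
  ((expl_facts _ _ (h835_K0R w d) (fun v => f v ≤ lam)).2.1 k).1

lemma h835_Ldisj (w d : ℕ) (lam : ℝ) (f : ℤ × ℤ → ℝ) (k : ℕ) :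
    Disjoint (Lk w d lam f (k + 1)) (Kk w d lam f k) :=
  ((expl_facts _ _ (h835_K0R w d) (fun v => f v ≤ lam)).2.2.1 k)

lemma h835_KD (w d : ℕ) (lam : ℝ) (f : ℤ × ℤ → ℝ) (k : ℕ) (hd : 1 ≤ d) (hw : 10 ^ 9 * d ≤ w) :
    Kk w d lam f k ⊆ Dw w := by
  intro z hz
  have h := h835_KR w d lam f k hz
  unfold Dw
  rw [h835_mem_rect] at h ⊢
  omega

lemma h835_KQ (w d : ℕ) (lam : ℝ) (f : ℤ × ℤ → ℝ) (k : ℕ) :
    Disjoint (Qs w) (Kk w d lam f k) := by
  rw [Finset.disjoint_left]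
  intro z hz hz'
  have h := h835_KR w d lam f k hz'
  unfold Qs at hz
  rw [h835_mem_rect] at h hz
  omega

lemma h835_rq_nonneg (w : ℕ) (z : ℤ × ℤ) : 0 ≤ rq w z := by
  unfold rq; positivity

lemma h835_V_nonneg (w : ℕ) (E : Finset (ℤ × ℤ)) :
    0 ≤ ∑ x ∈ Qs w, ∑ y ∈ Qs w, rq w x * green E x y * rq w y :=
  Finset.sum_nonneg (fun x _ => Finset.sum_nonneg (fun y _ =>
    mul_nonneg (mul_nonneg (h835_rq_nonneg w x) ((green_basic E).1 x y)) (h835_rq_nonneg w y)))

lemma h835_tel (w d : ℕ) (lam : ℝ) (f : ℤ × ℤ → ℝ) (hd : 1 ≤ d) (hw : 10 ^ 9 * d ≤ w) (T : ℕ) :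
    ∑ k ∈ Finset.range (T + 1), ∑ v ∈ Lk w d lam f k,
        (∑ z ∈ Qs w, rq w z * hit (Dw w) (Kk w d lam f k) z v) ^ 2 +
      ∑ x ∈ Qs w, ∑ y ∈ Qs w, rq w x * green (Dw w \ Kk w d lam f T) x y * rq w y ≤
      ∑ x ∈ Qs w, ∑ y ∈ Qs w, rq w x * green (Dw w) x y * rq w y := by
  induction T with
  | zero =>
    have h := quad_drop (Dw w) ∅ (Kk w d lam f 0) (Qs w) (rq w) (h835_rq_nonneg w)
      (by rw [Finset.sdiff_empty]; exact h835_KD w d lam f 0 hd hw) (h835_KQ w d lam f 0)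
    rw [Finset.sdiff_empty, Finset.empty_union] at h
    have h2 : ∑ v ∈ Lk w d lam f 0, (∑ z ∈ Qs w, rq w z * hit (Dw w) (Kk w d lam f 0) z v) ^ 2 ≤
        ∑ v ∈ Kk w d lam f 0, (∑ z ∈ Qs w, rq w z * hit (Dw w) (Kk w d lam f 0) z v) ^ 2 :=
      Finset.sum_le_sum_of_subset_of_nonneg (h835_LK w d lam f 0) (fun _ _ _ => sq_nonneg _)
    rw [zero_add, Finset.sum_range_one]
    linarith
  | succ T ih =>
    have hU : Kk w d lam f T ∪ (Kk w d lam f (T + 1) \ Kk w d lam f T) = Kk w d lam f (T + 1) :=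
      Finset.union_sdiff_of_subset (h835_Kmono w d lam f T)
    have h := quad_drop (Dw w) (Kk w d lam f T) (Kk w d lam f (T + 1) \ Kk w d lam f T) (Qs w) (rq w)
      (h835_rq_nonneg w)
      (Finset.sdiff_subset_sdiff (h835_KD w d lam f (T + 1) hd hw) (Finset.Subset.refl _))
      (Finset.disjoint_of_subset_right Finset.sdiff_subset (h835_KQ w d lam f (T + 1)))
    rw [hU] at h
    have hsub : Lk w d lam f (T + 1) ⊆ Kk w d lam f (T + 1) \ Kk w d lam f T := by
      intro z hz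
      rw [Finset.mem_sdiff]
      exact ⟨h835_LK w d lam f (T + 1) hz, fun h' => (Finset.disjoint_left.mp (h835_Ldisj w d lam f T)) hz h'⟩
    have h2 : ∑ v ∈ Lk w d lam f (T + 1), (∑ z ∈ Qs w, rq w z * hit (Dw w) (Kk w d lam f (T + 1)) z v) ^ 2 ≤
        ∑ v ∈ Kk w d lam f (T + 1) \ Kk w d lam f T,
          (∑ z ∈ Qs w, rq w z * hit (Dw w) (Kk w d lam f (T + 1)) z v) ^ 2 :=
      Finset.sum_le_sum_of_subset_of_nonneg hsub (fun _ _ _ => sq_nonneg _)
    rw [Finset.sum_range_succ]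
    linarith

lemma h835_V0 (w : ℕ) (hw : 10 ^ 9 ≤ w) :
    ∑ x ∈ Qs w, ∑ y ∈ Qs w, rq w x * green (Dw w) x y * rq w y ≤ 10 := by
  have hcard : (w : ℝ) ^ 2 / 5 ≤ ((Qs w).card : ℝ) := by
    have h1 : (Qs w).card = w * (w / 2 - w / 4) := by
      unfold Qs rect
      rw [Finset.card_product, Int.card_Icc, Int.card_Icc]
      have e1 : (6 * (w : ℤ) + 1 - (5 * (w : ℤ) + 1)).toNat = w := by omega
      have e2 : ((w : ℤ) / 2 + 1 - ((w : ℤ) / 4 + 1)).toNat = w / 2 - w / 4 := by omega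
      rw [e1, e2]
    have h2 : w ≤ 5 * (w / 2 - w / 4) := by omega
    rw [h1]
    have h3 : (w : ℝ) ≤ 5 * ((w / 2 - w / 4 : ℕ) : ℝ) := by exact_mod_cast h2
    push_cast [Nat.cast_mul]
    nlinarith [Nat.cast_nonneg (α := ℝ) w]
  have hwpos : (0 : ℝ) < w := by
    have : 0 < w := by omega
    exact_mod_cast this
  have hcpos : (0 : ℝ) < ((Qs w).card : ℝ) := lt_of_lt_of_le (by positivity) hcard
  have hrow : ∀ x ∈ Qs w, ∑ y ∈ Qs w, green (Dw w) x y ≤ (w : ℝ) ^ 2 / 2 := by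
    intro x hx
    have hxD : x ∈ Dw w := by
      unfold Qs at hx
      unfold Dw
      rw [h835_mem_rect] at hx ⊢
      omega
    have hQD : Qs w ⊆ Dw w := by
      intro z hz
      unfold Qs at hz
      unfold Dw
      rw [h835_mem_rect] at hz ⊢
      omega
    have h1 : ∑ y ∈ Qs w, green (Dw w) x y ≤ ∑ y ∈ Dw w, green (Dw w) x y :=
      Finset.sum_le_sum_of_subset_of_nonneg hQD (fun y _ _ => (green_basic (Dw w)).1 x y)
    have h2 := row_le (Dw w) 0 w (by
      intro z hz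
      unfold Dw at hz
      rw [h835_mem_rect] at hz
      omega) x hxD
    have h3 : 2 * ((x.2 : ℝ) - (0 : ℤ)) * (((0 : ℤ) : ℝ) + (w : ℝ) - (x.2 : ℝ)) ≤ (w : ℝ) ^ 2 / 2 := by
      push_cast
      nlinarith [sq_nonneg ((x.2 : ℝ) - w / 2)]
    exact h1.trans (h2.trans h3)
  calc ∑ x ∈ Qs w, ∑ y ∈ Qs w, rq w x * green (Dw w) x y * rq w y
      = ∑ x ∈ Qs w, (1 / ((Qs w).card : ℝ)) ^ 2 * ∑ y ∈ Qs w, green (Dw w) x y := by
        refine Finset.sum_congr rfl (fun x _ => ?_)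
        rw [Finset.mul_sum]
        refine Finset.sum_congr rfl (fun y _ => ?_)
        unfold rq; ring
    _ ≤ ∑ x ∈ Qs w, (1 / ((Qs w).card : ℝ)) ^ 2 * ((w : ℝ) ^ 2 / 2) := by
        refine Finset.sum_le_sum (fun x hx => ?_)
        exact mul_le_mul_of_nonneg_left (hrow x hx) (by positivity)
    _ = (1 / ((Qs w).card : ℝ)) * ((w : ℝ) ^ 2 / 2) := by
        rw [Finset.sum_const, nsmul_eq_mul]
        field_simp
    _ ≤ 10 := by
        rw [div_mul_eq_mul_div, one_mul, div_le_iff₀ hcpos]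
        nlinarith

lemma h835_A (w d : ℕ) (lam : ℝ) (f : ℤ × ℤ → ℝ) (hd : 1 ≤ d) (hw : 10 ^ 9 * d ≤ w) (T : ℕ) :
    ∑ k ∈ Finset.range T, ∑ v ∈ Lk w d lam f k,
        (∑ z ∈ Qs w, rq w z * hit (Dw w) (Kk w d lam f k) z v) ^ 2 ≤ 10 := by
  rcases T with _ | T
  · simp
  · have h := h835_tel w d lam f hd hw T
    have h2 := h835_V_nonneg w (Dw w \ Kk w d lam f T)
    have h3 := h835_V0 w (by omega)
    linarith

lemma h835_Ak {w d : ℕ} {lam Kp : ℝ} {f : ℤ × ℤ → ℝ} {j m k : ℕ} {c : ℤ × ℤ}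
    (h : c ∈ Ak w d lam Kp f j m k) : cr j c = c ∧ act w d lam f j m k c ∧ selB w d lam Kp f j c := by
  unfold Ak at h
  simp only [Finset.mem_filter] at h
  exact h.2

/-- Cauchy–Schwarz for double sums. -/
lemma h835_cs {α : Type*} (T : ℕ) (A : ℕ → Finset α) (g h : ℕ → α → ℝ) (G H : ℝ)
    (hG : ∑ k ∈ Finset.range T, ∑ v ∈ A k, (g k v) ^ 2 ≤ G)
    (hH : ∑ k ∈ Finset.range T, ∑ v ∈ A k, (h k v) ^ 2 ≤ H) :
    ∑ k ∈ Finset.range T, ∑ v ∈ A k, g k v * h k v ≤ Real.sqrt G * Real.sqrt H := by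
  rw [Finset.sum_sigma'] at hG hH ⊢
  have h1 := Finset.sum_mul_sq_le_sq_mul_sq ((Finset.range T).sigma A)
    (fun x => g x.1 x.2) (fun x => h x.1 x.2)
  have hG0 : 0 ≤ G := le_trans (Finset.sum_nonneg (fun _ _ => sq_nonneg _)) hG
  have hH0 : 0 ≤ H := le_trans (Finset.sum_nonneg (fun _ _ => sq_nonneg _)) hH
  rw [← Real.sqrt_mul hG0]
  apply Real.le_sqrt_of_sq_le
  refine h1.trans ?_
  exact mul_le_mul hG hH (Finset.sum_nonneg (fun _ _ => sq_nonneg _)) hG0

theorem _root_.H941.det_total : ∃ C kap : ℝ, 0 < C ∧ 0 < kap ∧ kap ≤ 1 ∧ ∀ (w d : ℕ) (lam Kp : ℝ) (f : ℤ × ℤ → ℝ) (m : ℕ → ℕ) (T : ℕ),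
    1 ≤ d → 10 ^ 9 * d ≤ w → 0 ≤ lam → (∀ j, Kp * 2 ^ j ≤ m j) → (∀ j, 1 ≤ m j) →
    (∀ i ≤ T, ∀ v ∈ Lk w d lam f i, v.1 ≠ 5 * w) → (∀ k < T, Mk w d lam f k ≤ lam / (2 * 10 ^ 8)) →
    lam * T ≤ C * (Real.sqrt (Ys w d lam Kp f T) +
      ∑ j ∈ Finset.range (Nat.log 2 w + 1), Real.sqrt (m j * Yb kap w d lam Kp f j (m j) T) +
      (d / w) * ((T : ℝ) ^ 3 * Ye kap w d lam f T) ^ (1 / 4 : ℝ)) := by
  obtain ⟨Ce, hCe, hE⟩ := energy_sum
  obtain ⟨C0, kap, hC0, hkap, hkap1, hS⟩ := det_step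
  refine ⟨2 * 10 ^ 8 * (4 + C0 * Real.sqrt (Ce * 10) + 2 * C0), kap, by positivity, hkap, hkap1, ?_⟩
  intro w d lam Kp f m T hd hw hlam hKm hm1 hL hM
  have hwd : 10 ^ 9 ≤ w := by omega
  -- choose the data of the steps
  have hstep : ∀ k : ℕ, ∃ (b1 b2 : ℕ) (Mx : ℕ → ℤ × ℤ → ℝ), k < T → (b1 ≤ 5 * w / d ∧ b2 ≤ 5 * w / d ∧
      (∀ j, ∀ c ∈ Ak w d lam Kp f j (m j) k, ∃ z ∈ ball c (64 * 2 ^ j + 1),
        Mx j c = gp (Dw w \ Kk w d lam f k) (Qs w) (rq w) z) ∧
      lam / 10 ^ 8 ≤ Mk w d lam f k +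
        ∑ v ∈ (Lk w d lam f k).filter (fun v => @decide (sgl w d lam Kp f v) (Classical.dec _) = true),
          (∑ z ∈ Qs w, rq w z * hit (Dw w) (Kk w d lam f k) z v) * max 0 (lam - f v) +
        C0 * ∑ j ∈ Finset.range (Nat.log 2 w + 1), ∑ c ∈ Ak w d lam Kp f j (m j) k, Mx j c * Phi kap w d lam f k c (2 ^ (j + 1)) +
        C0 * (d / w) * (Phi kap w d lam f k ((b1 : ℤ) * d, 0) (3 * d) + Phi kap w d lam f k ((b2 : ℤ) * d, (w : ℤ)) (3 * d))) := by
    intro k
    by_cases hk : k < T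
    · obtain ⟨b1, b2, Mx, h⟩ := hS w d lam Kp f m k hd hw hlam hKm (fun i hi => hL i (by omega))
      exact ⟨b1, b2, Mx, fun _ => h⟩
    · exact ⟨0, 0, fun _ _ => 0, fun h => absurd h hk⟩
  choose b1 b2 Mx hb using hstep
  -- (A)
  have hA : ∑ k ∈ Finset.range T, ∑ v ∈ (Lk w d lam f k).filter (fun v => @decide (sgl w d lam Kp f v) (Classical.dec _) = true),
          (∑ z ∈ Qs w, rq w z * hit (Dw w) (Kk w d lam f k) z v) * max 0 (lam - f v) ≤
      4 * Real.sqrt (Ys w d lam Kp f T) := by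
    have h1 := h835_cs T (fun k => (Lk w d lam f k).filter (fun v => @decide (sgl w d lam Kp f v) (Classical.dec _) = true))
      (fun k v => ∑ z ∈ Qs w, rq w z * hit (Dw w) (Kk w d lam f k) z v) (fun k v => max 0 (lam - f v)) 10
      (Ys w d lam Kp f T) ?_ ?_
    · refine h1.trans ?_
      refine mul_le_mul_of_nonneg_right ?_ (Real.sqrt_nonneg _)
      rw [show (4 : ℝ) = Real.sqrt 16 by
        rw [show (16 : ℝ) = 4 ^ 2 by norm_num, Real.sqrt_sq (by norm_num)]]
      exact Real.sqrt_le_sqrt (by norm_num)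
    · refine le_trans (Finset.sum_le_sum (fun k _ => ?_)) (h835_A w d lam f hd hw T)
      exact Finset.sum_le_sum_of_subset_of_nonneg (Finset.filter_subset _ _) (fun _ _ _ => sq_nonneg _)
    · unfold Ys
      refine Finset.sum_le_sum (fun k _ => ?_)
      refine le_of_eq_of_le ?_ (Finset.sum_le_sum (f := fun v => (max 0 (lam - f v)) ^ 2) (fun v _ => ?_))
      · refine Finset.sum_congr ?_ (fun _ _ => rfl)
        ext v
        simp only [Finset.mem_filter, decide_eq_true_eq]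
      · rcases le_total 0 (lam - f v) with h | h
        · rw [max_eq_right h]
        · rw [max_eq_left h]
          have := sq_nonneg (lam - f v)
          simpa using this
  -- (B)
  have hB : ∀ j : ℕ, ∑ k ∈ Finset.range T, ∑ c ∈ Ak w d lam Kp f j (m j) k, Mx k j c * Phi kap w d lam f k c (2 ^ (j + 1)) ≤
      Real.sqrt (Ce * 10) * Real.sqrt (m j * Yb kap w d lam Kp f j (m j) T) := by
    intro j
    have hEj : ∑ k ∈ Finset.range T, ∑ c ∈ Ak w d lam Kp f j (m j) k, (Mx k j c) ^ 2 ≤ Ce * (m j) * 10 := by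
      have h1 := hE (Dw w) (Qs w) (rq w) (fun k => Kk w d lam f k) (2 ^ j) (m j) T
        (fun k => if k < T then Ak w d lam Kp f j (m j) k else ∅) (fun k c => Mx k j c)
        (h835_rq_nonneg w) (h835_Kmono w d lam f) Nat.one_le_two_pow (hm1 j) ?_ ?_ ?_ ?_ ?_
      · have h2 : ∑ k ∈ Finset.range T, ∑ c ∈ (if k < T then Ak w d lam Kp f j (m j) k else ∅), (Mx k j c) ^ 2 =
            ∑ k ∈ Finset.range T, ∑ c ∈ Ak w d lam Kp f j (m j) k, (Mx k j c) ^ 2 := by
          refine Finset.sum_congr rfl (fun k hk => ?_)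
          rw [if_pos (Finset.mem_range.mp hk)]
        rw [← h2]
        refine h1.trans ?_
        exact mul_le_mul_of_nonneg_left (h835_V0 w hwd) (by positivity)
      · intro k c hc
        by_cases hk : k < T
        · rw [if_pos hk] at hc
          have hcr := (h835_Ak hc).1
          constructor
          · rw [← hcr]; simp only [cr]; push_cast; exact dvd_mul_right _ _
          · rw [← hcr]; simp only [cr]; push_cast; exact dvd_mul_right _ _
        · rw [if_neg hk] at hc; simp at hc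
      · intro k c hc
        by_cases hk : k < T
        · rw [if_pos hk] at hc
          have hg := ((h835_Ak hc).2.2).1
          rw [Finset.disjoint_left]
          intro z hz hz'
          have hz2 : z ∈ ball c (256 * 2 ^ j) := by
            unfold ball at hz ⊢
            rw [h835_mem_rect] at hz ⊢
            push_cast at hz
            have : (0 : ℤ) < 2 ^ j := by positivity
            omega
          have hz3 := hg.1 hz2
          unfold Qs at hz'
          rw [h835_mem_rect] at hz3 hz'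
          omega
        · rw [if_neg hk] at hc; simp at hc
      · intro k c hc
        by_cases hk : k < T
        · rw [if_pos hk] at hc
          obtain ⟨hcr, ⟨k', hk', -, ⟨v, hv, hvc⟩, -⟩, hg, -⟩ := h835_Ak hc
          obtain ⟨hsub, H, hHc, hHb, hHcard, hHsep⟩ := hg
          have hpow : (0 : ℤ) < 2 ^ j := by positivity
          have hvb : v ∈ ball c ((128 * 2 ^ j : ℕ) : ℤ) := by
            rw [← hvc]
            unfold ball
            rw [h835_mem_rect]
            simp only [cr]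
            have q1 := Int.emod_nonneg v.1 (ne_of_gt hpow)
            have q2 := Int.emod_lt_of_pos v.1 hpow
            have q3 := Int.emod_nonneg v.2 (ne_of_gt hpow)
            have q4 := Int.emod_lt_of_pos v.2 hpow
            have q5 := Int.mul_ediv_add_emod v.1 (2 ^ j)
            have q6 := Int.mul_ediv_add_emod v.2 (2 ^ j)
            push_cast
            constructor <;> constructor <;> linarith
          have e1 : (2 * ((128 * 2 ^ j : ℕ) : ℤ)) = 256 * 2 ^ j := by push_cast; ring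
          have e2 : ((128 * 2 ^ j : ℕ) : ℤ) = 128 * 2 ^ j := by push_cast; ring
          have e3 : (128 * ((2 ^ j : ℕ) : ℤ)) = ((128 * 2 ^ j : ℕ) : ℤ) := by push_cast; ring
          rw [e3]
          refine shield w d hd (by omega) lam f (rq w) c (128 * 2 ^ j) H ?_ hHc ?_ ?_ ?_ k k' (m j) v hv hvb hk' ?_
          · intro z hz
            refine ⟨(hHb z hz).1, ?_⟩
            have := hsub (hHb z hz).2
            rw [h835_mem_rect] at this ⊢
            omega
          · intro a b ha hb' r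
            rw [e1] at hb'
            rw [e2] at ha
            exact hHsep a b ha hb' r
          · intro z hz
            rw [e1] at hz
            have := hsub hz
            rw [h835_mem_rect] at this
            omega
          · rw [e1, Finset.disjoint_left]
            intro z hz hz'
            have := hsub hz
            unfold Qs at hz'
            rw [h835_mem_rect] at this hz'
            omega
          · have : (H.card : ℝ) ≤ (m j : ℝ) := hHcard.trans (hKm j)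
            exact_mod_cast this
        · rw [if_neg hk] at hc; simp at hc
      · intro k c hc
        by_cases hk : k < T
        · rw [if_pos hk] at hc
          obtain ⟨hcr, ⟨k', hk', -, ⟨v, hv, hvc⟩, -⟩, hg, -⟩ := h835_Ak hc
          obtain ⟨hsub, -⟩ := hg
          have hpow : (0 : ℤ) < 2 ^ j := by positivity
          have q1 := Int.emod_nonneg v.1 (ne_of_gt hpow)
          have q2 := Int.emod_lt_of_pos v.1 hpow
          have q3 := Int.emod_nonneg v.2 (ne_of_gt hpow)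
          have q4 := Int.emod_lt_of_pos v.2 hpow
          have q5 := Int.mul_ediv_add_emod v.1 (2 ^ j)
          have q6 := Int.mul_ediv_add_emod v.2 (2 ^ j)
          have hc1 : c.1 = 2 ^ j * (v.1 / 2 ^ j) := by rw [← hvc]; rfl
          have hc2 : c.2 = 2 ^ j * (v.2 / 2 ^ j) := by rw [← hvc]; rfl
          have hvb : v ∈ ball c (128 * 2 ^ j) := by
            unfold ball
            rw [h835_mem_rect]
            constructor <;> constructor <;> linarith
          obtain ⟨u, hu, p, -, hp⟩ := (expl_facts _ _ (h835_K0R w d) (fun v => f v ≤ lam)).2.2.2.2.2.1 k' v hv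
          have hub : u ∉ ball c (128 * 2 ^ j) := by
            intro hub
            have hub2 : u ∈ ball c (256 * 2 ^ j) := by
              unfold ball at hub ⊢
              rw [h835_mem_rect] at hub ⊢
              omega
            have := hsub hub2
            rw [h835_mem_rect] at this hu
            omega
          obtain ⟨e, q, hq, he⟩ := h835_walk_cut c (128 * 2 ^ j) p.reverse hvb hub
          refine ⟨v, e, q, ?_, ?_⟩
          · intro z hz
            have hz1 := hq z hz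
            rw [SimpleGraph.Walk.support_reverse, List.mem_reverse] at hz1
            refine ⟨by push_cast; exact hz1.2, ?_⟩
            rw [Finset.mem_sdiff, not_and_not_right]
            intro _
            exact h835_Kmono' w d lam f hk' (hp z hz1.1).1
          · push_cast
            rcases he with he | he
            · left
              have a1 := abs_sub_abs_le_abs_sub (e.1 - c.1) (v.1 - c.1)
              have a2 : |v.1 - c.1| ≤ 2 ^ j := by rw [abs_le]; constructor <;> linarith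
              have a3 : |v.1 - e.1| = |(e.1 - c.1) - (v.1 - c.1)| := by
                rw [abs_sub_comm]; congr 1; ring
              rw [a3]; linarith
            · right
              have a1 := abs_sub_abs_le_abs_sub (e.2 - c.2) (v.2 - c.2)
              have a2 : |v.2 - c.2| ≤ 2 ^ j := by rw [abs_le]; constructor <;> linarith
              have a3 : |v.2 - e.2| = |(e.2 - c.2) - (v.2 - c.2)| := by
                rw [abs_sub_comm]; congr 1; ring
              rw [a3]; linarith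
        · rw [if_neg hk] at hc; simp at hc
      · intro k c hc
        by_cases hk : k < T
        · rw [if_pos hk] at hc
          obtain ⟨z, hz, h⟩ := (hb k hk).2.2.1 j c hc
          exact ⟨z, by push_cast; exact hz, h⟩
        · rw [if_neg hk] at hc; simp at hc
    have h1 := h835_cs T (fun k => Ak w d lam Kp f j (m j) k) (fun k c => Mx k j c)
      (fun k c => Phi kap w d lam f k c (2 ^ (j + 1))) (Ce * (m j) * 10) (Yb kap w d lam Kp f j (m j) T) hEj (le_refl _)
    refine h1.trans (le_of_eq ?_)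
    rw [← Real.sqrt_mul (by positivity), ← Real.sqrt_mul (by positivity)]
    congr 1; ring
  -- (C)
  have hPhi0 : ∀ k c r, 0 ≤ Phi kap w d lam f k c r := by
    intro k c r
    unfold Phi
    exact Finset.sum_nonneg (fun l _ => mul_nonneg (by positivity) (Real.sqrt_nonneg _))
  have hYe0 : 0 ≤ Ye kap w d lam f T := by
    unfold Ye
    exact Finset.sum_nonneg (fun k _ => Finset.sum_nonneg (fun b _ => by positivity))
  have hC : ∑ k ∈ Finset.range T, (Phi kap w d lam f k ((b1 k : ℤ) * d, 0) (3 * d) +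
      Phi kap w d lam f k ((b2 k : ℤ) * d, (w : ℤ)) (3 * d)) ≤
      2 * ((T : ℝ) ^ 3 * Ye kap w d lam f T) ^ (1 / 4 : ℝ) := by
    set x : ℕ → ℝ := fun k => Phi kap w d lam f k ((b1 k : ℤ) * d, 0) (3 * d) +
      Phi kap w d lam f k ((b2 k : ℤ) * d, (w : ℤ)) (3 * d) with hx
    have hx0 : ∀ k, 0 ≤ x k := fun k => add_nonneg (hPhi0 _ _ _) (hPhi0 _ _ _)
    have hx4 : ∑ k ∈ Finset.range T, (x k) ^ 4 ≤ 8 * Ye kap w d lam f T := by
      unfold Ye
      rw [Finset.mul_sum]
      refine Finset.sum_le_sum (fun k hk => ?_)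
      obtain ⟨hb1, hb2, -, -⟩ := hb k (Finset.mem_range.mp hk)
      rw [Finset.sum_add_distrib]
      have g1 : (Phi kap w d lam f k ((b1 k : ℤ) * d, 0) (3 * d)) ^ 4 ≤
          ∑ b ∈ Finset.range (5 * w / d + 1), (Phi kap w d lam f k ((b : ℤ) * d, 0) (3 * d)) ^ 4 :=
        Finset.single_le_sum (f := fun b : ℕ => (Phi kap w d lam f k ((b : ℤ) * d, 0) (3 * d)) ^ 4)
          (fun b _ => by positivity) (Finset.mem_range.mpr (by omega))
      have g2 : (Phi kap w d lam f k ((b2 k : ℤ) * d, (w : ℤ)) (3 * d)) ^ 4 ≤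
          ∑ b ∈ Finset.range (5 * w / d + 1), (Phi kap w d lam f k ((b : ℤ) * d, (w : ℤ)) (3 * d)) ^ 4 :=
        Finset.single_le_sum (f := fun b : ℕ => (Phi kap w d lam f k ((b : ℤ) * d, (w : ℤ)) (3 * d)) ^ 4)
          (fun b _ => by positivity) (Finset.mem_range.mpr (by omega))
      have g3 : ∀ a b : ℝ, (a + b) ^ 4 ≤ 8 * (a ^ 4 + b ^ 4) := by
        intro a b
        nlinarith [sq_nonneg (a - b), sq_nonneg (a + b), sq_nonneg (a ^ 2 - b ^ 2), mul_nonneg (sq_nonneg (a - b)) (sq_nonneg (a + b)), mul_nonneg (sq_nonneg (a - b)) (sq_nonneg a), mul_nonneg (sq_nonneg (a - b)) (sq_nonneg b), mul_nonneg (sq_nonneg (a - b)) (sq_nonneg (a - b))]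
      have g4 := g3 (Phi kap w d lam f k ((b1 k : ℤ) * d, 0) (3 * d)) (Phi kap w d lam f k ((b2 k : ℤ) * d, (w : ℤ)) (3 * d))
      simp only [hx]
      linarith
    have hpow : (∑ k ∈ Finset.range T, x k) ^ 4 ≤ (T : ℝ) ^ 3 * ∑ k ∈ Finset.range T, (x k) ^ 4 := by
      have h1 := pow_sum_div_card_le_sum_pow (s := Finset.range T) (f := x) (fun k _ => hx0 k) 3
      rw [Finset.card_range] at h1
      rcases Nat.eq_zero_or_pos T with hT | hT
      · subst hT; simp
      · have hT' : (0 : ℝ) < (T : ℝ) ^ 3 := by positivity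
        rw [div_le_iff₀ hT'] at h1
        rw [mul_comm]
        exact h1
    have hfin : (∑ k ∈ Finset.range T, x k) ^ 4 ≤ (2 * ((T : ℝ) ^ 3 * Ye kap w d lam f T) ^ (1 / 4 : ℝ)) ^ 4 := by
      have h1 : (2 * ((T : ℝ) ^ 3 * Ye kap w d lam f T) ^ (1 / 4 : ℝ)) ^ 4 = 16 * ((T : ℝ) ^ 3 * Ye kap w d lam f T) := by
        rw [mul_pow, ← Real.rpow_natCast (((T : ℝ) ^ 3 * Ye kap w d lam f T) ^ (1 / 4 : ℝ)) 4,
          ← Real.rpow_mul (by positivity)]
        norm_num
      rw [h1]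
      have hT3 : (0 : ℝ) ≤ (T : ℝ) ^ 3 := by positivity
      have h2 := mul_le_mul_of_nonneg_left hx4 hT3
      have h3 := mul_nonneg hT3 hYe0
      linarith
    exact le_of_pow_le_pow_left₀ (by norm_num) (by positivity) hfin
  -- sum up
  have hsum : ∑ k ∈ Finset.range T, lam / 10 ^ 8 ≤ ∑ k ∈ Finset.range T, (lam / (2 * 10 ^ 8) +
        ∑ v ∈ (Lk w d lam f k).filter (fun v => @decide (sgl w d lam Kp f v) (Classical.dec _) = true),
          (∑ z ∈ Qs w, rq w z * hit (Dw w) (Kk w d lam f k) z v) * max 0 (lam - f v) +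
        C0 * ∑ j ∈ Finset.range (Nat.log 2 w + 1), ∑ c ∈ Ak w d lam Kp f j (m j) k, Mx k j c * Phi kap w d lam f k c (2 ^ (j + 1)) +
        C0 * (d / w) * (Phi kap w d lam f k ((b1 k : ℤ) * d, 0) (3 * d) + Phi kap w d lam f k ((b2 k : ℤ) * d, (w : ℤ)) (3 * d))) := by
    refine Finset.sum_le_sum (fun k hk => ?_)
    have h1 := (hb k (Finset.mem_range.mp hk)).2.2.2
    have h2 := hM k (Finset.mem_range.mp hk)
    linarith
  rw [Finset.sum_add_distrib, Finset.sum_add_distrib, Finset.sum_add_distrib, ← Finset.mul_sum, ← Finset.mul_sum,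
    Finset.sum_comm (s := Finset.range T) (t := Finset.range (Nat.log 2 w + 1)), Finset.sum_const, Finset.sum_const,
    Finset.card_range, nsmul_eq_mul, nsmul_eq_mul] at hsum
  have hBs : ∑ j ∈ Finset.range (Nat.log 2 w + 1), ∑ k ∈ Finset.range T,
      ∑ c ∈ Ak w d lam Kp f j (m j) k, Mx k j c * Phi kap w d lam f k c (2 ^ (j + 1)) ≤
      Real.sqrt (Ce * 10) * ∑ j ∈ Finset.range (Nat.log 2 w + 1), Real.sqrt (m j * Yb kap w d lam Kp f j (m j) T) := by
    rw [Finset.mul_sum]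
    exact Finset.sum_le_sum (fun j _ => hB j)
  set SA := Real.sqrt (Ys w d lam Kp f T) with hSA
  set SB := ∑ j ∈ Finset.range (Nat.log 2 w + 1), Real.sqrt (m j * Yb kap w d lam Kp f j (m j) T) with hSB
  set SC := ((T : ℝ) ^ 3 * Ye kap w d lam f T) ^ (1 / 4 : ℝ) with hSC
  have hSA0 : 0 ≤ SA := Real.sqrt_nonneg _
  have hSB0 : 0 ≤ SB := Finset.sum_nonneg (fun _ _ => Real.sqrt_nonneg _)
  have hSC0 : 0 ≤ SC := by positivity
  have hdw : (0 : ℝ) ≤ (d : ℝ) / w := by positivity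
  have hs0 : 0 ≤ Real.sqrt (Ce * 10) := Real.sqrt_nonneg _
  have f1 := mul_le_mul_of_nonneg_left hBs hC0.le
  have f2 := mul_le_mul_of_nonneg_left hC (mul_nonneg hC0.le hdw)
  have f3 : (T : ℝ) * (lam / 10 ^ 8) - (T : ℝ) * (lam / (2 * 10 ^ 8)) = lam * T / (2 * 10 ^ 8) := by ring
  have f4 : lam * T / (2 * 10 ^ 8) ≤ 4 * SA + C0 * (Real.sqrt (Ce * 10) * SB) + C0 * (d / w) * (2 * SC) := by
    linarith
  have f5 : lam * T = 2 * 10 ^ 8 * (lam * T / (2 * 10 ^ 8)) := by ring
  rw [f5]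
  have hx1 : 0 ≤ C0 * Real.sqrt (Ce * 10) := mul_nonneg hC0.le hs0
  have hx2 : 0 ≤ (d : ℝ) / w * SC := mul_nonneg hdw hSC0
  have f6 : 4 * SA + C0 * (Real.sqrt (Ce * 10) * SB) + C0 * (d / w) * (2 * SC) ≤
      (4 + C0 * Real.sqrt (Ce * 10) + 2 * C0) * (SA + SB + d / w * SC) := by
    have y1 := mul_nonneg hx1 hSA0
    have y2 := mul_nonneg hC0.le hSA0
    have y3 := mul_nonneg hC0.le hSB0
    have y4 := mul_nonneg hx1 hx2
    have y5 := mul_nonneg hC0.le hx2
    nlinarith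
  calc 2 * 10 ^ 8 * (lam * T / (2 * 10 ^ 8)) ≤ 2 * 10 ^ 8 * ((4 + C0 * Real.sqrt (Ce * 10) + 2 * C0) * (SA + SB + d / w * SC)) := by
        exact mul_le_mul_of_nonneg_left (f4.trans f6) (by norm_num)
    _ = 2 * 10 ^ 8 * (4 + C0 * Real.sqrt (Ce * 10) + 2 * C0) * (SA + SB + d / w * SC) := by ring

end H941.det_total
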