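import Pool.Agent.KS6_63.GFF.Defs4
import Pool.Agent.KS6_63.GFF.A3
import Pool.Agent.KS6_63.GFF.A4
import Pool.Agent.KS6_63.GFF.G1

open MeasureTheory ProbabilityTheory

namespace H941.markov_split

theorem _root_.H941.markov_split (S S' D : Finset (ℤ × ℤ)) (hDS : D ⊆ S') (hS : S' ⊆ S) :
    (Matrix.of fun x y : (S : Finset (ℤ × ℤ)) => (1 / 4) * (green S' x y - green D x y)).PosSemidef ∧
    ((multivariateGaussian (0 : EuclideanSpace ℝ (S : Finset (ℤ × ℤ)))
        (Matrix.of fun x y : (S : Finset (ℤ × ℤ)) => (1 / 4) * (green S' x y - green D x y))).prod (gf S D)).map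
        (fun p => p.1 + p.2) = gf S S' ∧
    ∀ A : (ℤ × ℤ → ℝ) → Prop, MeasurableSet {x : EuclideanSpace ℝ (D : Finset (ℤ × ℤ)) | A (extf D x)} →
      MeasurableSet {x : EuclideanSpace ℝ (S : Finset (ℤ × ℤ)) | A (extf S x)} →
      gf S D {x | A (extf S x)} = gf D D {x | A (extf D x)} := by
  have hsymm := fun E : Finset (ℤ × ℤ) => (green_basic E).2.2.1
  have hvan := fun E : Finset (ℤ × ℤ) => (green_basic E).2.1
  -- the psd property
  have hpsd : ∀ D S' : Finset (ℤ × ℤ), D ⊆ S' → S' ⊆ S →
      (Matrix.of fun x y : (S : Finset (ℤ × ℤ)) =>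
        (1 / 4) * (green S' x y - green D x y)).PosSemidef := by
    intro D S' hDS hS
    refine Matrix.PosSemidef.of_dotProduct_mulVec_nonneg ?_ ?_
    · ext i j
      simp only [Matrix.conjTranspose_apply, Matrix.of_apply, star_trivial]
      rw [hsymm S', hsymm D]
    · intro x
      set f : ℤ × ℤ → ℝ := fun v => if h : v ∈ S then x ⟨v, h⟩ else 0 with hf
      have hfx : ∀ i : (S : Finset (ℤ × ℤ)), f i = x i := by
        intro i
        simp only [hf]
        rw [dif_pos i.2]
      have h1 : dotProduct (star x) (Matrix.mulVec (Matrix.of fun x y : (S : Finset (ℤ × ℤ)) =>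
          (1 / 4) * (green S' x y - green D x y)) x) =
          (1 / 4) * ∑ u ∈ S', ∑ v ∈ S', f u * (green S' u v - green D u v) * f v := by
        have h2 : ∑ u ∈ S', ∑ v ∈ S', f u * (green S' u v - green D u v) * f v =
            ∑ u ∈ S, ∑ v ∈ S, f u * (green S' u v - green D u v) * f v := by
          rw [← Finset.sum_subset hS]
          · refine Finset.sum_congr rfl fun u _ => ?_
            refine Finset.sum_subset hS fun v _ hv => ?_
            rw [hvan S' u v (Or.inr hv), hvan D u v (Or.inr fun h => hv (hDS h))]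
            ring
          · intro u _ hu
            refine Finset.sum_eq_zero fun v _ => ?_
            rw [hvan S' u v (Or.inl hu), hvan D u v (Or.inl fun h => hu (hDS h))]
            ring
        rw [h2, ← Finset.sum_coe_sort S
          (fun u => ∑ v ∈ S, f u * (green S' u v - green D u v) * f v)]
        simp only [dotProduct, Matrix.mulVec, Matrix.of_apply, Pi.star_apply, star_trivial]
        rw [Finset.mul_sum]
        refine Finset.sum_congr rfl fun i _ => ?_
        rw [← Finset.sum_coe_sort S
          (fun v => f i * (green S' i v - green D i v) * f v), Finset.mul_sum, Finset.mul_sum]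
        refine Finset.sum_congr rfl fun j _ => ?_
        rw [hfx, hfx]
        ring
      rw [h1]
      have := green_psd D S' hDS f
      positivity
  have hgr0 : ∀ u v, green ∅ u v = 0 := fun u v => hvan ∅ u v (Or.inl (by simp))
  have hpsd' : ∀ E : Finset (ℤ × ℤ), E ⊆ S →
      (Matrix.of fun x y : (S : Finset (ℤ × ℤ)) => (1 / 4) * green E x y).PosSemidef := by
    intro E hE
    have := hpsd ∅ E (by simp) hE
    simpa [hgr0] using this
  refine ⟨hpsd D S' hDS hS, ?_, ?_⟩
  · have hconv : ((multivariateGaussian (0 : EuclideanSpace ℝ (S : Finset (ℤ × ℤ)))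
        (Matrix.of fun x y : (S : Finset (ℤ × ℤ)) =>
          (1 / 4) * (green S' x y - green D x y))).prod (gf S D)).map
        (fun p => p.1 + p.2) =
        (multivariateGaussian (0 : EuclideanSpace ℝ (S : Finset (ℤ × ℤ)))
        (Matrix.of fun x y : (S : Finset (ℤ × ℤ)) =>
          (1 / 4) * (green S' x y - green D x y))).conv (gf S D) := rfl
    rw [hconv]
    unfold gf
    apply Measure.ext_of_charFun
    ext t
    rw [charFun_conv, charFun_multivariateGaussian (hpsd D S' hDS hS),
      charFun_multivariateGaussian (hpsd' D (hDS.trans hS)),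
      charFun_multivariateGaussian (hpsd' S' hS), ← Complex.exp_add]
    congr 1
    have hadd : (Matrix.of fun x y : (S : Finset (ℤ × ℤ)) => (1 / 4) * green S' x y) =
        (Matrix.of fun x y : (S : Finset (ℤ × ℤ)) =>
          (1 / 4) * (green S' x y - green D x y)) +
        (Matrix.of fun x y : (S : Finset (ℤ × ℤ)) => (1 / 4) * green D x y) := by
      ext i j
      simp only [Matrix.of_apply, Matrix.add_apply]
      ring
    rw [hadd, Matrix.add_mulVec, dotProduct_add]
    simp only [inner_zero_right]
    push_cast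
    ring
  · intro A hA hA'
    have hDS' : D ⊆ S := hDS.trans hS
    have hmp := measurePreserving_restrict₂_multivariateGaussian
      (μ := (0 : EuclideanSpace ℝ (S : Finset (ℤ × ℤ)))) (hpsd' D hDS') hDS'
    have hmp' : MeasurePreserving (EuclideanSpace.restrict₂ (𝕜 := ℝ) hDS') (gf S D) (gf D D) := by
      unfold gf
      have h8 : (EuclideanSpace.restrict₂ (𝕜 := ℝ) hDS') 0 = 0 := map_zero _
      rw [h8] at hmp
      exact hmp
    rw [← hmp'.measure_preimage hA.nullMeasurableSet]
    have hae : ∀ᵐ x ∂(gf S D), ∀ i : (S : Finset (ℤ × ℤ)), (i : ℤ × ℤ) ∉ D → x i = 0 := by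
      rw [ae_all_iff]
      intro i
      by_cases hi : (i : ℤ × ℤ) ∈ D
      · exact Filter.Eventually.of_forall fun x h => absurd hi h
      · have h3 := measurePreserving_eval_multivariateGaussian
          (μ := (0 : EuclideanSpace ℝ (S : Finset (ℤ × ℤ)))) (hpsd' D hDS') (i := i)
        have h4 : (Matrix.of fun x y : (S : Finset (ℤ × ℤ)) => (1 / 4) * green D x y) i i = 0 := by
          simp [hvan D i i (Or.inl hi)]
        rw [h4] at h3
        simp only [Real.toNNReal_zero, gaussianReal_zero_var] at h3
        have h5 : ∀ᵐ y ∂(Measure.dirac ((0 : EuclideanSpace ℝ (S : Finset (ℤ × ℤ))) i)),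
            y = (0 : ℝ) := by
          rw [ae_dirac_eq]
          simp
        have h6 := h3.quasiMeasurePreserving.ae h5
        filter_upwards [h6] with x hx _ using hx
    apply measure_congr
    filter_upwards [hae] with x hx
    have hext : extf S x = extf D (EuclideanSpace.restrict₂ (𝕜 := ℝ) hDS' x) := by
      funext v
      unfold extf
      by_cases hv : v ∈ D
      · rw [dif_pos hv, dif_pos (hDS' hv)]
        rfl
      · rw [dif_neg hv]
        by_cases hvS : v ∈ S
        · rw [dif_pos hvS]
          exact hx ⟨v, hvS⟩ hv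
        · rw [dif_neg hvS]
    show A (extf S x) = A (extf D (EuclideanSpace.restrict₂ (𝕜 := ℝ) hDS' x))
    rw [hext]

end H941.markov_split
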