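import Pool.Agent.KS6_63.GFF.Defs4
import Pool.Agent.KS6_63.GFF.A3
import Pool.Agent.KS6_63.GFF.A4
import Pool.Agent.KS6_63.GFF.B.green_place_

open MeasureTheory ProbabilityTheory

namespace H941.place_law

theorem h18_map_mvg {ι κ : Type} [Fintype ι] [DecidableEq ι] [Fintype κ] [DecidableEq κ] (e : κ ≃ ι)
    (S : Matrix ι ι ℝ) (hS : S.PosSemidef) :
    (multivariateGaussian (0 : EuclideanSpace ℝ ι) S).map
      (LinearIsometryEquiv.piLpCongrLeft 2 ℝ ℝ e.symm) =
      multivariateGaussian (0 : EuclideanSpace ℝ κ) (S.submatrix e e) := by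
  have hm : Measurable (LinearIsometryEquiv.piLpCongrLeft 2 ℝ ℝ e.symm) :=
    (LinearIsometryEquiv.continuous _).measurable
  have : IsProbabilityMeasure ((multivariateGaussian (0 : EuclideanSpace ℝ ι) S).map
      (LinearIsometryEquiv.piLpCongrLeft 2 ℝ ℝ e.symm)) :=
    Measure.isProbabilityMeasure_map hm.aemeasurable
  apply Measure.ext_of_charFun
  ext y
  have h1 : charFun ((multivariateGaussian (0 : EuclideanSpace ℝ ι) S).map
      (LinearIsometryEquiv.piLpCongrLeft 2 ℝ ℝ e.symm)) y =
      charFun (multivariateGaussian (0 : EuclideanSpace ℝ ι) S)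
        ((LinearIsometryEquiv.piLpCongrLeft 2 ℝ ℝ e.symm).symm y) := by
    rw [charFun_apply, charFun_apply, integral_map hm.aemeasurable (by fun_prop)]
    congr 1
    ext x
    have : inner ℝ ((LinearIsometryEquiv.piLpCongrLeft 2 ℝ ℝ e.symm) x) y =
        inner ℝ x ((LinearIsometryEquiv.piLpCongrLeft 2 ℝ ℝ e.symm).symm y) := by
      rw [← LinearIsometryEquiv.inner_map_map (LinearIsometryEquiv.piLpCongrLeft 2 ℝ ℝ e.symm) x,
        LinearIsometryEquiv.apply_symm_apply]
    rw [this]
  rw [h1, charFun_multivariateGaussian hS, charFun_multivariateGaussian (hS.submatrix e)]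
  congr 2
  · simp
  · congr 2
    simp only [dotProduct, Matrix.mulVec, Matrix.submatrix_apply]
    rw [← Equiv.sum_comp e]
    refine Finset.sum_congr rfl fun j _ => ?_
    rw [← Equiv.sum_comp e]
    rw [LinearIsometryEquiv.piLpCongrLeft_symm]
    simp [LinearIsometryEquiv.piLpCongrLeft_apply, Equiv.piCongrLeft']

theorem h18_psd (D : Finset (ℤ × ℤ)) :
    (Matrix.of fun x y : (D : Finset (ℤ × ℤ)) => (1 / 4) * green D x y).PosSemidef := by
  classical
  have hsymm := (green_basic D).2.2.1
  have h0 := (green_basic ∅).2.1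
  refine Matrix.PosSemidef.of_dotProduct_mulVec_nonneg ?_ ?_
  · ext i j
    simp [Matrix.conjTranspose_apply, hsymm j i]
  · intro x
    have h := green_psd ∅ D (Finset.empty_subset _) (fun v => if h : v ∈ D then x ⟨v, h⟩ else 0)
    have e : ∀ u v, green ∅ u v = 0 := fun u v => h0 u v (Or.inl (Finset.notMem_empty _))
    simp only [e, sub_zero] at h
    have h2 : (star x ⬝ᵥ (Matrix.of fun x y : (D : Finset (ℤ × ℤ)) => (1 / 4) * green D x y).mulVec x) =
        (1 / 4) * ∑ u ∈ D, ∑ v ∈ D, (if h : u ∈ D then x ⟨u, h⟩ else 0) * green D u v *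
          (if h : v ∈ D then x ⟨v, h⟩ else 0) := by
      rw [← Finset.sum_coe_sort D]
      simp only [dotProduct, Matrix.mulVec, Finset.mul_sum]
      refine Finset.sum_congr rfl fun u _ => ?_
      rw [← Finset.sum_coe_sort D]
      refine Finset.sum_congr rfl fun v _ => ?_
      simp
      ring
    rw [h2]
    positivity

theorem _root_.H941.place_law (o : Bool) (t : ℤ × ℤ) (D : Finset (ℤ × ℤ)) (A : (ℤ × ℤ → ℝ) → Prop)
    (hA : MeasurableSet {x : EuclideanSpace ℝ (D : Finset (ℤ × ℤ)) | A (extf D x)}) :
    gf (D.image (place o t)) (D.image (place o t))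
        {x | A (fun v => extf (D.image (place o t)) x (place o t v))} =
      gf D D {x | A (extf D x)} := by
  classical
  have hinj : Function.Injective (place o t) := by
    rintro ⟨a, b⟩ ⟨c, d⟩ h
    unfold place at h
    cases o <;> simp at h <;> ext <;> simp <;> omega
  let f : D → (D.image (place o t) : Finset (ℤ × ℤ)) :=
    fun v => ⟨place o t v, Finset.mem_image_of_mem _ v.2⟩
  have hf : Function.Bijective f := by
    constructor
    · intro a b h
      exact Subtype.ext (hinj (congrArg Subtype.val h))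
    · rintro ⟨w, hw⟩
      obtain ⟨v, hv, rfl⟩ := Finset.mem_image.1 hw
      exact ⟨⟨v, hv⟩, rfl⟩
  let e := Equiv.ofBijective f hf
  have hmap := h18_map_mvg e _ (h18_psd (D.image (place o t)))
  have hS : (Matrix.of fun x y : (D.image (place o t) : Finset (ℤ × ℤ)) =>
      (1 / 4) * green (D.image (place o t)) x y).submatrix e e =
      Matrix.of fun x y : (D : Finset (ℤ × ℤ)) => (1 / 4) * green D x y := by
    ext x y
    show (1 / 4) * green (D.image (place o t)) (place o t x) (place o t y) = (1 / 4) * green D x y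
    rw [green_place]
  rw [hS] at hmap
  unfold gf
  rw [← hmap, Measure.map_apply (LinearIsometryEquiv.continuous _).measurable hA]
  congr 1
  ext x
  show A _ ↔ A _
  have : (fun v => extf (D.image (place o t)) x (place o t v)) =
      extf D ((LinearIsometryEquiv.piLpCongrLeft 2 ℝ ℝ e.symm) x) := by
    ext v
    unfold extf
    by_cases hv : v ∈ D
    · have hv' : place o t v ∈ D.image (place o t) := Finset.mem_image_of_mem _ hv
      rw [dif_pos hv, dif_pos hv']
      simp [LinearIsometryEquiv.piLpCongrLeft_apply, Equiv.piCongrLeft']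
      rfl
    · have hv' : place o t v ∉ D.image (place o t) := by
        intro h
        obtain ⟨w, hw, hwv⟩ := Finset.mem_image.1 h
        exact hv (hinj hwv ▸ hw)
      rw [dif_neg hv, dif_neg hv']
  rw [this]

end H941.place_law
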