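import Pool.Agent.KS6_63.GFF.Defs4
import Pool.Agent.KS6_63.GFF.A3
import Pool.Agent.KS6_63.GFF.B.coarse_var_
import Pool.Agent.KS6_63.GFF.B.green_decomp_
import Pool.Agent.KS6_63.GFF.C.markov_split_
import Pool.Agent.KS6_63.GFF.C.osc_var_
import Pool.Agent.KS6_63.GFF.C.place_law_
import Pool.Agent.KS6_63.GFF.C.sup_harm_

open MeasureTheory ProbabilityTheory

namespace H941.arm_dev

theorem ad_meas_coord (S : Finset (ℤ × ℤ)) (v : ℤ × ℤ) :
    Measurable fun x : EuclideanSpace ℝ (S : Finset (ℤ × ℤ)) => extf S x v := by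
  unfold extf
  by_cases h : v ∈ S
  · simp only [h, dite_true]
    fun_prop
  · simp only [h, dite_false]
    exact measurable_const

/-- combinatorial part of an arm -/
def adGood (w d : ℕ) (len : ℝ) (T : Finset (ℤ × ℤ)) : Prop :=
  ∃ (u v : ℤ × ℤ) (p : grid.Walk u v), u.1 = w ∧ v.1 = 5 * w ∧
    (∀ z ∈ p.support, z ∈ T) ∧ (p.support.length : ℝ) ≤ len

theorem ad_mem_ball (x : ℤ × ℤ) (r : ℤ) (z : ℤ × ℤ) :
    z ∈ ball x r ↔ (x.1 - r ≤ z.1 ∧ z.1 ≤ x.1 + r) ∧ (x.2 - r ≤ z.2 ∧ z.2 ≤ x.2 + r) := by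
  simp [ball, rect, Finset.mem_product, Finset.mem_Icc]

theorem armOK_iff (o : Bool) (t : ℤ × ℤ) (w d : ℕ) (lam len : ℝ) (f : ℤ × ℤ → ℝ) :
    armOK o t w d lam len f ↔ ∃ T ∈ (rect w (5 * w) d (w - d)).powerset, adGood w d len T ∧
      ∀ z ∈ T, f (place o t z) ≤ lam := by
  classical
  constructor
  · rintro ⟨u, v, p, hu, hv, hp, hl⟩
    refine ⟨p.support.toFinset, ?_, ⟨u, v, p, hu, hv, fun z hz => by simpa using hz, hl⟩, ?_⟩
    · rw [Finset.mem_powerset]
      intro z hz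
      exact (hp z (by simpa using hz)).1
    · intro z hz
      exact (hp z (by simpa using hz)).2
  · rintro ⟨T, hT, ⟨u, v, p, hu, hv, hp, hl⟩, hf⟩
    rw [Finset.mem_powerset] at hT
    exact ⟨u, v, p, hu, hv, fun z hz => ⟨hT (hp z hz), hf z (hp z hz)⟩, hl⟩

theorem ad_meas_arm (S : Finset (ℤ × ℤ)) (o : Bool) (t : ℤ × ℤ) (w d : ℕ) (lam len : ℝ)
    (h : ℤ × ℤ → ℝ) :
    MeasurableSet {x : EuclideanSpace ℝ (S : Finset (ℤ × ℤ)) |
      armOK o t w d lam len (fun z => h z + extf S x z)} := by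
  classical
  have : {x : EuclideanSpace ℝ (S : Finset (ℤ × ℤ)) |
      armOK o t w d lam len (fun z => h z + extf S x z)} =
      ⋃ T ∈ (rect w (5 * w) d (w - d)).powerset,
        {x : EuclideanSpace ℝ (S : Finset (ℤ × ℤ)) | adGood w d len T ∧
          ∀ z ∈ T, h (place o t z) + extf S x (place o t z) ≤ lam} := by
    ext x
    simp only [Set.mem_ofPred_eq, armOK_iff, Set.mem_iUnion, exists_prop]
  rw [this]
  refine Finset.measurableSet_biUnion _ fun T _ => ?_
  by_cases hg : adGood w d len T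
  · have : {x : EuclideanSpace ℝ (S : Finset (ℤ × ℤ)) | adGood w d len T ∧
          ∀ z ∈ T, h (place o t z) + extf S x (place o t z) ≤ lam} =
        ⋂ z ∈ T, {x : EuclideanSpace ℝ (S : Finset (ℤ × ℤ)) |
          h (place o t z) + extf S x (place o t z) ≤ lam} := by
      ext x
      simp [hg]
    rw [this]
    refine Finset.measurableSet_biInter _ fun z _ => ?_
    exact measurableSet_le (measurable_const.add (ad_meas_coord S _)) measurable_const
  · have : {x : EuclideanSpace ℝ (S : Finset (ℤ × ℤ)) | adGood w d len T ∧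
          ∀ z ∈ T, h (place o t z) + extf S x (place o t z) ≤ lam} = ∅ := by
      ext x
      simp [hg]
    rw [this]
    exact MeasurableSet.empty

theorem ad_meas_arm0 (S : Finset (ℤ × ℤ)) (o : Bool) (t : ℤ × ℤ) (w d : ℕ) (lam len : ℝ) :
    MeasurableSet {x : EuclideanSpace ℝ (S : Finset (ℤ × ℤ)) |
      armOK o t w d lam len (extf S x)} := by
  simpa using ad_meas_arm S o t w d lam len (fun _ => 0)

/-- the variance of `H z - ℓ H` -/
theorem ad_var : ∃ V : ℝ, 0 < V ∧ ∀ (W ρ : ℕ) (v : ℤ × ℤ) (Da : Finset (ℤ × ℤ)),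
    128 ≤ W → 8 * W ≤ ρ → Da ⊆ ball v (5 * W) → ∀ z : ℤ × ℤ,
    (∀ z' : ℤ × ℤ, |z'.1 - z.1| ≤ ((W / 16 : ℕ) : ℤ) → |z'.2 - z.2| ≤ ((W / 16 : ℕ) : ℤ) → z' ∈ Da) →
    (1 / 4) * (green (ball v ρ) z z - green Da z z)
      - 2 * ∑ y ∈ ball v ρ \ ball v (8 * W), hit (ball v ρ) (ball v ρ \ ball v (8 * W)) v y *
        ((1 / 4) * (green (ball v ρ) z y - green Da z y))
      + ∑ y ∈ ball v ρ \ ball v (8 * W), ∑ y' ∈ ball v ρ \ ball v (8 * W),
        hit (ball v ρ) (ball v ρ \ ball v (8 * W)) v y *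
        ((1 / 4) * (green (ball v ρ) y y' - green Da y y')) *
        hit (ball v ρ) (ball v ρ \ ball v (8 * W)) v y' ≤ V := by
  obtain ⟨C0, hC0, hosc⟩ := osc_var
  refine ⟨(20 + C0) / 4, by positivity, fun W ρ v Da hW hρ hDa z hz => ?_⟩
  have hr0 : (0 : ℤ) ≤ ((W / 16 : ℕ) : ℤ) := Int.natCast_nonneg _
  have hzDa : z ∈ Da := hz z (by rw [sub_self, abs_zero]; exact hr0) (by rw [sub_self, abs_zero]; exact hr0)
  have hzb : z ∈ ball v (5 * W) := hDa hzDa
  have hS'S : ball v (8 * W) ⊆ ball v ρ := by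
    intro y hy
    rw [ad_mem_ball] at hy ⊢
    have : (8 * W : ℤ) ≤ ρ := by exact_mod_cast hρ
    omega
  have hDaS' : Da ⊆ ball v (8 * W) := by
    intro y hy
    have := hDa hy
    rw [ad_mem_ball] at this ⊢
    omega
  have hvS' : v ∈ ball v (8 * W) := by
    rw [ad_mem_ball]; omega
  set S := ball v ρ with hS
  set S' := ball v (8 * W) with hS'
  have hK : S \ (S \ S') = S' := Finset.sdiff_sdiff_eq_self hS'S
  have hvK : v ∉ S \ S' := by simp [hvS']
  have hsym := fun D => (green_basic D).2.2.1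
  have hzero := fun D => (green_basic D).2.1
  have hdec : ∀ y', green S v y' = green S' v y' + ∑ y ∈ S \ S', hit S (S \ S') v y * green S y y' := by
    intro y'
    have := green_decomp S (S \ S') v y' hvK
    rwa [hK] at this
  have hoff : ∀ y ∈ S \ S', ∀ x, green Da x y = 0 := by
    intro y hy x
    refine hzero Da x y (Or.inr fun h => ?_)
    rw [Finset.mem_sdiff] at hy
    exact hy.2 (hDaS' h)
  have hoff' : ∀ y ∈ S \ S', ∀ x, green S' x y = 0 := by
    intro y hy x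
    refine hzero S' x y (Or.inr fun h => ?_)
    rw [Finset.mem_sdiff] at hy
    exact hy.2 h
  have s1 : ∑ y ∈ S \ S', hit S (S \ S') v y * ((1 / 4) * (green S z y - green Da z y))
      = (1 / 4) * (green S v z - green S' v z) := by
    rw [hdec z, add_sub_cancel_left, Finset.mul_sum]
    refine Finset.sum_congr rfl fun y hy => ?_
    rw [hoff y hy z, hsym S z y]
    ring
  have s2 : ∑ y ∈ S \ S', ∑ y' ∈ S \ S', hit S (S \ S') v y *
        ((1 / 4) * (green S y y' - green Da y y')) * hit S (S \ S') v y'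
      = (1 / 4) * (green S v v - green S' v v) := by
    rw [Finset.sum_comm]
    have e1 : ∀ y' ∈ S \ S', ∑ y ∈ S \ S', hit S (S \ S') v y *
        ((1 / 4) * (green S y y' - green Da y y')) * hit S (S \ S') v y'
        = (1 / 4) * (hit S (S \ S') v y' * green S y' v) := by
      intro y' hy'
      have h1 := hdec y'
      rw [hoff' y' hy' v, zero_add] at h1
      rw [hsym S y' v, h1, Finset.mul_sum, Finset.mul_sum]
      refine Finset.sum_congr rfl fun y hy => ?_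
      rw [hoff y' hy' y]
      ring
    rw [Finset.sum_congr rfl e1, ← Finset.mul_sum]
    have h2 := hdec v
    linarith
  rw [s1, s2]
  have h3 := hosc v z ρ (8 * W) (by omega) hρ (by
    rw [ad_mem_ball] at hzb ⊢
    have : ((3 * (8 * W) / 4 : ℕ) : ℤ) = 6 * W := by omega
    rw [this]
    omega)
  have h4 := coarse_var S' Da hDaS' (16 * W + 1) (by omega) (by
    intro x hx y hy
    rw [hS', ad_mem_ball] at hx hy
    push_cast
    constructor <;> rw [abs_lt] <;> omega) z (W / 16) hz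
  have h5 : (Real.log (1 + 2 * ((16 * W + 1 : ℕ) : ℝ) ^ 2) -
      Real.log (1 + ((W / 16 : ℕ) : ℝ) ^ 2)) / Real.log 2 ≤ 20 := by
    have hl2 : 0 < Real.log 2 := Real.log_pos (by norm_num)
    rw [div_le_iff₀ hl2]
    have hWr : (128 : ℝ) ≤ W := by exact_mod_cast hW
    have h6 : (W : ℝ) ≤ 32 * ((W / 16 : ℕ) : ℝ) := by
      have : W ≤ 32 * (W / 16) := by omega
      exact_mod_cast this
    have h7 : (1 : ℝ) + 2 * ((16 * W + 1 : ℕ) : ℝ) ^ 2 ≤ 2 ^ 20 * (1 + ((W / 16 : ℕ) : ℝ) ^ 2) := by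
      push_cast
      nlinarith [mul_self_nonneg ((W : ℝ)), mul_le_mul h6 h6 (by positivity) (by positivity)]
    have h8 : Real.log (1 + 2 * ((16 * W + 1 : ℕ) : ℝ) ^ 2) ≤
        Real.log (2 ^ 20 * (1 + ((W / 16 : ℕ) : ℝ) ^ 2)) :=
      Real.log_le_log (by positivity) h7
    rw [Real.log_mul (by norm_num) (by positivity), Real.log_pow] at h8
    push_cast at h8 ⊢
    linarith
  have h9 : ((8 * W : ℕ) : ℤ) = 8 * (W : ℤ) := by push_cast; ring
  rw [h9] at h3
  have h10 := hsym S v z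
  have h11 := hsym S' v z
  push_cast at h4 h5
  linarith

/-- positions of the arms -/
def ADpos (o : Bool) (t c : ℤ × ℤ) (W : ℕ) : Prop :=
  (o = true ∧ t = (c.1 - 3 * W, c.2 + W)) ∨ (o = true ∧ t = (c.1 - 3 * W, c.2 - 2 * W)) ∨
       (o = false ∧ t = (c.1 + W, c.2 - 3 * W)) ∨ (o = false ∧ t = (c.1 - 2 * W, c.2 - 3 * W))

/-- local coordinates -/
def adloc (o : Bool) (t z : ℤ × ℤ) : ℤ × ℤ :=
  if o then (z.1 - t.1, z.2 - t.2) else (z.2 - t.2, z.1 - t.1)

theorem adloc_place (o : Bool) (t z : ℤ × ℤ) : adloc o t (place o t z) = z := by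
  cases o <;> simp [adloc, place]

theorem place_adloc (o : Bool) (t z : ℤ × ℤ) : place o t (adloc o t z) = z := by
  cases o <;> simp [adloc, place]

theorem ad_mem_Dw (W : ℕ) (z : ℤ × ℤ) :
    z ∈ Dw W ↔ (1 ≤ z.1 ∧ z.1 ≤ 7 * W - 1) ∧ (1 ≤ z.2 ∧ z.2 ≤ W - 1) := by
  simp [Dw, rect, Finset.mem_product, Finset.mem_Icc]

theorem ad_mem_Da (o : Bool) (t : ℤ × ℤ) (W : ℕ) (z : ℤ × ℤ) :
    z ∈ (Dw W).image (place o t) ↔ adloc o t z ∈ Dw W := by
  rw [Finset.mem_image]
  constructor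
  · rintro ⟨y, hy, rfl⟩
    rwa [adloc_place]
  · intro h
    exact ⟨_, h, place_adloc o t z⟩

theorem ad_Da_sub (o : Bool) (t c v : ℤ × ℤ) (W : ℕ) (hp : ADpos o t c W)
    (h1 : |c.1 - v.1| ≤ (W : ℤ)) (h2 : |c.2 - v.2| ≤ (W : ℤ)) :
    (Dw W).image (place o t) ⊆ ball v (5 * W) := by
  intro z hz
  rw [ad_mem_Da, ad_mem_Dw] at hz
  rw [ad_mem_ball]
  rw [abs_le] at h1 h2
  rcases hp with ⟨rfl, rfl⟩ | ⟨rfl, rfl⟩ | ⟨rfl, rfl⟩ | ⟨rfl, rfl⟩ <;>
    simp [adloc] at hz <;> omega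

theorem ad_net (o : Bool) (t : ℤ × ℤ) (W : ℕ) (hW : 128 ≤ W) :
    ∃ Z : Finset (ℤ × ℤ), Z.card ≤ 814 ∧
      (∀ z0 ∈ Z, ∀ z : ℤ × ℤ, |z.1 - z0.1| ≤ 3 * ((W / 16 : ℕ) : ℤ) →
        |z.2 - z0.2| ≤ 3 * ((W / 16 : ℕ) : ℤ) → z ∈ (Dw W).image (place o t)) ∧
      ∀ w ∈ rect W (5 * W) ((W / 4 : ℕ) : ℤ) (W - ((W / 4 : ℕ) : ℤ)),
        ∃ z0 ∈ Z, place o t w ∈ ball z0 ((W / 16 : ℕ) : ℤ) := by
  classical
  obtain ⟨r, hr⟩ : ∃ r : ℕ, W / 16 = r := ⟨_, rfl⟩
  obtain ⟨d, hd⟩ : ∃ d : ℕ, W / 4 = d := ⟨_, rfl⟩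
  rw [hr, hd]
  have hr0 : 8 ≤ r := by omega
  obtain ⟨A, hA⟩ : ∃ A : Finset (ℕ × ℕ), A = Finset.range 74 ×ˢ Finset.range 11 := ⟨_, rfl⟩
  have hAc : A.card ≤ 814 := by rw [hA]; simp
  refine ⟨(A.image
    (fun p => place o t (W + (p.1 * r : ℤ), d + (p.2 * r : ℤ)))).filter
    (fun z0 => ∀ z : ℤ × ℤ, |z.1 - z0.1| ≤ 3 * (r : ℤ) →
        |z.2 - z0.2| ≤ 3 * (r : ℤ) → z ∈ (Dw W).image (place o t)), ?_, ?_, ?_⟩
  · exact (Finset.card_filter_le _ _).trans (Finset.card_image_le.trans hAc)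
  · intro z0 hz0
    exact (Finset.mem_filter.1 hz0).2
  · intro w hw
    have hw' : (W ≤ w.1 ∧ w.1 ≤ 5 * W) ∧ ((d : ℤ) ≤ w.2 ∧ w.2 ≤ W - d) := by
      simpa [rect, Finset.mem_product, Finset.mem_Icc] using hw
    obtain ⟨i, hi⟩ := Int.eq_ofNat_of_zero_le (Int.ediv_nonneg (show 0 ≤ w.1 - W by omega) (show (0 : ℤ) ≤ r by omega))
    obtain ⟨j, hj⟩ := Int.eq_ofNat_of_zero_le (Int.ediv_nonneg (show 0 ≤ w.2 - d by omega) (show (0 : ℤ) ≤ r by omega))
    have hi1 := Int.mul_ediv_add_emod (w.1 - W) r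
    have hi2 := Int.emod_nonneg (w.1 - W) (show (r : ℤ) ≠ 0 by omega)
    have hi3 := Int.emod_lt_of_pos (w.1 - W) (show (0 : ℤ) < r by omega)
    have hj1 := Int.mul_ediv_add_emod (w.2 - d) r
    have hj2 := Int.emod_nonneg (w.2 - d) (show (r : ℤ) ≠ 0 by omega)
    have hj3 := Int.emod_lt_of_pos (w.2 - d) (show (0 : ℤ) < r by omega)
    rw [hi] at hi1
    rw [hj] at hj1
    have hi4 : i < 74 := by
      by_contra hcon
      push Not at hcon
      have : (r : ℤ) * 74 ≤ r * i := by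
        refine mul_le_mul_of_nonneg_left ?_ (by omega)
        exact_mod_cast hcon
      omega
    have hj4 : j < 11 := by
      by_contra hcon
      push Not at hcon
      have : (r : ℤ) * 11 ≤ r * j := by
        refine mul_le_mul_of_nonneg_left ?_ (by omega)
        exact_mod_cast hcon
      omega
    generalize hX : (r : ℤ) * i = X at hi1
    generalize hY : (r : ℤ) * j = Y at hj1
    refine ⟨place o t (W + (i * r : ℤ), d + (j * r : ℤ)), ?_, ?_⟩
    · rw [Finset.mem_filter]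
      constructor
      · rw [Finset.mem_image]
        exact ⟨(i, j), by rw [hA]; simp [hi4, hj4], rfl⟩
      · intro z hz1 hz2
        rw [ad_mem_Da, ad_mem_Dw]
        rw [mul_comm (i : ℤ), mul_comm (j : ℤ), hX, hY, abs_le] at hz1 hz2
        cases o <;> simp [place, adloc] at hz1 hz2 ⊢ <;> omega
    · rw [ad_mem_ball, mul_comm (i : ℤ), mul_comm (j : ℤ), hX, hY]
      cases o <;> simp [place] <;> omega

theorem ad_sum (S K : Finset (ℤ × ℤ)) (hK : K ⊆ S) (g F : ℤ × ℤ → ℝ) :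
    ∑ y : (S : Finset (ℤ × ℤ)), (if (y : ℤ × ℤ) ∈ K then g y else 0) * F y = ∑ y ∈ K, g y * F y := by
  classical
  rw [Finset.sum_coe_sort S (fun y => (if y ∈ K then g y else 0) * F y)]
  rw [← Finset.sum_subset hK (f := fun y => (if y ∈ K then g y else 0) * F y)]
  · exact Finset.sum_congr rfl fun y hy => by rw [if_pos hy]
  · intro y _ hy
    rw [if_neg hy, zero_mul]

theorem extf_coe (S : Finset (ℤ × ℤ)) (x : EuclideanSpace ℝ (S : Finset (ℤ × ℤ)))
    (y : (S : Finset (ℤ × ℤ))) : extf S x y = x y := by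
  simp [extf]

theorem extf_add (S : Finset (ℤ × ℤ)) (x y : EuclideanSpace ℝ (S : Finset (ℤ × ℤ))) (z : ℤ × ℤ) :
    extf S (x + y) z = extf S x z + extf S y z := by
  unfold extf
  by_cases h : z ∈ S <;> simp [h]

theorem _root_.H941.arm_dev : ∃ Cm : ℝ, 1 ≤ Cm ∧ ∀ (u Kh q lam : ℝ) (W ρ : ℕ) (v c : ℤ × ℤ) (o : Bool) (t : ℤ × ℤ) (h : ℤ × ℤ → ℝ),
    128 ≤ W → 8 * W ≤ ρ → 0 ≤ q → HypA u Kh q W → |c.1 - v.1| ≤ (W : ℤ) → |c.2 - v.2| ≤ (W : ℤ) →
    ((o = true ∧ t = (c.1 - 3 * W, c.2 + W)) ∨ (o = true ∧ t = (c.1 - 3 * W, c.2 - 2 * W)) ∨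
       (o = false ∧ t = (c.1 + W, c.2 - 3 * W)) ∨ (o = false ∧ t = (c.1 - 2 * W, c.2 - 3 * W))) →
    (∀ z ∈ ball v (5 * W), |h z - h v| ≤ 1) →
    gf (ball v ρ) (ball v ρ) {x | h v + ∑ y ∈ ball v ρ \ ball v (8 * W),
          hit (ball v ρ) (ball v ρ \ ball v (8 * W)) v y * extf (ball v ρ) x y ≤ lam - u - Cm ∧
        ¬ armOK o t W (W / 4) lam (Kh * W) (fun z => h z + extf (ball v ρ) x z)} ≤
      ENNReal.ofReal (q + 1 / 256) := by
  classical
  obtain ⟨C1, hC1, hsup⟩ := sup_harm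
  obtain ⟨V, hV, hvar⟩ := ad_var
  obtain ⟨L, hL⟩ : ∃ L : ℝ, L = 256 * 814 * C1 := ⟨_, rfl⟩
  have hL0 : 0 < L := by rw [hL]; positivity
  obtain ⟨T, hT⟩ : ∃ T : ℝ, T = Real.sqrt (C1 * V * L) := ⟨_, rfl⟩
  have hT0 : 0 ≤ T := by rw [hT]; positivity
  have hT2 : T ^ 2 = C1 * V * L := by rw [hT]; exact Real.sq_sqrt (by positivity)
  have hTexp : C1 * Real.exp (-(T ^ 2 / (C1 * V))) ≤ 1 / (256 * 814) := by
    have e : T ^ 2 / (C1 * V) = L := by rw [hT2]; field_simp
    rw [e, Real.exp_neg]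
    have h1 : L ≤ Real.exp L := by linarith [Real.add_one_le_exp L]
    have h2 : (Real.exp L)⁻¹ ≤ L⁻¹ := inv_anti₀ hL0 h1
    calc C1 * (Real.exp L)⁻¹ ≤ C1 * L⁻¹ := by gcongr
      _ = 1 / (256 * 814) := by rw [hL]; field_simp
  refine ⟨1 + T, by linarith, ?_⟩
  intro u Kh q lam W ρ v c o t h hW hρ hq hHyp h1 h2 hpos hh
  have hDav : (Dw W).image (place o t) ⊆ ball v (5 * W) := ad_Da_sub o t c v W hpos h1 h2
  have hvar' := fun z => hvar W ρ v ((Dw W).image (place o t)) hW hρ hDav z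
  have hS'S : ball v (8 * W) ⊆ ball v ρ := by
    intro y hy
    rw [ad_mem_ball] at hy ⊢
    have : (8 * W : ℤ) ≤ ρ := by exact_mod_cast hρ
    omega
  have hDaS' : (Dw W).image (place o t) ⊆ ball v (8 * W) := by
    intro y hy
    have := hDav hy
    rw [ad_mem_ball] at this ⊢
    omega
  have hDaS : (Dw W).image (place o t) ⊆ ball v ρ := hDaS'.trans hS'S
  obtain ⟨Z, hZc, hZ1, hZ2⟩ := ad_net o t W hW
  have hplace := place_law o t (Dw W) (fun g => ¬ armOK true (0, 0) W (W / 4) u (Kh * W) g)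
    (ad_meas_arm0 (Dw W) true (0, 0) W (W / 4) u (Kh * W)).compl
  obtain ⟨Da, hDa⟩ : ∃ Da, Da = (Dw W).image (place o t) := ⟨_, rfl⟩
  suffices hsuff : ∀ S S' : Finset (ℤ × ℤ), S = ball v ρ → S' = ball v (8 * W) →
      gf S S {x | h v + ∑ y ∈ S \ S', hit S (S \ S') v y * extf S x y ≤ lam - u - (1 + T) ∧
        ¬ armOK o t W (W / 4) lam (Kh * W) (fun z => h z + extf S x z)} ≤
      ENNReal.ofReal (q + 1 / 256) from hsuff _ _ rfl rfl
  intro S S' hS hS'
  rw [← hDa] at hDav hDaS' hDaS hZ1 hplace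
  simp only [← hS, ← hS', ← hDa] at hvar' hS'S hDaS' hDaS ⊢
  obtain ⟨K, hK⟩ : ∃ K, K = S \ S' := ⟨_, rfl⟩
  simp only [← hK] at hvar' ⊢
  have hKS : K ⊆ S := by rw [hK]; exact Finset.sdiff_subset
  have hKDa : ∀ y ∈ K, y ∉ Da := by
    intro y hy hy'
    rw [hK, Finset.mem_sdiff] at hy
    exact hy.2 (hDaS' hy')
  obtain ⟨hpsd, hmap, hloc⟩ := markov_split S S Da hDaS subset_rfl
  have hsym := fun D => (green_basic D).2.2.1
  have hzero := fun D => (green_basic D).2.1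
  have hharm := fun D => (green_basic D).2.2.2.2.1
  obtain ⟨k, hk⟩ : ∃ k : ℤ × ℤ → ℤ × ℤ → ℝ, k = fun x y => (1 / 4) * (green S x y - green Da x y) :=
    ⟨_, rfl⟩
  have hkM : (Matrix.of fun x y : (S : Finset (ℤ × ℤ)) => (1 / 4) * (green S x y - green Da x y)) =
      (Matrix.of fun x y : (S : Finset (ℤ × ℤ)) => k x y) := by rw [hk]
  rw [hkM] at hpsd hmap
  obtain ⟨μH, hμH⟩ : ∃ μH, μH = multivariateGaussian (0 : EuclideanSpace ℝ (S : Finset (ℤ × ℤ)))
    (Matrix.of fun x y : (S : Finset (ℤ × ℤ)) => k x y) := ⟨_, rfl⟩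
  have hpH : IsProbabilityMeasure μH := by rw [hμH]; infer_instance
  have hpψ : IsProbabilityMeasure (gf S Da) := by unfold gf; infer_instance
  rw [← hμH] at hmap
  obtain ⟨a, ha⟩ : ∃ a : ↥S → ℝ, a = fun y : ↥S => if (y : ℤ × ℤ) ∈ K then hit S K v y else 0 :=
    ⟨_, rfl⟩
  have hℓ : ∀ x : EuclideanSpace ℝ (S : Finset (ℤ × ℤ)), ∑ y, a y * x y = ∑ y ∈ K, hit S K v y * extf S x y := by
    intro x
    rw [← ad_sum S K hKS (fun y => hit S K v y) (fun y => extf S x y), ha]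
    exact Finset.sum_congr rfl fun y _ => by rw [extf_coe]
  -- the harmonic part
  have hB1 : ∀ z0 ∈ Z, μH {x | ∃ z ∈ ball z0 ((W / 16 : ℕ) : ℤ), T < |extf S x z - ∑ y, a y * x y|} ≤
      ENNReal.ofReal (1 / (256 * 814)) := by
    intro z0 hz0
    have hin : ∀ z ∈ ball z0 (2 * ((W / 16 : ℕ) : ℤ)), ∀ z' : ℤ × ℤ,
        |z'.1 - z.1| ≤ ((W / 16 : ℕ) : ℤ) → |z'.2 - z.2| ≤ ((W / 16 : ℕ) : ℤ) → z' ∈ Da := by
      intro z hz z' hz1 hz2
      rw [ad_mem_ball] at hz
      rw [abs_le] at hz1 hz2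
      refine hZ1 z0 hz0 z' ?_ ?_ <;> rw [abs_le] <;> constructor <;> linarith [hz1.1, hz1.2, hz2.1, hz2.2, hz.1.1, hz.1.2, hz.2.1, hz.2.2]
    have hr0 : (0 : ℤ) ≤ ((W / 16 : ℕ) : ℤ) := Int.natCast_nonneg _
    have hmem : ∀ z ∈ ball z0 (2 * ((W / 16 : ℕ) : ℤ)), z ∈ Da := fun z hz =>
      hin z hz z (by rw [sub_self, abs_zero]; exact hr0) (by rw [sub_self, abs_zero]; exact hr0)
    have hmain := hsup S k hpsd
      (by
        intro z hz y
        rw [hk]
        simp only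
        rw [hzero S z y (Or.inl hz), hzero Da z y (Or.inl fun hh => hz (hDaS hh))]
        ring)
      (by
        intro x y
        rw [hk]
        simp only
        rw [hsym S x y, hsym Da x y])
      z0 (W / 16) (by omega)
      (by
        intro z hz y
        have hzD := hmem z hz
        have e1 := hharm S z (hDaS hzD) y
        have e2 := hharm Da z hzD y
        rw [hk]
        simp only
        rw [e1, e2, ← Finset.mul_sum, Finset.sum_sub_distrib]
        ring)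
      a V T hV hT0
      (by
        intro z hz
        refine le_trans (le_of_eq ?_) (hvar' z (hin z hz))
        have e1 : ∑ y : (S : Finset (ℤ × ℤ)), a y * k z y
            = ∑ y ∈ K, hit S K v y * ((1 / 4) * (green S z y - green Da z y)) := by
          rw [← ad_sum S K hKS (fun y => hit S K v y), ha, hk]
        have e2 : ∑ y : (S : Finset (ℤ × ℤ)), ∑ y' : (S : Finset (ℤ × ℤ)), a y * k y y' * a y'
            = ∑ y ∈ K, ∑ y' ∈ K, hit S K v y *
        ((1 / 4) * (green S y y' - green Da y y')) * hit S K v y' := by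
          have e3 : ∀ y : ℤ × ℤ, ∑ y' : (S : Finset (ℤ × ℤ)), k y y' * a y'
              = ∑ y' ∈ K, ((1 / 4) * (green S y y' - green Da y y')) * hit S K v y' := by
            intro y
            have := ad_sum S K hKS (fun y => hit S K v y) (fun y' => k y y')
            rw [hk] at this ⊢
            rw [ha]
            simp only [mul_comm] at this ⊢
            exact this
          have e4 := ad_sum S K hKS (fun y => hit S K v y)
            (fun y => ∑ y' : (S : Finset (ℤ × ℤ)), k y y' * a y')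
          simp only [e3] at e4
          calc ∑ y : (S : Finset (ℤ × ℤ)), ∑ y' : (S : Finset (ℤ × ℤ)), a y * k y y' * a y'
              = ∑ y : (S : Finset (ℤ × ℤ)), (if (y : ℤ × ℤ) ∈ K then hit S K v y else 0) *
                  ∑ y' ∈ K, ((1 / 4) * (green S y y' - green Da y y')) * hit S K v y' := by
                refine Finset.sum_congr rfl fun y _ => ?_
                rw [← e3 y, Finset.mul_sum, ha]
                exact Finset.sum_congr rfl fun y' _ => by ring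
            _ = _ := by
                rw [e4]
                refine Finset.sum_congr rfl fun y _ => ?_
                rw [Finset.mul_sum]
                exact Finset.sum_congr rfl fun y' _ => by ring
        rw [e1, e2, hk])
    rw [← hμH] at hmain
    exact hmain.trans (ENNReal.ofReal_le_ofReal hTexp)
  have hB1' : μH (⋃ z0 ∈ Z, {x | ∃ z ∈ ball z0 ((W / 16 : ℕ) : ℤ), T < |extf S x z - ∑ y, a y * x y|}) ≤
      ENNReal.ofReal (1 / 256) := by
    refine (measure_biUnion_finset_le _ _).trans ((Finset.sum_le_sum hB1).trans ?_)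
    rw [Finset.sum_const, nsmul_eq_mul]
    calc (Z.card : ENNReal) * ENNReal.ofReal (1 / (256 * 814))
        ≤ (814 : ENNReal) * ENNReal.ofReal (1 / (256 * 814)) := by
          gcongr
          exact_mod_cast hZc
      _ = ENNReal.ofReal (1 / 256) := by
          have : (814 : ENNReal) = ENNReal.ofReal 814 := by simp
          rw [this, ← ENNReal.ofReal_mul (by norm_num)]
          norm_num
  -- the field part
  have hB2a : gf S Da {x | ∃ y, y ∉ Da ∧ extf S x y ≠ 0} = 0 := by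
    have hm : ∀ S0 : Finset (ℤ × ℤ), MeasurableSet
        {x : EuclideanSpace ℝ (S0 : Finset (ℤ × ℤ)) | ∃ y, y ∉ Da ∧ extf S0 x y ≠ 0} := by
      intro S0
      have : {x : EuclideanSpace ℝ (S0 : Finset (ℤ × ℤ)) | ∃ y, y ∉ Da ∧ extf S0 x y ≠ 0} =
          ⋃ y : ℤ × ℤ, {x | y ∉ Da ∧ extf S0 x y ≠ 0} := by
        ext x; simp
      rw [this]
      refine MeasurableSet.iUnion fun y => ?_
      by_cases hy : y ∈ Da
      · simp [hy]
      · simp only [hy, not_false_eq_true, true_and]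
        exact (measurableSet_eq_fun (ad_meas_coord S0 y) measurable_const).compl
    have := hloc (fun g => ∃ y, y ∉ Da ∧ g y ≠ 0) (hm Da) (hm S)
    rw [this]
    have he : {x : EuclideanSpace ℝ (Da : Finset (ℤ × ℤ)) | ∃ y, y ∉ Da ∧ extf Da x y ≠ 0} = ∅ := by
      ext x
      simp only [Set.mem_ofPred_eq, Set.mem_empty_iff_false, iff_false, not_exists, not_and, not_not]
      intro y hy
      simp [extf, hy]
    rw [he, measure_empty]
  have hB2b : gf S Da {x | ¬ armOK o t W (W / 4) u (Kh * W) (extf S x)} ≤ ENNReal.ofReal q := by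
    have := hloc (fun g => ¬ armOK o t W (W / 4) u (Kh * W) g)
      (ad_meas_arm0 Da o t W (W / 4) u (Kh * W)).compl (ad_meas_arm0 S o t W (W / 4) u (Kh * W)).compl
    rw [this]
    have hconv : ∀ g : ℤ × ℤ → ℝ, armOK o t W (W / 4) u (Kh * W) g ↔
        armOK true (0, 0) W (W / 4) u (Kh * W) (fun z => g (place o t z)) := by
      intro g
      have : ∀ z : ℤ × ℤ, place true (0, 0) z = z := by intro z; simp [place]
      simp only [armOK, this]
    simp only [hconv]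
    rw [hplace]
    exact hHyp
  -- assembly
  have hEm : MeasurableSet {x : EuclideanSpace ℝ (S : Finset (ℤ × ℤ)) |
      h v + ∑ y ∈ K, hit S K v y * extf S x y ≤ lam - u - (1 + T) ∧
        ¬ armOK o t W (W / 4) lam (Kh * W) (fun z => h z + extf S x z)} := by
    have hm1 : MeasurableSet {x : EuclideanSpace ℝ (S : Finset (ℤ × ℤ)) |
        h v + ∑ y ∈ K, hit S K v y * extf S x y ≤ lam - u - (1 + T)} := by
      refine measurableSet_le (measurable_const.add ?_) measurable_const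
      exact Finset.measurable_fun_sum _ fun y _ => (ad_meas_coord S y).const_mul _
    exact hm1.inter (ad_meas_arm S o t W (W / 4) lam (Kh * W) h).compl
  rw [← hmap, Measure.map_apply (by fun_prop) hEm]
  refine (measure_mono (t := ((⋃ z0 ∈ Z, {x | ∃ z ∈ ball z0 ((W / 16 : ℕ) : ℤ),
      T < |extf S x z - ∑ y, a y * x y|}) ×ˢ Set.univ) ∪ (Set.univ ×ˢ
      ({x | ∃ y, y ∉ Da ∧ extf S x y ≠ 0} ∪
        {x | ¬ armOK o t W (W / 4) u (Kh * W) (extf S x)}))) ?_).trans ?_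
  · rintro ⟨H, ψ⟩ ⟨hx1, hx2⟩
    by_contra hcon
    apply hx2
    simp only [Set.mem_union, Set.mem_prod, Set.mem_univ, and_true, true_and, not_or] at hcon
    obtain ⟨hc1, hc2, hc3⟩ := hcon
    simp only [Set.mem_iUnion, Set.mem_ofPred_eq, not_exists, not_and, not_lt] at hc1
    simp only [Set.mem_ofPred_eq, not_exists, not_and, not_not] at hc2 hc3
    obtain ⟨w1, w2, p, hw1, hw2, hp, hlen⟩ := hc3
    refine ⟨w1, w2, p, hw1, hw2, fun z hz => ⟨(hp z hz).1, ?_⟩, hlen⟩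
    obtain ⟨hz1, hz2⟩ := hp z hz
    obtain ⟨z0, hz0, hzz0⟩ := hZ2 z hz1
    have b1 := hc1 z0 hz0 (place o t z) hzz0
    have hzDa : place o t z ∈ Da := by
      refine hZ1 z0 hz0 _ ?_ ?_ <;> rw [ad_mem_ball] at hzz0 <;> rw [abs_le] <;> constructor <;>
        linarith [hzz0.1.1, hzz0.1.2, hzz0.2.1, hzz0.2.2]
    have b2 := hh (place o t z) (hDav hzDa)
    rw [abs_le] at b1 b2
    rw [hℓ] at b1
    have e1 : ∑ y ∈ K, hit S K v y * extf S (H + ψ) y = ∑ y ∈ K, hit S K v y * extf S H y := by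
      refine Finset.sum_congr rfl fun y hy => ?_
      rw [extf_add, hc2 y (hKDa y hy), add_zero]
    simp only at hx1
    rw [e1] at hx1
    show h (place o t z) + extf S (H + ψ) (place o t z) ≤ lam
    rw [extf_add]
    linarith [b1.1, b1.2, b2.1, b2.2]
  · refine (measure_union_le _ _).trans ?_
    rw [Measure.prod_prod, Measure.prod_prod, measure_univ, measure_univ, mul_one, one_mul,
      ENNReal.ofReal_add hq (by norm_num), add_comm (ENNReal.ofReal q)]
    refine add_le_add hB1' ((measure_union_le _ _).trans ?_)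
    rw [hB2a, zero_add]
    exact hB2b

end H941.arm_dev
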