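import Pool.Agent.KS6_63.GFF.Defs4
import Pool.Agent.KS6_63.GFF.A3
import Pool.Agent.KS6_63.GFF.A4
import Pool.Agent.KS6_63.GFF.B.harm_grad_
import Pool.Agent.KS6_63.GFF.C.block_bad_
import Pool.Agent.KS6_63.GFF.C.markov_split_
import Pool.Agent.KS6_63.GFF.C.osc_var_
import Pool.Agent.KS6_63.GFF.C.submean_

open MeasureTheory ProbabilityTheory

namespace H941.block_weight

namespace AuxBW


theorem mem_rect {a b c d : ℤ} {z : ℤ × ℤ} : z ∈ rect a b c d ↔ (a ≤ z.1 ∧ z.1 ≤ b) ∧ (c ≤ z.2 ∧ z.2 ≤ d) := by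
  unfold rect
  rw [Finset.mem_product, Finset.mem_Icc, Finset.mem_Icc]

theorem mem_ball {v z : ℤ × ℤ} {r : ℤ} : z ∈ ball v r ↔ |z.1 - v.1| ≤ r ∧ |z.2 - v.2| ≤ r := by
  unfold ball
  rw [mem_rect, abs_le, abs_le]
  constructor
  · rintro ⟨⟨h1, h2⟩, h3, h4⟩
    exact ⟨⟨by linarith, by linarith⟩, by linarith, by linarith⟩
  · rintro ⟨⟨h1, h2⟩, h3, h4⟩
    exact ⟨⟨by linarith, by linarith⟩, by linarith, by linarith⟩

theorem mem_ball' {v z : ℤ × ℤ} {r : ℤ} : z ∈ ball v r ↔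
    v.1 - r ≤ z.1 ∧ z.1 ≤ v.1 + r ∧ v.2 - r ≤ z.2 ∧ z.2 ≤ v.2 + r := by
  unfold ball
  rw [mem_rect]
  tauto

theorem memLp_coord {ι : Type} [Fintype ι] [DecidableEq ι] (K : Matrix ι ι ℝ) (i : ι) :
    MemLp (fun x : EuclideanSpace ℝ ι ↦ x i) 2 (multivariateGaussian (0 : EuclideanSpace ℝ ι) K) := by
  have hid : HasGaussianLaw (fun x : EuclideanSpace ℝ ι ↦ x)
      (multivariateGaussian (0 : EuclideanSpace ℝ ι) K) := IsGaussian.hasGaussianLaw_id
  exact (hid.map (EuclideanSpace.proj i : EuclideanSpace ℝ ι →L[ℝ] ℝ)).memLp_two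

theorem mean_coord {ι : Type} [Fintype ι] [DecidableEq ι] (K : Matrix ι ι ℝ) (i : ι) :
    ∫ x, x i ∂(multivariateGaussian (0 : EuclideanSpace ℝ ι) K) = 0 := by
  have h := ContinuousLinearMap.integral_comp_id_comm
    (μ := multivariateGaussian (0 : EuclideanSpace ℝ ι) K) (IsGaussian.integrable_id)
    (EuclideanSpace.proj i : EuclideanSpace ℝ ι →L[ℝ] ℝ)
  have h2 : ∫ x, x i ∂(multivariateGaussian (0 : EuclideanSpace ℝ ι) K) =
      ∫ x, (EuclideanSpace.proj i : EuclideanSpace ℝ ι →L[ℝ] ℝ) x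
        ∂(multivariateGaussian (0 : EuclideanSpace ℝ ι) K) := rfl
  rw [h2, h]
  simp

theorem prod_coord {ι : Type} [Fintype ι] [DecidableEq ι] (K : Matrix ι ι ℝ) (hK : K.PosSemidef)
    (i j : ι) :
    ∫ x, x i * x j ∂(multivariateGaussian (0 : EuclideanSpace ℝ ι) K) = K i j := by
  have h := covariance_eval_multivariateGaussian (μ := (0 : EuclideanSpace ℝ ι)) hK i j
  rw [covariance_eq_sub (memLp_coord K i) (memLp_coord K j), mean_coord, mean_coord] at h
  simpa using h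

theorem moment {ι : Type} [Fintype ι] [DecidableEq ι] (K : Matrix ι ι ℝ) (hK : K.PosSemidef)
    (i j : ι) :
    ∫⁻ x, ENNReal.ofReal ((x i - x j) ^ 2) ∂(multivariateGaussian (0 : EuclideanSpace ℝ ι) K) =
      ENNReal.ofReal (K i i - 2 * K i j + K j j) := by
  have hint : Integrable (fun x : EuclideanSpace ℝ ι => (x i - x j) ^ 2)
      (multivariateGaussian (0 : EuclideanSpace ℝ ι) K) :=
    ((memLp_coord K i).sub (memLp_coord K j)).integrable_sq
  rw [← ofReal_integral_eq_lintegral_ofReal hint (Filter.Eventually.of_forall fun x => sq_nonneg _)]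
  congr 1
  have hi : ∀ a b : ι, Integrable (fun x : EuclideanSpace ℝ ι => x a * x b)
      (multivariateGaussian (0 : EuclideanSpace ℝ ι) K) := fun a b =>
    (memLp_coord K a).integrable_mul (memLp_coord K b)
  have e : (fun x : EuclideanSpace ℝ ι => (x i - x j) ^ 2) =
      fun x => (x i * x i - 2 * (x i * x j)) + x j * x j := by
    funext x; ring
  have hf1 : Integrable (fun x : EuclideanSpace ℝ ι => x i * x i - 2 * (x i * x j))
      (multivariateGaussian (0 : EuclideanSpace ℝ ι) K) := (hi i i).sub ((hi i j).const_mul 2)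
  have e1 := integral_add hf1 (hi j j)
  have e2 := integral_sub (hi i i) ((hi i j).const_mul 2)
  rw [e, e1, e2, integral_const_mul, prod_coord K hK, prod_coord K hK, prod_coord K hK]

/-- one dimensional paths -/
theorem path1 (g : ℤ → ℝ) (δ : ℝ) (lo hi : ℤ)
    (h : ∀ m, lo ≤ m → m + 1 ≤ hi → |g (m + 1) - g m| ≤ δ) (a : ℤ) (ha : lo ≤ a) (n : ℕ)
    (hn : a + n ≤ hi) : |g (a + n) - g a| ≤ n * δ := by
  induction n with
  | zero => simp
  | succ n ih =>
    have h1 := ih (by push_cast at hn; linarith)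
    have h2 := h (a + n) (by linarith [Int.natCast_nonneg n]) (by push_cast at hn; linarith)
    have h3 : g (a + (n + 1 : ℕ)) - g a = (g (a + n + 1) - g (a + n)) + (g (a + n) - g a) := by
      have : a + ((n + 1 : ℕ) : ℤ) = a + n + 1 := by push_cast; ring
      rw [this]; ring
    rw [h3]
    calc _ ≤ |g (a + n + 1) - g (a + n)| + |g (a + n) - g a| := abs_add_le _ _
      _ ≤ δ + n * δ := add_le_add h2 h1
      _ = _ := by push_cast; ring

theorem path1' (g : ℤ → ℝ) (δ : ℝ) (c : ℤ) (R : ℕ)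
    (h : ∀ m, c - R ≤ m → m + 1 ≤ c + R → |g (m + 1) - g m| ≤ δ) (hδ : 0 ≤ δ) (b : ℤ)
    (hb : |b - c| ≤ R) : |g b - g c| ≤ R * δ := by
  rw [abs_le] at hb
  rcases le_total c b with hcb | hcb
  · obtain ⟨n, hn⟩ := Int.eq_ofNat_of_zero_le (show 0 ≤ b - c by linarith)
    have hb' : b = c + n := by linarith
    have h1 := path1 g δ (c - R) (c + R) h c (by linarith [Int.natCast_nonneg R]) n (by linarith)
    rw [← hb'] at h1
    refine h1.trans ?_
    have : (n : ℤ) ≤ R := by linarith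
    have : (n : ℝ) ≤ R := by exact_mod_cast this
    exact mul_le_mul_of_nonneg_right this hδ
  · obtain ⟨n, hn⟩ := Int.eq_ofNat_of_zero_le (show 0 ≤ c - b by linarith)
    have hb' : c = b + n := by linarith
    have h1 := path1 g δ (c - R) (c + R) h b (by linarith) n
      (by linarith [Int.natCast_nonneg R])
    rw [← hb'] at h1
    rw [abs_sub_comm]
    refine h1.trans ?_
    have : (n : ℤ) ≤ R := by linarith
    have : (n : ℝ) ≤ R := by exact_mod_cast this
    exact mul_le_mul_of_nonneg_right this hδ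

theorem path2 (f : ℤ × ℤ → ℝ) (δ : ℝ) (hδ : 0 ≤ δ) (v : ℤ × ℤ) (R : ℕ)
    (h : ∀ x ∈ ball v R, ∀ x' ∈ nbrs x, |f x' - f x| ≤ δ) (z : ℤ × ℤ) (hz : z ∈ ball v R) :
    |f z - f v| ≤ 2 * R * δ := by
  rw [mem_ball] at hz
  have h1 : |f (z.1, v.2) - f (v.1, v.2)| ≤ R * δ := by
    refine path1' (fun m => f (m, v.2)) δ v.1 R ?_ hδ z.1 hz.1
    intro m hm1 hm2
    refine h (m, v.2) ?_ (m + 1, v.2) ?_
    · rw [mem_ball]
      refine ⟨?_, by simp⟩
      rw [abs_le]; constructor <;> simp only <;> linarith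
    · simp [nbrs]
  have h2 : |f (z.1, z.2) - f (z.1, v.2)| ≤ R * δ := by
    refine path1' (fun m => f (z.1, m)) δ v.2 R ?_ hδ z.2 hz.2
    intro m hm1 hm2
    refine h (z.1, m) ?_ (z.1, m + 1) ?_
    · rw [mem_ball]
      refine ⟨hz.1, ?_⟩
      rw [abs_le]; constructor <;> simp only <;> linarith
    · simp [nbrs]
  have e : f z - f v = (f (z.1, z.2) - f (z.1, v.2)) + (f (z.1, v.2) - f (v.1, v.2)) := by ring
  rw [e]
  calc _ ≤ _ := abs_add_le _ _
    _ ≤ R * δ + R * δ := add_le_add h2 h1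
    _ = _ := by ring

/-- harmonic functions: oscillation on a small ball by the mean oscillation on a large one -/
theorem grad : ∃ C : ℝ, 1 ≤ C ∧ ∀ (W ρ : ℕ) (v : ℤ × ℤ) (h : ℤ × ℤ → ℝ), 1 ≤ W →
    1000 * W ≤ ρ → (∀ z ∈ ball v ρ, h z = (1 / 4) * ∑ z' ∈ nbrs z, h z') →
    ∀ z ∈ ball v ((5 * W : ℕ) : ℤ), |h z - h v| ≤ C * ((W : ℝ) / ρ) * Aosc v ρ h := by
  obtain ⟨C0, hC0, hsub⟩ := submean
  refine ⟨20250 * C0 + 1, by linarith, ?_⟩
  intro W ρ v h hW hρ hharm
  have hρ1 : 1000 ≤ ρ := by omega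
  have hρR : (1000 : ℝ) ≤ ρ := by exact_mod_cast hρ1
  set k : ℤ × ℤ → ℝ := fun z => h z - h v with hk
  set A := Aosc v ρ h with hA
  have hAnn : 0 ≤ A := by
    rw [hA]; unfold Aosc
    exact mul_nonneg (by positivity) (Finset.sum_nonneg fun _ _ => abs_nonneg _)
  have hsum : ∑ z ∈ ball v ((3 * ρ / 4 : ℕ) : ℤ), |k z| = (ρ : ℝ) ^ 2 * A := by
    rw [hA]; unfold Aosc
    have : (ρ : ℝ) ≠ 0 := by positivity
    field_simp
    simp only [hk]
  have hkharm : ∀ z ∈ ball v ρ, k z = (1 / 4) * ∑ z' ∈ nbrs z, k z' := by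
    intro z hz
    have hc : (nbrs z).card = 4 := by
      unfold nbrs
      rw [Finset.card_insert_of_notMem, Finset.card_insert_of_notMem,
        Finset.card_insert_of_notMem, Finset.card_singleton]
      · simp only [Finset.mem_singleton, Prod.mk.injEq, not_and]
        omega
      · simp only [Finset.mem_insert, Finset.mem_singleton, Prod.mk.injEq, not_or, not_and]
        omega
      · simp only [Finset.mem_insert, Finset.mem_singleton, Prod.mk.injEq, not_or, not_and]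
        omega
    simp only [hk]
    rw [Finset.sum_sub_distrib, Finset.sum_const, hc, hharm z hz]
    simp only [nsmul_eq_mul]
    push_cast
    ring
  set n : ℕ := ρ / 8 with hn
  have hn9 : (ρ : ℝ) / 9 ≤ n := by
    have : ρ ≤ 9 * n := by omega
    have : (ρ : ℝ) ≤ 9 * n := by exact_mod_cast this
    linarith
  have hn1 : 1 ≤ n := by omega
  have hnpos : (0 : ℝ) < n := by exact_mod_cast hn1
  set M : ℝ := 81 * C0 * A with hM
  have hMb : ∀ x ∈ ball v ((ρ / 2 : ℕ) : ℤ), |k x| ≤ M := by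
    intro x hx
    rw [mem_ball'] at hx
    have h1 := hsub (fun z => |k z|) x n hn1 (fun z => abs_nonneg _) (by
      intro z hz
      rw [mem_ball'] at hz
      have hzb : z ∈ ball v ρ := by
        rw [mem_ball']
        omega
      show |k z| ≤ (1 / 4) * ∑ z' ∈ nbrs z, |k z'|
      rw [hkharm z hzb, abs_mul]
      have : |(1 / 4 : ℝ)| = 1 / 4 := abs_of_pos (by norm_num)
      rw [this]
      exact mul_le_mul_of_nonneg_left (Finset.abs_sum_le_sum_abs _ _) (by norm_num))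
    refine h1.trans ?_
    have h2 : ∑ z ∈ ball x ((n : ℤ) + 1), |k z| ≤ (ρ : ℝ) ^ 2 * A := by
      rw [← hsum]
      apply Finset.sum_le_sum_of_subset_of_nonneg
      · intro z hz
        rw [mem_ball'] at hz ⊢
        omega
      · intro _ _ _; exact abs_nonneg _
    have h3 : C0 / (n : ℝ) ^ 2 * ∑ z ∈ ball x ((n : ℤ) + 1), |k z| ≤
        C0 / (n : ℝ) ^ 2 * ((ρ : ℝ) ^ 2 * A) :=
      mul_le_mul_of_nonneg_left h2 (by positivity)
    refine h3.trans ?_
    have h4 : (ρ : ℝ) ^ 2 ≤ 81 * (n : ℝ) ^ 2 := by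
      have : (ρ : ℝ) ≤ 9 * n := by linarith
      nlinarith
    rw [hM]
    have h5 : C0 / (n : ℝ) ^ 2 * ((ρ : ℝ) ^ 2 * A) = C0 * A * ((ρ : ℝ) ^ 2 / (n : ℝ) ^ 2) := by
      ring
    rw [h5]
    have h6 : (ρ : ℝ) ^ 2 / (n : ℝ) ^ 2 ≤ 81 := by
      rw [div_le_iff₀ (by positivity)]; exact h4
    nlinarith [mul_nonneg hC0.le hAnn]
  have hMnn : 0 ≤ M := by rw [hM]; positivity
  set r : ℕ := ρ / 4 with hr
  have hr1 : 1 ≤ r := by omega
  have hr5 : (ρ : ℝ) / 5 ≤ r := by
    have : ρ ≤ 5 * r := by omega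
    have : (ρ : ℝ) ≤ 5 * r := by exact_mod_cast this
    linarith
  have hrpos : (0 : ℝ) < r := by exact_mod_cast hr1
  intro z hz
  have hp := path2 k (5 * M / r) (by positivity) v (5 * W) (by
    intro x hx x' hx'
    rw [mem_ball'] at hx
    refine harm_grad k x x' hx' r hr1 M ?_ ?_
    · intro y hy1 hy2
      apply hkharm
      rw [mem_ball']
      have a1 := abs_le.1 hy1
      have a2 := abs_le.1 hy2
      push_cast at *
      omega
    · intro y hy1 hy2
      apply hMb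
      rw [mem_ball']
      have a1 := abs_le.1 hy1
      have a2 := abs_le.1 hy2
      push_cast at *
      omega) z hz
  have hkv : k z - k v = h z - h v := by simp [hk]
  rw [hkv] at hp
  refine hp.trans ?_
  have hWR : (0 : ℝ) ≤ W := by positivity
  have e1 : 2 * ((5 * W : ℕ) : ℝ) * (5 * M / r) = 50 * W * M * (1 / r) := by push_cast; ring
  rw [e1]
  have h7 : 1 / (r : ℝ) ≤ 5 / ρ := by
    rw [div_le_div_iff₀ hrpos (by positivity)]; linarith
  calc 50 * W * M * (1 / r) ≤ 50 * W * M * (5 / ρ) :=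
        mul_le_mul_of_nonneg_left h7 (by positivity)
    _ = 20250 * C0 * ((W : ℝ) / ρ) * A := by rw [hM]; ring
    _ ≤ (20250 * C0 + 1) * ((W : ℝ) / ρ) * A := by
        have : 0 ≤ ((W : ℝ) / ρ) * A := by positivity
        nlinarith

/-- arms only depend on the values in the placed rectangle -/
theorem arm_congr {o : Bool} {t : ℤ × ℤ} {w d : ℕ} {lam len : ℝ} {f g : ℤ × ℤ → ℝ}
    (hfg : ∀ z ∈ rect w (5 * w) d (w - d), f (place o t z) = g (place o t z))
    (h : armOK o t w d lam len f) : armOK o t w d lam len g := by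
  obtain ⟨u, v, p, h1, h2, h3, h4⟩ := h
  exact ⟨u, v, p, h1, h2, fun z hz => ⟨(h3 z hz).1, by rw [← hfg z (h3 z hz).1]; exact (h3 z hz).2⟩, h4⟩

theorem circuit_congr {c v : ℤ × ℤ} {W : ℕ} {lam len : ℝ} {f g : ℤ × ℤ → ℝ} (hW : 1 ≤ W)
    (hc1 : 4 * |c.1 - v.1| ≤ (W : ℤ)) (hc2 : 4 * |c.2 - v.2| ≤ (W : ℤ))
    (hfg : ∀ z, z ∉ ball v ((W / 2 : ℕ) : ℤ) → f z = g z)
    (h : circuitOK c W (W / 4) lam len f) : circuitOK c W (W / 4) lam len g := by
  have b1 := abs_le.1 (show |c.1 - v.1| ≤ (W : ℤ) / 4 by omega)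
  have b2 := abs_le.1 (show |c.2 - v.2| ≤ (W : ℤ) / 4 by omega)
  obtain ⟨h1, h2, h3, h4⟩ := h
  refine ⟨arm_congr ?_ h1, arm_congr ?_ h2, arm_congr ?_ h3, arm_congr ?_ h4⟩
  · intro z hz
    apply hfg
    rw [mem_rect] at hz
    rw [mem_ball]
    intro hh
    have := abs_le.1 hh.2
    simp only [place, if_true] at this
    push_cast at *
    omega
  · intro z hz
    apply hfg
    rw [mem_rect] at hz
    rw [mem_ball]
    intro hh
    have := abs_le.1 hh.2
    simp only [place, if_true] at this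
    push_cast at *
    omega
  · intro z hz
    apply hfg
    rw [mem_rect] at hz
    rw [mem_ball]
    intro hh
    have := abs_le.1 hh.1
    simp only [place] at this
    push_cast at *
    simp at this
    omega
  · intro z hz
    apply hfg
    rw [mem_rect] at hz
    rw [mem_ball]
    intro hh
    have := abs_le.1 hh.1
    simp only [place] at this
    push_cast at *
    simp at this
    omega

theorem bad_congr {c v : ℤ × ℤ} {W : ℕ} {lam Kh : ℝ} {f g : ℤ × ℤ → ℝ} (hW : 1 ≤ W)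
    (hc1 : 4 * |c.1 - v.1| ≤ (W : ℤ)) (hc2 : 4 * |c.2 - v.2| ≤ (W : ℤ))
    (hfg : ∀ z, z ∉ ball v ((W / 2 : ℕ) : ℤ) → f z = g z)
    (h : bad lam Kh c W f) : bad lam Kh c W g := by
  refine ⟨fun h1 => h.1 ?_, fun h1 => h.2 ?_⟩
  · exact circuit_congr hW hc1 hc2 (fun z hz => (hfg z hz).symm) h1
  · exact circuit_congr hW hc1 hc2 (fun z hz => by rw [hfg z hz]) h1

theorem card_ball (v : ℤ × ℤ) (m : ℕ) : (ball v (m : ℤ)).card = (2 * m + 1) ^ 2 := by
  unfold ball rect
  rw [Finset.card_product, Int.card_Icc, Int.card_Icc]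
  have e1 : (v.1 + m + 1 - (v.1 - m)).toNat = 2 * m + 1 := by omega
  have e2 : (v.2 + m + 1 - (v.2 - m)).toNat = 2 * m + 1 := by omega
  rw [e1, e2, sq]

theorem extf_mem {S : Finset (ℤ × ℤ)} (x : EuclideanSpace ℝ (S : Finset (ℤ × ℤ))) {z : ℤ × ℤ}
    (hz : z ∈ S) : extf S x z = x ⟨z, hz⟩ := by
  unfold extf; rw [dif_pos hz]

theorem extf_add {S : Finset (ℤ × ℤ)} (x y : EuclideanSpace ℝ (S : Finset (ℤ × ℤ))) (z : ℤ × ℤ) :
    extf S (x + y) z = extf S x z + extf S y z := by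
  by_cases hz : z ∈ S
  · rw [extf_mem _ hz, extf_mem _ hz, extf_mem _ hz]; rfl
  · unfold extf; rw [dif_neg hz, dif_neg hz, dif_neg hz]; simp

theorem meas_extf (S : Finset (ℤ × ℤ)) (z : ℤ × ℤ) :
    Measurable (fun x : EuclideanSpace ℝ (S : Finset (ℤ × ℤ)) => extf S x z) := by
  by_cases hz : z ∈ S
  · have : (fun x : EuclideanSpace ℝ (S : Finset (ℤ × ℤ)) => extf S x z) = fun x => x ⟨z, hz⟩ := by
      funext x; exact extf_mem x hz
    rw [this]; fun_prop
  · have : (fun x : EuclideanSpace ℝ (S : Finset (ℤ × ℤ)) => extf S x z) = fun _ => 0 := by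
      funext x; unfold extf; rw [dif_neg hz]
    rw [this]; exact measurable_const

/-- the field of law `gf S D` is zero off `D` -/
theorem ae_zero (S D : Finset (ℤ × ℤ)) (hDS : D ⊆ S) :
    ∀ᵐ y ∂(gf S D), ∀ z : (S : Finset (ℤ × ℤ)), z.1 ∉ D → y z = 0 := by
  rw [ae_all_iff]
  intro z
  by_cases hz : z.1 ∈ D
  · exact Filter.Eventually.of_forall fun y hh => absurd hz hh
  have hpsd : (Matrix.of fun x y : (S : Finset (ℤ × ℤ)) => (1 / 4) * green D x y).PosSemidef := by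
    have h := (markov_split S D ∅ (Finset.empty_subset _) hDS).1
    have e : (Matrix.of fun x y : (S : Finset (ℤ × ℤ)) => (1 / 4) * (green D x y - green ∅ x y)) =
        (Matrix.of fun x y : (S : Finset (ℤ × ℤ)) => (1 / 4) * green D x y) := by
      ext x y
      simp only [Matrix.of_apply]
      rw [(green_basic ∅).2.1 x y (Or.inl (by simp)), sub_zero]
    rw [e] at h
    exact h
  have hp := prod_coord _ hpsd z z
  rw [Matrix.of_apply, (green_basic D).2.1 z z (Or.inl hz), mul_zero] at hp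
  have hint : Integrable (fun x : EuclideanSpace ℝ (S : Finset (ℤ × ℤ)) => x z * x z)
      (multivariateGaussian (0 : EuclideanSpace ℝ (S : Finset (ℤ × ℤ)))
        (Matrix.of fun x y : (S : Finset (ℤ × ℤ)) => (1 / 4) * green D x y)) :=
    (memLp_coord _ z).integrable_mul (memLp_coord _ z)
  have h0 := (integral_eq_zero_iff_of_nonneg (fun x => mul_self_nonneg _) hint).1 hp
  unfold gf
  filter_upwards [h0] with y hy _
  exact mul_self_eq_zero.1 hy

/-- the law of the outer field sees the bad event as the full field does -/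
theorem bad_le (v c : ℤ × ℤ) (W ρ : ℕ) (hW : 1 ≤ W) (hWρ : W ≤ ρ) (lam Kh : ℝ) (h : ℤ × ℤ → ℝ)
    (hc1 : 4 * |c.1 - v.1| ≤ (W : ℤ)) (hc2 : 4 * |c.2 - v.2| ≤ (W : ℤ)) :
    (multivariateGaussian (0 : EuclideanSpace ℝ (ball v ρ : Finset (ℤ × ℤ)))
        (Matrix.of fun x y : (ball v ρ : Finset (ℤ × ℤ)) =>
          (1 / 4) * (green (ball v ρ) x y - green (ball v ((W / 2 : ℕ) : ℤ)) x y)))
      {x | bad lam Kh c W (fun z => h z + extf (ball v ρ) x z)} ≤
    gf (ball v ρ) (ball v ρ) {x | bad lam Kh c W (fun z => h z + extf (ball v ρ) x z)} := by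
  have hDS : ball v ((W / 2 : ℕ) : ℤ) ⊆ ball v ρ := by
    intro z hz
    rw [mem_ball'] at hz ⊢
    omega
  obtain ⟨hpsd, hmap, -⟩ := markov_split (ball v ρ) (ball v ρ) (ball v ((W / 2 : ℕ) : ℤ)) hDS
    (Finset.Subset.refl _)
  set μ := (multivariateGaussian (0 : EuclideanSpace ℝ (ball v ρ : Finset (ℤ × ℤ)))
        (Matrix.of fun x y : (ball v ρ : Finset (ℤ × ℤ)) =>
          (1 / 4) * (green (ball v ρ) x y - green (ball v ((W / 2 : ℕ) : ℤ)) x y))) with hμ
  set ν := gf (ball v ρ) (ball v ((W / 2 : ℕ) : ℤ)) with hν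
  have : IsProbabilityMeasure ν := by rw [hν]; unfold gf; infer_instance
  set Bd := {x | bad lam Kh c W (fun z => h z + extf (ball v ρ) x z)} with hBd
  have hae := ae_zero (ball v ρ) (ball v ((W / 2 : ℕ) : ℤ)) hDS
  rw [← hν] at hae
  have h1 : μ Bd = (μ.prod ν) (Bd ×ˢ Set.univ) := by
    rw [Measure.prod_prod, measure_univ, mul_one]
  have h2 : Bd ×ˢ (Set.univ : Set (EuclideanSpace ℝ (ball v ρ : Finset (ℤ × ℤ)))) ⊆
      (fun p : EuclideanSpace ℝ (ball v ρ : Finset (ℤ × ℤ)) ×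
        EuclideanSpace ℝ (ball v ρ : Finset (ℤ × ℤ)) => p.1 + p.2) ⁻¹' Bd ∪
      Set.univ ×ˢ {y | ¬ ∀ z : (ball v ρ : Finset (ℤ × ℤ)), z.1 ∉ ball v ((W / 2 : ℕ) : ℤ) → y z = 0} := by
    rintro ⟨x, y⟩ ⟨hx, -⟩
    by_cases hy : ∀ z : (ball v ρ : Finset (ℤ × ℤ)), z.1 ∉ ball v ((W / 2 : ℕ) : ℤ) → y z = 0
    · left
      refine bad_congr hW hc1 hc2 ?_ hx
      intro z hz
      show h z + extf (ball v ρ) x z = h z + extf (ball v ρ) (x + y) z
      rw [extf_add]
      have : extf (ball v ρ) y z = 0 := by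
        by_cases hzS : z ∈ ball v ρ
        · rw [extf_mem _ hzS]; exact hy ⟨z, hzS⟩ hz
        · unfold extf; rw [dif_neg hzS]
      rw [this, add_zero]
    · right
      exact ⟨Set.mem_univ _, hy⟩
  have h3 : (μ.prod ν) (Set.univ ×ˢ {y | ¬ ∀ z : (ball v ρ : Finset (ℤ × ℤ)),
      z.1 ∉ ball v ((W / 2 : ℕ) : ℤ) → y z = 0}) = 0 := by
    rw [Measure.prod_prod]
    have : ν {y | ¬ ∀ z : (ball v ρ : Finset (ℤ × ℤ)),
      z.1 ∉ ball v ((W / 2 : ℕ) : ℤ) → y z = 0} = 0 := by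
      rw [ae_iff] at hae
      exact hae
    rw [this, mul_zero]
  have h4 : (μ.prod ν) ((fun p : EuclideanSpace ℝ (ball v ρ : Finset (ℤ × ℤ)) ×
        EuclideanSpace ℝ (ball v ρ : Finset (ℤ × ℤ)) => p.1 + p.2) ⁻¹' Bd) ≤
      gf (ball v ρ) (ball v ρ) Bd := by
    rw [← hmap]
    exact Measure.le_map_apply (by fun_prop) _
  calc μ Bd = (μ.prod ν) (Bd ×ˢ Set.univ) := h1
    _ ≤ _ := measure_mono h2
    _ ≤ _ := measure_union_le _ _
    _ ≤ gf (ball v ρ) (ball v ρ) Bd + 0 := add_le_add h4 h3.le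
    _ = _ := add_zero _

/-- the mean oscillation of the sum of `h` and the outer field -/
theorem aosc_gen (Co : ℝ) (v : ℤ × ℤ) (r : ℕ) (S D : Finset (ℤ × ℤ)) (hr : 1 ≤ r) (h : ℤ × ℤ → ℝ)
    (hpsd : (Matrix.of fun x y : (S : Finset (ℤ × ℤ)) => (1 / 4) * (green S x y - green D x y)).PosSemidef)
    (hvS : v ∈ S) (hJS : ∀ z ∈ ball v ((3 * r / 4 : ℕ) : ℤ), z ∈ S)
    (hosc : ∀ z ∈ ball v ((3 * r / 4 : ℕ) : ℤ),
      (green S z z - green D z z) - 2 * (green S z v - green D z v) +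
      (green S v v - green D v v) ≤ Co)
    (K B : ℝ) (hK : 0 ≤ K) (hB : 0 < B) (hh : ∀ z ∈ ball v ((3 * r / 4 : ℕ) : ℤ), |h z - h v| ≤ K) :
    ∃ G : EuclideanSpace ℝ (S : Finset (ℤ × ℤ)) → ENNReal, Measurable G ∧
      (∀ x, ENNReal.ofReal (Aosc v r (fun z => h z + extf S x z) / B) ≤ G x) ∧
      ∫⁻ x, G x ∂(multivariateGaussian (0 : EuclideanSpace ℝ (S : Finset (ℤ × ℤ)))
        (Matrix.of fun x y : (S : Finset (ℤ × ℤ)) => (1 / 4) * (green S x y - green D x y))) ≤
        ENNReal.ofReal (9 / B * (K + 1 + max Co 0 / 4)) := by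
  have hmax : 0 ≤ max Co 0 := le_max_right _ _
  have hrR : (0 : ℝ) < r := by exact_mod_cast hr
  obtain ⟨a, ha⟩ : ∃ a : ℝ, a = 1 / (r : ℝ) ^ 2 / B := ⟨_, rfl⟩
  have ha0 : 0 < a := by rw [ha]; positivity
  have hmeas : ∀ z, Measurable (fun x : EuclideanSpace ℝ (S : Finset (ℤ × ℤ)) =>
      ENNReal.ofReal (a * (K + 1 + (extf S x z - extf S x v) ^ 2))) := by
    intro z
    refine ENNReal.measurable_ofReal.comp ?_
    exact measurable_const.mul (measurable_const.add
      (((meas_extf S z).sub (meas_extf S v)).pow_const 2))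
  refine ⟨fun x => ∑ z ∈ ball v ((3 * r / 4 : ℕ) : ℤ),
    ENNReal.ofReal (a * (K + 1 + (extf S x z - extf S x v) ^ 2)), ?_, ?_, ?_⟩
  · exact Finset.measurable_sum _ fun z _ => hmeas z
  · intro x
    show _ ≤ ∑ z ∈ ball v ((3 * r / 4 : ℕ) : ℤ),
      ENNReal.ofReal (a * (K + 1 + (extf S x z - extf S x v) ^ 2))
    rw [← ENNReal.ofReal_sum_of_nonneg (fun z _ => by positivity)]
    apply ENNReal.ofReal_le_ofReal
    unfold Aosc
    rw [← Finset.mul_sum]
    have e : 1 / (r : ℝ) ^ 2 * (∑ z ∈ ball v ((3 * r / 4 : ℕ) : ℤ),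
        |h z + extf S x z - (h v + extf S x v)|) / B =
      a * ∑ z ∈ ball v ((3 * r / 4 : ℕ) : ℤ), |h z + extf S x z - (h v + extf S x v)| := by
      rw [ha]; ring
    rw [e]
    refine mul_le_mul_of_nonneg_left (Finset.sum_le_sum fun z hz => ?_) ha0.le
    have h1 := hh z hz
    have h2 : |h z + extf S x z - (h v + extf S x v)| ≤ |h z - h v| + |extf S x z - extf S x v| := by
      have : h z + extf S x z - (h v + extf S x v) = (h z - h v) + (extf S x z - extf S x v) := by ring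
      rw [this]; exact abs_add_le _ _
    have h3 : |extf S x z - extf S x v| ≤ 1 + (extf S x z - extf S x v) ^ 2 := by
      rw [← sq_abs (extf S x z - extf S x v)]
      nlinarith [abs_nonneg (extf S x z - extf S x v), sq_nonneg (|extf S x z - extf S x v| - 1)]
    linarith
  · show ∫⁻ x, ∑ z ∈ ball v ((3 * r / 4 : ℕ) : ℤ),
      ENNReal.ofReal (a * (K + 1 + (extf S x z - extf S x v) ^ 2)) ∂_ ≤ _
    rw [lintegral_finsetSum _ (fun z _ => hmeas z)]
    have hterm : ∀ z ∈ ball v ((3 * r / 4 : ℕ) : ℤ),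
        ∫⁻ x, ENNReal.ofReal (a * (K + 1 + (extf S x z - extf S x v) ^ 2))
          ∂(multivariateGaussian (0 : EuclideanSpace ℝ (S : Finset (ℤ × ℤ)))
        (Matrix.of fun x y : (S : Finset (ℤ × ℤ)) => (1 / 4) * (green S x y - green D x y))) ≤
          ENNReal.ofReal (a * (K + 1 + max Co 0 / 4)) := by
      intro z hz
      have hzS := hJS z hz
      have e : ∀ x : EuclideanSpace ℝ (S : Finset (ℤ × ℤ)),
          ENNReal.ofReal (a * (K + 1 + (extf S x z - extf S x v) ^ 2)) =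
          ENNReal.ofReal (a * (K + 1)) + ENNReal.ofReal a *
            ENNReal.ofReal ((x ⟨z, hzS⟩ - x ⟨v, hvS⟩) ^ 2) := by
        intro x
        rw [← ENNReal.ofReal_mul ha0.le, ← ENNReal.ofReal_add (by positivity) (by positivity),
          extf_mem x hzS, extf_mem x hvS]
        congr 1; ring
      simp only [e]
      rw [lintegral_add_left measurable_const, lintegral_const, lintegral_const_mul _ (by fun_prop),
        moment _ hpsd, measure_univ, mul_one, ← ENNReal.ofReal_mul ha0.le]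
      simp only [Matrix.of_apply]
      have hv := hosc z hz
      have hm : (1 / 4) * (green S z z - green D z z) -
          2 * ((1 / 4) * (green S z v - green D z v)) +
          (1 / 4) * (green S v v - green D v v) ≤ max Co 0 / 4 := by
        have : Co ≤ max Co 0 := le_max_left _ _
        linarith
      calc _ ≤ ENNReal.ofReal (a * (K + 1)) + ENNReal.ofReal (a * (max Co 0 / 4)) := by
            refine add_le_add le_rfl (ENNReal.ofReal_le_ofReal ?_)
            exact mul_le_mul_of_nonneg_left hm ha0.le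
        _ = _ := by
            rw [← ENNReal.ofReal_add (by positivity) (by positivity)]
            congr 1; ring
    refine (Finset.sum_le_sum hterm).trans ?_
    rw [Finset.sum_const, card_ball, nsmul_eq_mul]
    rw [← ENNReal.ofReal_natCast, ← ENNReal.ofReal_mul (by positivity)]
    apply ENNReal.ofReal_le_ofReal
    have hcard : (((2 * (3 * r / 4) + 1) ^ 2 : ℕ) : ℝ) ≤ 9 * (r : ℝ) ^ 2 := by
      have h1 : 2 * (3 * r / 4) + 1 ≤ 3 * r := by omega
      have h2 : ((2 * (3 * r / 4) + 1 : ℕ) : ℝ) ≤ 3 * (r : ℝ) := by exact_mod_cast h1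
      rw [Nat.cast_pow]
      have h3 : (0 : ℝ) ≤ ((2 * (3 * r / 4) + 1 : ℕ) : ℝ) := Nat.cast_nonneg _
      nlinarith
    calc (((2 * (3 * r / 4) + 1) ^ 2 : ℕ) : ℝ) * (a * (K + 1 + max Co 0 / 4)) ≤
          9 * (r : ℝ) ^ 2 * (a * (K + 1 + max Co 0 / 4)) :=
          mul_le_mul_of_nonneg_right hcard (by positivity)
      _ = 9 / B * (K + 1 + max Co 0 / 4) := by
          rw [ha]; field_simp

theorem aosc_le (Co : ℝ) (v : ℤ × ℤ) (r ρ : ℕ) (hr : 1 ≤ r) (hrρ : r ≤ ρ) (h : ℤ × ℤ → ℝ)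
    (hosc : ∀ z ∈ ball v ((3 * r / 4 : ℕ) : ℤ),
      (green (ball v ρ) z z - green (ball v r) z z) - 2 * (green (ball v ρ) z v - green (ball v r) z v) +
      (green (ball v ρ) v v - green (ball v r) v v) ≤ Co)
    (K B : ℝ) (hK : 0 ≤ K) (hB : 0 < B) (hh : ∀ z ∈ ball v ((3 * r / 4 : ℕ) : ℤ), |h z - h v| ≤ K) :
    ∃ G : EuclideanSpace ℝ (ball v ρ : Finset (ℤ × ℤ)) → ENNReal, Measurable G ∧
      (∀ x, ENNReal.ofReal (Aosc v r (fun z => h z + extf (ball v ρ) x z) / B) ≤ G x) ∧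
      ∫⁻ x, G x ∂(multivariateGaussian (0 : EuclideanSpace ℝ (ball v ρ : Finset (ℤ × ℤ)))
        (Matrix.of fun x y : (ball v ρ : Finset (ℤ × ℤ)) =>
          (1 / 4) * (green (ball v ρ) x y - green (ball v r) x y))) ≤
        ENNReal.ofReal (9 / B * (K + 1 + max Co 0 / 4)) := by
  have hDS : ball v (r : ℤ) ⊆ ball v ρ := by
    intro z hz
    rw [mem_ball'] at hz ⊢
    omega
  obtain ⟨hpsd, -, -⟩ := markov_split (ball v ρ) (ball v ρ) (ball v r) hDS (Finset.Subset.refl _)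
  refine aosc_gen Co v r (ball v ρ) (ball v r) hr h hpsd ?_ ?_ hosc K B hK hB hh
  · rw [mem_ball']; omega
  · intro z hz
    rw [mem_ball'] at hz ⊢
    omega

end AuxBW

theorem _root_.H941.block_weight : ∃ Cb B : ℝ, 1 ≤ Cb ∧ 1 ≤ B ∧ ∀ (u Kh q lam : ℝ) (W ρ : ℕ) (v c : ℤ × ℤ) (h : ℤ × ℤ → ℝ),
    128 ≤ W → Even W → 1 ≤ u → Real.exp (Cb * u ^ 2) * W ≤ ρ → 0 ≤ q → q ≤ 1 / 64 → HypA u Kh q W →
    4 * |c.1 - v.1| ≤ (W : ℤ) → 4 * |c.2 - v.2| ≤ (W : ℤ) →
    (∀ z ∈ ball v ρ, h z = (1 / 4) * ∑ z' ∈ nbrs z, h z') →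
    ∫⁻ x, Set.indicator {x | bad lam Kh c W (fun z => h z + extf (ball v ρ) x z)}
        (fun x => ENNReal.ofReal (1 + Aosc v (W / 2) (fun z => h z + extf (ball v ρ) x z) / B)) x
      ∂(multivariateGaussian (0 : EuclideanSpace ℝ (ball v ρ : Finset (ℤ × ℤ)))
        (Matrix.of fun x y : (ball v ρ : Finset (ℤ × ℤ)) => (1 / 4) * (green (ball v ρ) x y - green (ball v ((W / 2 : ℕ) : ℤ)) x y))) ≤
      ENNReal.ofReal ((3 / 4) * (1 + Aosc v ρ h / B)) := by
  obtain ⟨Cg, hCg, hgrad⟩ := AuxBW.grad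
  obtain ⟨Co, hCo, hosc⟩ := osc_var
  obtain ⟨Cb0, hCb0, hblock⟩ := block_bad
  have hmax : max Co 0 = Co := max_eq_left hCo.le
  set B : ℝ := 36 * (1 + Co) with hB
  have hB1 : 36 ≤ B := by rw [hB]; linarith
  have hBpos : 0 < B := by linarith
  set Cb : ℝ := Cb0 + 24 * Cg + 2 * B * Cg + 1000 with hCb
  have hBC : 0 ≤ B * Cg := by positivity
  refine ⟨Cb, B, by rw [hCb]; nlinarith, by linarith, ?_⟩
  intro u Kh q lam W ρ v c h hW _ hu hρ hq0 hq hA hc1 hc2 hharm
  have hCb1 : 1000 ≤ Cb := by rw [hCb]; nlinarith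
  have hWpos : (0 : ℝ) < W := by
    have : 0 < W := by omega
    exact_mod_cast this
  have hu2 : 1 ≤ u ^ 2 := by nlinarith
  have hexp : Cb ≤ Real.exp (Cb * u ^ 2) := by
    have h1 := Real.add_one_le_exp (Cb * u ^ 2)
    nlinarith
  have hρC : Cb * W ≤ ρ := le_trans (mul_le_mul_of_nonneg_right hexp hWpos.le) hρ
  have hρpos : (0 : ℝ) < ρ := by nlinarith
  have hρ1000 : 1000 * W ≤ ρ := by
    have : (1000 : ℝ) * W ≤ ρ := by nlinarith
    exact_mod_cast this
  have hWρ : W ≤ ρ := by omega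
  set A := Aosc v ρ h with hAdef
  have hAnn : 0 ≤ A := by
    rw [hAdef]; unfold Aosc
    exact mul_nonneg (by positivity) (Finset.sum_nonneg fun _ _ => abs_nonneg _)
  set K : ℝ := Cg * ((W : ℝ) / ρ) * A with hK
  have hKnn : 0 ≤ K := by rw [hK]; positivity
  have hg := hgrad W ρ v h (by omega) hρ1000 hharm
  have hJ : ∀ z ∈ ball v ((3 * (W / 2) / 4 : ℕ) : ℤ), |h z - h v| ≤ K := by
    intro z hz
    apply hg
    rw [AuxBW.mem_ball'] at hz ⊢
    push_cast at *
    omega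
  obtain ⟨G, hGm, hGle, hGint⟩ := AuxBW.aosc_le Co v (W / 2) ρ (by omega) (by omega) h
    (fun z hz => hosc v z ρ (W / 2) (by omega) (by omega) hz) K B hKnn hBpos hJ
  rw [hmax] at hGint
  set μ := (multivariateGaussian (0 : EuclideanSpace ℝ (ball v ρ : Finset (ℤ × ℤ)))
        (Matrix.of fun x y : (ball v ρ : Finset (ℤ × ℤ)) =>
          (1 / 4) * (green (ball v ρ) x y - green (ball v ((W / 2 : ℕ) : ℤ)) x y))) with hμ
  set Bd := {x | bad lam Kh c W (fun z => h z + extf (ball v ρ) x z)} with hBd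
  have hpt : ∀ x, Set.indicator Bd (fun x => ENNReal.ofReal (1 + Aosc v (W / 2)
      (fun z => h z + extf (ball v ρ) x z) / B)) x ≤ Set.indicator Bd 1 x + G x := by
    intro x
    by_cases hx : x ∈ Bd
    · rw [Set.indicator_of_mem hx, Set.indicator_of_mem hx]
      have hnn : 0 ≤ Aosc v (W / 2) (fun z => h z + extf (ball v ρ) x z) / B := by
        unfold Aosc
        exact div_nonneg (mul_nonneg (by positivity) (Finset.sum_nonneg fun _ _ => abs_nonneg _))
          hBpos.le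
      rw [ENNReal.ofReal_add (by norm_num) hnn, ENNReal.ofReal_one]
      exact add_le_add le_rfl (hGle x)
    · rw [Set.indicator_of_notMem hx]
      exact bot_le
  have hI : ∫⁻ x, Set.indicator Bd (fun x => ENNReal.ofReal (1 + Aosc v (W / 2)
      (fun z => h z + extf (ball v ρ) x z) / B)) x ∂μ ≤ μ Bd + ENNReal.ofReal (9 / B * (K + 1 + Co / 4)) := by
    calc _ ≤ ∫⁻ x, (Set.indicator Bd 1 x + G x) ∂μ := lintegral_mono hpt
      _ = ∫⁻ x, Set.indicator Bd 1 x ∂μ + ∫⁻ x, G x ∂μ := lintegral_add_right _ hGm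
      _ ≤ _ := add_le_add (lintegral_indicator_one_le _) hGint
  refine hI.trans ?_
  have hABnn : 0 ≤ A / B := by positivity
  by_cases hK1 : K ≤ 1
  · have hb : μ Bd ≤ ENNReal.ofReal (1 / 4) := by
      refine (AuxBW.bad_le v c W ρ (by omega) hWρ lam Kh h hc1 hc2).trans ?_
      refine hblock u Kh q lam W ρ v c h hW hu ?_ hq0 hq hA (by omega) (by omega) ?_
      · refine le_trans (mul_le_mul_of_nonneg_right (Real.exp_le_exp.2 ?_) hWpos.le) hρ
        have : Cb0 ≤ Cb := by rw [hCb]; nlinarith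
        nlinarith
      · intro z hz
        refine le_trans (hg z ?_) hK1
        push_cast
        exact hz
    calc μ Bd + ENNReal.ofReal (9 / B * (K + 1 + Co / 4)) ≤
          ENNReal.ofReal (1 / 4) + ENNReal.ofReal (1 / 2) := by
          refine add_le_add hb (ENNReal.ofReal_le_ofReal ?_)
          rw [div_mul_eq_mul_div, div_le_iff₀ hBpos, hB]
          nlinarith
      _ = ENNReal.ofReal (3 / 4) := by
          rw [← ENNReal.ofReal_add (by norm_num) (by norm_num)]; norm_num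
      _ ≤ _ := by
          apply ENNReal.ofReal_le_ofReal
          nlinarith
  · push Not at hK1
    have hprob : μ Bd ≤ ENNReal.ofReal 1 := by
      rw [ENNReal.ofReal_one]
      exact prob_le_one
    calc μ Bd + ENNReal.ofReal (9 / B * (K + 1 + Co / 4)) ≤
          ENNReal.ofReal 1 + ENNReal.ofReal (9 / B * (K + 1 + Co / 4)) := add_le_add hprob le_rfl
      _ = ENNReal.ofReal (1 + 9 / B * (K + 1 + Co / 4)) := by
          rw [← ENNReal.ofReal_add (by norm_num) (by positivity)]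
      _ ≤ _ := by
          apply ENNReal.ofReal_le_ofReal
          have hCbpos : 0 < Cb := by linarith
          have hWR : (W : ℝ) / ρ ≤ 1 / Cb := by
            rw [div_le_div_iff₀ hρpos hCbpos]; linarith
          have hKA : K ≤ Cg / Cb * A := by
            rw [hK]
            have : Cg * ((W : ℝ) / ρ) ≤ Cg * (1 / Cb) := mul_le_mul_of_nonneg_left hWR (by linarith)
            calc Cg * ((W : ℝ) / ρ) * A ≤ Cg * (1 / Cb) * A := mul_le_mul_of_nonneg_right this hAnn
              _ = _ := by ring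
          have hA2 : 2 * B ≤ A := by
            have h1 : 1 < Cg / Cb * A := lt_of_lt_of_le hK1 hKA
            rw [div_mul_eq_mul_div, lt_div_iff₀ hCbpos, one_mul] at h1
            have h2 : 2 * B * Cg ≤ Cg * A := by rw [hCb] at h1; nlinarith
            nlinarith
          have hK24 : K ≤ A / 24 := by
            refine hKA.trans ?_
            have h1 : Cg / Cb ≤ 1 / 24 := by
              rw [div_le_div_iff₀ hCbpos (by norm_num)]
              rw [hCb]; nlinarith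
            calc Cg / Cb * A ≤ 1 / 24 * A := mul_le_mul_of_nonneg_right h1 hAnn
              _ = _ := by ring
          have h3 : 1 + 9 / B * (K + 1 + Co / 4) = (B + 9 * (K + 1 + Co / 4)) / B := by
            field_simp
          have h4 : 3 / 4 * (1 + A / B) = (3 / 4 * (B + A)) / B := by field_simp
          rw [h3, h4, div_le_div_iff_of_pos_right hBpos]
          have h5 : 9 * (1 + Co / 4) ≤ B / 4 := by rw [hB]; nlinarith
          nlinarith

end H941.block_weight
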