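import Pool.Agent.KS6_63.GFF.Defs4
import Pool.Agent.KS6_63.GFF.A3
import Pool.Agent.KS6_63.GFF.A4
import Pool.Agent.KS6_63.GFF.C.block_weight_
import Pool.Agent.KS6_63.GFF.C.markov_split_

open MeasureTheory ProbabilityTheory

namespace H941.chain

lemma zvar {ι : Type*} [Fintype ι] [DecidableEq ι] (T : Matrix ι ι ℝ) (hT : T.PosSemidef)
    (a : ι → ℝ) (ha : ∀ j, ∑ i, a i * T i j = 0) :
    ∀ᵐ x ∂(multivariateGaussian (0 : EuclideanSpace ℝ ι) T), ∑ i, a i * x i = 0 := by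
  classical
  have hml : MemLp (id : EuclideanSpace ℝ ι → EuclideanSpace ℝ ι) 2 (multivariateGaussian (0 : EuclideanSpace ℝ ι) T) :=
    IsGaussian.memLp_two_id
  set A : EuclideanSpace ℝ ι := WithLp.toLp 2 a with hA
  have hin : ∀ x : EuclideanSpace ℝ ι, inner ℝ A x = ∑ i, a i * x i := by
    intro x
    simp [PiLp.inner_apply, hA, mul_comm]
  have h1 := covarianceBilin_self hml A
  rw [covarianceBilin_multivariateGaussian hT] at h1
  have h2 : (A.ofLp ⬝ᵥ T.mulVec A.ofLp) = 0 := by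
    have h3 : A.ofLp = a := rfl
    rw [h3]
    simp only [dotProduct, Matrix.mulVec]
    have : ∀ i, a i * ∑ j, T i j * a j = ∑ j, (a i * T i j) * a j := by
      intro i; rw [Finset.mul_sum]; apply Finset.sum_congr rfl; intro j _; ring
    simp_rw [this]
    rw [Finset.sum_comm]
    apply Finset.sum_eq_zero
    intro j _
    rw [← Finset.sum_mul, ha j, zero_mul]
  rw [h2] at h1
  have hX : MemLp (fun x : EuclideanSpace ℝ ι => inner ℝ A x) 2 (multivariateGaussian (0 : EuclideanSpace ℝ ι) T) := by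
    exact hml.const_inner A
  have h4 := ae_eq_integral_of_variance_eq_zero hX h1.symm
  have h5 : ∫ x, inner ℝ A x ∂(multivariateGaussian (0 : EuclideanSpace ℝ ι) T) = 0 := by
    rw [integral_inner (IsGaussian.integrable_fun_id), integral_id_multivariateGaussian]
    simp
  filter_upwards [h4] with x hx
  rw [← hin x, hx, h5]

lemma arm_congr (o : Bool) (t : ℤ × ℤ) (w d : ℕ) (lam len : ℝ) (f g : ℤ × ℤ → ℝ)
    (hfg : ∀ z ∈ rect w (5 * w) d (w - d), f (place o t z) = g (place o t z)) :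
    armOK o t w d lam len f ↔ armOK o t w d lam len g := by
  unfold armOK
  constructor
  · rintro ⟨u, v, p, h1, h2, h3, h4⟩
    refine ⟨u, v, p, h1, h2, fun z hz => ⟨(h3 z hz).1, ?_⟩, h4⟩
    rw [← hfg z (h3 z hz).1]
    exact (h3 z hz).2
  · rintro ⟨u, v, p, h1, h2, h3, h4⟩
    refine ⟨u, v, p, h1, h2, fun z hz => ⟨(h3 z hz).1, ?_⟩, h4⟩
    rw [hfg z (h3 z hz).1]
    exact (h3 z hz).2

lemma mem_rect (a b c d : ℤ) (z : ℤ × ℤ) : z ∈ rect a b c d ↔ (a ≤ z.1 ∧ z.1 ≤ b) ∧ (c ≤ z.2 ∧ z.2 ≤ d) := by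
  simp [rect, Finset.mem_product]

lemma mem_ball (x : ℤ × ℤ) (r : ℤ) (z : ℤ × ℤ) :
    z ∈ ball x r ↔ (x.1 - r ≤ z.1 ∧ z.1 ≤ x.1 + r) ∧ (x.2 - r ≤ z.2 ∧ z.2 ≤ x.2 + r) := by
  simp [ball, mem_rect]

lemma circuit_congr (c v : ℤ × ℤ) (w d N : ℕ) (lam len : ℝ) (f g : ℤ × ℤ → ℝ)
    (hw : w = 2 * N) (hN : 0 < N) (h1 : 4 * |c.1 - v.1| ≤ (w : ℤ)) (h2 : 4 * |c.2 - v.2| ≤ (w : ℤ))
    (hfg : ∀ z, z ∉ ball v (N : ℤ) → f z = g z) :
    circuitOK c w d lam len f ↔ circuitOK c w d lam len g := by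
  unfold circuitOK
  have a1 := abs_le.1 (show |c.1 - v.1| ≤ (w : ℤ) / 4 by omega)
  have a2 := abs_le.1 (show |c.2 - v.2| ≤ (w : ℤ) / 4 by omega)
  refine and_congr (arm_congr _ _ _ _ _ _ _ _ ?_) (and_congr (arm_congr _ _ _ _ _ _ _ _ ?_)
    (and_congr (arm_congr _ _ _ _ _ _ _ _ ?_) (arm_congr _ _ _ _ _ _ _ _ ?_)))
  · intro z hz
    apply hfg
    rw [mem_ball]
    rw [mem_rect] at hz
    simp only [place, if_true]
    omega
  · intro z hz
    apply hfg
    rw [mem_ball]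
    rw [mem_rect] at hz
    simp only [place, if_true]
    omega
  · intro z hz
    apply hfg
    rw [mem_ball]
    rw [mem_rect] at hz
    simp only [place, Bool.false_eq_true, if_false]
    omega
  · intro z hz
    apply hfg
    rw [mem_ball]
    rw [mem_rect] at hz
    simp only [place, Bool.false_eq_true, if_false]
    omega

lemma bad_congr (c v : ℤ × ℤ) (w N : ℕ) (lam Kh : ℝ) (f g : ℤ × ℤ → ℝ)
    (hw : w = 2 * N) (hN : 0 < N) (h1 : 4 * |c.1 - v.1| ≤ (w : ℤ)) (h2 : 4 * |c.2 - v.2| ≤ (w : ℤ))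
    (hfg : ∀ z, z ∉ ball v (N : ℤ) → f z = g z) :
    bad lam Kh c w f ↔ bad lam Kh c w g := by
  unfold bad
  rw [circuit_congr c v w (w / 4) N lam (Kh * w) f g hw hN h1 h2 hfg,
    circuit_congr c v w (w / 4) N (-(lam + 1)) (Kh * w) (fun z => - f z) (fun z => - g z) hw hN h1 h2
      (fun z hz => by simp only [hfg z hz])]

lemma arm_meas {X : Type*} [MeasurableSpace X] (o : Bool) (t : ℤ × ℤ) (w d : ℕ) (lam len : ℝ)
    (F : X → ℤ × ℤ → ℝ) (hF : ∀ z, Measurable (fun x => F x z)) :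
    MeasurableSet {x | armOK o t w d lam len (F x)} := by
  classical
  have key : {x | armOK o t w d lam len (F x)} =
      ⋃ T ∈ {T : Finset (ℤ × ℤ) | T ⊆ rect w (5 * w) d (w - d) ∧ ∃ (u v : ℤ × ℤ) (p : grid.Walk u v), u.1 = w ∧ v.1 = 5 * w ∧
        (∀ z ∈ p.support, z ∈ T) ∧ (p.support.length : ℝ) ≤ len},
        {x | ∀ z ∈ T, F x (place o t z) ≤ lam} := by
    ext x
    simp only [Set.mem_setOf_eq, Set.mem_iUnion, exists_prop, armOK]
    constructor
    · rintro ⟨u, v, p, h1, h2, h3, h4⟩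
      refine ⟨p.support.toFinset, ⟨fun z hz => (h3 z (List.mem_toFinset.1 hz)).1, u, v, p, h1, h2,
        fun z hz => List.mem_toFinset.2 hz, h4⟩, fun z hz => (h3 z (List.mem_toFinset.1 hz)).2⟩
    · rintro ⟨T, ⟨hT, u, v, p, h1, h2, h3, h4⟩, h5⟩
      exact ⟨u, v, p, h1, h2, fun z hz => ⟨hT (h3 z hz), h5 z (h3 z hz)⟩, h4⟩
  rw [key]
  apply MeasurableSet.biUnion (Set.to_countable _)
  intro T _
  have : {x | ∀ z ∈ T, F x (place o t z) ≤ lam} = ⋂ z ∈ T, {x | F x (place o t z) ≤ lam} := by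
    ext x; simp
  rw [this]
  apply Finset.measurableSet_biInter
  intro z _
  exact measurableSet_le (hF _) measurable_const

lemma circuit_meas {X : Type*} [MeasurableSpace X] (c : ℤ × ℤ) (w d : ℕ) (lam len : ℝ)
    (F : X → ℤ × ℤ → ℝ) (hF : ∀ z, Measurable (fun x => F x z)) :
    MeasurableSet {x | circuitOK c w d lam len (F x)} := by
  unfold circuitOK
  exact (arm_meas _ _ _ _ _ _ F hF).inter ((arm_meas _ _ _ _ _ _ F hF).inter
    ((arm_meas _ _ _ _ _ _ F hF).inter (arm_meas _ _ _ _ _ _ F hF)))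

lemma bad_meas {X : Type*} [MeasurableSpace X] (lam Kh : ℝ) (c : ℤ × ℤ) (W : ℕ)
    (F : X → ℤ × ℤ → ℝ) (hF : ∀ z, Measurable (fun x => F x z)) :
    MeasurableSet {x | bad lam Kh c W (F x)} := by
  unfold bad
  exact (circuit_meas _ _ _ _ _ F hF).compl.inter
    (circuit_meas _ _ _ _ _ (fun x z => - F x z) (fun z => (hF z).neg)).compl

lemma bads_meas {X : Type*} [MeasurableSpace X] (lam Kh : ℝ) (c : ℕ → ℤ × ℤ) (W : ℕ → ℕ) (L : ℕ)
    (F : X → ℤ × ℤ → ℝ) (hF : ∀ z, Measurable (fun x => F x z)) :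
    MeasurableSet {x | ∀ l < L, bad lam Kh (c l) (W l) (F x)} := by
  have : {x | ∀ l < L, bad lam Kh (c l) (W l) (F x)} = ⋂ l ∈ Finset.range L, {x | bad lam Kh (c l) (W l) (F x)} := by
    ext x; simp
  rw [this]
  apply Finset.measurableSet_biInter
  intro l _
  exact bad_meas lam Kh (c l) (W l) F hF

lemma extf_meas (S : Finset (ℤ × ℤ)) (z : ℤ × ℤ) :
    Measurable (fun x : EuclideanSpace ℝ (S : Finset (ℤ × ℤ)) => extf S x z) := by
  unfold extf
  by_cases h : z ∈ S
  · simp only [h, dif_pos]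
    fun_prop
  · simp only [h, dif_neg, not_false_iff]
    exact measurable_const

lemma extf_add (S : Finset (ℤ × ℤ)) (x y : EuclideanSpace ℝ (S : Finset (ℤ × ℤ))) (z : ℤ × ℤ) :
    extf S (x + y) z = extf S x z + extf S y z := by
  unfold extf
  by_cases h : z ∈ S
  · simp [h]
  · simp [h]

lemma extf_sum (S : Finset (ℤ × ℤ)) (a : ℤ × ℤ → ℝ) (x : EuclideanSpace ℝ (S : Finset (ℤ × ℤ))) (T : Finset (ℤ × ℤ))
    (hT : ∀ z ∉ T, a z = 0) :
    ∑ i : (S : Finset (ℤ × ℤ)), a i * x i = ∑ z ∈ T, a z * extf S x z := by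
  classical
  have h1 : ∑ i : (S : Finset (ℤ × ℤ)), a i * x i = ∑ z ∈ S, a z * extf S x z := by
    rw [← Finset.sum_coe_sort S (fun z => a z * extf S x z)]
    apply Finset.sum_congr rfl
    intro i _
    simp [extf]
  rw [h1]
  have h2 : ∑ z ∈ S, a z * extf S x z = ∑ z ∈ S ∪ T, a z * extf S x z := by
    apply Finset.sum_subset Finset.subset_union_left
    intro z _ hz
    simp [extf, hz]
  have h3 : ∑ z ∈ T, a z * extf S x z = ∑ z ∈ S ∪ T, a z * extf S x z := by
    apply Finset.sum_subset Finset.subset_union_right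
    intro z _ hz
    simp [hT z hz]
  rw [h2, h3]

lemma green_col (D S : Finset (ℤ × ℤ)) (hDS : D ⊆ S) (z : ℤ × ℤ) (hz : z ∈ D) (y : ℤ × ℤ) :
    ∑ x ∈ S, ((if x = z then 1 else 0) - (if x ∈ nbrs z then 1 / 4 else 0)) * green D x y = if z = y then 1 else 0 := by
  obtain ⟨-, g0, -, -, g5, -⟩ := green_basic D
  have h1 : ∑ x ∈ S, ((if x = z then (1:ℝ) else 0) - (if x ∈ nbrs z then 1 / 4 else 0)) * green D x y
      = ∑ x ∈ S, (if x = z then green D x y else 0) - ∑ x ∈ S, (if x ∈ nbrs z then (1 / 4) * green D x y else 0) := by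
    rw [← Finset.sum_sub_distrib]
    apply Finset.sum_congr rfl
    intro x _
    split_ifs <;> ring
  rw [h1]
  have h2 : ∑ x ∈ S, (if x = z then green D x y else 0) = green D z y := by
    rw [Finset.sum_ite_eq' S z]
    simp [hDS hz]
  have h3 : ∑ x ∈ S, (if x ∈ nbrs z then (1 / 4) * green D x y else 0) = (1 / 4) * ∑ x ∈ nbrs z, green D x y := by
    rw [← Finset.sum_filter, Finset.mul_sum]
    apply Finset.sum_subset
    · intro x hx
      exact (Finset.mem_filter.1 hx).2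
    · intro x hx hx2
      have : x ∉ S := fun hS => hx2 (Finset.mem_filter.2 ⟨hS, hx⟩)
      rw [g0 x y (Or.inl (fun h => this (hDS h)))]
      ring
  rw [h2, h3, g5 z hz y]
  ring

lemma harm_ae (S S1 : Finset (ℤ × ℤ)) (hS : S1 ⊆ S) :
    ∀ᵐ H ∂(multivariateGaussian (0 : EuclideanSpace ℝ (S : Finset (ℤ × ℤ)))
        (Matrix.of fun x y : (S : Finset (ℤ × ℤ)) => (1 / 4) * (green S x y - green S1 x y))),
      ∀ z ∈ S1, extf S H z = (1 / 4) * ∑ z' ∈ nbrs z, extf S H z' := by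
  classical
  have hT := (markov_split S S S1 hS (Finset.Subset.refl S)).1
  rw [Finset.eventually_all S1]
  intro z hz
  have := zvar _ hT (fun i : (S : Finset (ℤ × ℤ)) => (if (i : ℤ × ℤ) = z then 1 else 0) - (if (i : ℤ × ℤ) ∈ nbrs z then 1 / 4 else 0)) ?_
  · filter_upwards [this] with x hx
    rw [extf_sum S (fun i : ℤ × ℤ => (if i = z then 1 else 0) - (if i ∈ nbrs z then 1 / 4 else 0)) x (insert z (nbrs z))] at hx
    · have hzn : z ∉ nbrs z := by
        simp [nbrs, Prod.ext_iff]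
        omega
      rw [Finset.sum_insert hzn] at hx
      simp only [if_true, hzn, if_false, sub_zero, one_mul] at hx
      have h2 : ∑ x_1 ∈ nbrs z, ((if x_1 = z then (1:ℝ) else 0) - if x_1 ∈ nbrs z then 1 / 4 else 0) * extf S x x_1 =
          - ((1 / 4) * ∑ z' ∈ nbrs z, extf S x z') := by
        rw [Finset.mul_sum, ← Finset.sum_neg_distrib]
        apply Finset.sum_congr rfl
        intro y hy
        have : y ≠ z := fun h => hzn (h ▸ hy)
        simp [this, hy]
      rw [h2] at hx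
      linarith
    · intro y hy
      rw [Finset.mem_insert, not_or] at hy
      simp [hy.1, hy.2]
  · intro j
    simp only [Matrix.of_apply]
    have e1 := green_col S S (Finset.Subset.refl S) z (hS hz) (j : ℤ × ℤ)
    have e2 := green_col S1 S hS z hz (j : ℤ × ℤ)
    have e3 : ∑ i : (S : Finset (ℤ × ℤ)), ((if (i : ℤ × ℤ) = z then (1:ℝ) else 0) - (if (i : ℤ × ℤ) ∈ nbrs z then 1 / 4 else 0)) *
        (1 / 4 * (green S i j - green S1 i j)) =
        ∑ x ∈ S, ((if x = z then (1:ℝ) else 0) - (if x ∈ nbrs z then 1 / 4 else 0)) * (1 / 4 * (green S x j - green S1 x j)) :=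
      Finset.sum_coe_sort S (fun x => ((if x = z then (1:ℝ) else 0) - (if x ∈ nbrs z then 1 / 4 else 0)) * (1 / 4 * (green S x j - green S1 x j)))
    rw [e3]
    have e4 : ∑ x ∈ S, ((if x = z then (1:ℝ) else 0) - (if x ∈ nbrs z then 1 / 4 else 0)) * (1 / 4 * (green S x j - green S1 x j))
      = (1 / 4) * (∑ x ∈ S, ((if x = z then (1:ℝ) else 0) - (if x ∈ nbrs z then 1 / 4 else 0)) * green S x j -
        ∑ x ∈ S, ((if x = z then (1:ℝ) else 0) - (if x ∈ nbrs z then 1 / 4 else 0)) * green S1 x j) := by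
      rw [← Finset.sum_sub_distrib, Finset.mul_sum]
      apply Finset.sum_congr rfl
      intro x _
      ring
    rw [e4, e1, e2]
    ring

lemma zero_ae (S S1 : Finset (ℤ × ℤ)) (hS : S1 ⊆ S) :
    ∀ᵐ ψ ∂(gf S S1), ∀ z, z ∉ S1 → extf S ψ z = 0 := by
  classical
  have hT : (Matrix.of fun x y : (S : Finset (ℤ × ℤ)) => (1 / 4) * green S1 x y).PosSemidef := by
    have := (markov_split S S1 ∅ (Finset.empty_subset _) hS).1
    have e : (Matrix.of fun x y : (S : Finset (ℤ × ℤ)) => (1 / 4) * (green S1 x y - green ∅ x y)) =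
      (Matrix.of fun x y : (S : Finset (ℤ × ℤ)) => (1 / 4) * green S1 x y) := by
      ext x y
      simp only [Matrix.of_apply]
      rw [(green_basic ∅).2.1 x y (Or.inl (Finset.notMem_empty _)), sub_zero]
    rwa [e] at this
  have h1 : ∀ᵐ ψ ∂(gf S S1), ∀ z ∈ S \ S1, extf S ψ z = 0 := by
    rw [Finset.eventually_all (S \ S1)]
    intro z hz
    have hzS := (Finset.mem_sdiff.1 hz).1
    have hz1 := (Finset.mem_sdiff.1 hz).2
    have := zvar _ hT (fun i : (S : Finset (ℤ × ℤ)) => if (i : ℤ × ℤ) = z then 1 else 0) ?_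
    · unfold gf
      filter_upwards [this] with x hx
      rw [extf_sum S (fun i : ℤ × ℤ => (if i = z then 1 else 0)) x {z}] at hx
      · simpa using hx
      · intro y hy
        rw [Finset.mem_singleton] at hy
        simp [hy]
    · intro j
      simp only [Matrix.of_apply]
      apply Finset.sum_eq_zero
      intro i _
      by_cases hi : (i : ℤ × ℤ) = z
      · rw [hi, (green_basic S1).2.1 z j (Or.inl hz1)]
        ring
      · simp [hi]
  filter_upwards [h1] with ψ hψ z hz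
  by_cases hzS : z ∈ S
  · exact hψ z (Finset.mem_sdiff.2 ⟨hzS, hz⟩)
  · simp [extf, hzS]

lemma Aosc_nonneg (v : ℤ × ℤ) (r : ℕ) (g : ℤ × ℤ → ℝ) : 0 ≤ Aosc v r g := by
  unfold Aosc
  apply mul_nonneg (by positivity)
  exact Finset.sum_nonneg (fun _ _ => abs_nonneg _)

theorem _root_.H941.chain : ∃ Cb B : ℝ, 1 ≤ Cb ∧ 1 ≤ B ∧ ∀ (u Kh q lam : ℝ) (n r : ℕ) (v : ℤ × ℤ) (c : ℕ → ℤ × ℤ),
    64 ≤ r → 1 ≤ u → 2 * Real.exp (Cb * u ^ 2) ≤ 2 ^ n → 0 ≤ q → q ≤ 1 / 64 →
    ∀ L : ℕ, (∀ l < L, HypA u Kh q (2 ^ (n * l + 1) * r)) →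
    (∀ l < L, 4 * |(c l).1 - v.1| ≤ ((2 ^ (n * l + 1) * r : ℕ) : ℤ) ∧ 4 * |(c l).2 - v.2| ≤ ((2 ^ (n * l + 1) * r : ℕ) : ℤ)) →
    ∀ h : ℤ × ℤ → ℝ, (∀ z ∈ ball v ((2 ^ (n * L) * r : ℕ) : ℤ), h z = (1 / 4) * ∑ z' ∈ nbrs z, h z') →
    gf (ball v ((2 ^ (n * L) * r : ℕ) : ℤ)) (ball v ((2 ^ (n * L) * r : ℕ) : ℤ))
        {x | ∀ l < L, bad lam Kh (c l) (2 ^ (n * l + 1) * r) (fun z => h z + extf (ball v ((2 ^ (n * L) * r : ℕ) : ℤ)) x z)} ≤
      ENNReal.ofReal ((3 / 4) ^ L * (1 + Aosc v (2 ^ (n * L) * r) h / B)) := by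
  obtain ⟨Cb, B, hCb, hB, hblock⟩ := block_weight
  refine ⟨Cb, B, hCb, hB, ?_⟩
  intro u Kh q lam n r v c hr hu hn hq0 hq L
  have hB0 : (0:ℝ) < B := by linarith
  induction L with
  | zero =>
    intro _ _ h _
    have hp : IsProbabilityMeasure (gf (ball v ((2 ^ (n * 0) * r : ℕ) : ℤ)) (ball v ((2 ^ (n * 0) * r : ℕ) : ℤ))) := by
      unfold gf; infer_instance
    refine le_trans prob_le_one ?_
    rw [← ENNReal.ofReal_one]
    apply ENNReal.ofReal_le_ofReal
    have := div_nonneg (Aosc_nonneg v (2 ^ (n * 0) * r) h) hB0.le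
    simp only [pow_zero, one_mul] at *
    linarith
  | succ L ih =>
    intro hA hc h hharm
    set N1 : ℕ := 2 ^ (n * L) * r with hN1
    set N2 : ℕ := 2 ^ (n * (L + 1)) * r with hN2
    have hN1pos : 0 < N1 := by positivity
    have hW : 2 ^ (n * L + 1) * r = 2 * N1 := by rw [hN1, pow_succ]; ring
    have hN12 : N1 ≤ N2 := by
      rw [hN1, hN2]
      apply Nat.mul_le_mul_right
      apply Nat.pow_le_pow_right (by norm_num)
      nlinarith
    have hN2' : N2 = 2 ^ n * N1 := by rw [hN1, hN2, mul_add, mul_one, pow_add]; ring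
    set S := ball v (N2 : ℤ) with hSdef
    set S1 := ball v (N1 : ℤ) with hS1def
    have hS1S : S1 ⊆ S := by
      intro z hz
      rw [hSdef, mem_ball]
      rw [hS1def, mem_ball] at hz
      have : (N1 : ℤ) ≤ (N2 : ℤ) := by exact_mod_cast hN12
      omega
    obtain ⟨hpsd, hmap, -⟩ := markov_split S S S1 hS1S (Finset.Subset.refl S)
    set μH := multivariateGaussian (0 : EuclideanSpace ℝ (S : Finset (ℤ × ℤ)))
        (Matrix.of fun x y : (S : Finset (ℤ × ℤ)) => (1 / 4) * (green S x y - green S1 x y)) with hμH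
    have hpψ : IsProbabilityMeasure (gf S S1) := by unfold gf; infer_instance
    have hEm : MeasurableSet {x : EuclideanSpace ℝ (S : Finset (ℤ × ℤ)) | ∀ l < L + 1, bad lam Kh (c l) (2 ^ (n * l + 1) * r) (fun z => h z + extf S x z)} :=
      bads_meas lam Kh c (fun l => 2 ^ (n * l + 1) * r) (L + 1) (fun x z => h z + extf S x z)
        (fun z => measurable_const.add (extf_meas S z))
    rw [← hmap, Measure.map_apply (by fun_prop) hEm, Measure.prod_apply ((by fun_prop : Measurable (fun p : EuclideanSpace ℝ (S : Finset (ℤ × ℤ)) × EuclideanSpace ℝ (S : Finset (ℤ × ℤ)) => p.1 + p.2)) hEm)]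
    have hbd := hblock u Kh q lam (2 ^ (n * L + 1) * r) N2 v (c L) h
      (by rw [hW]; have : 1 ≤ 2 ^ (n * L) := Nat.one_le_two_pow; nlinarith) (by rw [hW]; exact even_two_mul N1) hu
      (by
        rw [hW, hN2']
        push_cast
        have : (0:ℝ) ≤ (N1 : ℝ) := by positivity
        nlinarith [mul_le_mul_of_nonneg_right hn this]) hq0 hq (hA L (Nat.lt_succ_self L)) (hc L (Nat.lt_succ_self L)).1
      (hc L (Nat.lt_succ_self L)).2 hharm
    have hW2 : 2 ^ (n * L + 1) * r / 2 = N1 := by rw [hW]; omega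
    rw [hW2] at hbd
    have hstep : ∀ᵐ H ∂μH, (gf S S1) (Prod.mk H ⁻¹' ((fun p : EuclideanSpace ℝ (S : Finset (ℤ × ℤ)) × EuclideanSpace ℝ (S : Finset (ℤ × ℤ)) => p.1 + p.2) ⁻¹'
        {x : EuclideanSpace ℝ (S : Finset (ℤ × ℤ)) | ∀ l < L + 1, bad lam Kh (c l) (2 ^ (n * l + 1) * r) (fun z => h z + extf S x z)})) ≤
        ENNReal.ofReal ((3 / 4) ^ L) * Set.indicator {x | bad lam Kh (c L) (2 ^ (n * L + 1) * r) (fun z => h z + extf S x z)}
        (fun x => ENNReal.ofReal (1 + Aosc v N1 (fun z => h z + extf S x z) / B)) H := by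
      filter_upwards [harm_ae S S1 hS1S] with H hH
      set h' : ℤ × ℤ → ℝ := fun z => h z + extf S H z with hh'
      have hh'harm : ∀ z ∈ S1, h' z = (1 / 4) * ∑ z' ∈ nbrs z, h' z' := by
        intro z hz
        simp only [hh']
        rw [Finset.sum_add_distrib, mul_add, ← hharm z (hS1S hz), ← hH z hz]
      have hih := ih (fun l hl => hA l (Nat.lt_succ_of_lt hl)) (fun l hl => hc l (Nat.lt_succ_of_lt hl)) h' hh'harm
      have hm3 := (markov_split S S S1 hS1S (Finset.Subset.refl S)).2.2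
        (fun g => ∀ l < L, bad lam Kh (c l) (2 ^ (n * l + 1) * r) (fun z => h' z + g z))
        (bads_meas lam Kh c (fun l => 2 ^ (n * l + 1) * r) L (fun x z => h' z + extf S1 x z)
          (fun z => measurable_const.add (extf_meas S1 z)))
        (bads_meas lam Kh c (fun l => 2 ^ (n * l + 1) * r) L (fun x z => h' z + extf S x z)
          (fun z => measurable_const.add (extf_meas S z)))
      rw [← hm3] at hih
      by_cases hbL : bad lam Kh (c L) (2 ^ (n * L + 1) * r) h'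
      · rw [Set.indicator_of_mem (show H ∈ {x | bad lam Kh (c L) (2 ^ (n * L + 1) * r) (fun z => h z + extf S x z)} from hbL)]
        rw [← ENNReal.ofReal_mul (by positivity)]
        refine le_trans (measure_mono ?_) hih
        intro ψ hψ l hl
        have := hψ l (Nat.lt_succ_of_lt hl)
        simp only [extf_add] at this
        have e : (fun z => h z + (extf S H z + extf S ψ z)) = (fun z => h' z + extf S ψ z) := by
          ext z; simp only [hh']; ring
        rw [e] at this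
        exact this
      · have : (gf S S1) (Prod.mk H ⁻¹' ((fun p : EuclideanSpace ℝ (S : Finset (ℤ × ℤ)) × EuclideanSpace ℝ (S : Finset (ℤ × ℤ)) => p.1 + p.2) ⁻¹'
        {x : EuclideanSpace ℝ (S : Finset (ℤ × ℤ)) | ∀ l < L + 1, bad lam Kh (c l) (2 ^ (n * l + 1) * r) (fun z => h z + extf S x z)})) = 0 := by
          rw [measure_eq_zero_iff_ae_notMem]
          filter_upwards [zero_ae S S1 hS1S] with ψ hψ0 hψ
          apply hbL
          have := hψ L (Nat.lt_succ_self L)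
          simp only [extf_add] at this
          refine (bad_congr (c L) v (2 ^ (n * L + 1) * r) N1 lam Kh _ h' hW hN1pos (hc L (Nat.lt_succ_self L)).1
            (hc L (Nat.lt_succ_self L)).2 ?_).1 this
          intro z hz
          simp only [hh', hψ0 z hz, add_zero]
        rw [this]
        exact zero_le
    refine le_trans (lintegral_mono_ae hstep) ?_
    rw [lintegral_const_mul' _ _ ENNReal.ofReal_ne_top]
    refine le_trans (mul_le_mul_right hbd _) ?_
    rw [← ENNReal.ofReal_mul (by positivity)]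
    apply ENNReal.ofReal_le_ofReal
    rw [pow_succ]
    apply le_of_eq
    ring

end H941.chain
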