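import Pool.Agent.KS6_63.GFF.Defs4
import Pool.Agent.KS6_63.GFF.A3
import Pool.Agent.KS6_63.GFF.B.green_decomp_
import Pool.Agent.KS6_63.GFF.B.green_log_off_
import Pool.Agent.KS6_63.GFF.B.hit_basic_

open MeasureTheory ProbabilityTheory

namespace H941.xi_var

theorem xi_mem_ball (u z : ℤ × ℤ) (n : ℤ) :
    z ∈ ball u n ↔ (u.1 - n ≤ z.1 ∧ z.1 ≤ u.1 + n) ∧ u.2 - n ≤ z.2 ∧ z.2 ≤ u.2 + n := by
  simp [ball, rect]

theorem _root_.H941.xi_var (D : Finset (ℤ × ℤ)) (N n : ℕ) (hN : 1 ≤ N)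
    (hD : ∀ x ∈ D, ∀ y ∈ D, |x.1 - y.1| < (N : ℤ) ∧ |x.2 - y.2| < (N : ℤ)) (u : ℤ × ℤ) (hU : ball u n ⊆ D) :
    ∑ z ∈ D \ ball u n, ∑ z' ∈ D \ ball u n,
      hit D (D \ ball u n) u z * green D z z' * hit D (D \ ball u n) u z' ≤
      (Real.log (1 + 2 * (N : ℝ) ^ 2) - Real.log (1 + (n : ℝ) ^ 2)) / Real.log 2 := by
  have hn0 : (0 : ℤ) ≤ (n : ℤ) := Int.natCast_nonneg n
  have huU : u ∈ ball u n := (xi_mem_ball u u n).2 ⟨⟨by omega, by omega⟩, by omega, by omega⟩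
  have huD : u ∈ D := hU huU
  have huK : u ∉ D \ ball u n := fun h => (Finset.mem_sdiff.1 h).2 huU
  set K := D \ ball u n with hK
  obtain ⟨hh0, -, hh1, -, -⟩ := hit_basic D K
  obtain ⟨-, hg0, -, -, -, -⟩ := green_basic (D \ K)
  have hlog2 : 0 < Real.log 2 := Real.log_pos one_lt_two
  set M := (Real.log (1 + 2 * (N : ℝ) ^ 2) - Real.log (1 + (n : ℝ) ^ 2)) / Real.log 2 with hM
  -- `M` is nonnegative
  have hnN : (n : ℤ) < (N : ℤ) := by
    have h1 : (u.1 + n, u.2) ∈ ball u n :=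
      (xi_mem_ball u _ n).2 ⟨⟨by show u.1 - n ≤ u.1 + n; omega, le_refl _⟩,
        by show u.2 - n ≤ u.2; omega, by show u.2 ≤ u.2 + n; omega⟩
    have h2 := (hD _ (hU h1) u huD).1
    have h3 : (u.1 + (n : ℤ)) - u.1 = n := by ring
    change |(u.1 + (n : ℤ)) - u.1| < (N : ℤ) at h2
    rw [h3, abs_of_nonneg hn0] at h2
    exact h2
  have hnN' : (n : ℝ) ≤ (N : ℝ) := by exact_mod_cast hnN.le
  have hM0 : 0 ≤ M := by
    refine div_nonneg (sub_nonneg.2 (Real.log_le_log (by positivity) ?_)) hlog2.le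
    have h1 : (0 : ℝ) ≤ (n : ℝ) := Nat.cast_nonneg n
    have h2 : (n : ℝ) ^ 2 ≤ (N : ℝ) ^ 2 := pow_le_pow_left₀ h1 hnN' 2
    nlinarith [sq_nonneg (N : ℝ)]
  -- the inner sum
  have hin : ∀ z' ∈ K, ∑ z ∈ K, hit D K u z * green D z z' = green D u z' := by
    intro z' hz'
    have h1 := green_decomp D K u z' huK
    have h2 : green (D \ K) u z' = 0 :=
      hg0 u z' (Or.inr fun h => (Finset.mem_sdiff.1 h).2 hz')
    rw [h1, h2, zero_add]
  -- the bound of the Green function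
  have hb : ∀ z' ∈ K, green D u z' ≤ M := by
    intro z' hz'
    have hz1 := Finset.mem_sdiff.1 hz'
    have h1 := green_log_off D N hN hD u z' huD hz1.1
    refine h1.trans ?_
    refine div_le_div_of_nonneg_right ?_ hlog2.le
    refine sub_le_sub_left (Real.log_le_log (by positivity) ?_) _
    have h2 : (n : ℤ) ^ 2 ≤ (u.1 - z'.1) ^ 2 + (u.2 - z'.2) ^ 2 := by
      have h3 : ¬ ((u.1 - n ≤ z'.1 ∧ z'.1 ≤ u.1 + n) ∧ u.2 - n ≤ z'.2 ∧ z'.2 ≤ u.2 + n) :=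
        fun h => hz1.2 ((xi_mem_ball u z' n).2 h)
      have h4 : z'.1 < u.1 - n ∨ u.1 + n < z'.1 ∨ z'.2 < u.2 - n ∨ u.2 + n < z'.2 := by
        by_contra hc
        push Not at hc
        exact h3 ⟨⟨hc.1, hc.2.1⟩, hc.2.2.1, hc.2.2.2⟩
      rcases h4 with h4 | h4 | h4 | h4
      · nlinarith [sq_nonneg (u.2 - z'.2)]
      · nlinarith [sq_nonneg (u.2 - z'.2)]
      · nlinarith [sq_nonneg (u.1 - z'.1)]
      · nlinarith [sq_nonneg (u.1 - z'.1)]
    have h5 : (n : ℝ) ^ 2 ≤ ((u.1 : ℝ) - z'.1) ^ 2 + ((u.2 : ℝ) - z'.2) ^ 2 := by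
      exact_mod_cast h2
    linarith
  calc ∑ z ∈ K, ∑ z' ∈ K, hit D K u z * green D z z' * hit D K u z'
      = ∑ z' ∈ K, hit D K u z' * ∑ z ∈ K, hit D K u z * green D z z' := by
        rw [Finset.sum_comm]
        refine Finset.sum_congr rfl fun z' _ => ?_
        rw [Finset.mul_sum]
        refine Finset.sum_congr rfl fun z _ => ?_
        ring
    _ = ∑ z' ∈ K, hit D K u z' * green D u z' :=
        Finset.sum_congr rfl fun z' hz' => by rw [hin z' hz']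
    _ ≤ ∑ z' ∈ K, hit D K u z' * M :=
        Finset.sum_le_sum fun z' hz' => mul_le_mul_of_nonneg_left (hb z' hz') (hh0 u z')
    _ = (∑ z' ∈ K, hit D K u z') * M := by rw [Finset.sum_mul]
    _ ≤ 1 * M := mul_le_mul_of_nonneg_right (hh1 u) hM0
    _ = M := one_mul M

end H941.xi_var
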