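import Pool.Agent.KS6_63.GFF.Defs4
import Pool.Agent.KS6_63.GFF.B.expl_facts_
import Pool.Agent.KS6_63.GFF.C.density_
import Pool.Agent.KS6_63.GFF.C.win_mom_

open MeasureTheory ProbabilityTheory

namespace H941.mom_box


theorem mb_op {f f' : ℤ × ℤ → ℝ} {lam : ℝ} (h : ∀ v, f v ≤ lam ↔ f' v ≤ lam) :
    (fun v => f v ≤ lam) = (fun v => f' v ≤ lam) := funext fun v => propext (h v)

theorem mb_Kk {w d : ℕ} {f f' : ℤ × ℤ → ℝ} {lam : ℝ} (h : ∀ v, f v ≤ lam ↔ f' v ≤ lam) (k : ℕ) :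
    Kk w d lam f k = Kk w d lam f' k := by
  unfold Kk
  rw [mb_op h]

theorem mb_Lk {w d : ℕ} {f f' : ℤ × ℤ → ℝ} {lam : ℝ} (h : ∀ v, f v ≤ lam ↔ f' v ≤ lam) (k : ℕ) :
    Lk w d lam f k = Lk w d lam f' k := by
  unfold Lk
  rw [mb_op h]

theorem mb_goodB {w d : ℕ} {f f' : ℤ × ℤ → ℝ} {lam : ℝ} (h : ∀ v, f v ≤ lam ↔ f' v ≤ lam)
    (Kp : ℝ) (i : ℕ) (c : ℤ × ℤ) : goodB w d lam Kp f i c ↔ goodB w d lam Kp f' i c := by
  unfold goodB
  simp only [h]

theorem mb_selB {w d : ℕ} {f f' : ℤ × ℤ → ℝ} {lam : ℝ} (h : ∀ v, f v ≤ lam ↔ f' v ≤ lam)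
    (Kp : ℝ) (i : ℕ) (c : ℤ × ℤ) : selB w d lam Kp f i c ↔ selB w d lam Kp f' i c := by
  unfold selB
  simp only [mb_goodB h]

theorem mb_act {w d : ℕ} {f f' : ℤ × ℤ → ℝ} {lam : ℝ} (h : ∀ v, f v ≤ lam ↔ f' v ≤ lam)
    (j m k : ℕ) (c : ℤ × ℤ) : act w d lam f j m k c ↔ act w d lam f' j m k c := by
  unfold act
  simp only [mb_Lk h]

theorem mb_extf_meas (S : Finset (ℤ × ℤ)) (v : ℤ × ℤ) :
    Measurable (fun x : EuclideanSpace ℝ (S : Finset (ℤ × ℤ)) => extf S x v) := by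
  unfold extf
  by_cases h : v ∈ S
  · simp only [h, dite_true]
    fun_prop
  · simp only [h, dite_false]
    exact measurable_const

theorem mb_meas (w : ℕ) (lam : ℝ) (P : (ℤ × ℤ → ℝ) → Prop)
    (hP : ∀ f f', (∀ v, f v ≤ lam ↔ f' v ≤ lam) → P f → P f') :
    MeasurableSet {x : EuclideanSpace ℝ (Dw w : Finset (ℤ × ℤ)) | P (extf (Dw w) x)} := by
  classical
  have key : ∀ x x' : EuclideanSpace ℝ (Dw w : Finset (ℤ × ℤ)),
      (Dw w).filter (fun v => extf (Dw w) x v ≤ lam) = (Dw w).filter (fun v => extf (Dw w) x' v ≤ lam) →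
      P (extf (Dw w) x) → P (extf (Dw w) x') := by
    intro x x' h
    refine hP _ _ fun v => ?_
    by_cases hv : v ∈ Dw w
    · have h1 := Finset.ext_iff.1 h v
      simpa only [Finset.mem_filter, hv, true_and] using h1
    · simp only [extf, hv, dite_false]
  have hset : {x : EuclideanSpace ℝ (Dw w : Finset (ℤ × ℤ)) | P (extf (Dw w) x)} =
      ⋃ S ∈ ((Dw w).powerset.filter (fun S => ∃ x : EuclideanSpace ℝ (Dw w : Finset (ℤ × ℤ)),
        (Dw w).filter (fun v => extf (Dw w) x v ≤ lam) = S ∧ P (extf (Dw w) x))),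
        {x | (Dw w).filter (fun v => extf (Dw w) x v ≤ lam) = S} := by
    ext x
    simp only [Set.mem_setOf_eq, Finset.mem_filter, Finset.mem_powerset, Set.mem_iUnion, exists_prop]
    constructor
    · intro hx
      exact ⟨_, ⟨Finset.filter_subset _ _, x, rfl, hx⟩, rfl⟩
    · rintro ⟨S, ⟨_, x', h1, h2⟩, h3⟩
      exact key x' x (h1.trans h3.symm) h2
  rw [hset]
  refine Finset.measurableSet_biUnion _ fun S hS => ?_
  have hSR : S ⊆ Dw w := by
    simp only [Finset.mem_filter, Finset.mem_powerset] at hS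
    exact hS.1
  have h2 : {x : EuclideanSpace ℝ (Dw w : Finset (ℤ × ℤ)) | (Dw w).filter (fun v => extf (Dw w) x v ≤ lam) = S} =
      ⋂ v ∈ Dw w, {x | extf (Dw w) x v ≤ lam ↔ v ∈ S} := by
    ext x
    simp only [Set.mem_setOf_eq, Set.mem_iInter]
    constructor
    · rintro rfl v hv
      simp [hv]
    · intro h
      ext v
      simp only [Finset.mem_filter]
      constructor
      · rintro ⟨h1, h2⟩; exact (h v h1).1 h2
      · intro h1; exact ⟨hSR h1, (h v (hSR h1)).2 h1⟩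
  rw [h2]
  refine Finset.measurableSet_biInter _ fun v _ => ?_
  have hm := measurableSet_le (mb_extf_meas (Dw w) v) (measurable_const (a := lam))
  by_cases hvS : v ∈ S
  · simpa [hvS] using hm
  · simp only [hvS, iff_false]
    exact hm.compl


instance mb_prob (S D : Finset (ℤ × ℤ)) : IsProbabilityMeasure (gf S D) := by
  unfold gf
  infer_instance

theorem mb_extf_Lp (S D : Finset (ℤ × ℤ)) (v : ℤ × ℤ) :
    MemLp (fun x : EuclideanSpace ℝ (S : Finset (ℤ × ℤ)) => extf S x v) 8 (gf S D) := by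
  unfold extf
  by_cases h : v ∈ S
  · simp only [h, dite_true]
    have hid : HasGaussianLaw (id : EuclideanSpace ℝ (S : Finset (ℤ × ℤ)) → _) (gf S D) := by
      unfold gf
      exact IsGaussian.hasGaussianLaw_id
    exact (hid.map (EuclideanSpace.proj ⟨v, h⟩ : EuclideanSpace ℝ (S : Finset (ℤ × ℤ)) →L[ℝ] ℝ)).memLp
      (by norm_num)
  · simp only [h, dite_false]
    exact MemLp.zero

theorem mb_hx_Lp (S D K : Finset (ℤ × ℤ)) (u : ℤ × ℤ) :
    MemLp (fun x : EuclideanSpace ℝ (S : Finset (ℤ × ℤ)) => hx S K (extf S x) u) 8 (gf S D) := by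
  unfold hx
  by_cases h : u ∈ K
  · simp only [h, if_true]
    exact mb_extf_Lp S D u
  · simp only [h, if_false]
    exact memLp_finset_sum _ fun v _ => (mb_extf_Lp S D v).const_mul _

theorem mb_K0R (w d : ℕ) : (rect w w d (w - d) : Finset (ℤ × ℤ)) ⊆ rect w (5 * w) d (w - d) := by
  intro v hv
  simp only [rect, Finset.mem_product, Finset.mem_Icc] at hv ⊢
  omega

theorem mb_RD {w d : ℕ} (hd : 1 ≤ d) (hw : 2 * d + 1 ≤ w) :
    (rect w (5 * w) d (w - d) : Finset (ℤ × ℤ)) ⊆ Dw w := by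
  intro v hv
  simp only [Dw, rect, Finset.mem_product, Finset.mem_Icc] at hv ⊢
  omega

theorem mb_KkD {w d : ℕ} (hd : 1 ≤ d) (hw : 2 * d + 1 ≤ w) (lam : ℝ) (f : ℤ × ℤ → ℝ) (k : ℕ) :
    Kk w d lam f k ⊆ Dw w :=
  ((expl_facts _ _ (mb_K0R w d) (fun v => f v ≤ lam)).1 k).2.1.trans (mb_RD hd hw)

/-- the deviation of the conditional mean -/
noncomputable def mbF (w d : ℕ) (lam : ℝ) (k : ℕ) (u : ℤ × ℤ)
    (x : EuclideanSpace ℝ (Dw w : Finset (ℤ × ℤ))) : ℝ :=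
  lam - hx (Dw w) (Kk w d lam (extf (Dw w) x) k) (extf (Dw w) x) u

theorem mb_F_Lp {w d : ℕ} (hd : 1 ≤ d) (hw : 2 * d + 1 ≤ w) (lam : ℝ) (k : ℕ) (u : ℤ × ℤ) :
    MemLp (mbF w d lam k u) 8 (gf (Dw w) (Dw w)) := by
  classical
  have h1 : mbF w d lam k u = fun x => lam - ∑ K ∈ (Dw w).powerset,
      Set.indicator {x : EuclideanSpace ℝ (Dw w : Finset (ℤ × ℤ)) | Kk w d lam (extf (Dw w) x) k = K}
        (fun x => hx (Dw w) K (extf (Dw w) x) u) x := by
    funext x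
    unfold mbF
    congr 1
    rw [Finset.sum_eq_single (Kk w d lam (extf (Dw w) x) k)]
    · rw [Set.indicator_of_mem]
      exact rfl
    · intro K _ hK
      rw [Set.indicator_of_notMem]
      exact fun h => hK (Eq.symm h)
    · intro h
      exact absurd (Finset.mem_powerset.2 (mb_KkD hd hw lam _ k)) h
  rw [h1]
  refine (memLp_const lam).sub (memLp_finset_sum _ fun K _ => ?_)
  refine (mb_hx_Lp (Dw w) (Dw w) K u).indicator ?_
  exact mb_meas w lam (fun f => Kk w d lam f k = K) fun f f' h hf => by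
    rw [← hf]
    exact (mb_Kk h k).symm

theorem mb_F_int8 {w d : ℕ} (hd : 1 ≤ d) (hw : 2 * d + 1 ≤ w) (lam : ℝ) (k : ℕ) (u : ℤ × ℤ) :
    Integrable (fun x => mbF w d lam k u x ^ 8) (gf (Dw w) (Dw w)) := by
  have h := (mb_F_Lp hd hw lam k u).integrable_norm_pow (p := 8) (by norm_num)
  refine h.congr (Filter.Eventually.of_forall fun x => ?_)
  simp only [Real.norm_eq_abs]
  exact Even.pow_abs (by decide) _

theorem mb_F_int4 {w d : ℕ} (hd : 1 ≤ d) (hw : 2 * d + 1 ≤ w) (lam : ℝ) (k : ℕ) (u : ℤ × ℤ) :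
    Integrable (fun x => mbF w d lam k u x ^ 4) (gf (Dw w) (Dw w)) := by
  have h0 : MemLp (mbF w d lam k u) 4 (gf (Dw w) (Dw w)) :=
    (mb_F_Lp hd hw lam k u).mono_exponent (by norm_num)
  have h := h0.integrable_norm_pow (p := 4) (by norm_num)
  refine h.congr (Filter.Eventually.of_forall fun x => ?_)
  simp only [Real.norm_eq_abs]
  exact Even.pow_abs (by decide) _


theorem mb_stop {w d : ℕ} {lam : ℝ} {f f' : ℤ × ℤ → ℝ} {k : ℕ}
    (h : ∀ v ∈ Kk w d lam f k, f v = f' v) :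
    ∀ i ≤ k, Kk w d lam f' i = Kk w d lam f i ∧ Lk w d lam f' i = Lk w d lam f i := by
  intro i hi
  have h2 := (expl_facts _ _ (mb_K0R w d) (fun v => f v ≤ lam)).2.2.2.2.2.2
    (fun v => f' v ≤ lam) k (fun v hv => by
      have := h v hv
      simp only [this]) i hi
  unfold Kk Lk
  rw [h2]
  exact ⟨rfl, rfl⟩

theorem mb_act_stop {w d : ℕ} {lam : ℝ} {f f' : ℤ × ℤ → ℝ} {j m k : ℕ} {c : ℤ × ℤ}
    (h : ∀ v ∈ Kk w d lam f k, f v = f' v) (ha : act w d lam f j m k c) : act w d lam f' j m k c := by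
  obtain ⟨k', h1, h2, ⟨z, hz, hc⟩, h3⟩ := ha
  refine ⟨k', h1, h2, ⟨z, ?_, hc⟩, fun k'' hk'' z hz => ?_⟩
  · rw [(mb_stop h k' h1).2]
    exact hz
  · rw [(mb_stop h k'' (hk''.le.trans h1)).2] at hz
    exact h3 k'' hk'' z hz

open Classical in
theorem mb_count (w d : ℕ) (lam : ℝ) (f : ℤ × ℤ → ℝ) (j m T : ℕ) (c : ℤ × ℤ) :
    ((Finset.range T).filter (fun k => act w d lam f j m k c)).card ≤ m + 1 := by
  by_cases h : ∃ k, act w d lam f j m k c
  · obtain ⟨k, k', h1, h2, ⟨z, hz, hc⟩, h3⟩ := h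
    have hsub : (Finset.range T).filter (fun k => act w d lam f j m k c) ⊆ Finset.Icc k' (k' + m) := by
      intro i hi
      obtain ⟨i', g1, g2, ⟨z', hz', hc'⟩, g3⟩ := (Finset.mem_filter.1 hi).2
      have : i' = k' := by
        rcases lt_trichotomy i' k' with h | h | h
        · exact absurd hc' (h3 i' h z' hz')
        · exact h
        · exact absurd hc (g3 k' h z hz)
      subst this
      exact Finset.mem_Icc.2 ⟨g1, g2⟩
    refine (Finset.card_le_card hsub).trans ?_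
    rw [Nat.card_Icc]
    omega
  · push Not at h
    rw [Finset.filter_false_of_mem fun k _ => h k]
    simp

open Classical in
theorem mb_count' (w d : ℕ) (lam : ℝ) (f : ℤ × ℤ → ℝ) (j m T : ℕ) (c : ℤ × ℤ) :
    ∑ k ∈ Finset.range T, (if act w d lam f j m k c then (1 : ℝ) else 0) ≤ m + 1 := by
  rw [← Finset.sum_filter, Finset.sum_const, nsmul_eq_mul, mul_one]
  exact_mod_cast mb_count w d lam f j m T c

/-- the events of one term -/
def mbG (w d : ℕ) (lam Kp : ℝ) (j m k : ℕ) (c u : ℤ × ℤ) (n : ℕ) :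
    Set (EuclideanSpace ℝ (Dw w : Finset (ℤ × ℤ))) :=
  {x | act w d lam (extf (Dw w) x) j m k c ∧ selB w d lam Kp (extf (Dw w) x) j c ∧
    ball u (n : ℤ) ⊆ Dw w \ Kk w d lam (extf (Dw w) x) k}

theorem mbG_meas (w d : ℕ) (lam Kp : ℝ) (j m k : ℕ) (c u : ℤ × ℤ) (n : ℕ) :
    MeasurableSet (mbG w d lam Kp j m k c u n) :=
  mb_meas w lam (fun f => act w d lam f j m k c ∧ selB w d lam Kp f j c ∧
    ball u (n : ℤ) ⊆ Dw w \ Kk w d lam f k) fun f f' h hf => by
    refine ⟨(mb_act h j m k c).1 hf.1, (mb_selB h Kp j c).1 hf.2.1, ?_⟩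
    rw [← mb_Kk h k]
    exact hf.2.2

theorem mb_one {C : ℝ} (hC : 0 < C)
    (hwin : ∀ (w d : ℕ) (lam : ℝ), 1 ≤ d → 2 * d + 1 ≤ w → ∀ (u : ℤ × ℤ) (n T m : ℕ), ball u n ⊆ Dw w →
    ∀ E : ℕ → Set (EuclideanSpace ℝ (Dw w : Finset (ℤ × ℤ))), (∀ k, MeasurableSet (E k)) →
    (∀ k, ∀ x x' : EuclideanSpace ℝ (Dw w : Finset (ℤ × ℤ)),
      (∀ v ∈ Kk w d lam (extf (Dw w) x) k, extf (Dw w) x v = extf (Dw w) x' v) → x ∈ E k → x' ∈ E k) →
    (∀ k, ∀ x ∈ E k, ball u n ⊆ Dw w \ Kk w d lam (extf (Dw w) x) k) →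
    (∀ x, ∑ k ∈ Finset.range T, Set.indicator (E k) (fun _ => (1 : ℝ)) x ≤ m) →
    ∑ k ∈ Finset.range T, ∫ x in E k, (lam - hx (Dw w) (Kk w d lam (extf (Dw w) x) k) (extf (Dw w) x) u) ^ 8 ∂(gf (Dw w) (Dw w)) ≤
      m * (C * (lam ^ 2 + 1 + Real.log (7 * w / (n + 1))) ^ 4))
    {w d : ℕ} {lam Kp : ℝ} (hd : 1 ≤ d) (hw : 2 * d + 1 ≤ w) (j m T n : ℕ) (c u : ℤ × ℤ) {B Λ : ℝ}
    (hB : 0 < B)
    (hS : gf (Dw w) (Dw w) {x | (∃ k, ∃ z ∈ Lk w d lam (extf (Dw w) x) k, cr j z = c) ∧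
      selB w d lam Kp (extf (Dw w) x) j c} ≤ ENNReal.ofReal B)
    (hΛ1 : 0 < Λ) (hΛ : ball u (n : ℤ) ⊆ Dw w → 0 ≤ lam ^ 2 + 1 + Real.log (7 * w / (n + 1)) ∧
      lam ^ 2 + 1 + Real.log (7 * w / (n + 1)) ≤ Λ) :
    ∑ k ∈ Finset.range T, ∫ x, Set.indicator (mbG w d lam Kp j m k c u n)
      (fun x => mbF w d lam k u x ^ 4) x ∂(gf (Dw w) (Dw w)) ≤ (m + 1) * (√B * √C * Λ ^ 2) := by
  classical
  have hsB : 0 < √B := Real.sqrt_pos.2 hB
  have hsC : 0 < √C := Real.sqrt_pos.2 hC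
  by_cases hball : ball u (n : ℤ) ⊆ Dw w
  swap
  · have h0 : ∀ k, mbG w d lam Kp j m k c u n = ∅ := by
      intro k
      ext x
      simp only [Set.mem_empty_iff_false, iff_false]
      exact fun h => hball (h.2.2.trans Finset.sdiff_subset)
    simp only [h0, Set.indicator_empty, integral_zero, Finset.sum_const_zero]
    positivity
  obtain ⟨hL0, hL1⟩ := hΛ hball
  set μ := gf (Dw w) (Dw w) with hμ
  set θ : ℝ := √C * Λ ^ 2 / √B with hθ
  have hθ0 : 0 < θ := by positivity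
  -- the events
  set A : ℕ → Set (EuclideanSpace ℝ (Dw w : Finset (ℤ × ℤ))) := fun k =>
    {x | act w d lam (extf (Dw w) x) j m k c ∧ selB w d lam Kp (extf (Dw w) x) j c} with hA
  set E : ℕ → Set (EuclideanSpace ℝ (Dw w : Finset (ℤ × ℤ))) := fun k =>
    {x | act w d lam (extf (Dw w) x) j m k c ∧
      ball u (n : ℤ) ⊆ Dw w \ Kk w d lam (extf (Dw w) x) k} with hE
  have hAm : ∀ k, MeasurableSet (A k) := fun k =>
    mb_meas w lam (fun f => act w d lam f j m k c ∧ selB w d lam Kp f j c) fun f f' h hf =>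
      ⟨(mb_act h j m k c).1 hf.1, (mb_selB h Kp j c).1 hf.2⟩
  have hEm : ∀ k, MeasurableSet (E k) := fun k =>
    mb_meas w lam (fun f => act w d lam f j m k c ∧ ball u (n : ℤ) ⊆ Dw w \ Kk w d lam f k)
      fun f f' h hf => ⟨(mb_act h j m k c).1 hf.1, by
        rw [← mb_Kk h k]
        exact hf.2⟩
  set S0 : Set (EuclideanSpace ℝ (Dw w : Finset (ℤ × ℤ))) := {x |
      (∃ k, ∃ z ∈ Lk w d lam (extf (Dw w) x) k, cr j z = c) ∧
      selB w d lam Kp (extf (Dw w) x) j c} with hS0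
  have hSm : MeasurableSet S0 :=
    mb_meas w lam (fun f => (∃ k, ∃ z ∈ Lk w d lam f k, cr j z = c) ∧ selB w d lam Kp f j c)
      fun f f' h hf => ⟨by
        obtain ⟨⟨k, z, hz, hc⟩, _⟩ := hf
        exact ⟨k, z, by rw [← mb_Lk h k]; exact hz, hc⟩, (mb_selB h Kp j c).1 hf.2⟩
  -- the eighth moments
  have h8 := hwin w d lam hd hw u n T (m + 1) hball E hEm
    (fun k x x' h hx => ⟨mb_act_stop h hx.1, by
      rw [(mb_stop h k le_rfl).1]
      exact hx.2⟩)
    (fun k x hx => hx.2)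
    (fun x => by
      refine le_trans (Finset.sum_le_sum fun k _ => ?_)
        ((mb_count' w d lam (extf (Dw w) x) j m T c).trans (by push_cast; exact le_rfl))
      by_cases hx : x ∈ E k
      · rw [Set.indicator_of_mem hx, if_pos hx.1]
      · rw [Set.indicator_of_notMem hx]
        split_ifs <;> norm_num)
  -- the probabilities
  have hP : ∑ k ∈ Finset.range T, μ.real (A k) ≤ (m + 1) * B := by
    have h1 : ∀ k, μ.real (A k) = ∫ x, Set.indicator (A k) (fun _ => (1 : ℝ)) x ∂μ := by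
      intro k
      rw [integral_indicator (hAm k)]
      simp
    have h2 : ∀ k ∈ Finset.range T, Integrable (fun x => Set.indicator (A k) (fun _ => (1 : ℝ)) x) μ :=
      fun k _ => (integrable_const (1 : ℝ)).indicator (hAm k)
    simp only [h1]
    rw [← integral_finset_sum _ h2]
    have h3 : ∫ x, ∑ k ∈ Finset.range T, Set.indicator (A k) (fun _ => (1 : ℝ)) x ∂μ
        ≤ ∫ x, Set.indicator S0 (fun _ => ((m : ℝ) + 1)) x ∂μ := by
      refine integral_mono (integrable_finset_sum _ h2) ((integrable_const _).indicator hSm) fun x => ?_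
      by_cases hx : (∃ k, ∃ z ∈ Lk w d lam (extf (Dw w) x) k, cr j z = c) ∧
          selB w d lam Kp (extf (Dw w) x) j c
      · rw [Set.indicator_of_mem (show x ∈ S0 from hx)]
        refine le_trans (Finset.sum_le_sum fun k _ => ?_)
          (mb_count' w d lam (extf (Dw w) x) j m T c)
        by_cases hxk : x ∈ A k
        · rw [Set.indicator_of_mem hxk, if_pos hxk.1]
        · rw [Set.indicator_of_notMem hxk]
          split_ifs <;> norm_num
      · rw [Set.indicator_of_notMem (show x ∉ S0 from hx)]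
        refine le_of_eq (Finset.sum_eq_zero fun k _ => ?_)
        rw [Set.indicator_of_notMem]
        rintro ⟨⟨k', _, _, hv, _⟩, hs⟩
        exact hx ⟨⟨k', hv⟩, hs⟩
    refine h3.trans ?_
    rw [integral_indicator hSm, setIntegral_const, smul_eq_mul, mul_comm]
    refine mul_le_mul_of_nonneg_left ?_ (by positivity)
    exact ENNReal.toReal_le_of_le_ofReal hB.le hS
  -- one step
  have hstep : ∀ k, ∫ x, Set.indicator (mbG w d lam Kp j m k c u n)
      (fun x => mbF w d lam k u x ^ 4) x ∂μ ≤ θ / 2 * μ.real (A k) + 1 / (2 * θ) *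
        ∫ x in E k, (lam - hx (Dw w) (Kk w d lam (extf (Dw w) x) k) (extf (Dw w) x) u) ^ 8 ∂μ := by
    intro k
    have e1 : μ.real (A k) = ∫ x, Set.indicator (A k) (fun _ => (1 : ℝ)) x ∂μ := by
      rw [integral_indicator (hAm k)]
      simp
    have e2 : ∫ x in E k, (lam - hx (Dw w) (Kk w d lam (extf (Dw w) x) k) (extf (Dw w) x) u) ^ 8 ∂μ
        = ∫ x, Set.indicator (E k) (fun x => mbF w d lam k u x ^ 8) x ∂μ := by
      rw [integral_indicator (hEm k)]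
      rfl
    rw [e1, e2, ← integral_const_mul, ← integral_const_mul, ← integral_add
      (((integrable_const (1 : ℝ)).indicator (hAm k)).const_mul _)
      (((mb_F_int8 hd hw lam k u).indicator (hEm k)).const_mul _)]
    refine integral_mono ((mb_F_int4 hd hw lam k u).indicator (mbG_meas w d lam Kp j m k c u n))
      ((((integrable_const (1 : ℝ)).indicator (hAm k)).const_mul _).add
      (((mb_F_int8 hd hw lam k u).indicator (hEm k)).const_mul _)) fun x => ?_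
    by_cases hx : x ∈ mbG w d lam Kp j m k c u n
    · have hxA : x ∈ A k := ⟨hx.1, hx.2.1⟩
      have hxE : x ∈ E k := ⟨hx.1, hx.2.2⟩
      simp only [Set.indicator_of_mem hx, Set.indicator_of_mem hxA, Set.indicator_of_mem hxE]
      have h1 : 0 ≤ (mbF w d lam k u x ^ 4 - θ) ^ 2 := sq_nonneg _
      have h2 : mbF w d lam k u x ^ 8 = (mbF w d lam k u x ^ 4) ^ 2 := by ring
      rw [h2]
      set y := mbF w d lam k u x ^ 4
      have h3 : θ / 2 * 1 + 1 / (2 * θ) * y ^ 2 - y = (y - θ) ^ 2 / (2 * θ) := by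
        field_simp
        ring
      have h4 : 0 ≤ (y - θ) ^ 2 / (2 * θ) := by positivity
      linarith
    · simp only [Set.indicator_of_notMem hx]
      have h1 : 0 ≤ Set.indicator (A k) (fun _ => (1 : ℝ)) x :=
        Set.indicator_nonneg (fun _ _ => zero_le_one) _
      have h2 : 0 ≤ Set.indicator (E k) (fun x => mbF w d lam k u x ^ 8) x :=
        Set.indicator_nonneg (fun _ _ => by positivity) _
      positivity
  refine (Finset.sum_le_sum fun k _ => hstep k).trans ?_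
  rw [Finset.sum_add_distrib, ← Finset.mul_sum, ← Finset.mul_sum]
  have h5 : θ / 2 * ∑ k ∈ Finset.range T, μ.real (A k) ≤ θ / 2 * ((m + 1) * B) :=
    mul_le_mul_of_nonneg_left hP (by positivity)
  have h6 : (((m + 1 : ℕ) : ℝ)) * (C * (lam ^ 2 + 1 + Real.log (7 * w / (n + 1))) ^ 4)
      ≤ (m + 1) * (C * Λ ^ 4) := by
    push_cast
    gcongr
  have h7 := mul_le_mul_of_nonneg_left (h8.trans h6) (show (0 : ℝ) ≤ 1 / (2 * θ) by positivity)
  have h8' : θ / 2 * ((m + 1) * B) + 1 / (2 * θ) * ((m + 1) * (C * Λ ^ 4))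
      = (m + 1) * (√B * √C * Λ ^ 2) := by
    have hb : B = √B ^ 2 := (Real.sq_sqrt hB.le).symm
    have hc : C = √C ^ 2 := (Real.sq_sqrt hC.le).symm
    rw [hθ]
    generalize √B = sb at *
    generalize √C = sc at *
    subst hb
    subst hc
    field_simp
    ring
  linarith


theorem mb_jensen4 (s : Finset ℕ) (p a : ℕ → ℝ) (hp : ∀ i, 0 ≤ p i) :
    (∑ i ∈ s, p i * a i) ^ 4 ≤ (∑ i ∈ s, p i) ^ 3 * ∑ i ∈ s, p i * a i ^ 4 := by
  have h1 : (∑ i ∈ s, p i * a i) ^ 2 ≤ (∑ i ∈ s, p i) * ∑ i ∈ s, p i * a i ^ 2 :=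
    Finset.sum_sq_le_sum_mul_sum_of_sq_eq_mul s (fun i _ => hp i)
      (fun i _ => mul_nonneg (hp i) (sq_nonneg _)) (fun i _ => by ring)
  have h2 : (∑ i ∈ s, p i * a i ^ 2) ^ 2 ≤ (∑ i ∈ s, p i) * ∑ i ∈ s, p i * a i ^ 4 :=
    Finset.sum_sq_le_sum_mul_sum_of_sq_eq_mul s (fun i _ => hp i)
      (fun i _ => mul_nonneg (hp i) (by positivity)) (fun i _ => by ring)
  have h0 : 0 ≤ ∑ i ∈ s, p i := Finset.sum_nonneg fun i _ => hp i
  have h3 : 0 ≤ (∑ i ∈ s, p i * a i) ^ 2 := sq_nonneg _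
  calc (∑ i ∈ s, p i * a i) ^ 4 = ((∑ i ∈ s, p i * a i) ^ 2) ^ 2 := by ring
    _ ≤ ((∑ i ∈ s, p i) * ∑ i ∈ s, p i * a i ^ 2) ^ 2 := pow_le_pow_left₀ h3 h1 2
    _ = (∑ i ∈ s, p i) ^ 2 * (∑ i ∈ s, p i * a i ^ 2) ^ 2 := by ring
    _ ≤ (∑ i ∈ s, p i) ^ 2 * ((∑ i ∈ s, p i) * ∑ i ∈ s, p i * a i ^ 4) :=
        mul_le_mul_of_nonneg_left h2 (by positivity)
    _ = _ := by ring

theorem mb_ball_card (c : ℤ × ℤ) (r : ℕ) :
    ((ball c (2 * (r : ℤ) + 1)).card : ℝ) = (4 * r + 3) ^ 2 := by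
  unfold ball rect
  rw [Finset.card_product, Int.card_Icc, Int.card_Icc]
  have h1 : (c.1 + (2 * (r : ℤ) + 1) + 1 - (c.1 - (2 * (r : ℤ) + 1))).toNat = 4 * r + 3 := by omega
  have h2 : (c.2 + (2 * (r : ℤ) + 1) + 1 - (c.2 - (2 * (r : ℤ) + 1))).toNat = 4 * r + 3 := by omega
  rw [h1, h2]
  push_cast
  ring

theorem mb_ball_card_le (c : ℤ × ℤ) {r : ℕ} (hr : 1 ≤ r) :
    ((ball c (2 * (r : ℤ) + 1)).card : ℝ) ≤ 49 * (r : ℝ) ^ 2 := by
  rw [mb_ball_card]
  have : (1 : ℝ) ≤ r := by exact_mod_cast hr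
  nlinarith

theorem mb_phi4 {kap : ℝ} (V : ℝ)
    (hV : ∀ L : ℕ, ∑ l ∈ Finset.range L, (2 : ℝ) ^ (-(kap * l)) ≤ V) (w d : ℕ) (lam : ℝ)
    (f : ℤ × ℤ → ℝ) (k : ℕ) (c : ℤ × ℤ) {r : ℕ} (hr : 1 ≤ r) :
    Phi kap w d lam f k c r ^ 4 ≤ V ^ 3 * ∑ l ∈ Finset.range (Nat.log 2 r + 2), (2 : ℝ) ^ (-(kap * l)) *
      (49 / (r : ℝ) ^ 2 * ∑ u ∈ (ball c (2 * r + 1)).filter
      (fun u => ball u ((r / 2 ^ (l + 1) : ℕ) : ℤ) ⊆ Dw w \ Kk w d lam f k),
        (lam - hx (Dw w) (Kk w d lam f k) f u) ^ 4) := by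
  have hr' : (0 : ℝ) < r := by exact_mod_cast hr
  unfold Phi
  refine (mb_jensen4 _ _ _ fun i => by positivity).trans ?_
  have h0 : 0 ≤ ∑ l ∈ Finset.range (Nat.log 2 r + 2), (2 : ℝ) ^ (-(kap * l)) :=
    Finset.sum_nonneg fun _ _ => by positivity
  refine mul_le_mul (pow_le_pow_left₀ h0 (hV _) 3) (Finset.sum_le_sum fun l _ => ?_)
    (Finset.sum_nonneg fun l _ => by positivity) (pow_nonneg (h0.trans (hV _)) 3)
  refine mul_le_mul_of_nonneg_left ?_ (by positivity)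
  set s := (ball c (2 * r + 1)).filter
      (fun u => ball u ((r / 2 ^ (l + 1) : ℕ) : ℤ) ⊆ Dw w \ Kk w d lam f k) with hs
  set F : ℤ × ℤ → ℝ := fun u => lam - hx (Dw w) (Kk w d lam f k) f u with hF
  have h1 : 0 ≤ 1 / (r : ℝ) ^ 2 * ∑ u ∈ s, F u ^ 2 :=
    mul_nonneg (by positivity) (Finset.sum_nonneg fun _ _ => sq_nonneg _)
  have h2 : Real.sqrt (1 / (r : ℝ) ^ 2 * ∑ u ∈ s, F u ^ 2) ^ 4
      = (1 / (r : ℝ) ^ 2 * ∑ u ∈ s, F u ^ 2) ^ 2 := by
    have : Real.sqrt (1 / (r : ℝ) ^ 2 * ∑ u ∈ s, F u ^ 2) ^ 4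
        = (Real.sqrt (1 / (r : ℝ) ^ 2 * ∑ u ∈ s, F u ^ 2) ^ 2) ^ 2 := by ring
    rw [this, Real.sq_sqrt h1]
  refine h2.le.trans ?_
  have h3 : (∑ u ∈ s, F u ^ 2) ^ 2 ≤ s.card * ∑ u ∈ s, (F u ^ 2) ^ 2 := sq_sum_le_card_mul_sum_sq
  have h4 : (s.card : ℝ) ≤ 49 * (r : ℝ) ^ 2 :=
    le_trans (by exact_mod_cast Finset.card_le_card (Finset.filter_subset _ _)) (mb_ball_card_le c hr)
  have h5 : ∑ u ∈ s, (F u ^ 2) ^ 2 = ∑ u ∈ s, F u ^ 4 := Finset.sum_congr rfl fun u _ => by ring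
  rw [h5] at h3
  have h6 : 0 ≤ ∑ u ∈ s, F u ^ 4 := Finset.sum_nonneg fun _ _ => by positivity
  calc (1 / (r : ℝ) ^ 2 * ∑ u ∈ s, F u ^ 2) ^ 2 = 1 / (r : ℝ) ^ 4 * (∑ u ∈ s, F u ^ 2) ^ 2 := by
        field_simp
    _ ≤ 1 / (r : ℝ) ^ 4 * ((49 * (r : ℝ) ^ 2) * ∑ u ∈ s, F u ^ 4) := by
        refine mul_le_mul_of_nonneg_left (h3.trans ?_) (by positivity)
        exact mul_le_mul_of_nonneg_right h4 h6
    _ = 49 / (r : ℝ) ^ 2 * ∑ u ∈ s, F u ^ 4 := by
        field_simp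

/-- the possible corners -/
noncomputable def mbC (w j : ℕ) : Finset (ℤ × ℤ) :=
  (rect 0 (7 * w) 0 w).filter (fun c => cr j c = c)

theorem mb_Yb (kap : ℝ) (w d : ℕ) (lam Kp : ℝ) (f : ℤ × ℤ → ℝ) (j m T : ℕ) :
    Yb kap w d lam Kp f j m T ^ 2 ≤ ((mbC w j).card * (m + 1)) *
      ∑ k ∈ Finset.range T, ∑ c ∈ mbC w j, (open Classical in
        if act w d lam f j m k c ∧ selB w d lam Kp f j c then
          Phi kap w d lam f k c (2 ^ (j + 1)) ^ 4 else 0) := by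
  classical
  have h1 : Yb kap w d lam Kp f j m T = ∑ x ∈ Finset.range T ×ˢ mbC w j,
      (if act w d lam f j m x.1 x.2 ∧ selB w d lam Kp f j x.2 then
          Phi kap w d lam f x.1 x.2 (2 ^ (j + 1)) ^ 2 else 0) := by
    rw [Finset.sum_product]
    unfold Yb Ak mbC
    refine Finset.sum_congr rfl fun k _ => ?_
    rw [← Finset.sum_filter, Finset.filter_filter]
  have h2 : ∑ k ∈ Finset.range T, ∑ c ∈ mbC w j, (
        if act w d lam f j m k c ∧ selB w d lam Kp f j c then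
          Phi kap w d lam f k c (2 ^ (j + 1)) ^ 4 else 0) =
      ∑ x ∈ Finset.range T ×ˢ mbC w j,
      (if act w d lam f j m x.1 x.2 ∧ selB w d lam Kp f j x.2 then
          Phi kap w d lam f x.1 x.2 (2 ^ (j + 1)) ^ 4 else 0) := by
    rw [Finset.sum_product]
  have h3 : (∑ x ∈ Finset.range T ×ˢ mbC w j,
      (if act w d lam f j m x.1 x.2 ∧ selB w d lam Kp f j x.2 then
          Phi kap w d lam f x.1 x.2 (2 ^ (j + 1)) ^ 2 else 0)) ^ 2 ≤
      (∑ x ∈ Finset.range T ×ˢ mbC w j,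
      (if act w d lam f j m x.1 x.2 then (1 : ℝ) else 0)) * ∑ x ∈ Finset.range T ×ˢ mbC w j,
      (if act w d lam f j m x.1 x.2 ∧ selB w d lam Kp f j x.2 then
          Phi kap w d lam f x.1 x.2 (2 ^ (j + 1)) ^ 4 else 0) := by
    refine Finset.sum_sq_le_sum_mul_sum_of_sq_eq_mul _ (fun x _ => ?_) (fun x _ => ?_) (fun x _ => ?_)
    · split_ifs <;> norm_num
    · split_ifs
      · positivity
      · exact le_rfl
    · by_cases h : act w d lam f j m x.1 x.2
      · by_cases h' : selB w d lam Kp f j x.2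
        · simp only [h, h', and_self, if_true]
          ring
        · simp only [h, h', and_false, if_false]
          ring
      · simp only [h, false_and, if_false]
        ring
  have h4 : (∑ x ∈ Finset.range T ×ˢ mbC w j,
      (if act w d lam f j m x.1 x.2 then (1 : ℝ) else 0)) ≤ (mbC w j).card * (m + 1) := by
    rw [Finset.sum_product_right]
    refine (Finset.sum_le_sum fun c _ => mb_count' w d lam f j m T c).trans ?_
    rw [Finset.sum_const, nsmul_eq_mul]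
  rw [h1, h2]
  refine h3.trans (mul_le_mul_of_nonneg_right h4 (Finset.sum_nonneg fun x _ => ?_))
  split_ifs
  · positivity
  · exact le_rfl

theorem mb_point {kap : ℝ} (V : ℝ)
    (hV : ∀ L : ℕ, ∑ l ∈ Finset.range L, (2 : ℝ) ^ (-(kap * l)) ≤ V) (w d : ℕ) (lam Kp : ℝ)
    (j m T : ℕ) (x : EuclideanSpace ℝ (Dw w : Finset (ℤ × ℤ))) :
    Yb kap w d lam Kp (extf (Dw w) x) j m T ^ 2 ≤ ((mbC w j).card * (m + 1)) *
      ∑ k ∈ Finset.range T, ∑ c ∈ mbC w j, V ^ 3 * ∑ l ∈ Finset.range (j + 3), (2 : ℝ) ^ (-(kap * l)) *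
      (49 / ((2 ^ (j + 1) : ℕ) : ℝ) ^ 2 * ∑ u ∈ ball c (2 * ((2 ^ (j + 1) : ℕ) : ℤ) + 1),
        Set.indicator (mbG w d lam Kp j m k c u (2 ^ (j + 1) / 2 ^ (l + 1)))
          (fun x => mbF w d lam k u x ^ 4) x) := by
  classical
  have hV0 : 0 ≤ V := by simpa using hV 0
  refine (mb_Yb kap w d lam Kp (extf (Dw w) x) j m T).trans ?_
  refine mul_le_mul_of_nonneg_left ?_ (by positivity)
  refine Finset.sum_le_sum fun k _ => Finset.sum_le_sum fun c _ => ?_
  have hnn : ∀ l, 0 ≤ ∑ u ∈ ball c (2 * ((2 ^ (j + 1) : ℕ) : ℤ) + 1),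
        Set.indicator (mbG w d lam Kp j m k c u (2 ^ (j + 1) / 2 ^ (l + 1)))
          (fun x => mbF w d lam k u x ^ 4) x := fun l =>
    Finset.sum_nonneg fun u _ => Set.indicator_nonneg (fun _ _ => by positivity) _
  by_cases h : act w d lam (extf (Dw w) x) j m k c ∧ selB w d lam Kp (extf (Dw w) x) j c
  · rw [if_pos h]
    refine (mb_phi4 V hV w d lam (extf (Dw w) x) k c (Nat.one_le_two_pow)).trans (le_of_eq ?_)
    rw [Nat.log_pow (by norm_num)]
    congr 1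
    refine Finset.sum_congr rfl fun l _ => ?_
    congr 2
    rw [Finset.sum_filter]
    refine Finset.sum_congr rfl fun u _ => ?_
    by_cases hu : ball u (((2 ^ (j + 1) / 2 ^ (l + 1) : ℕ)) : ℤ) ⊆
        Dw w \ Kk w d lam (extf (Dw w) x) k
    · rw [if_pos hu, Set.indicator_of_mem (show x ∈ mbG w d lam Kp j m k c u (2 ^ (j + 1) / 2 ^ (l + 1))
        from ⟨h.1, h.2, hu⟩)]
      rfl
    · rw [if_neg hu, Set.indicator_of_notMem]
      exact fun hx => hu hx.2.2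
  · rw [if_neg h]
    refine mul_nonneg (by positivity) (Finset.sum_nonneg fun l _ => ?_)
    have := hnn l
    positivity

/-- multiples of `q` in an interval -/
theorem mb_mult {q : ℕ} (hq : 0 < q) {a b : ℤ} (hab : a ≤ b + 1) :
    (((Finset.Icc a b).filter (fun t : ℤ => (q : ℤ) * (t / q) = t)).card : ℝ)
      ≤ ((b : ℝ) - a) / q + 2 := by
  have hq' : (0 : ℤ) < q := by exact_mod_cast hq
  have hqr : (0 : ℝ) < q := by exact_mod_cast hq
  have h1 : ((Finset.Icc a b).filter (fun t : ℤ => (q : ℤ) * (t / q) = t)).card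
      ≤ (Finset.Icc (a / (q : ℤ)) (b / (q : ℤ))).card := by
    refine Finset.card_le_card_of_injOn (fun t => t / (q : ℤ)) ?_ ?_
    · intro t ht
      have ht' := Finset.mem_filter.1 (Finset.mem_coe.1 ht)
      have h2 := Finset.mem_Icc.1 ht'.1
      exact Finset.mem_coe.2 (Finset.mem_Icc.2
        ⟨Int.ediv_le_ediv hq' h2.1, Int.ediv_le_ediv hq' h2.2⟩)
    · intro t ht t' ht' h
      have e1 := (Finset.mem_filter.1 (Finset.mem_coe.1 ht)).2
      have e2 := (Finset.mem_filter.1 (Finset.mem_coe.1 ht')).2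
      simp only at h
      rw [← e1, ← e2, h]
  rw [Int.card_Icc] at h1
  have h3 : ((b / (q : ℤ) + 1 - a / (q : ℤ)).toNat : ℝ) ≤ ((b : ℝ) - a) / q + 2 := by
    have hb : ((b / (q : ℤ) : ℤ) : ℝ) ≤ (b : ℝ) / q := by
      rw [le_div_iff₀ hqr]
      exact_mod_cast Int.ediv_mul_le b hq'.ne'
    have ha : (a : ℝ) / q < ((a / (q : ℤ) : ℤ) : ℝ) + 1 := by
      rw [div_lt_iff₀ hqr]
      exact_mod_cast Int.lt_ediv_add_one_mul_self a hq'
    have h0 : 0 ≤ ((b : ℝ) - a) / q + 2 := by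
      have : (-1 : ℝ) ≤ (b : ℝ) - a := by
        have : (-1 : ℤ) ≤ b - a := by linarith
        exact_mod_cast this
      have h5 : (-1 : ℝ) / q ≤ ((b : ℝ) - a) / q := div_le_div_of_nonneg_right this hqr.le
      have h6 : (-1 : ℝ) ≤ -1 / q := by
        rw [le_div_iff₀ hqr]
        have : (1 : ℝ) ≤ q := by exact_mod_cast hq
        linarith
      linarith
    by_cases hneg : 0 ≤ b / (q : ℤ) + 1 - a / (q : ℤ)
    · have e : ((b / (q : ℤ) + 1 - a / (q : ℤ)).toNat : ℝ) = ((b / (q : ℤ) + 1 - a / (q : ℤ) : ℤ) : ℝ) := by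
        exact_mod_cast Int.toNat_of_nonneg hneg
      rw [e]
      push_cast
      rw [sub_div]
      linarith
    · rw [Int.toNat_of_nonpos (by linarith)]
      exact_mod_cast h0
  exact le_trans (by exact_mod_cast h1) h3

theorem mb_cr {j : ℕ} {c : ℤ × ℤ} : cr j c = c ↔
    ((2 ^ j : ℕ) : ℤ) * (c.1 / (2 ^ j : ℕ)) = c.1 ∧ ((2 ^ j : ℕ) : ℤ) * (c.2 / (2 ^ j : ℕ)) = c.2 := by
  unfold cr
  rw [Prod.ext_iff]
  push_cast
  exact Iff.rfl

/-- corners in a rectangle -/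
theorem mb_corners {j : ℕ} {a b a' b' : ℤ} (h : a ≤ b + 1) (h' : a' ≤ b' + 1) :
    (((rect a b a' b').filter (fun c => cr j c = c)).card : ℝ)
      ≤ (((b : ℝ) - a) / 2 ^ j + 2) * (((b' : ℝ) - a') / 2 ^ j + 2) := by
  have hq : 0 < 2 ^ j := by positivity
  have e : (rect a b a' b').filter (fun c => cr j c = c)
      = ((Finset.Icc a b).filter (fun t : ℤ => ((2 ^ j : ℕ) : ℤ) * (t / (2 ^ j : ℕ)) = t)) ×ˢ
        ((Finset.Icc a' b').filter (fun t : ℤ => ((2 ^ j : ℕ) : ℤ) * (t / (2 ^ j : ℕ)) = t)) := by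
    ext c
    simp only [rect, Finset.mem_filter, Finset.mem_product, mb_cr]
    tauto
  rw [e, Finset.card_product]
  push_cast
  have h1 := mb_mult hq h
  have h2 := mb_mult hq h'
  push_cast at h1 h2
  exact mul_le_mul h1 h2 (by positivity) (le_trans (by positivity) h1)

theorem mb_C_card {w j : ℕ} (hjw : 2 ^ j ≤ w) :
    ((mbC w j).card : ℝ) ≤ 27 * ((w : ℝ) / 2 ^ j) ^ 2 := by
  have h := mb_corners (j := j) (a := 0) (b := 7 * w) (a' := 0) (b' := w) (by positivity) (by positivity)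
  have hy : (1 : ℝ) ≤ (w : ℝ) / 2 ^ j := by
    rw [one_le_div (by positivity)]
    exact_mod_cast hjw
  refine le_trans h ?_
  push_cast
  have e1 : ((7 : ℝ) * w - 0) / 2 ^ j = 7 * (w / 2 ^ j) := by ring
  have e2 : ((w : ℝ) - 0) / 2 ^ j = w / 2 ^ j := by ring
  rw [e1, e2]
  nlinarith

/-- corners near the boundary -/
theorem mb_strip {w d j e : ℕ} (hd : 1 ≤ d) (hw : 2 * d + 1 ≤ w) (hjw : 2 ^ j ≤ w) (hje : j ≤ e) :
    (((mbC w j).filter (fun c => ball c (2 ^ e) ⊆ rect (w + 1) (5 * w) d (w - d) ∧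
      ¬ ball c (2 ^ (e + 1)) ⊆ rect (w + 1) (5 * w) d (w - d))).card : ℝ)
      ≤ 96 * (2 : ℝ) ^ (e - j) * ((w : ℝ) / 2 ^ j) := by
  classical
  have hy : (1 : ℝ) ≤ (w : ℝ) / 2 ^ j := by
    rw [one_le_div (by positivity)]
    exact_mod_cast hjw
  set H : ℤ := 2 ^ (e + 1) with hH
  have hH0 : 0 < H := by positivity
  have hHr : (H : ℝ) / 2 ^ j = 2 * (2 : ℝ) ^ (e - j) := by
    rw [hH]
    push_cast
    rw [div_eq_iff (by positivity), mul_assoc, ← pow_add, pow_succ, mul_comm]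
    congr 2
    omega
  have h1e : (1 : ℝ) ≤ (2 : ℝ) ^ (e - j) := one_le_pow₀ (by norm_num)
  have hwd : (d : ℤ) ≤ w - d := by omega
  have hsub : (mbC w j).filter (fun c => ball c (2 ^ e) ⊆ rect (w + 1) (5 * w) d (w - d) ∧
      ¬ ball c (2 ^ (e + 1)) ⊆ rect (w + 1) (5 * w) d (w - d)) ⊆
      (((rect (w + 1) (w + H) 0 w).filter (fun c => cr j c = c)) ∪
      ((rect (5 * w - H + 1) (5 * w) 0 w).filter (fun c => cr j c = c))) ∪
      (((rect 0 (7 * w) d (d + H)).filter (fun c => cr j c = c)) ∪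
      ((rect 0 (7 * w) (w - d - H + 1) (w - d)).filter (fun c => cr j c = c))) := by
    intro c hc
    simp only [mbC, Finset.mem_filter] at hc
    obtain ⟨⟨hc1, hc2⟩, hc3, hc4⟩ := hc
    have hcc : c ∈ ball c (2 ^ e) := by
      have : (0 : ℤ) ≤ 2 ^ e := by positivity
      simp only [ball, rect, Finset.mem_product, Finset.mem_Icc]
      constructor <;> constructor <;> linarith
    have hcR := hc3 hcc
    simp only [rect, Finset.mem_product, Finset.mem_Icc] at hcR hc1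
    have hex : c.1 - H < w + 1 ∨ 5 * w < c.1 + H ∨ c.2 - H < d ∨ (w : ℤ) - d < c.2 + H := by
      by_contra hcon
      push Not at hcon
      obtain ⟨g1, g2, g3, g4⟩ := hcon
      refine hc4 fun z hz => ?_
      simp only [ball, rect, Finset.mem_product, Finset.mem_Icc] at hz ⊢
      rw [← hH] at hz
      constructor <;> constructor <;> linarith [hz.1.1, hz.1.2, hz.2.1, hz.2.2]
    simp only [Finset.mem_union, Finset.mem_filter, hc2, and_true, rect, Finset.mem_product,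
      Finset.mem_Icc]
    rcases hex with h | h | h | h
    · left; left
      constructor <;> constructor <;> linarith [hcR.1.1, hcR.1.2, hcR.2.1, hcR.2.2, hc1.2.1, hc1.2.2]
    · left; right
      constructor <;> constructor <;> linarith [hcR.1.1, hcR.1.2, hcR.2.1, hcR.2.2, hc1.2.1, hc1.2.2]
    · right; left
      constructor <;> constructor <;> linarith [hcR.1.1, hcR.1.2, hcR.2.1, hcR.2.2, hc1.1.1, hc1.1.2]
    · right; right
      constructor <;> constructor <;> linarith [hcR.1.1, hcR.1.2, hcR.2.1, hcR.2.2, hc1.1.1, hc1.1.2]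
  have hcard := (Finset.card_le_card hsub).trans ((Finset.card_union_le _ _).trans
    (add_le_add (Finset.card_union_le _ _) (Finset.card_union_le _ _)))
  have k1 := mb_corners (j := j) (a := w + 1) (b := w + H) (a' := 0) (b' := w)
    (by linarith) (by positivity)
  have k2 := mb_corners (j := j) (a := 5 * w - H + 1) (b := 5 * w) (a' := 0) (b' := w)
    (by linarith) (by positivity)
  have k3 := mb_corners (j := j) (a := 0) (b := 7 * w) (a' := d) (b' := d + H)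
    (by positivity) (by linarith)
  have k4 := mb_corners (j := j) (a := 0) (b := 7 * w) (a' := w - d - H + 1) (b' := w - d)
    (by positivity) (by linarith)
  have hcard' : (((mbC w j).filter (fun c => ball c (2 ^ e) ⊆ rect (w + 1) (5 * w) d (w - d) ∧
      ¬ ball c (2 ^ (e + 1)) ⊆ rect (w + 1) (5 * w) d (w - d))).card : ℝ) ≤
      ((((rect (w + 1) (w + H) 0 w).filter (fun c => cr j c = c)).card : ℝ) +
      (((rect (5 * w - H + 1) (5 * w) 0 w).filter (fun c => cr j c = c)).card : ℝ)) +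
      ((((rect 0 (7 * w) d (d + H)).filter (fun c => cr j c = c)).card : ℝ) +
      (((rect 0 (7 * w) (w - d - H + 1) (w - d)).filter (fun c => cr j c = c)).card : ℝ)) := by
    exact_mod_cast hcard
  refine hcard'.trans ?_
  push_cast at k1 k2 k3 k4
  set y : ℝ := (w : ℝ) / 2 ^ j with hy'
  set z : ℝ := (2 : ℝ) ^ (e - j) with hz'
  have hj0 : (0 : ℝ) < 2 ^ j := by positivity
  have m1 : ((w : ℝ) + H - (w + 1)) / 2 ^ j + 2 ≤ 4 * z := by
    have : ((w : ℝ) + H - (w + 1)) / 2 ^ j ≤ (H : ℝ) / 2 ^ j :=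
      div_le_div_of_nonneg_right (by linarith) hj0.le
    linarith
  have m2 : ((5 : ℝ) * w - (5 * w - H + 1)) / 2 ^ j + 2 ≤ 4 * z := by
    have : ((5 : ℝ) * w - (5 * w - H + 1)) / 2 ^ j ≤ (H : ℝ) / 2 ^ j :=
      div_le_div_of_nonneg_right (by linarith) hj0.le
    linarith
  have m3 : ((d : ℝ) + H - d) / 2 ^ j + 2 ≤ 4 * z := by
    have : ((d : ℝ) + H - d) / 2 ^ j = (H : ℝ) / 2 ^ j := by congr 1; ring
    linarith
  have m4 : ((w : ℝ) - d - (w - d - H + 1)) / 2 ^ j + 2 ≤ 4 * z := by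
    have : ((w : ℝ) - d - (w - d - H + 1)) / 2 ^ j ≤ (H : ℝ) / 2 ^ j :=
      div_le_div_of_nonneg_right (by linarith) hj0.le
    linarith
  have m5 : ((w : ℝ) - 0) / 2 ^ j + 2 ≤ 3 * y := by
    rw [sub_zero]
    linarith
  have m6 : ((7 : ℝ) * w - 0) / 2 ^ j + 2 ≤ 9 * y := by
    have : ((7 : ℝ) * w - 0) / 2 ^ j = 7 * y := by rw [hy']; ring
    linarith
  have hHR : (1 : ℝ) ≤ H := by exact_mod_cast hH0
  have p1 : 0 ≤ ((w : ℝ) + H - (w + 1)) / 2 ^ j + 2 := by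
    have : 0 ≤ ((w : ℝ) + H - (w + 1)) / 2 ^ j := div_nonneg (by linarith) hj0.le
    linarith
  have p2 : 0 ≤ ((5 : ℝ) * w - (5 * w - H + 1)) / 2 ^ j + 2 := by
    have : 0 ≤ ((5 : ℝ) * w - (5 * w - H + 1)) / 2 ^ j := div_nonneg (by linarith) hj0.le
    linarith
  have p3 : 0 ≤ ((d : ℝ) + H - d) / 2 ^ j + 2 := by
    have : 0 ≤ ((d : ℝ) + H - d) / 2 ^ j := div_nonneg (by linarith) hj0.le
    linarith
  have p4 : 0 ≤ ((w : ℝ) - d - (w - d - H + 1)) / 2 ^ j + 2 := by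
    have : 0 ≤ ((w : ℝ) - d - (w - d - H + 1)) / 2 ^ j := div_nonneg (by linarith) hj0.le
    linarith
  have p5 : 0 ≤ ((w : ℝ) - 0) / 2 ^ j + 2 := by
    rw [sub_zero]
    positivity
  have p6 : 0 ≤ ((7 : ℝ) * w - 0) / 2 ^ j + 2 := by
    rw [sub_zero]
    positivity
  have n1 := k1.trans (mul_le_mul m1 m5 p5 (by positivity))
  have n2 := k2.trans (mul_le_mul m2 m5 p5 (by positivity))
  have n3 := k3.trans (mul_le_mul m6 m3 p3 (by positivity))
  have n4 := k4.trans (mul_le_mul m6 m4 p4 (by positivity))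
  have : 96 * z * y = 4 * z * (3 * y) + 4 * z * (3 * y) + (9 * y * (4 * z) + 9 * y * (4 * z)) := by
    ring
  linarith

/-- bound for the square root of the probability that a corner is selected -/
noncomputable def mbB (Cd kd u : ℝ) (w j e : ℕ) : ℝ :=
  Cd * u ^ 2 * (1 + Real.log (w / 2 ^ e)) * Real.exp (-(kd * ((e : ℝ) - j) / u ^ 2))

theorem mbB_pos {Cd kd u : ℝ} (hCd : 1 ≤ Cd) (hu : 1 ≤ u) {w j e : ℕ} (hew : 2 ^ e ≤ w) :
    0 < mbB Cd kd u w j e := by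
  have h : 0 ≤ Real.log ((w : ℝ) / 2 ^ e) := by
    refine Real.log_nonneg ?_
    rw [one_le_div (by positivity)]
    exact_mod_cast hew
  unfold mbB
  positivity

theorem mb_term {Cd kd u : ℝ} (hCd : 1 ≤ Cd) (hkd0 : 0 < kd) (hkd : kd ≤ 1 / 10) (hu : 1 ≤ u)
    {w j e : ℕ} (hje : j ≤ e) (hew : 2 ^ e ≤ w) :
    (2 : ℝ) ^ (e - j) * √(mbB Cd kd u w j e) ≤
      2 * √Cd * u * (w / 2 ^ j) * Real.exp (-(kd / (2 * Real.log 2) * Real.log (w / 2 ^ j) / u ^ 2)) *
        √((2 : ℝ) ^ e / w) := by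
  have hw0 : (0 : ℝ) < w := by
    have : 0 < w := lt_of_lt_of_le (by positivity) hew
    exact_mod_cast this
  have he0 : (0 : ℝ) < 2 ^ e := by positivity
  have hj0 : (0 : ℝ) < 2 ^ j := by positivity
  have hl2 : 0 < Real.log 2 := Real.log_pos (by norm_num)
  have hl2' : (0.69 : ℝ) < Real.log 2 := by linarith [Real.log_two_gt_d9]
  set s : ℝ := Real.log ((w : ℝ) / 2 ^ e) with hs
  set y : ℝ := (w : ℝ) / 2 ^ j with hy
  set kb : ℝ := kd / (2 * Real.log 2) with hkb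
  have hs0 : 0 ≤ s := by
    refine Real.log_nonneg ?_
    rw [one_le_div he0]
    exact_mod_cast hew
  have hy0 : 0 < y := by positivity
  have hkb0 : 0 < kb := by positivity
  have hkb1 : kb ≤ 1 / 4 := by
    rw [hkb, div_le_iff₀ (by positivity)]
    linarith
  have hexp : (2 : ℝ) ^ e / w = Real.exp (-s) := by
    rw [Real.exp_neg, hs, Real.exp_log (by positivity), inv_div]
  have hpow : (2 : ℝ) ^ (e - j) = y * Real.exp (-s) := by
    rw [← hexp, hy, div_mul_div_comm, mul_comm (w : ℝ), mul_div_mul_right _ _ hw0.ne',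
      eq_div_iff hj0.ne', ← pow_add]
    congr 1
    omega
  have hej : ((e : ℝ) - j) * Real.log 2 = Real.log y - s := by
    have h1 : Real.log ((2 : ℝ) ^ (e - j)) = Real.log y + -s := by
      rw [hpow, Real.log_mul hy0.ne' (Real.exp_pos _).ne', Real.log_exp]
    rw [Real.log_pow, Nat.cast_sub hje] at h1
    linarith
  have hu0 : 0 < u := by linarith
  have hu2 : 1 ≤ u ^ 2 := one_le_pow₀ hu
  have h1 : 1 + s ≤ 2 * Real.exp (s / 2) := by
    have := Real.add_one_le_exp (s / 2)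
    linarith
  have h2 : Real.exp (-(kd * ((e : ℝ) - j) / u ^ 2)) ≤
      Real.exp (-(2 * (kb * Real.log y / u ^ 2)) + s / 2) := by
    refine Real.exp_le_exp.2 ?_
    have e1 : kd * ((e : ℝ) - j) = 2 * kb * (Real.log y - s) := by
      rw [← hej, hkb]
      field_simp
    rw [e1]
    have e2 : 2 * kb * s / u ^ 2 ≤ s / 2 := by
      rw [div_le_iff₀ (by positivity)]
      nlinarith [mul_nonneg hs0 (sub_nonneg.2 hu2), mul_nonneg hs0 (sub_nonneg.2 hkb1)]
    have e3 : -(2 * kb * (Real.log y - s) / u ^ 2) = -(2 * (kb * Real.log y / u ^ 2)) + 2 * kb * s / u ^ 2 := by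
      ring
    linarith
  have h3 : mbB Cd kd u w j e ≤
      (√Cd * u * √2 * Real.exp (s / 2) * Real.exp (-(kb * Real.log y / u ^ 2))) ^ 2 := by
    have e0 : (√Cd * u * √2 * Real.exp (s / 2) * Real.exp (-(kb * Real.log y / u ^ 2))) ^ 2
        = Cd * u ^ 2 * (2 * Real.exp (s / 2)) *
          Real.exp (-(2 * (kb * Real.log y / u ^ 2)) + s / 2) := by
      have q1 : √Cd ^ 2 = Cd := Real.sq_sqrt (by linarith)
      have q2 : √(2 : ℝ) ^ 2 = 2 := Real.sq_sqrt (by norm_num)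
      have q3 : Real.exp (-(2 * (kb * Real.log y / u ^ 2)) + s / 2)
          = Real.exp (-(kb * Real.log y / u ^ 2)) ^ 2 * Real.exp (s / 2) := by
        rw [Real.exp_add, ← Real.exp_nat_mul]
        congr 2
        push_cast
        ring
      rw [q3, mul_pow, mul_pow, mul_pow, mul_pow, q1, q2]
      ring
    rw [e0]
    unfold mbB
    have : 0 ≤ 1 + s := by linarith
    gcongr
  have h4 : √(mbB Cd kd u w j e) ≤
      √Cd * u * √2 * Real.exp (s / 2) * Real.exp (-(kb * Real.log y / u ^ 2)) :=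
    Real.sqrt_le_iff.2 ⟨by positivity, h3⟩
  have h5 : √((2 : ℝ) ^ e / w) = Real.exp (-s) * Real.exp (s / 2) := by
    rw [hexp, ← Real.exp_add, Real.sqrt_eq_iff_eq_sq (Real.exp_pos _).le (Real.exp_pos _).le,
      ← Real.exp_nat_mul]
    congr 1
    push_cast
    ring
  have hsq2 : √(2 : ℝ) ≤ 2 := by
    rw [Real.sqrt_le_iff]
    norm_num
  rw [h5, hpow]
  calc y * Real.exp (-s) * √(mbB Cd kd u w j e)
      ≤ y * Real.exp (-s) * (√Cd * u * √2 * Real.exp (s / 2) *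
        Real.exp (-(kb * Real.log y / u ^ 2))) := by gcongr
    _ ≤ y * Real.exp (-s) * (√Cd * u * 2 * Real.exp (s / 2) *
        Real.exp (-(kb * Real.log y / u ^ 2))) := by gcongr
    _ = _ := by ring

theorem mb_geo (n : ℕ) : ∑ e ∈ Finset.range (n + 1), √((2 : ℝ) ^ e) ≤ 4 * √((2 : ℝ) ^ n) := by
  induction n with
  | zero => norm_num
  | succ n ih =>
    rw [Finset.sum_range_succ]
    have h : √((2 : ℝ) ^ (n + 1)) = √2 * √((2 : ℝ) ^ n) := by
      rw [pow_succ', Real.sqrt_mul (by norm_num)]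
    have h2 : (4 : ℝ) / 3 ≤ √2 := by
      rw [Real.le_sqrt (by norm_num) (by norm_num)]
      norm_num
    have h3 : 0 ≤ √((2 : ℝ) ^ n) := Real.sqrt_nonneg _
    rw [h] at *
    nlinarith

theorem mb_small {w d e : ℕ} {c : ℤ × ℤ} (h : ball c (2 ^ e) ⊆ rect (w + 1) (5 * w) d (w - d)) :
    2 ^ e ≤ w := by
  have h0 : (0 : ℤ) < 2 ^ e := by positivity
  have h1 : (c.1, c.2 - 2 ^ e) ∈ ball c (2 ^ e) := by
    simp only [ball, rect, Finset.mem_product, Finset.mem_Icc]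
    constructor <;> constructor <;> linarith
  have h2 : (c.1, c.2 + 2 ^ e) ∈ ball c (2 ^ e) := by
    simp only [ball, rect, Finset.mem_product, Finset.mem_Icc]
    constructor <;> constructor <;> linarith
  have h1' := h h1
  have h2' := h h2
  simp only [rect, Finset.mem_product, Finset.mem_Icc] at h1' h2'
  have : (2 : ℤ) ^ e ≤ w := by linarith [h1'.2.1, h2'.2.2]
  exact_mod_cast this

open Classical in
/-- the scale of a corner -/
noncomputable def mbe (w d : ℕ) (c : ℤ × ℤ) : ℕ :=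
  Nat.findGreatest (fun e => ball c (2 ^ e) ⊆ rect (w + 1) (5 * w) d (w - d)) w

theorem mbe_facts {w d j : ℕ} {c : ℤ × ℤ}
    (h : ball c (256 * 2 ^ j) ⊆ rect (w + 1) (5 * w) d (w - d)) :
    j ≤ mbe w d c ∧ ball c (2 ^ mbe w d c) ⊆ rect (w + 1) (5 * w) d (w - d) ∧
      ¬ ball c (2 ^ (mbe w d c + 1)) ⊆ rect (w + 1) (5 * w) d (w - d) ∧ 2 ^ mbe w d c ≤ w := by
  classical
  have h8 : ball c (2 ^ (j + 8)) ⊆ rect (w + 1) (5 * w) d (w - d) := by
    have e : (2 : ℤ) ^ (j + 8) = 256 * 2 ^ j := by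
      rw [pow_add]
      norm_num
      ring
    rw [e]
    exact h
  have hjw : j + 8 ≤ w := (Nat.lt_two_pow_self).le.trans (mb_small h8)
  have h1 : j + 8 ≤ mbe w d c := by
    unfold mbe
    exact Nat.le_findGreatest hjw h8
  have h2 : ball c (2 ^ mbe w d c) ⊆ rect (w + 1) (5 * w) d (w - d) := by
    unfold mbe
    exact Nat.findGreatest_spec (P := fun e => ball c (2 ^ e) ⊆ rect (w + 1) (5 * w) d (w - d)) hjw h8
  refine ⟨by omega, h2, ?_, mb_small h2⟩
  intro h3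
  by_cases h4 : mbe w d c + 1 ≤ w
  · unfold mbe at h3 h4
    exact Nat.findGreatest_is_greatest (P := fun e => ball c (2 ^ e) ⊆ rect (w + 1) (5 * w) d (w - d))
      (Nat.lt_succ_self _) h4 h3
  · have h5 := mb_small h3
    have h6 : mbe w d c + 1 < 2 ^ (mbe w d c + 1) := Nat.lt_two_pow_self
    omega

open Classical in
/-- square root of the bound for the probability of the corner `c` -/
noncomputable def mbb (Cd kd u : ℝ) (w d j : ℕ) (c : ℤ × ℤ) : ℝ :=
  if ball c (256 * 2 ^ j) ⊆ rect (w + 1) (5 * w) d (w - d) then √(mbB Cd kd u w j (mbe w d c)) else 0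

theorem mbb_nonneg (Cd kd u : ℝ) (w d j : ℕ) (c : ℤ × ℤ) : 0 ≤ mbb Cd kd u w d j c := by
  unfold mbb
  split_ifs
  · exact Real.sqrt_nonneg _
  · exact le_rfl

theorem mb_bsum {Cd kd u : ℝ} (hCd : 1 ≤ Cd) (hkd0 : 0 < kd) (hkd : kd ≤ 1 / 10) (hu : 1 ≤ u)
    {w d j : ℕ} (hd : 1 ≤ d) (hw : 2 * d + 1 ≤ w) (hjw : 2 ^ j ≤ w) :
    ∑ c ∈ mbC w j, mbb Cd kd u w d j c ≤ 768 * √Cd * u * (w / 2 ^ j) ^ 2 *
      Real.exp (-(kd / (2 * Real.log 2) * Real.log (w / 2 ^ j) / u ^ 2)) := by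
  classical
  have hw0 : 0 < w := by omega
  have hwr : (0 : ℝ) < w := by exact_mod_cast hw0
  set y : ℝ := (w : ℝ) / 2 ^ j with hy
  have hy0 : 0 < y := by positivity
  set X : ℝ := Real.exp (-(kd / (2 * Real.log 2) * Real.log y / u ^ 2)) with hX
  have hX0 : 0 < X := Real.exp_pos _
  have hu0 : 0 < u := by linarith
  set S : Finset ℕ := (Finset.range (Nat.log 2 w + 1)).filter (fun e => j ≤ e) with hS
  set G : Finset (ℤ × ℤ) := (mbC w j).filter
    (fun c => ball c (256 * 2 ^ j) ⊆ rect (w + 1) (5 * w) d (w - d)) with hG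
  have hmap : ∀ c ∈ G, mbe w d c ∈ S := by
    intro c hc
    obtain ⟨h1, h2, h3, h4⟩ := mbe_facts (Finset.mem_filter.1 hc).2
    refine Finset.mem_filter.2 ⟨Finset.mem_range.2 ?_, h1⟩
    have := (Nat.le_log_iff_pow_le (by norm_num) hw0.ne').2 h4
    omega
  have h1 : ∑ c ∈ mbC w j, mbb Cd kd u w d j c = ∑ c ∈ G, √(mbB Cd kd u w j (mbe w d c)) := by
    rw [hG, Finset.sum_filter]
    rfl
  have h2 : ∑ c ∈ G, √(mbB Cd kd u w j (mbe w d c))
      = ∑ e ∈ S, ∑ c ∈ G.filter (fun c => mbe w d c = e), √(mbB Cd kd u w j (mbe w d c)) :=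
    (Finset.sum_fiberwise_of_maps_to hmap _).symm
  have h3 : ∀ e ∈ S, ∑ c ∈ G.filter (fun c => mbe w d c = e), √(mbB Cd kd u w j (mbe w d c))
      ≤ 192 * √Cd * u * y ^ 2 * X * (√((2 : ℝ) ^ e) / √(w : ℝ)) := by
    intro e he
    obtain ⟨he1, hje⟩ := Finset.mem_filter.1 he
    have hew : 2 ^ e ≤ w := by
      rw [← Nat.le_log_iff_pow_le (by norm_num) hw0.ne']
      have := Finset.mem_range.1 he1
      omega
    have g1 : ∑ c ∈ G.filter (fun c => mbe w d c = e), √(mbB Cd kd u w j (mbe w d c))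
        = (G.filter (fun c => mbe w d c = e)).card * √(mbB Cd kd u w j e) := by
      rw [← nsmul_eq_mul, ← Finset.sum_const]
      refine Finset.sum_congr rfl fun c hc => ?_
      rw [(Finset.mem_filter.1 hc).2]
    have g2 : ((G.filter (fun c => mbe w d c = e)).card : ℝ) ≤ 96 * (2 : ℝ) ^ (e - j) * y := by
      refine le_trans ?_ (mb_strip hd hw hjw hje)
      have hsub : G.filter (fun c => mbe w d c = e) ⊆ (mbC w j).filter (fun c =>
          ball c (2 ^ e) ⊆ rect (w + 1) (5 * w) d (w - d) ∧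
          ¬ ball c (2 ^ (e + 1)) ⊆ rect (w + 1) (5 * w) d (w - d)) := by
        intro c hc
        obtain ⟨hc1, hc2⟩ := Finset.mem_filter.1 hc
        obtain ⟨hc3, hc4⟩ := Finset.mem_filter.1 hc1
        obtain ⟨q1, q2, q3, q4⟩ := mbe_facts hc4
        rw [hc2] at q2 q3
        exact Finset.mem_filter.2 ⟨hc3, q2, q3⟩
      exact_mod_cast Finset.card_le_card hsub
    rw [g1]
    have g3 := mb_term hCd hkd0 hkd hu hje hew
    rw [Real.sqrt_div (by positivity)] at g3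
    calc ((G.filter (fun c => mbe w d c = e)).card : ℝ) * √(mbB Cd kd u w j e)
        ≤ (96 * (2 : ℝ) ^ (e - j) * y) * √(mbB Cd kd u w j e) :=
          mul_le_mul_of_nonneg_right g2 (Real.sqrt_nonneg _)
      _ = 96 * y * ((2 : ℝ) ^ (e - j) * √(mbB Cd kd u w j e)) := by ring
      _ ≤ 96 * y * (2 * √Cd * u * y * X * (√((2 : ℝ) ^ e) / √(w : ℝ))) :=
          mul_le_mul_of_nonneg_left g3 (by positivity)
      _ = _ := by ring
  rw [h1, h2]
  refine (Finset.sum_le_sum h3).trans ?_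
  rw [← Finset.mul_sum, ← Finset.sum_div]
  have h4 : ∑ e ∈ S, √((2 : ℝ) ^ e) ≤ 4 * √(w : ℝ) := by
    have k1 : ∑ e ∈ S, √((2 : ℝ) ^ e) ≤ ∑ e ∈ Finset.range (Nat.log 2 w + 1), √((2 : ℝ) ^ e) :=
      Finset.sum_le_sum_of_subset_of_nonneg (Finset.filter_subset _ _)
        fun _ _ _ => Real.sqrt_nonneg _
    refine k1.trans ((mb_geo _).trans ?_)
    refine mul_le_mul_of_nonneg_left (Real.sqrt_le_sqrt ?_) (by norm_num)
    exact_mod_cast Nat.pow_log_le_self 2 hw0.ne'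
  have h5 : (∑ e ∈ S, √((2 : ℝ) ^ e)) / √(w : ℝ) ≤ 4 := by
    rw [div_le_iff₀ (Real.sqrt_pos.2 hwr)]
    exact h4
  calc 192 * √Cd * u * y ^ 2 * X * ((∑ e ∈ S, √((2 : ℝ) ^ e)) / √(w : ℝ))
      ≤ 192 * √Cd * u * y ^ 2 * X * 4 := by gcongr
    _ = 768 * √Cd * u * y ^ 2 * X := by ring


theorem mb_V {kap : ℝ} (hk : 0 < kap) : ∃ V : ℝ, 0 < V ∧
    (∀ L : ℕ, ∑ l ∈ Finset.range L, (2 : ℝ) ^ (-(kap * l)) ≤ V) ∧
    ∀ L : ℕ, ∑ l ∈ Finset.range L, (2 : ℝ) ^ (-(kap * l)) * (3 + (l : ℝ)) ^ 2 ≤ V := by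
  set θ : ℝ := (2 : ℝ) ^ (-kap) with hθ
  have hθ0 : 0 < θ := by positivity
  have hθ1 : θ < 1 := Real.rpow_lt_one_of_one_lt_of_neg (by norm_num) (by linarith)
  have hθn : ‖θ‖ < 1 := by rwa [Real.norm_of_nonneg hθ0.le]
  have hp : ∀ l : ℕ, (2 : ℝ) ^ (-(kap * l)) = θ ^ l := by
    intro l
    rw [hθ, ← Real.rpow_natCast, ← Real.rpow_mul (by norm_num)]
    congr 1
    ring
  have hs : Summable fun l : ℕ => (2 : ℝ) ^ (-(kap * l)) * (3 + (l : ℝ)) ^ 2 := by
    have h0 := summable_geometric_of_norm_lt_one hθn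
    have h1 := summable_pow_mul_geometric_of_norm_lt_one 1 hθn
    have h2 := summable_pow_mul_geometric_of_norm_lt_one 2 hθn
    refine (((h0.mul_left 9).add (h1.mul_left 6)).add h2).congr fun l => ?_
    rw [hp]
    ring
  have hb : ∀ L : ℕ, ∑ l ∈ Finset.range L, (2 : ℝ) ^ (-(kap * l)) * (3 + (l : ℝ)) ^ 2 ≤
      ∑' l : ℕ, (2 : ℝ) ^ (-(kap * l)) * (3 + (l : ℝ)) ^ 2 := fun L =>
    hs.sum_le_tsum _ fun l _ => by positivity
  refine ⟨∑' l : ℕ, (2 : ℝ) ^ (-(kap * l)) * (3 + (l : ℝ)) ^ 2, ?_, fun L => ?_, hb⟩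
  · have := hb 1
    simp only [Finset.sum_range_one, Nat.cast_zero, mul_zero, neg_zero, Real.rpow_zero] at this
    linarith
  · refine le_trans (Finset.sum_le_sum fun l _ => ?_) (hb L)
    have h1 : (1 : ℝ) ≤ (3 + (l : ℝ)) ^ 2 := by
      have : (0 : ℝ) ≤ l := Nat.cast_nonneg l
      nlinarith
    exact le_mul_of_one_le_right (by positivity) h1

theorem mb_log {w j l : ℕ} {lam : ℝ} (hlam : 1 ≤ lam) (hw : 3 ≤ w) (hjw : 2 ^ j ≤ w) :
    0 ≤ lam ^ 2 + 1 + Real.log (7 * w / (((2 ^ (j + 1) / 2 ^ (l + 1) : ℕ) : ℝ) + 1)) ∧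
      lam ^ 2 + 1 + Real.log (7 * w / (((2 ^ (j + 1) / 2 ^ (l + 1) : ℕ) : ℝ) + 1)) ≤
        (3 + (l : ℝ)) * (lam ^ 2 + 1 + Real.log (w / 2 ^ j)) := by
  set n : ℕ := 2 ^ (j + 1) / 2 ^ (l + 1) with hn
  have hwr : (3 : ℝ) ≤ w := by exact_mod_cast hw
  have hn1 : n ≤ w := by
    refine le_trans ?_ hjw
    have h1 : n ≤ 2 ^ (j + 1) / 2 := Nat.div_le_div_left (by
      calc 2 = 2 ^ 1 := rfl
        _ ≤ 2 ^ (l + 1) := Nat.pow_le_pow_right (by norm_num) (by omega)) (by norm_num)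
    rw [pow_succ, Nat.mul_div_cancel _ (by norm_num)] at h1
    exact h1
  have hn1' : (n : ℝ) ≤ w := by exact_mod_cast hn1
  have hn0 : (0 : ℝ) ≤ n := Nat.cast_nonneg n
  have hy : (1 : ℝ) ≤ (w : ℝ) / 2 ^ j := by
    rw [one_le_div (by positivity)]
    exact_mod_cast hjw
  have hly : 0 ≤ Real.log ((w : ℝ) / 2 ^ j) := Real.log_nonneg hy
  have hl0 : 0 ≤ Real.log (7 * w / ((n : ℝ) + 1)) := by
    refine Real.log_nonneg ?_
    rw [one_le_div (by positivity)]
    linarith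
  have hlam2 : 1 ≤ lam ^ 2 := one_le_pow₀ hlam
  refine ⟨by positivity, ?_⟩
  have h2 : (2 : ℝ) ^ j ≤ 2 ^ l * ((n : ℝ) + 1) := by
    have h3 : 2 ^ (j + 1) < 2 ^ (l + 1) * (n + 1) := Nat.lt_mul_div_succ _ (by positivity)
    have h4 : 2 ^ j < 2 ^ l * (n + 1) := by
      have e1 : 2 ^ (j + 1) = 2 * 2 ^ j := by ring
      have e2 : 2 ^ (l + 1) * (n + 1) = 2 * (2 ^ l * (n + 1)) := by ring
      rw [e1, e2] at h3
      omega
    exact_mod_cast h4.le
  have h5 : 7 * (w : ℝ) / ((n : ℝ) + 1) ≤ 7 * (w / 2 ^ j) * 2 ^ l := by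
    rw [div_le_iff₀ (by positivity)]
    have : 7 * ((w : ℝ) / 2 ^ j) * 2 ^ l * ((n : ℝ) + 1) = 7 * (w / 2 ^ j) * (2 ^ l * ((n : ℝ) + 1)) := by
      ring
    rw [this]
    calc 7 * (w : ℝ) = 7 * (w / 2 ^ j) * 2 ^ j := by field_simp
      _ ≤ _ := by gcongr
  have h6 : Real.log (7 * w / ((n : ℝ) + 1)) ≤ 2 + Real.log (w / 2 ^ j) + l := by
    refine (Real.log_le_log (by positivity) h5).trans ?_
    rw [Real.log_mul (by positivity) (by positivity), Real.log_mul (by norm_num) (by positivity),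
      Real.log_pow]
    have h7 : Real.log 7 ≤ 2 := by
      rw [Real.log_le_iff_le_exp (by norm_num)]
      have : Real.exp 2 = Real.exp 1 * Real.exp 1 := by
        rw [← Real.exp_add]
        norm_num
      rw [this]
      have := Real.exp_one_gt_d9
      nlinarith
    have h8 : (l : ℝ) * Real.log 2 ≤ l := by
      have h9 : Real.log 2 ≤ 1 := by linarith [Real.log_two_lt_d9]
      have : (0 : ℝ) ≤ l := Nat.cast_nonneg l
      nlinarith
    linarith
  have hl : (0 : ℝ) ≤ l := Nat.cast_nonneg l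
  nlinarith [mul_nonneg hl hly, mul_nonneg hl (show (0 : ℝ) ≤ lam ^ 2 by positivity)]

set_option maxHeartbeats 2000000 in
theorem _root_.H941.mom_box (kap : ℝ) (hk : 0 < kap) (hk1 : kap ≤ 1) : ∃ C kb : ℝ, 0 < C ∧ 0 < kb ∧ ∀ (u Kh q lam t : ℝ) (w d j m T : ℕ),
    1 ≤ u → 1 ≤ Kh → 0 ≤ q → q ≤ 1 / 64 → 1 ≤ d → 2 * d + 1 ≤ w → 1 ≤ lam → 0 < t → 2 ^ j ≤ w → 1 ≤ m → (m : ℝ) ≤ 2 * (512 * Kh) * 2 ^ j →
    (∀ w' : ℕ, 128 ≤ w' → w' < w → HypA u Kh q w') →
    gf (Dw w) (Dw w) {x | t ≤ Real.sqrt (m * Yb kap w d lam (512 * Kh) (extf (Dw w) x) j m T)} ≤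
      ENNReal.ofReal (C * w ^ 4 * Kh ^ 4 * u * (lam ^ 2 + 1 + Real.log (w / 2 ^ j)) ^ 2 *
        Real.exp (-(kb * Real.log (w / 2 ^ j) / u ^ 2)) / t ^ 4) := by
  classical
  obtain ⟨C, hC, hwin⟩ := win_mom
  obtain ⟨Cd, kd0, hCd, hkd0, hden⟩ := density
  obtain ⟨V, hV0, hV1, hV2⟩ := mb_V hk
  set kd : ℝ := min kd0 (1 / 10) with hkd
  have hkdp : 0 < kd := lt_min hkd0 (by norm_num)
  have hkd1 : kd ≤ 1 / 10 := min_le_right _ _
  have hkd2 : kd ≤ kd0 := min_le_left _ _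
  have hl2 : 0 < Real.log 2 := Real.log_pos (by norm_num)
  have hsC : 0 < √C := Real.sqrt_pos.2 hC
  have hsCd : 0 < √Cd := Real.sqrt_pos.2 (by linarith)
  refine ⟨4 * 1024 ^ 4 * 27 * 2401 * V ^ 4 * √C * (768 * √Cd), kd / (2 * Real.log 2), by positivity,
    by positivity, ?_⟩
  intro u Kh q lam t w d j m T hu hKh hq0 hq1 hd hw hlam ht hjw hm hmK hHyp
  have hw3 : 3 ≤ w := by omega
  set μ := gf (Dw w) (Dw w) with hμ
  set Kp : ℝ := 512 * Kh with hKp
  set y : ℝ := (w : ℝ) / 2 ^ j with hy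
  set X : ℝ := lam ^ 2 + 1 + Real.log y with hX
  set R : ℕ := 2 ^ (j + 1) with hR
  have hy1 : 1 ≤ y := by
    rw [hy, one_le_div (by positivity)]
    exact_mod_cast hjw
  have hX0 : 0 < X := by
    have := Real.log_nonneg hy1
    positivity
  have hu0 : 0 < u := by linarith
  have hRr : (0 : ℝ) < R := by
    rw [hR]
    positivity
  have hR1 : 1 ≤ R := Nat.one_le_two_pow
  -- the function with small integral
  set I0 : ℕ → ℤ × ℤ → ℕ → ℤ × ℤ → EuclideanSpace ℝ (Dw w : Finset (ℤ × ℤ)) → ℝ :=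
    fun k c l v x => Set.indicator (mbG w d lam Kp j m k c v (R / 2 ^ (l + 1)))
          (fun x => mbF w d lam k v x ^ 4) x with hI0
  have hI0int : ∀ k c l v, Integrable (I0 k c l v) μ := fun k c l v =>
    (mb_F_int4 hd hw lam k v).indicator (mbG_meas w d lam Kp j m k c v _)
  have hI0nn : ∀ k c l v x, 0 ≤ I0 k c l v x := fun k c l v x =>
    Set.indicator_nonneg (fun _ _ => by positivity) _
  set Z : EuclideanSpace ℝ (Dw w : Finset (ℤ × ℤ)) → ℝ := fun x =>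
    (m : ℝ) ^ 2 * (((mbC w j).card * (m + 1)) *
      ∑ k ∈ Finset.range T, ∑ c ∈ mbC w j, V ^ 3 * ∑ l ∈ Finset.range (j + 3), (2 : ℝ) ^ (-(kap * l)) *
      (49 / (R : ℝ) ^ 2 * ∑ v ∈ ball c (2 * (R : ℤ) + 1), I0 k c l v x)) with hZ
  have hZnn : ∀ x, 0 ≤ Z x := by
    intro x
    have h1 : ∀ k c l, 0 ≤ ∑ v ∈ ball c (2 * (R : ℤ) + 1), I0 k c l v x := fun k c l =>
      Finset.sum_nonneg fun v _ => hI0nn k c l v x
    refine mul_nonneg (by positivity) (mul_nonneg (by positivity)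
      (Finset.sum_nonneg fun k _ => Finset.sum_nonneg fun c _ => mul_nonneg (by positivity)
        (Finset.sum_nonneg fun l _ => ?_)))
    have := h1 k c l
    positivity
  have hZint : Integrable Z μ :=
    ((integrable_finset_sum _ fun k _ => integrable_finset_sum _ fun c _ =>
      (integrable_finset_sum _ fun l _ => ((integrable_finset_sum _ fun v _ =>
        hI0int k c l v).const_mul _).const_mul _).const_mul _).const_mul _).const_mul _
  have hZval : ∫ x, Z x ∂μ = (m : ℝ) ^ 2 * (((mbC w j).card * (m + 1)) *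
      ∑ k ∈ Finset.range T, ∑ c ∈ mbC w j, V ^ 3 * ∑ l ∈ Finset.range (j + 3), (2 : ℝ) ^ (-(kap * l)) *
      (49 / (R : ℝ) ^ 2 * ∑ v ∈ ball c (2 * (R : ℤ) + 1), ∫ x, I0 k c l v x ∂μ)) := by
    rw [hZ]
    simp only
    rw [integral_const_mul, integral_const_mul, integral_finset_sum _ (fun k _ =>
      integrable_finset_sum _ fun c _ =>
      (integrable_finset_sum _ fun l _ => ((integrable_finset_sum _ fun v _ =>
        hI0int k c l v).const_mul _).const_mul _).const_mul _)]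
    congr 2
    refine Finset.sum_congr rfl fun k _ => ?_
    rw [integral_finset_sum _ (fun c _ =>
      (integrable_finset_sum _ fun l _ => ((integrable_finset_sum _ fun v _ =>
        hI0int k c l v).const_mul _).const_mul _).const_mul _)]
    refine Finset.sum_congr rfl fun c _ => ?_
    rw [integral_const_mul, integral_finset_sum _ (fun l _ => ((integrable_finset_sum _ fun v _ =>
        hI0int k c l v).const_mul _).const_mul _)]
    congr 1
    refine Finset.sum_congr rfl fun l _ => ?_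
    rw [integral_const_mul, integral_const_mul, integral_finset_sum _ (fun v _ => hI0int k c l v)]
  -- one term
  have hone : ∀ c l v, ∑ k ∈ Finset.range T, ∫ x, I0 k c l v x ∂μ ≤
      (m + 1) * (mbb Cd kd u w d j c * √C * ((3 + (l : ℝ)) * X) ^ 2) := by
    intro c l v
    by_cases hgood : ball c (256 * 2 ^ j) ⊆ rect (w + 1) (5 * w) d (w - d)
    · obtain ⟨e1, e2, e3, e4⟩ := mbe_facts hgood
      have hbb : mbb Cd kd u w d j c = √(mbB Cd kd u w j (mbe w d c)) := by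
        unfold mbb
        rw [if_pos hgood]
      rw [hbb]
      refine mb_one hC hwin hd hw j m T (R / 2 ^ (l + 1)) c v (mbB_pos hCd hu e4) ?_ (by positivity)
        (fun _ => mb_log hlam hw3 hjw)
      refine le_trans (measure_mono ?_) ((hden u Kh q lam w d j (mbe w d c) c hu hq0 hq1 hd hw hHyp e2 e1).trans
        (ENNReal.ofReal_le_ofReal ?_))
      · rintro x ⟨⟨k, z, hz, hzc⟩, hs1, hs2⟩
        refine ⟨⟨k, z, hz, ?_⟩, hs2⟩
        have h1 : (2 : ℤ) ^ j * (z.1 / 2 ^ j) = c.1 := congrArg Prod.fst hzc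
        have h2 : (2 : ℤ) ^ j * (z.2 / 2 ^ j) = c.2 := congrArg Prod.snd hzc
        have h3 := Int.emod_add_mul_ediv z.1 (2 ^ j)
        have h4 := Int.emod_add_mul_ediv z.2 (2 ^ j)
        have hp : (0 : ℤ) < 2 ^ j := by positivity
        have h5 := Int.emod_nonneg z.1 hp.ne'
        have h6 := Int.emod_nonneg z.2 hp.ne'
        have h7 := Int.emod_lt_of_pos z.1 hp
        have h8 := Int.emod_lt_of_pos z.2 hp
        simp only [ball, rect, Finset.mem_product, Finset.mem_Icc]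
        rw [h1] at h3
        rw [h2] at h4
        constructor <;> constructor <;> linarith
      · unfold mbB
        have hlog : 0 ≤ Real.log ((w : ℝ) / 2 ^ mbe w d c) := by
          refine Real.log_nonneg ?_
          rw [one_le_div (by positivity)]
          exact_mod_cast e4
        have hej : (0 : ℝ) ≤ (mbe w d c : ℝ) - j := by
          have : (j : ℝ) ≤ mbe w d c := by exact_mod_cast e1
          linarith
        gcongr
    · have h0 : ∀ k, I0 k c l v = fun _ => 0 := by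
        intro k
        funext x
        simp only [hI0]
        rw [Set.indicator_of_notMem]
        exact fun h => hgood h.2.1.1.1
      simp only [h0, integral_zero, Finset.sum_const_zero]
      have hb0 := mbb_nonneg Cd kd u w d j c
      have hm0 : (0 : ℝ) ≤ m + 1 := by
        have : (0 : ℝ) ≤ m := Nat.cast_nonneg m
        linarith
      exact mul_nonneg hm0 (mul_nonneg (mul_nonneg hb0 hsC.le) (sq_nonneg _))
  -- reorder
  have hreorder : ∑ k ∈ Finset.range T, ∑ c ∈ mbC w j, V ^ 3 * ∑ l ∈ Finset.range (j + 3), (2 : ℝ) ^ (-(kap * l)) *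
      (49 / (R : ℝ) ^ 2 * ∑ v ∈ ball c (2 * (R : ℤ) + 1), ∫ x, I0 k c l v x ∂μ) =
      ∑ c ∈ mbC w j, V ^ 3 * ∑ l ∈ Finset.range (j + 3), (2 : ℝ) ^ (-(kap * l)) *
      (49 / (R : ℝ) ^ 2 * ∑ v ∈ ball c (2 * (R : ℤ) + 1), ∑ k ∈ Finset.range T, ∫ x, I0 k c l v x ∂μ) := by
    rw [Finset.sum_comm]
    refine Finset.sum_congr rfl fun c _ => ?_
    rw [← Finset.mul_sum]
    congr 1
    rw [Finset.sum_comm]
    refine Finset.sum_congr rfl fun l _ => ?_
    rw [← Finset.mul_sum, ← Finset.mul_sum]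
    congr 2
    rw [Finset.sum_comm]
  -- the bound for the integral
  have hE0 : 0 < Real.exp (-(kd / (2 * Real.log 2) * Real.log y / u ^ 2)) := Real.exp_pos _
  set EE : ℝ := Real.exp (-(kd / (2 * Real.log 2) * Real.log y / u ^ 2)) with hEE
  have hsum : ∑ c ∈ mbC w j, V ^ 3 * ∑ l ∈ Finset.range (j + 3), (2 : ℝ) ^ (-(kap * l)) *
      (49 / (R : ℝ) ^ 2 * ∑ v ∈ ball c (2 * (R : ℤ) + 1), ∑ k ∈ Finset.range T, ∫ x, I0 k c l v x ∂μ) ≤
      2401 * V ^ 4 * (m + 1) * √C * X ^ 2 * (768 * √Cd * u * y ^ 2 * EE) := by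
    have h1 : ∀ c ∈ mbC w j, V ^ 3 * ∑ l ∈ Finset.range (j + 3), (2 : ℝ) ^ (-(kap * l)) *
      (49 / (R : ℝ) ^ 2 * ∑ v ∈ ball c (2 * (R : ℤ) + 1), ∑ k ∈ Finset.range T, ∫ x, I0 k c l v x ∂μ) ≤
      2401 * V ^ 4 * (m + 1) * √C * X ^ 2 * mbb Cd kd u w d j c := by
      intro c _
      have hb0 := mbb_nonneg Cd kd u w d j c
      have h2 : ∀ l ∈ Finset.range (j + 3), (2 : ℝ) ^ (-(kap * l)) *
          (49 / (R : ℝ) ^ 2 * ∑ v ∈ ball c (2 * (R : ℤ) + 1), ∑ k ∈ Finset.range T, ∫ x, I0 k c l v x ∂μ) ≤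
          (2401 * (m + 1) * √C * X ^ 2 * mbb Cd kd u w d j c) *
            ((2 : ℝ) ^ (-(kap * l)) * (3 + (l : ℝ)) ^ 2) := by
        intro l _
        have h3 : ∑ v ∈ ball c (2 * (R : ℤ) + 1), ∑ k ∈ Finset.range T, ∫ x, I0 k c l v x ∂μ ≤
            (49 * (R : ℝ) ^ 2) * ((m + 1) * (mbb Cd kd u w d j c * √C * ((3 + (l : ℝ)) * X) ^ 2)) := by
          refine (Finset.sum_le_sum fun v _ => hone c l v).trans ?_
          rw [Finset.sum_const, nsmul_eq_mul]
          exact mul_le_mul_of_nonneg_right (mb_ball_card_le c hR1) (by positivity)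
        calc (2 : ℝ) ^ (-(kap * l)) *
            (49 / (R : ℝ) ^ 2 * ∑ v ∈ ball c (2 * (R : ℤ) + 1), ∑ k ∈ Finset.range T, ∫ x, I0 k c l v x ∂μ)
            ≤ (2 : ℝ) ^ (-(kap * l)) * (49 / (R : ℝ) ^ 2 * ((49 * (R : ℝ) ^ 2) *
              ((m + 1) * (mbb Cd kd u w d j c * √C * ((3 + (l : ℝ)) * X) ^ 2)))) := by gcongr
          _ = _ := by
            field_simp
            ring
      have h4 : ∑ l ∈ Finset.range (j + 3), (2 : ℝ) ^ (-(kap * l)) *
          (49 / (R : ℝ) ^ 2 * ∑ v ∈ ball c (2 * (R : ℤ) + 1), ∑ k ∈ Finset.range T, ∫ x, I0 k c l v x ∂μ) ≤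
          (2401 * (m + 1) * √C * X ^ 2 * mbb Cd kd u w d j c) * V := by
        refine (Finset.sum_le_sum h2).trans ?_
        rw [← Finset.mul_sum]
        exact mul_le_mul_of_nonneg_left (hV2 _) (by positivity)
      calc V ^ 3 * _ ≤ V ^ 3 * ((2401 * (m + 1) * √C * X ^ 2 * mbb Cd kd u w d j c) * V) :=
            mul_le_mul_of_nonneg_left h4 (by positivity)
        _ = _ := by ring
    refine (Finset.sum_le_sum h1).trans ?_
    rw [← Finset.mul_sum]
    exact mul_le_mul_of_nonneg_left (mb_bsum hCd hkdp hkd1 hu hd hw hjw) (by positivity)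
  have hmr : (1 : ℝ) ≤ m := by exact_mod_cast hm
  have hN := mb_C_card (w := w) (j := j) hjw
  have hZle : ∫ x, Z x ∂μ ≤ 4 * 1024 ^ 4 * 27 * 2401 * V ^ 4 * √C * (768 * √Cd) * w ^ 4 * Kh ^ 4 * u *
      X ^ 2 * EE := by
    rw [hZval, hreorder]
    have hwy : (w : ℝ) = 2 ^ j * y := by
      rw [hy]
      field_simp
    calc (m : ℝ) ^ 2 * (((mbC w j).card * (m + 1)) * _)
        ≤ (m : ℝ) ^ 2 * (((27 * y ^ 2) * (m + 1)) *
          (2401 * V ^ 4 * (m + 1) * √C * X ^ 2 * (768 * √Cd * u * y ^ 2 * EE))) := by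
          refine mul_le_mul_of_nonneg_left ?_ (by positivity)
          refine mul_le_mul (mul_le_mul_of_nonneg_right hN (by positivity)) hsum ?_ (by positivity)
          refine Finset.sum_nonneg fun c _ => mul_nonneg (by positivity)
            (Finset.sum_nonneg fun l _ => mul_nonneg (by positivity) (mul_nonneg (by positivity)
              (Finset.sum_nonneg fun v _ => Finset.sum_nonneg fun k _ =>
                integral_nonneg fun x => hI0nn k c l v x)))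
      _ = ((m : ℝ) * (m + 1)) ^ 2 * (27 * 2401 * V ^ 4 * √C * (768 * √Cd) * y ^ 4 * u * X ^ 2 * EE) := by
          ring
      _ ≤ (2 * (1024 * Kh * 2 ^ j) ^ 2) ^ 2 *
          (27 * 2401 * V ^ 4 * √C * (768 * √Cd) * y ^ 4 * u * X ^ 2 * EE) := by
          refine mul_le_mul_of_nonneg_right ?_ (by positivity)
          refine pow_le_pow_left₀ (by positivity) ?_ 2
          have h1 : (m : ℝ) ≤ 1024 * Kh * 2 ^ j := by linarith
          have h2 : (m : ℝ) * (m + 1) ≤ 2 * (m : ℝ) ^ 2 := by nlinarith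
          have h3 : (m : ℝ) ^ 2 ≤ (1024 * Kh * 2 ^ j) ^ 2 := pow_le_pow_left₀ (by positivity) h1 2
          linarith
      _ = _ := by
          rw [hwy]
          ring
  -- Markov
  have hmark := mul_meas_ge_le_integral_of_nonneg (μ := μ) (f := Z)
    (Filter.Eventually.of_forall hZnn) hZint (t ^ 4)
  have hsub : {x : EuclideanSpace ℝ (Dw w : Finset (ℤ × ℤ)) |
      t ≤ Real.sqrt (m * Yb kap w d lam Kp (extf (Dw w) x) j m T)} ⊆ {x | t ^ 4 ≤ Z x} := by
    intro x hx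
    have hx' : t ≤ Real.sqrt (m * Yb kap w d lam Kp (extf (Dw w) x) j m T) := hx
    have h1 : t ^ 2 ≤ m * Yb kap w d lam Kp (extf (Dw w) x) j m T := by
      have h2 : 0 < m * Yb kap w d lam Kp (extf (Dw w) x) j m T :=
        Real.sqrt_pos.1 (lt_of_lt_of_le ht hx')
      rw [← Real.sq_sqrt h2.le]
      exact pow_le_pow_left₀ ht.le hx' 2
    have h3 : t ^ 4 ≤ (m : ℝ) ^ 2 * Yb kap w d lam Kp (extf (Dw w) x) j m T ^ 2 := by
      calc t ^ 4 = (t ^ 2) ^ 2 := by ring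
        _ ≤ (m * Yb kap w d lam Kp (extf (Dw w) x) j m T) ^ 2 :=
            pow_le_pow_left₀ (by positivity) h1 2
        _ = _ := by ring
    refine h3.trans ?_
    exact mul_le_mul_of_nonneg_left (mb_point V hV1 w d lam Kp j m T x) (by positivity)
  have ht4 : 0 < t ^ 4 := by positivity
  calc μ {x | t ≤ Real.sqrt (m * Yb kap w d lam Kp (extf (Dw w) x) j m T)}
      ≤ μ {x | t ^ 4 ≤ Z x} := measure_mono hsub
    _ = ENNReal.ofReal (μ.real {x | t ^ 4 ≤ Z x}) := (ofReal_measureReal).symm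
    _ ≤ _ := by
        refine ENNReal.ofReal_le_ofReal ?_
        rw [le_div_iff₀ ht4, mul_comm]
        exact hmark.trans hZle

end H941.mom_box
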