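import Pool.Agent.KS6_63.GFF.Defs4
import Pool.Agent.KS6_63.GFF.A3
import Pool.Agent.KS6_63.GFF.A4
import Pool.Agent.KS6_63.GFF.B.expl_facts_
import Pool.Agent.KS6_63.GFF.B.gauss_tail_
import Pool.Agent.KS6_63.GFF.B.green_decomp_
import Pool.Agent.KS6_63.GFF.B.row_le_
import Pool.Agent.KS6_63.GFF.B.stopping_bound_
import Pool.Agent.KS6_63.GFF.C.det_total_
import Pool.Agent.KS6_63.GFF.C.mom_box_
import Pool.Agent.KS6_63.GFF.C.mom_exp_
import Pool.Agent.KS6_63.GFF.C.mom_single_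

open MeasureTheory ProbabilityTheory

namespace H941.arm_T2

theorem filter_meas {X : Type} [MeasurableSpace X] (op : X → ℤ × ℤ → Prop)
    (hop : ∀ v, MeasurableSet {x | op x v}) (A B : Finset (ℤ × ℤ)) (inst : ∀ x, DecidablePred (op x)) :
    MeasurableSet {x | A.filter (op x) = B} := by
  classical
  by_cases hBA : B ⊆ A
  · have e : {x | A.filter (op x) = B} = ⋂ v ∈ A, {x | op x v ↔ v ∈ B} := by
      ext x
      simp only [Set.mem_ofPred_eq, Set.mem_iInter]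
      constructor
      · intro h v hv
        rw [← h, Finset.mem_filter]
        exact ⟨fun h1 => ⟨hv, h1⟩, fun h1 => h1.2⟩
      · intro h
        ext v
        rw [Finset.mem_filter]
        constructor
        · rintro ⟨h1, h2⟩
          exact (h v h1).1 h2
        · intro h1
          exact ⟨hBA h1, (h v (hBA h1)).2 h1⟩
    rw [e]
    refine Finset.measurableSet_biInter A fun v _ => ?_
    by_cases hv : v ∈ B
    · have : {x | op x v ↔ v ∈ B} = {x | op x v} := by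
        ext x; simp [hv]
      rw [this]
      exact hop v
    · have : {x | op x v ↔ v ∈ B} = {x | op x v}ᶜ := by
        ext x; simp [hv]
      rw [this]
      exact (hop v).compl
  · have e : {x | A.filter (op x) = B} = ∅ := by
      ext x
      simp only [Set.mem_ofPred_eq, Set.mem_empty_iff_false, iff_false]
      intro h
      exact hBA (h ▸ Finset.filter_subset _ _)
    rw [e]
    exact MeasurableSet.empty

open Classical in
theorem expl_meas {X : Type} [MeasurableSpace X] (R K0 : Finset (ℤ × ℤ)) (op : X → ℤ × ℤ → Prop)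
    (hop : ∀ v, MeasurableSet {x | op x v}) (k : ℕ) (s : Finset (ℤ × ℤ) × Finset (ℤ × ℤ)) :
    MeasurableSet {x | expl R K0 (op x) k = s} := by
  induction k generalizing s with
  | zero =>
    have e : {x | expl R K0 (op x) 0 = s} = {x | K0 = s.1} ∩ {x | K0.filter (op x) = s.2} := by
      ext x
      simp only [expl, Set.mem_ofPred_eq, Set.mem_inter_iff]
      exact Prod.ext_iff
    rw [e]
    exact (MeasurableSet.const _).inter (filter_meas op hop K0 s.2 _)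
  | succ k ih =>
    have e : {x | expl R K0 (op x) (k + 1) = s} = ⋃ s' : Finset (ℤ × ℤ) × Finset (ℤ × ℤ),
        {x | expl R K0 (op x) k = s'} ∩
          ({x | s'.1 ∪ R.filter (fun v => ∃ u ∈ s'.2, v ∈ nbrs u) = s.1} ∩
          {x | ((R.filter (fun v => ∃ u ∈ s'.2, v ∈ nbrs u)) \ s'.1).filter (op x) = s.2}) := by
      ext x
      simp only [Set.mem_ofPred_eq, Set.mem_iUnion, Set.mem_inter_iff]
      constructor
      · intro h
        refine ⟨expl R K0 (op x) k, rfl, ?_⟩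
        rw [expl] at h
        exact Prod.ext_iff.1 h
      · rintro ⟨s', h1, h2⟩
        rw [expl, h1]
        exact Prod.ext_iff.2 h2
    rw [e]
    exact MeasurableSet.iUnion fun s' => (ih s').inter
      ((MeasurableSet.const _).inter (filter_meas op hop _ s.2 _))

theorem extf_meas (S : Finset (ℤ × ℤ)) (v : ℤ × ℤ) :
    Measurable (fun x : EuclideanSpace ℝ (S : Finset (ℤ × ℤ)) => extf S x v) := by
  unfold extf
  split_ifs with h
  · exact (EuclideanSpace.proj (𝕜 := ℝ) (⟨v, h⟩ : (S : Finset (ℤ × ℤ)))).continuous.measurable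
  · exact measurable_const

theorem Kk_meas (w d : ℕ) (lam : ℝ) (S : Finset (ℤ × ℤ)) (k : ℕ) (K : Finset (ℤ × ℤ)) :
    MeasurableSet {x : EuclideanSpace ℝ (S : Finset (ℤ × ℤ)) | Kk w d lam (extf S x) k = K} := by
  have hop : ∀ v, MeasurableSet {x : EuclideanSpace ℝ (S : Finset (ℤ × ℤ)) | extf S x v ≤ lam} :=
    fun v => measurableSet_le (extf_meas S v) measurable_const
  have e : {x : EuclideanSpace ℝ (S : Finset (ℤ × ℤ)) | Kk w d lam (extf S x) k = K} =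
      ⋃ L : Finset (ℤ × ℤ), {x | expl (rect w (5 * w) d (w - d)) (rect w w d (w - d))
        (fun v => extf S x v ≤ lam) k = (K, L)} := by
    ext x
    simp only [Set.mem_ofPred_eq, Set.mem_iUnion, Kk]
    constructor
    · intro h
      exact ⟨_, Prod.ext h rfl⟩
    · rintro ⟨L, h⟩
      rw [h]
  rw [e]
  exact MeasurableSet.iUnion fun L => expl_meas _ _ (fun x v => extf S x v ≤ lam) hop k _

theorem Mk_meas (w d : ℕ) (lam a : ℝ) (S : Finset (ℤ × ℤ)) (k : ℕ) :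
    MeasurableSet {x : EuclideanSpace ℝ (S : Finset (ℤ × ℤ)) | a < Mk w d lam (extf S x) k} := by
  have e : {x : EuclideanSpace ℝ (S : Finset (ℤ × ℤ)) | a < Mk w d lam (extf S x) k} =
      ⋃ K : Finset (ℤ × ℤ), {x | Kk w d lam (extf S x) k = K} ∩
        {x | a < ∑ v ∈ K, (∑ z ∈ Qs w, rq w z * hit (Dw w) K z v) * extf S x v} := by
    ext x
    simp only [Set.mem_ofPred_eq, Set.mem_iUnion, Set.mem_inter_iff, Mk]
    constructor
    · intro h
      exact ⟨_, rfl, h⟩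
    · rintro ⟨K, h1, h2⟩
      rw [h1]
      exact h2
  rw [e]
  refine MeasurableSet.iUnion fun K => (Kk_meas w d lam S k K).inter ?_
  refine measurableSet_lt measurable_const ?_
  exact Finset.measurable_sum _ fun v _ => (extf_meas S v).const_mul _

/-- the covariance matrix -/
noncomputable def Gamq (D : Finset (ℤ × ℤ)) : Matrix (D : Finset (ℤ × ℤ)) (D : Finset (ℤ × ℤ)) ℝ :=
  Matrix.of fun x y : (D : Finset (ℤ × ℤ)) => (1 / 4) * green D x y

theorem green_empty (u v : ℤ × ℤ) : green ∅ u v = 0 :=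
  (green_basic ∅).2.1 u v (Or.inl (Finset.notMem_empty u))

theorem Gam_psd (D : Finset (ℤ × ℤ)) : (Gamq D).PosSemidef := by
  refine Matrix.PosSemidef.of_dotProduct_mulVec_nonneg ?_ ?_
  · apply Matrix.IsHermitian.ext
    intro i j
    show star ((1 / 4) * green D j i) = (1 / 4) * green D i j
    rw [star_trivial, (green_basic D).2.2.1 j i]
  · intro x
    have h := green_psd ∅ D (Finset.empty_subset D) (extf D (WithLp.toLp 2 x))
    have e : (star x ⬝ᵥ Matrix.mulVec (Gamq D) x) = (1 / 4) * ∑ u ∈ D, ∑ v ∈ D,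
        extf D (WithLp.toLp 2 x) u * (green D u v - green ∅ u v) * extf D (WithLp.toLp 2 x) v := by
      rw [Finset.mul_sum, ← Finset.sum_coe_sort D]
      unfold dotProduct
      refine Finset.sum_congr rfl fun i _ => ?_
      rw [Matrix.mulVec, Finset.mul_sum, ← Finset.sum_coe_sort D]
      unfold dotProduct
      rw [Finset.mul_sum]
      refine Finset.sum_congr rfl fun j _ => ?_
      rw [green_empty, sub_zero]
      have e1 : ∀ i : (D : Finset (ℤ × ℤ)), extf D (WithLp.toLp 2 x) i = x i := by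
        intro i
        unfold extf
        rw [dif_pos i.2]
      rw [e1, e1]
      show x i * ((1 / 4) * green D i j * x j) = _
      ring
    rw [e]
    exact mul_nonneg (by norm_num) h

theorem mem_rect {a b c d : ℤ} {z : ℤ × ℤ} :
    z ∈ rect a b c d ↔ (a ≤ z.1 ∧ z.1 ≤ b) ∧ c ≤ z.2 ∧ z.2 ≤ d := by
  unfold rect
  rw [Finset.mem_product, Finset.mem_Icc, Finset.mem_Icc]

theorem R_sub {w d : ℕ} (hd : 1 ≤ d) (hw : 10 ^ 9 * d ≤ w) :
    rect w (5 * w) d (w - d) ⊆ Dw w := by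
  intro z hz
  rw [mem_rect] at hz
  unfold Dw
  rw [mem_rect]
  omega

theorem Q_sub {w d : ℕ} (hd : 1 ≤ d) (hw : 10 ^ 9 * d ≤ w) : Qs w ⊆ Dw w := by
  intro z hz
  unfold Qs at hz
  rw [mem_rect] at hz
  unfold Dw
  rw [mem_rect]
  omega

theorem Q_not {w d : ℕ} {z : ℤ × ℤ} (hz : z ∈ Qs w) : z ∉ rect w (5 * w) d (w - d) := by
  unfold Qs at hz
  rw [mem_rect] at hz ⊢
  omega

theorem Q_card {w d : ℕ} (hd : 1 ≤ d) (hw : 10 ^ 9 * d ≤ w) : (w : ℝ) ^ 2 / 8 ≤ ((Qs w).card : ℝ) := by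
  have e : (Qs w).card = w * (w / 2 - w / 4) := by
    unfold Qs rect
    rw [Finset.card_product, Int.card_Icc, Int.card_Icc]
    congr 1 <;> omega
  have h1 : w ≤ 8 * (w / 2 - w / 4) := by omega
  have h2 : (w : ℝ) ≤ 8 * ((w / 2 - w / 4 : ℕ) : ℝ) := by exact_mod_cast h1
  rw [e, Nat.cast_mul]
  have h3 : (0 : ℝ) ≤ w := Nat.cast_nonneg w
  nlinarith

open Classical in
/-- the weights -/
noncomputable def qv (w : ℕ) (z : ℤ × ℤ) : ℝ := if z ∈ Qs w then rq w z else 0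

theorem qv_nonneg (w : ℕ) (z : ℤ × ℤ) : 0 ≤ qv w z := by
  unfold qv rq
  split_ifs
  · positivity
  · exact le_rfl

theorem qv_sum (w : ℕ) (D : Finset (ℤ × ℤ)) (h : Qs w ⊆ D) (g : ℤ × ℤ → ℝ) :
    ∑ i : (D : Finset (ℤ × ℤ)), qv w i * g i = ∑ z ∈ Qs w, rq w z * g z := by
  classical
  rw [Finset.sum_coe_sort D (fun z => qv w z * g z)]
  rw [← Finset.sum_subset h]
  · refine Finset.sum_congr rfl fun z hz => ?_
    unfold qv
    rw [if_pos hz]
  · intro z _ hz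
    unfold qv
    rw [if_neg hz, zero_mul]

theorem var_le {w d : ℕ} (hd : 1 ≤ d) (hw : 10 ^ 9 * d ≤ w) :
    ∑ i : (Dw w : Finset (ℤ × ℤ)), ∑ j : (Dw w : Finset (ℤ × ℤ)),
      qv w i * Gamq (Dw w) i j * qv w j ≤ 3 := by
  have hw0 : 0 < w := by omega
  have hwr : (0 : ℝ) < w := by exact_mod_cast hw0
  have hQ := Q_card hd hw
  have hQ0 : (0 : ℝ) < (Qs w).card := lt_of_lt_of_le (by positivity) hQ
  have hg := green_basic (Dw w)
  have h1 : ∀ i : (Dw w : Finset (ℤ × ℤ)), ∑ j : (Dw w : Finset (ℤ × ℤ)),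
      qv w i * Gamq (Dw w) i j * qv w j ≤ qv w i * ((w : ℝ) ^ 2 / (8 * (Qs w).card)) := by
    intro i
    have h2 : ∀ j : (Dw w : Finset (ℤ × ℤ)), qv w i * Gamq (Dw w) i j * qv w j ≤
        qv w i * ((1 / 4) * (1 / (Qs w).card) * green (Dw w) i j) := by
      intro j
      have h3 : qv w j ≤ 1 / (Qs w).card := by
        unfold qv rq
        split_ifs
        · exact le_rfl
        · positivity
      have h4 : 0 ≤ green (Dw w) i j := hg.1 _ _
      show qv w i * ((1 / 4) * green (Dw w) i j) * qv w j ≤ _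
      have h5 := qv_nonneg w i
      calc qv w i * ((1 / 4) * green (Dw w) i j) * qv w j
          ≤ qv w i * ((1 / 4) * green (Dw w) i j) * (1 / (Qs w).card) := by
            apply mul_le_mul_of_nonneg_left h3
            positivity
        _ = _ := by ring
    refine (Finset.sum_le_sum fun j _ => h2 j).trans ?_
    rw [← Finset.mul_sum, ← Finset.mul_sum]
    apply mul_le_mul_of_nonneg_left _ (qv_nonneg w i)
    have h3 := row_le (Dw w) 0 w (by
      intro z hz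
      unfold Dw at hz
      rw [mem_rect] at hz
      omega) i i.2
    rw [Finset.sum_coe_sort (Dw w) (fun v => green (Dw w) i v)]
    have h4 : 2 * ((i.1.2 : ℝ) - ((0 : ℤ) : ℝ)) * (((0 : ℤ) : ℝ) + (w : ℝ) - i.1.2) ≤ (w : ℝ) ^ 2 / 2 := by
      push_cast
      nlinarith [sq_nonneg ((w : ℝ) - 2 * i.1.2)]
    calc 1 / 4 * (1 / ((Qs w).card : ℝ)) * ∑ v ∈ Dw w, green (Dw w) i v
        ≤ 1 / 4 * (1 / ((Qs w).card : ℝ)) * ((w : ℝ) ^ 2 / 2) := by
          apply mul_le_mul_of_nonneg_left (h3.trans h4)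
          positivity
      _ = (w : ℝ) ^ 2 / (8 * (Qs w).card) := by
          field_simp
          ring
  refine (Finset.sum_le_sum fun i _ => h1 i).trans ?_
  rw [qv_sum w (Dw w) (Q_sub hd hw) (fun _ => (w : ℝ) ^ 2 / (8 * (Qs w).card))]
  unfold rq
  rw [Finset.sum_const, nsmul_eq_mul]
  have h5 : (w : ℝ) ^ 2 / (8 * (Qs w).card) ≤ 1 := by
    rw [div_le_one (by positivity)]
    linarith
  have h6 : ((Qs w).card : ℝ) * (1 / ((Qs w).card : ℝ) * ((w : ℝ) ^ 2 / (8 * (Qs w).card)))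
      = (w : ℝ) ^ 2 / (8 * (Qs w).card) := by
    field_simp
  rw [h6]
  linarith

open Classical in
/-- the stopping rule -/
noncomputable def tau (w d : ℕ) (lam a : ℝ) (T : ℕ)
    (x : EuclideanSpace ℝ (Dw w : Finset (ℤ × ℤ))) : Option (Finset (Dw w : Finset (ℤ × ℤ))) :=
  if h : ∃ k, k < T ∧ a < Mk w d lam (extf (Dw w) x) k then
    some ((Kk w d lam (extf (Dw w) x) (Nat.find h)).subtype (fun v => v ∈ Dw w)) else none

open Classical in
theorem tau_some (w d : ℕ) (lam a : ℝ) (T : ℕ) (x : EuclideanSpace ℝ (Dw w : Finset (ℤ × ℤ)))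
    (E : Finset (Dw w : Finset (ℤ × ℤ))) : tau w d lam a T x = some E ↔
      ∃ k, k < T ∧ a < Mk w d lam (extf (Dw w) x) k ∧
        (∀ k' < k, ¬ a < Mk w d lam (extf (Dw w) x) k') ∧
        (Kk w d lam (extf (Dw w) x) k).subtype (fun v => v ∈ Dw w) = E := by
  unfold tau
  constructor
  · intro h
    split_ifs at h with hex
    refine ⟨Nat.find hex, (Nat.find_spec hex).1, (Nat.find_spec hex).2, ?_, Option.some.inj h⟩
    intro k' hk' h'
    exact Nat.find_min hex hk' ⟨hk'.trans (Nat.find_spec hex).1, h'⟩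
  · rintro ⟨k, hk, h1, h2, h3⟩
    have hex : ∃ k, k < T ∧ a < Mk w d lam (extf (Dw w) x) k := ⟨k, hk, h1⟩
    have e : Nat.find hex = k := by
      rw [Nat.find_eq_iff]
      exact ⟨⟨hk, h1⟩, fun n hn h' => h2 n hn h'.2⟩
    rw [dif_pos hex, e, h3]

theorem tau_ex (w d : ℕ) (lam a : ℝ) (T : ℕ) (x : EuclideanSpace ℝ (Dw w : Finset (ℤ × ℤ))) :
    (∃ E, tau w d lam a T x = some E) ↔ ∃ k, k < T ∧ a < Mk w d lam (extf (Dw w) x) k := by
  constructor
  · rintro ⟨E, hE⟩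
    obtain ⟨k, h1, h2, -⟩ := (tau_some w d lam a T x E).1 hE
    exact ⟨k, h1, h2⟩
  · intro h
    unfold tau
    rw [dif_pos h]
    exact ⟨_, rfl⟩

theorem Kk_mono (w d : ℕ) (lam : ℝ) (f : ℤ × ℤ → ℝ) {i k : ℕ} (h : i ≤ k) :
    Kk w d lam f i ⊆ Kk w d lam f k := by
  have hK0 : rect w w d (w - d) ⊆ rect w (5 * w) d (w - d) := by
    intro z hz
    rw [mem_rect] at hz ⊢
    omega
  have hm : Monotone (fun n => Kk w d lam f n) := monotone_nat_of_le_succ fun n =>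
    ((expl_facts _ _ hK0 (fun v => f v ≤ lam)).1 n).2.2
  exact hm h

theorem Kk_sub (w d : ℕ) (lam : ℝ) (f : ℤ × ℤ → ℝ) (k : ℕ) :
    Kk w d lam f k ⊆ rect w (5 * w) d (w - d) := by
  have hK0 : rect w w d (w - d) ⊆ rect w (5 * w) d (w - d) := by
    intro z hz
    rw [mem_rect] at hz ⊢
    omega
  exact ((expl_facts _ _ hK0 (fun v => f v ≤ lam)).1 k).2.1

theorem map_sub_type {D K : Finset (ℤ × ℤ)} (h : K ⊆ D) :
    (K.subtype (fun v => v ∈ D)).map (Function.Embedding.subtype _) = K :=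
  Finset.subtype_map_of_mem fun _ hv => h hv

theorem sum_sub_type {D K : Finset (ℤ × ℤ)} (h : K ⊆ D) (g : ℤ × ℤ → ℝ) :
    ∑ v ∈ K.subtype (fun v => v ∈ D), g v = ∑ v ∈ K, g v := by
  conv_rhs => rw [← map_sub_type h]
  rw [Finset.sum_map]
  rfl

theorem extf_val (D : Finset (ℤ × ℤ)) (x : EuclideanSpace ℝ (D : Finset (ℤ × ℤ)))
    (i : (D : Finset (ℤ × ℤ))) : extf D x i = x i := by
  unfold extf
  rw [dif_pos i.2]

theorem stop_a {w d : ℕ} (hd : 1 ≤ d) (hw : 10 ^ 9 * d ≤ w) (lam a : ℝ) (ha : 0 ≤ a) (T : ℕ) :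
    gf (Dw w) (Dw w) {x | ∃ k, k < T ∧ a < Mk w d lam (extf (Dw w) x) k} ≤
      ENNReal.ofReal (2 * Real.exp (-(a ^ 2 / (2 * 3)))) := by
  have hRD := R_sub hd hw
  have hKD : ∀ f k, Kk w d lam f k ⊆ Dw w := fun f k => (Kk_sub w d lam f k).trans hRD
  have hK0 : rect w w d (w - d) ⊆ rect w (5 * w) d (w - d) := by
    intro z hz
    rw [mem_rect] at hz ⊢
    omega
  set m : Finset ↥(Dw w) → ↥(Dw w) → ℝ := fun E v =>
    ∑ z ∈ Qs w, rq w z * hit (Dw w) (E.map (Function.Embedding.subtype _)) z v with hm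
  have e : {x : EuclideanSpace ℝ (Dw w : Finset (ℤ × ℤ)) | ∃ k, k < T ∧
      a < Mk w d lam (extf (Dw w) x) k} = {x | ∃ E, tau w d lam a T x = some E} := by
    ext x
    exact (tau_ex w d lam a T x).symm
  rw [e]
  have h1 := stopping_bound (Gamq (Dw w)) (Gam_psd (Dw w)) (fun i => qv w i) m (tau w d lam a T)
    ?_ ?_ ?_ a ?_
  · refine h1.trans ?_
    rw [ENNReal.ofReal_mul (by norm_num), ENNReal.ofReal_ofNat]
    exact mul_le_mul_right (gauss_tail (Gamq (Dw w)) (Gam_psd (Dw w)) (fun i => qv w i) 3 a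
      (by norm_num) ha (var_le hd hw)) 2
  · rintro E ⟨x, hx⟩ y hy
    obtain ⟨k, -, -, -, hE⟩ := (tau_some w d lam a T x E).1 hx
    set K := Kk w d lam (extf (Dw w) x) k with hK
    have hKs : K ⊆ Dw w := hKD _ k
    have hyK : (y : ℤ × ℤ) ∈ K := by
      rw [← hE, Finset.mem_subtype] at hy
      exact hy
    have hEK : E.map (Function.Embedding.subtype _) = K := by rw [← hE, map_sub_type hKs]
    have e1 : ∑ i : (Dw w : Finset (ℤ × ℤ)), qv w i * Gamq (Dw w) i y =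
        ∑ z ∈ Qs w, rq w z * ((1 / 4) * green (Dw w) z y) :=
      qv_sum w (Dw w) (Q_sub hd hw) (fun z => (1 / 4) * green (Dw w) z y)
    have e2 : ∑ v ∈ E, m E v * Gamq (Dw w) v y = ∑ v ∈ K,
        (∑ z ∈ Qs w, rq w z * hit (Dw w) K z v) * ((1 / 4) * green (Dw w) v y) := by
      rw [← sum_sub_type hKs (fun v => (∑ z ∈ Qs w, rq w z * hit (Dw w) K z v) *
        ((1 / 4) * green (Dw w) v y)), hE]
      refine Finset.sum_congr rfl fun v _ => ?_
      rw [hm]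
      simp only [hEK]
      rfl
    rw [e1, e2]
    have e3 : ∑ v ∈ K, (∑ z ∈ Qs w, rq w z * hit (Dw w) K z v) * ((1 / 4) * green (Dw w) v y)
        = ∑ z ∈ Qs w, rq w z * ((1 / 4) * ∑ v ∈ K, hit (Dw w) K z v * green (Dw w) v y) := by
      simp only [Finset.sum_mul, Finset.mul_sum]
      rw [Finset.sum_comm]
      refine Finset.sum_congr rfl fun z _ => Finset.sum_congr rfl fun v _ => ?_
      ring
    rw [e3]
    refine Finset.sum_congr rfl fun z hz => ?_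
    have hzK : z ∉ K := fun h => Q_not hz (Kk_sub w d lam _ k h)
    rw [green_decomp (Dw w) K z y hzK,
      (green_basic (Dw w \ K)).2.1 z y (Or.inr fun h => (Finset.mem_sdiff.1 h).2 hyK), zero_add]
  · intro E
    have e : {x | tau w d lam a T x = some E} = ⋃ k ∈ Finset.range T,
        {x | a < Mk w d lam (extf (Dw w) x) k} ∩
        ((⋂ k' ∈ Finset.range k, {x | a < Mk w d lam (extf (Dw w) x) k'}ᶜ) ∩
        ⋃ K ∈ {K : Finset (ℤ × ℤ) | K.subtype (fun v => v ∈ Dw w) = E},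
          {x | Kk w d lam (extf (Dw w) x) k = K}) := by
      ext x
      rw [Set.mem_ofPred_eq, tau_some]
      simp only [Set.mem_iUnion, Set.mem_inter_iff, Set.mem_iInter, Set.mem_compl_iff,
        Set.mem_ofPred_eq, Finset.mem_range, exists_prop]
      constructor
      · rintro ⟨k, h1, h2, h3, h4⟩
        exact ⟨k, h1, h2, h3, _, h4, rfl⟩
      · rintro ⟨k, h1, h2, h3, K, h4, h5⟩
        exact ⟨k, h1, h2, h3, by rw [h5]; exact h4⟩
    rw [e]
    refine Finset.measurableSet_biUnion _ fun k _ => (Mk_meas w d lam a _ k).inter ?_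
    refine (Finset.measurableSet_biInter _ fun k' _ => (Mk_meas w d lam a _ k').compl).inter ?_
    exact MeasurableSet.biUnion (Set.to_countable _) fun K _ => Kk_meas w d lam _ k K
  · intro x x' E hx hxx
    rw [tau_some] at hx ⊢
    obtain ⟨k, h1, h2, h3, h4⟩ := hx
    have hag : ∀ v ∈ Kk w d lam (extf (Dw w) x) k, extf (Dw w) x' v = extf (Dw w) x v := by
      intro v hv
      have hvD := hKD _ k hv
      have hvE : (⟨v, hvD⟩ : (Dw w : Finset (ℤ × ℤ))) ∈ E := by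
        rw [← h4, Finset.mem_subtype]
        exact hv
      have := hxx ⟨v, hvD⟩ hvE
      unfold extf
      rw [dif_pos hvD, dif_pos hvD, this]
    have hfacts := expl_facts _ _ hK0 (fun v => extf (Dw w) x v ≤ lam)
    have hexpl := hfacts.2.2.2.2.2.2 (fun v => extf (Dw w) x' v ≤ lam) k (by
      intro v hv
      have h5 : v ∈ Kk w d lam (extf (Dw w) x) k := hv
      show extf (Dw w) x v ≤ lam ↔ extf (Dw w) x' v ≤ lam
      rw [hag v h5])
    have hmono : ∀ i ≤ k, Kk w d lam (extf (Dw w) x) i ⊆ Kk w d lam (extf (Dw w) x) k :=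
      fun i hi => Kk_mono w d lam _ hi
    have hKeq : ∀ i ≤ k, Kk w d lam (extf (Dw w) x') i = Kk w d lam (extf (Dw w) x) i := by
      intro i hi
      unfold Kk
      rw [hexpl i hi]
    have hMeq : ∀ i ≤ k, Mk w d lam (extf (Dw w) x') i = Mk w d lam (extf (Dw w) x) i := by
      intro i hi
      unfold Mk
      rw [hKeq i hi]
      refine Finset.sum_congr rfl fun v hv => ?_
      rw [hag v (hmono i hi hv)]
    refine ⟨k, h1, ?_, ?_, ?_⟩
    · rw [hMeq k le_rfl]; exact h2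
    · intro k' hk'
      rw [hMeq k' hk'.le]
      exact h3 k' hk'
    · rw [hKeq k le_rfl]; exact h4
  · intro x E hx
    obtain ⟨k, -, h2, -, hE⟩ := (tau_some w d lam a T x E).1 hx
    have hKs : Kk w d lam (extf (Dw w) x) k ⊆ Dw w := hKD _ k
    have hEK : E.map (Function.Embedding.subtype _) = Kk w d lam (extf (Dw w) x) k := by
      rw [← hE, map_sub_type hKs]
    refine h2.le.trans (le_of_eq ?_)
    unfold Mk
    rw [← sum_sub_type hKs (fun v => (∑ z ∈ Qs w, rq w z * hit (Dw w)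
      (Kk w d lam (extf (Dw w) x) k) z v) * extf (Dw w) x v), hE]
    refine Finset.sum_congr rfl fun v _ => ?_
    rw [hm]
    simp only [hEK]
    rw [extf_val]

theorem geom_le {r : ℝ} (h0 : 0 ≤ r) (h1 : r < 1) (n : ℕ) :
    ∑ i ∈ Finset.range n, r ^ i ≤ 1 / (1 - r) := by
  rw [one_div, ← tsum_geometric_of_lt_one h0 h1]
  exact (summable_geometric_of_lt_one h0 h1).sum_le_tsum _ fun i _ => pow_nonneg h0 i

theorem log_pow_le {w j : ℕ} (hw : 1 ≤ w) (hj : j ≤ Nat.log 2 w) :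
    ((Nat.log 2 w - j : ℕ) : ℝ) / 2 ≤ Real.log (w / 2 ^ j) := by
  have h1 : 2 ^ Nat.log 2 w ≤ w := Nat.pow_log_le_self 2 (by omega)
  have h2 : (2 : ℝ) ^ Nat.log 2 w ≤ w := by exact_mod_cast h1
  have h3 : (2 : ℝ) ^ (Nat.log 2 w - j) ≤ w / 2 ^ j := by
    rw [le_div_iff₀ (by positivity), ← pow_add, Nat.sub_add_cancel hj]
    exact h2
  have h4 := Real.log_le_log (by positivity) h3
  rw [Real.log_pow] at h4
  have h5 : (1 / 2 : ℝ) ≤ Real.log 2 := by
    have := Real.log_two_gt_d9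
    linarith
  have h6 : (0 : ℝ) ≤ ((Nat.log 2 w - j : ℕ) : ℝ) := Nat.cast_nonneg _
  nlinarith

theorem sum_exp_le {w : ℕ} (hw : 1 ≤ w) {g : ℝ} (hg : 0 < g) :
    ∑ j ∈ Finset.range (Nat.log 2 w + 1), Real.exp (-(g * Real.log (w / 2 ^ j))) ≤ 1 + 2 / g := by
  set r : ℝ := Real.exp (-(g / 2)) with hr
  have hr1 : r < 1 := by
    rw [hr, ← Real.exp_zero]
    exact Real.exp_lt_exp.2 (by linarith)
  have h1 : ∀ j ∈ Finset.range (Nat.log 2 w + 1),
      Real.exp (-(g * Real.log (w / 2 ^ j))) ≤ r ^ (Nat.log 2 w + 1 - 1 - j) := by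
    intro j hj
    have hj' : j ≤ Nat.log 2 w := by
      have := Finset.mem_range.1 hj
      omega
    rw [hr, ← Real.exp_nat_mul, Nat.add_sub_cancel]
    apply Real.exp_le_exp.2
    have := log_pow_le hw hj'
    nlinarith
  refine (Finset.sum_le_sum h1).trans ?_
  rw [Finset.sum_range_reflect (fun i => r ^ i)]
  refine (geom_le (Real.exp_pos _).le hr1 _).trans ?_
  have h2 : g / 2 + 1 ≤ Real.exp (g / 2) := Real.add_one_le_exp _
  have h3 : r * (1 + g / 2) ≤ 1 := by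
    have h4 : r * Real.exp (g / 2) = 1 := by
      rw [hr, ← Real.exp_add]
      simp
    have h5 : 0 < r := Real.exp_pos _
    nlinarith
  rw [div_le_iff₀ (by linarith)]
  have h6 : (1 + 2 / g) * (1 - r) = 1 + (1 - r * (1 + g / 2)) * (2 / g) := by
    field_simp
    ring
  rw [h6]
  have : 0 ≤ (1 - r * (1 + g / 2)) * (2 / g) := mul_nonneg (by linarith) (by positivity)
  linarith

theorem sq_exp_le {b L : ℝ} (hb : 0 < b) (hb1 : b ≤ 4) (hL : 0 ≤ L) :
    (1 + L) ^ 2 * Real.exp (-(b * L)) ≤ 16 / b ^ 2 * Real.exp (-(b / 2 * L)) := by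
  set y : ℝ := Real.exp (b * L / 4) with hy
  have h1 : b * L / 4 + 1 ≤ y := Real.add_one_le_exp _
  have h2 : b / 4 * (1 + L) ≤ y := by nlinarith
  have h3 : (b / 4 * (1 + L)) ^ 2 ≤ y ^ 2 := pow_le_pow_left₀ (by positivity) h2 2
  have h4 : (1 + L) ^ 2 ≤ 16 / b ^ 2 * y ^ 2 := by
    rw [div_mul_eq_mul_div, le_div_iff₀ (by positivity)]
    nlinarith
  have h5 : y ^ 2 * Real.exp (-(b * L)) = Real.exp (-(b / 2 * L)) := by
    rw [hy, ← Real.exp_nat_mul, ← Real.exp_add]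
    congr 1
    push_cast
    ring
  calc (1 + L) ^ 2 * Real.exp (-(b * L)) ≤ 16 / b ^ 2 * y ^ 2 * Real.exp (-(b * L)) :=
        mul_le_mul_of_nonneg_right h4 (Real.exp_pos _).le
    _ = 16 / b ^ 2 * Real.exp (-(b / 2 * L)) := by rw [mul_assoc, h5]

theorem th_pow {C0 w lam C2 th : ℝ} (hC0 : 0 < C0) (hw : 0 < w) (hlam : 1 ≤ lam) (hC2 : 1 ≤ C2)
    (hth : lam * C2 * w / (6 * C0) ≤ th) :
    0 < th ∧ lam ^ 4 * C2 ^ 4 * w ^ 4 ≤ (6 * C0) ^ 4 * th ^ 4 := by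
  have h0 : 0 < lam * C2 * w / (6 * C0) := by positivity
  refine ⟨h0.trans_le hth, ?_⟩
  have h1 := pow_le_pow_left₀ h0.le hth 4
  rw [div_pow, div_le_iff₀ (by positivity)] at h1
  calc lam ^ 4 * C2 ^ 4 * w ^ 4 = (lam * C2 * w) ^ 4 := by ring
    _ ≤ th ^ 4 * (6 * C0) ^ 4 := h1
    _ = _ := by ring

theorem num_b {C C0 w lam u Kh C2 th : ℝ} (hC : 0 < C) (hC0 : 0 < C0) (hw : 0 < w)
    (hlam : 1 ≤ lam) (hu : 1 ≤ u) (hKh : 1 ≤ Kh) (hC2 : 1 ≤ C2)
    (hth : lam * C2 * w / (6 * C0) ≤ th) :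
    C * w ^ 4 * lam ^ 4 * u ^ 5 / th ^ 4 ≤ C * (6 * C0) ^ 4 * (Kh ^ 4 * u ^ 16 / C2 ^ 4) := by
  obtain ⟨h0, h1⟩ := th_pow hC0 hw hlam hC2 hth
  rw [div_le_iff₀ (by positivity)]
  have h2 : u ^ 5 ≤ Kh ^ 4 * u ^ 16 := by
    have h3 : u ^ 5 ≤ u ^ 16 := pow_le_pow_right₀ hu (by norm_num)
    have h4 : 1 ≤ Kh ^ 4 := one_le_pow₀ hKh
    have h5 : 0 < u ^ 16 := by positivity
    nlinarith
  have e : C * (6 * C0) ^ 4 * (Kh ^ 4 * u ^ 16 / C2 ^ 4) * th ^ 4
      = C * (Kh ^ 4 * u ^ 16) * ((6 * C0) ^ 4 * th ^ 4 / C2 ^ 4) := by ring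
  have h6 : lam ^ 4 * w ^ 4 ≤ (6 * C0) ^ 4 * th ^ 4 / C2 ^ 4 := by
    rw [le_div_iff₀ (by positivity)]
    linarith
  rw [e]
  calc C * w ^ 4 * lam ^ 4 * u ^ 5 = C * u ^ 5 * (lam ^ 4 * w ^ 4) := by ring
    _ ≤ C * (Kh ^ 4 * u ^ 16) * ((6 * C0) ^ 4 * th ^ 4 / C2 ^ 4) := by
        apply mul_le_mul _ h6 (by positivity) (by positivity)
        exact mul_le_mul_of_nonneg_left h2 hC.le

theorem num_c {C C0 w lam u Kh C2 th c0 kb kb' L : ℝ} (hC : 0 < C) (hC0 : 0 < C0) (hw : 0 < w)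
    (hlam : 1 ≤ lam) (hu : 1 ≤ u) (hKh : 1 ≤ Kh) (hC2 : 1 ≤ C2)
    (hth : lam * C2 * w / (6 * C0) ≤ th) (hc0 : 0 < c0) (hkb : kb' ≤ kb)
    (hL : 0 ≤ L) :
    C * w ^ 4 * Kh ^ 4 * u * (lam ^ 2 + 1 + L) ^ 2 * Real.exp (-(kb * L / u ^ 2)) /
        (th * (c0 / u ^ 2 * Real.exp (-(kb' / (8 * u ^ 2) * L)))) ^ 4 ≤
      (4 * C * (6 * C0) ^ 4 / c0 ^ 4) * (Kh ^ 4 * u ^ 9 / C2 ^ 4) *
        ((1 + L) ^ 2 * Real.exp (-(kb' / (2 * u ^ 2) * L))) := by
  obtain ⟨h0, h1⟩ := th_pow hC0 hw hlam hC2 hth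
  have hu0 : 0 < u := by linarith
  set E : ℝ := Real.exp (-(kb' / (2 * u ^ 2) * L)) with hE
  have hE0 : 0 < E := Real.exp_pos _
  have e1 : (th * (c0 / u ^ 2 * Real.exp (-(kb' / (8 * u ^ 2) * L)))) ^ 4
      = th ^ 4 * (c0 ^ 4 / u ^ 8 * E) := by
    rw [mul_pow, mul_pow, div_pow, ← pow_mul, ← Real.exp_nat_mul, hE]
    congr 3
    push_cast
    field_simp
    ring
  have e2 : Real.exp (-(kb * L / u ^ 2)) ≤ E ^ 2 := by
    rw [hE, ← Real.exp_nat_mul]
    apply Real.exp_le_exp.2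
    push_cast
    have h2 : kb' * L / u ^ 2 ≤ kb * L / u ^ 2 := by gcongr
    have h3 : 2 * (-(kb' / (2 * u ^ 2) * L)) = -(kb' * L / u ^ 2) := by
      field_simp
    rw [h3]
    linarith
  have e3 : (lam ^ 2 + 1 + L) ^ 2 ≤ 4 * lam ^ 4 * (1 + L) ^ 2 := by
    have h2 : 1 ≤ lam ^ 2 := one_le_pow₀ hlam
    have h3 : lam ^ 2 + 1 + L ≤ 2 * lam ^ 2 * (1 + L) := by nlinarith
    calc (lam ^ 2 + 1 + L) ^ 2 ≤ (2 * lam ^ 2 * (1 + L)) ^ 2 :=
          pow_le_pow_left₀ (by positivity) h3 2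
      _ = _ := by ring
  rw [e1, div_le_iff₀ (by positivity)]
  have h6 : lam ^ 4 * w ^ 4 ≤ (6 * C0) ^ 4 * th ^ 4 / C2 ^ 4 := by
    rw [le_div_iff₀ (by positivity)]
    linarith
  calc C * w ^ 4 * Kh ^ 4 * u * (lam ^ 2 + 1 + L) ^ 2 * Real.exp (-(kb * L / u ^ 2))
      ≤ C * w ^ 4 * Kh ^ 4 * u * (4 * lam ^ 4 * (1 + L) ^ 2) * E ^ 2 := by gcongr
    _ = (4 * C * Kh ^ 4 * u * (1 + L) ^ 2 * E ^ 2) * (lam ^ 4 * w ^ 4) := by ring
    _ ≤ (4 * C * Kh ^ 4 * u * (1 + L) ^ 2 * E ^ 2) * ((6 * C0) ^ 4 * th ^ 4 / C2 ^ 4) := by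
        gcongr
    _ = _ := by
        field_simp

theorem log_sq_le {y : ℝ} (hy : 1 ≤ y) : (1 + Real.log y) ^ 2 ≤ 4 * y := by
  have h0 : 0 < y := by linarith
  have hs : 0 < Real.sqrt y := Real.sqrt_pos.2 h0
  have h1 : Real.log y = 2 * Real.log (Real.sqrt y) := by
    rw [Real.log_sqrt h0.le]
    ring
  have h2 := Real.log_le_sub_one_of_pos hs
  have h3 : 0 ≤ Real.log y := Real.log_nonneg hy
  have h4 : Real.sqrt y * Real.sqrt y = y := Real.mul_self_sqrt h0.le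
  nlinarith

theorem num_d {C C0 T lam : ℝ} {w d : ℕ} (hC : 0 < C) (hC0 : 0 < C0) (hT : 0 < T)
    (hlam : 1 ≤ lam) (hd : 1 ≤ d) (hdw : d ≤ w) :
    C * T ^ 4 * ((d : ℝ) / w) ^ 3 * (lam ^ 2 + 1 + Real.log (w / d)) ^ 2 /
      (lam * T / (3 * C0)) ^ 4 ≤ 16 * C * (3 * C0) ^ 4 * ((d : ℝ) / w) ^ 2 := by
  have hd0 : (0 : ℝ) < d := by exact_mod_cast hd
  have hdw' : (d : ℝ) ≤ w := by exact_mod_cast hdw
  have hw0 : (0 : ℝ) < w := by linarith
  have hy : (1 : ℝ) ≤ w / d := by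
    rw [le_div_iff₀ hd0]
    linarith
  have hL := Real.log_nonneg hy
  have h1 := log_sq_le hy
  set L := Real.log ((w : ℝ) / d) with hLdef
  have e3 : (lam ^ 2 + 1 + L) ^ 2 ≤ 4 * lam ^ 4 * (1 + L) ^ 2 := by
    have h2 : 1 ≤ lam ^ 2 := one_le_pow₀ hlam
    have h3 : lam ^ 2 + 1 + L ≤ 2 * lam ^ 2 * (1 + L) := by nlinarith
    calc (lam ^ 2 + 1 + L) ^ 2 ≤ (2 * lam ^ 2 * (1 + L)) ^ 2 :=
          pow_le_pow_left₀ (by positivity) h3 2
      _ = _ := by ring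
  rw [div_le_iff₀ (by positivity)]
  calc C * T ^ 4 * ((d : ℝ) / w) ^ 3 * (lam ^ 2 + 1 + L) ^ 2
      ≤ C * T ^ 4 * ((d : ℝ) / w) ^ 3 * (4 * lam ^ 4 * (4 * (w / d))) := by
        gcongr
        exact e3.trans (mul_le_mul_of_nonneg_left h1 (by positivity))
    _ = _ := by
        field_simp
        ring

theorem sum_c {w : ℕ} (hw : 1 ≤ w) {u kb' : ℝ} (hu : 1 ≤ u) (hk : 0 < kb') (hk1 : kb' ≤ 1) :
    ∑ j ∈ Finset.range (Nat.log 2 w + 1), ((1 + Real.log (w / 2 ^ j)) ^ 2 *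
      Real.exp (-(kb' / (2 * u ^ 2) * Real.log (w / 2 ^ j)))) ≤ 640 / kb' ^ 3 * u ^ 6 := by
  have hu2 : 1 ≤ u ^ 2 := one_le_pow₀ hu
  set b : ℝ := kb' / (2 * u ^ 2) with hb
  have hb0 : 0 < b := by positivity
  have hb1 : b ≤ 1 := by
    rw [hb, div_le_one (by positivity)]
    linarith
  have h1 : ∀ j ∈ Finset.range (Nat.log 2 w + 1), (1 + Real.log ((w : ℝ) / 2 ^ j)) ^ 2 *
      Real.exp (-(b * Real.log (w / 2 ^ j))) ≤
      16 / b ^ 2 * Real.exp (-(b / 2 * Real.log (w / 2 ^ j))) := by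
    intro j hj
    have hj' : j ≤ Nat.log 2 w := by
      have := Finset.mem_range.1 hj
      omega
    refine sq_exp_le hb0 (by linarith) ?_
    have := log_pow_le hw hj'
    have h6 : (0 : ℝ) ≤ ((Nat.log 2 w - j : ℕ) : ℝ) := Nat.cast_nonneg _
    linarith
  refine (Finset.sum_le_sum h1).trans ?_
  rw [← Finset.mul_sum]
  have h2 := sum_exp_le hw (g := b / 2) (by positivity)
  have h3 : 1 + 2 / (b / 2) ≤ 5 / b := by
    have : 1 ≤ 1 / b := by rw [le_div_iff₀ hb0]; linarith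
    have e : 2 / (b / 2) = 4 * (1 / b) := by field_simp; norm_num
    have e' : 5 / b = 5 * (1 / b) := by ring
    rw [e, e']
    linarith
  calc 16 / b ^ 2 * ∑ j ∈ Finset.range (Nat.log 2 w + 1),
        Real.exp (-(b / 2 * Real.log ((w : ℝ) / 2 ^ j)))
      ≤ 16 / b ^ 2 * (5 / b) := by
        apply mul_le_mul_of_nonneg_left (h2.trans h3)
        positivity
    _ = 640 / kb' ^ 3 * u ^ 6 := by
        rw [hb]
        field_simp
        norm_num

theorem sum_a {w : ℕ} (hw : 1 ≤ w) {u kb' : ℝ} (hu : 1 ≤ u) (hk : 0 < kb') (hk1 : kb' ≤ 1) :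
    ∑ j ∈ Finset.range (Nat.log 2 w + 1), (kb' / 17 / u ^ 2 *
      Real.exp (-(kb' / (8 * u ^ 2) * Real.log (w / 2 ^ j)))) ≤ 1 := by
  have hu2 : 1 ≤ u ^ 2 := one_le_pow₀ hu
  rw [← Finset.mul_sum]
  have h2 := sum_exp_le hw (g := kb' / (8 * u ^ 2)) (by positivity)
  have h3 : 1 + 2 / (kb' / (8 * u ^ 2)) ≤ 17 / kb' * u ^ 2 := by
    have e : 2 / (kb' / (8 * u ^ 2)) = 16 / kb' * u ^ 2 := by field_simp; norm_num
    have h4 : 1 ≤ 1 / kb' := by rw [le_div_iff₀ hk]; linarith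
    have h5 : 1 ≤ 1 / kb' * u ^ 2 := by nlinarith
    rw [e]
    have e2 : 17 / kb' * u ^ 2 = 16 / kb' * u ^ 2 + 1 / kb' * u ^ 2 := by ring
    rw [e2]
    linarith
  calc kb' / 17 / u ^ 2 * ∑ j ∈ Finset.range (Nat.log 2 w + 1),
        Real.exp (-(kb' / (8 * u ^ 2) * Real.log ((w : ℝ) / 2 ^ j)))
      ≤ kb' / 17 / u ^ 2 * (17 / kb' * u ^ 2) := by
        apply mul_le_mul_of_nonneg_left (h2.trans h3)
        positivity
    _ = 1 := by field_simp

theorem _root_.H941.arm_T2 : ∃ A c : ℝ, 1 ≤ A ∧ 0 < c ∧ ∀ (u Kh q lam C2 : ℝ) (w d : ℕ), 1 ≤ u → 1 ≤ Kh → 0 ≤ q → q ≤ 1 / 64 → 1 ≤ lam → 1 ≤ C2 →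
    1 ≤ d → 10 ^ 9 * d ≤ w → (∀ w' : ℕ, 128 ≤ w' → w' < w → HypA u Kh q w') →
    gf (Dw w) (Dw w) {x | ¬ armOK true (0, 0) w d lam (C2 * w) (extf (Dw w) x)} ≤
      ENNReal.ofReal (2 * Real.exp (-(c * lam ^ 2)) + (A * Kh * u ^ 4 / C2) ^ 4 + A * (d / w) ^ 2) := by
  obtain ⟨C0, kap, hC0, hkap, hkap1, hdet⟩ := det_total
  obtain ⟨C1, hC1, hexp⟩ := mom_exp kap hkap hkap1
  obtain ⟨C2', hC2', hsing⟩ := mom_single
  obtain ⟨C3, kb, hC3, hkb, hbox⟩ := mom_box kap hkap hkap1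
  obtain ⟨kb', hk0, hk1, hkk⟩ : ∃ kb' : ℝ, 0 < kb' ∧ kb' ≤ 1 ∧ kb' ≤ kb :=
    ⟨min kb 1, lt_min hkb one_pos, min_le_right _ _, min_le_left _ _⟩
  obtain ⟨B, hB⟩ : ∃ B : ℝ, B = 4 * C3 * (6 * C0) ^ 4 / (kb' / 17) ^ 4 := ⟨_, rfl⟩
  have hB0 : 0 < B := by rw [hB]; positivity
  obtain ⟨M, hM⟩ : ∃ M : ℝ, M = C2' * (6 * C0) ^ 4 + B * (640 / kb' ^ 3) := ⟨_, rfl⟩
  have hM0 : 0 < M := by rw [hM]; positivity
  obtain ⟨A, hA⟩ : ∃ A : ℝ, A = 1 + M + 16 * C1 * (3 * C0) ^ 4 := ⟨_, rfl⟩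
  have hD0 : 0 < 16 * C1 * (3 * C0) ^ 4 := by positivity
  refine ⟨A, 1 / (24 * 10 ^ 16), by rw [hA]; linarith, by norm_num, ?_⟩
  intro u Kh q lam C2 w d hu hKh hq hq1 hlam hC2 hd hw hH
  have hw1 : 1 ≤ w := by omega
  have hw0 : (0 : ℝ) < w := by exact_mod_cast hw1
  have hwbig : (10 ^ 9 : ℝ) ≤ w := by
    have : 10 ^ 9 ≤ w := by nlinarith
    exact_mod_cast this
  have hCw : (10 ^ 9 : ℝ) ≤ C2 * w := by nlinarith
  obtain ⟨T, hT⟩ : ∃ T : ℕ, T = ⌊C2 * w⌋₊ - 1 := ⟨_, rfl⟩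
  have hfl1 : (⌊C2 * w⌋₊ : ℝ) ≤ C2 * w := Nat.floor_le (by positivity)
  have hfl2 : C2 * w < ⌊C2 * w⌋₊ + 1 := Nat.lt_floor_add_one _
  have hfl3 : 1 ≤ ⌊C2 * w⌋₊ := by
    have : (1 : ℝ) ≤ ⌊C2 * w⌋₊ := by linarith
    exact_mod_cast this
  have hTc : (T : ℝ) = ⌊C2 * w⌋₊ - 1 := by
    rw [hT, Nat.cast_sub hfl3, Nat.cast_one]
  have hT1 : (T : ℝ) + 1 ≤ C2 * w := by rw [hTc]; linarith
  have hT2 : C2 * w / 2 ≤ T := by rw [hTc]; linarith
  have hT0 : (0 : ℝ) < T := by linarith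
  -- the thresholds
  obtain ⟨m, hm⟩ : ∃ m : ℕ → ℕ, m = fun j => ⌈512 * Kh * 2 ^ j⌉₊ := ⟨_, rfl⟩
  have hpos : ∀ j : ℕ, (1 : ℝ) ≤ 512 * Kh * 2 ^ j := by
    intro j
    have : (1 : ℝ) ≤ 2 ^ j := one_le_pow₀ (by norm_num)
    nlinarith
  have hm1 : ∀ j, 512 * Kh * 2 ^ j ≤ m j := by
    intro j
    rw [hm]
    exact Nat.le_ceil _
  have hm2 : ∀ j, 1 ≤ m j := by
    intro j
    have h1 := (hpos j).trans (hm1 j)
    exact_mod_cast h1
  have hm3 : ∀ j, (m j : ℝ) ≤ 2 * (512 * Kh) * 2 ^ j := by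
    intro j
    have h1 : (m j : ℝ) < 512 * Kh * 2 ^ j + 1 := by
      rw [hm]
      exact Nat.ceil_lt_add_one (by linarith [hpos j])
    have h2 := hpos j
    linarith
  obtain ⟨th, hth⟩ : ∃ th : ℝ, th = lam * T / (3 * C0) := ⟨_, rfl⟩
  have hthle : lam * C2 * w / (6 * C0) ≤ th := by
    rw [hth, div_le_div_iff₀ (by positivity) (by positivity)]
    have h1 : lam * (C2 * w / 2) ≤ lam * T := mul_le_mul_of_nonneg_left hT2 (by linarith)
    nlinarith
  have hth0 : 0 < th := by rw [hth]; positivity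
  obtain ⟨a, ha⟩ : ∃ a : ℕ → ℝ, a = fun j => kb' / 17 / u ^ 2 *
      Real.exp (-(kb' / (8 * u ^ 2) * Real.log (w / 2 ^ j))) := ⟨_, rfl⟩
  have ha0 : ∀ j, 0 < a j := by
    intro j
    rw [ha]
    positivity
  have ha1 : ∑ j ∈ Finset.range (Nat.log 2 w + 1), a j ≤ 1 := by
    rw [ha]
    exact sum_a hw1 hu hk0 hk1
  -- the events
  have hsub : {x : EuclideanSpace ℝ (Dw w : Finset (ℤ × ℤ)) |
        ¬ armOK true (0, 0) w d lam (C2 * w) (extf (Dw w) x)} ⊆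
      {x | ∃ k, k < T ∧ lam / (2 * 10 ^ 8) < Mk w d lam (extf (Dw w) x) k} ∪
      ({x | th ≤ Real.sqrt (Ys w d lam (512 * Kh) (extf (Dw w) x) T)} ∪
      ((⋃ j ∈ Finset.range (Nat.log 2 w + 1), {x | th * a j ≤
        Real.sqrt (m j * Yb kap w d lam (512 * Kh) (extf (Dw w) x) j (m j) T)}) ∪
      {x | th ≤ (d / w) * ((T : ℝ) ^ 3 * Ye kap w d lam (extf (Dw w) x) T) ^ (1 / 4 : ℝ)})) := by
    intro x hx
    by_contra hcon
    simp only [Set.mem_union, Set.mem_iUnion, Set.mem_ofPred_eq, not_or, not_exists, not_and,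
      not_lt, not_le, Finset.mem_range, exists_prop] at hcon
    obtain ⟨ha', hb', hc', hd'⟩ := hcon
    have hK0 : rect w w d (w - d) ⊆ rect w (5 * w) d (w - d) := by
      intro z hz
      rw [mem_rect] at hz ⊢
      omega
    have hLk : ∀ i ≤ T, ∀ v ∈ Lk w d lam (extf (Dw w) x) i, v.1 ≠ 5 * w := by
      intro i hi v hv hv5
      obtain ⟨u', hu', p, hp, hps⟩ :=
        (expl_facts _ _ hK0 (fun v => extf (Dw w) x v ≤ lam)).2.2.2.2.2.1 i v hv
      apply hx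
      refine ⟨u', v, p, ?_, hv5, ?_, ?_⟩
      · rw [mem_rect] at hu'
        omega
      · intro z hz
        refine ⟨((expl_facts _ _ hK0 (fun v => extf (Dw w) x v ≤ lam)).1 i).2.1 (hps z hz).1, ?_⟩
        have e : place true (0, 0) z = z := by simp [place]
        rw [e]
        exact (hps z hz).2
      · rw [SimpleGraph.Walk.length_support, hp]
        push_cast
        have : (i : ℝ) ≤ T := by exact_mod_cast hi
        linarith
    have h1 := hdet w d lam (512 * Kh) (extf (Dw w) x) m T hd hw (by linarith) hm1 hm2 hLk ha'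
    have h2 : ∑ j ∈ Finset.range (Nat.log 2 w + 1),
        Real.sqrt (m j * Yb kap w d lam (512 * Kh) (extf (Dw w) x) j (m j) T) < th := by
      have h3 : ∑ j ∈ Finset.range (Nat.log 2 w + 1),
          Real.sqrt (m j * Yb kap w d lam (512 * Kh) (extf (Dw w) x) j (m j) T) <
          ∑ j ∈ Finset.range (Nat.log 2 w + 1), th * a j :=
        Finset.sum_lt_sum_of_nonempty ⟨0, Finset.mem_range.2 (by omega)⟩
          fun j hj => hc' j (Finset.mem_range.1 hj)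
      rw [← Finset.mul_sum] at h3
      exact h3.trans_le ((mul_le_mul_of_nonneg_left ha1 hth0.le).trans (mul_one th).le)
    have h3 : C0 * (3 * th) = lam * T := by
      rw [hth]
      field_simp
    have h4 := mul_lt_mul_of_pos_left (add_lt_add (add_lt_add hb' h2) hd') hC0
    have h5 : C0 * (th + th + th) = lam * T := by
      rw [← h3]
      ring
    exact absurd (h1.trans_lt h4) (not_lt.2 h5.le)
  -- the bounds
  have hEa := stop_a hd hw lam (lam / (2 * 10 ^ 8)) (by positivity) T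
  have hEb := (hsing u Kh q lam th w d T hu hKh hq hq1 hd (by omega) hlam hth0 hH).trans
    (ENNReal.ofReal_le_ofReal (num_b hC2' hC0 hw0 hlam hu hKh hC2 hthle))
  have hEc : ∀ j ∈ Finset.range (Nat.log 2 w + 1), gf (Dw w) (Dw w) {x | th * a j ≤
        Real.sqrt (m j * Yb kap w d lam (512 * Kh) (extf (Dw w) x) j (m j) T)} ≤
      ENNReal.ofReal (B * (Kh ^ 4 * u ^ 9 / C2 ^ 4) * ((1 + Real.log (w / 2 ^ j)) ^ 2 *
        Real.exp (-(kb' / (2 * u ^ 2) * Real.log (w / 2 ^ j))))) := by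
    intro j hj
    have hj' : j ≤ Nat.log 2 w := by
      have := Finset.mem_range.1 hj
      omega
    have hL : 0 ≤ Real.log ((w : ℝ) / 2 ^ j) := by
      have := log_pow_le hw1 hj'
      have h6 : (0 : ℝ) ≤ ((Nat.log 2 w - j : ℕ) : ℝ) := Nat.cast_nonneg _
      linarith
    have h2j : 2 ^ j ≤ w := (Nat.pow_le_pow_right (by norm_num) hj').trans
      (Nat.pow_log_le_self 2 (by omega))
    refine (hbox u Kh q lam (th * a j) w d j (m j) T hu hKh hq hq1 hd (by omega) hlam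
      (mul_pos hth0 (ha0 j)) h2j (hm2 j) (hm3 j) hH).trans (ENNReal.ofReal_le_ofReal ?_)
    have h1 := num_c (kb := kb) (kb' := kb') (c0 := kb' / 17) hC3 hC0 hw0 hlam hu hKh hC2 hthle
      (by positivity) hkk hL
    rw [hB, ha]
    exact h1
  have hd4 : C1 * (T : ℝ) ^ 4 * ((d : ℝ) / w) ^ 3 * (lam ^ 2 + 1 + Real.log (w / d)) ^ 2 / th ^ 4
      ≤ 16 * C1 * (3 * C0) ^ 4 * ((d : ℝ) / w) ^ 2 := by
    rw [hth]
    exact num_d hC1 hC0 hT0 hlam hd (by omega)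
  have hEd := (hexp w d T lam th hd (by omega) (by linarith) hth0).trans
    (ENNReal.ofReal_le_ofReal hd4)
  -- the sum
  refine (measure_mono hsub).trans ?_
  refine (measure_union_le _ _).trans ?_
  refine (add_le_add hEa ((measure_union_le _ _).trans (add_le_add hEb
    ((measure_union_le _ _).trans (add_le_add ((measure_biUnion_finset_le _ _).trans
      (Finset.sum_le_sum hEc)) hEd))))).trans ?_
  rw [← ENNReal.ofReal_sum_of_nonneg (fun j _ => by positivity),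
    ← ENNReal.ofReal_add (Finset.sum_nonneg fun j _ => by positivity) (by positivity),
    ← ENNReal.ofReal_add (by positivity)
      (add_nonneg (Finset.sum_nonneg fun j _ => by positivity) (by positivity)),
    ← ENNReal.ofReal_add (by positivity) (add_nonneg (by positivity)
      (add_nonneg (Finset.sum_nonneg fun j _ => by positivity) (by positivity)))]
  apply ENNReal.ofReal_le_ofReal
  rw [← Finset.mul_sum]
  have h1 := sum_c hw1 hu hk0 hk1
  have hu0 : 0 < u := by linarith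
  have h2 : B * (Kh ^ 4 * u ^ 9 / C2 ^ 4) * ∑ j ∈ Finset.range (Nat.log 2 w + 1),
      ((1 + Real.log (w / 2 ^ j)) ^ 2 * Real.exp (-(kb' / (2 * u ^ 2) * Real.log (w / 2 ^ j)))) ≤
      B * (640 / kb' ^ 3) * (Kh ^ 4 * u ^ 16 / C2 ^ 4) := by
    refine (mul_le_mul_of_nonneg_left h1 (by positivity)).trans ?_
    have h3 : u ^ 15 ≤ u ^ 16 := pow_le_pow_right₀ hu (by norm_num)
    have h4 : Kh ^ 4 * u ^ 15 / C2 ^ 4 ≤ Kh ^ 4 * u ^ 16 / C2 ^ 4 := by gcongr
    calc B * (Kh ^ 4 * u ^ 9 / C2 ^ 4) * (640 / kb' ^ 3 * u ^ 6)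
        = B * (640 / kb' ^ 3) * (Kh ^ 4 * u ^ 15 / C2 ^ 4) := by ring
      _ ≤ _ := mul_le_mul_of_nonneg_left h4 (by positivity)
  have h3 : M * (Kh ^ 4 * u ^ 16 / C2 ^ 4) ≤ (A * Kh * u ^ 4 / C2) ^ 4 := by
    have hA1 : 1 ≤ A := by rw [hA]; linarith
    have hAM : M ≤ A ^ 4 := (by rw [hA]; linarith : M ≤ A).trans (le_self_pow₀ hA1 (by norm_num))
    calc M * (Kh ^ 4 * u ^ 16 / C2 ^ 4) ≤ A ^ 4 * (Kh ^ 4 * u ^ 16 / C2 ^ 4) :=
          mul_le_mul_of_nonneg_right hAM (by positivity)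
      _ = _ := by
          rw [div_pow, mul_pow, mul_pow, ← pow_mul]
          ring
  have h4 : 16 * C1 * (3 * C0) ^ 4 * ((d : ℝ) / w) ^ 2 ≤ A * ((d : ℝ) / w) ^ 2 := by
    apply mul_le_mul_of_nonneg_right _ (by positivity)
    rw [hA]
    linarith
  have h5 : (lam / (2 * 10 ^ 8)) ^ 2 / (2 * 3) = 1 / (24 * 10 ^ 16) * lam ^ 2 := by ring
  rw [h5]
  have h6 : C2' * (6 * C0) ^ 4 * (Kh ^ 4 * u ^ 16 / C2 ^ 4) +
      B * (640 / kb' ^ 3) * (Kh ^ 4 * u ^ 16 / C2 ^ 4) = M * (Kh ^ 4 * u ^ 16 / C2 ^ 4) := by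
    rw [hM]
    ring
  linarith

end H941.arm_T2
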