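import Pool.Agent.KS6_63.GFF.Defs4

open MeasureTheory ProbabilityTheory

namespace H941.bulk_avg

theorem bulk_avg_sum_mul (M K : ℕ) (f : ℕ → ℝ) :
    ∑ a ∈ Finset.range (M * K), f a
      = ∑ r ∈ Finset.range M, ∑ s ∈ Finset.range K, f (r + M * s) := by
  induction K with
  | zero => simp
  | succ K ih =>
    rw [Nat.mul_succ, Finset.sum_range_add, ih]
    simp_rw [Finset.sum_range_succ]
    rw [Finset.sum_add_distrib]
    simp [add_comm]

theorem bulk_avg_cnt (M q : ℕ) (hM : 0 < M) (y : ℤ) (hq : 8 ≤ q) :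
    q / 2 ≤ ((Finset.range (2 * q)).filter (fun s : ℕ =>
      4 * |(y - (M : ℤ) * s) % (2 * ((M * q : ℕ) : ℤ)) - ((M * q : ℕ) : ℤ)|
        ≤ ((M * q : ℕ) : ℤ))).card := by
  classical
  obtain ⟨t, u, hy, hu0, huM⟩ : ∃ t u : ℤ, y = M * t + u ∧ 0 ≤ u ∧ u < M := by
    refine ⟨y / M, y % M, (Int.mul_ediv_add_emod y M).symm, Int.emod_nonneg _ (by positivity),
      Int.emod_lt_of_pos _ (by positivity)⟩
  have hM' : (0 : ℤ) < M := by exact_mod_cast hM
  have hq' : (8 : ℤ) ≤ q := by exact_mod_cast hq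
  obtain ⟨v, hv1, hv2⟩ : ∃ v : ℤ, 3 * ((M : ℤ) * q) ≤ 4 * (M * v + u) ∧
      4 * (M * (v - 1) + u) < 3 * ((M : ℤ) * q) := by
    refine ⟨(3 * ((M : ℤ) * q) - 4 * u - 1) / (4 * M) + 1, ?_, ?_⟩
    · have := Int.lt_mul_ediv_self_add (x := 3 * ((M : ℤ) * q) - 4 * u - 1) (k := 4 * M) (by positivity)
      nlinarith
    · have := Int.mul_ediv_self_le (x := 3 * ((M : ℤ) * q) - 4 * u - 1) (k := 4 * M) (by positivity)
      nlinarith
  have hq2 : (0 : ℤ) < 2 * (q : ℤ) := by positivity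
  have key : ((Finset.range (q / 2)).card) ≤ ((Finset.range (2 * q)).filter (fun s : ℕ =>
      4 * |(y - (M : ℤ) * s) % (2 * ((M * q : ℕ) : ℤ)) - ((M * q : ℕ) : ℤ)|
        ≤ ((M * q : ℕ) : ℤ))).card := by
    apply Finset.card_le_card_of_injOn (fun i : ℕ => ((t - v - i) % (2 * q)).toNat)
    · intro i hi
      have hi' : i < q / 2 := by simpa using hi
      have hi2 : 2 * ((i : ℤ) + 1) ≤ q := by omega
      have hs0 : 0 ≤ (t - v - i) % (2 * (q : ℤ)) := Int.emod_nonneg _ (by positivity)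
      have hs1 : (t - v - i) % (2 * (q : ℤ)) < 2 * q := Int.emod_lt_of_pos _ hq2
      have hle : 4 * (M * (v + i) + u) ≤ 5 * ((M : ℤ) * q) := by nlinarith
      have hge : 3 * ((M : ℤ) * q) ≤ 4 * (M * (v + i) + u) := by
        have : (0 : ℤ) ≤ M * i := by positivity
        nlinarith
      have hMq : (0 : ℤ) < (M : ℤ) * q := by positivity
      simp only [Finset.coe_filter, Finset.mem_range, Set.mem_ofPred_eq]
      refine ⟨by omega, ?_⟩
      rw [Int.toNat_of_nonneg hs0]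
      have hmod : (y - (M : ℤ) * ((t - v - i) % (2 * q))) % (2 * ((M * q : ℕ) : ℤ))
          = M * (v + i) + u := by
        have h1 : (t - v - i) % (2 * (q : ℤ)) = (t - v - i) - 2 * q * ((t - v - i) / (2 * q)) := by
          rw [Int.emod_def]
        rw [h1, hy]
        have h2 : (M : ℤ) * t + u - M * (t - v - i - 2 * q * ((t - v - i) / (2 * q)))
            = (M * (v + i) + u) + (2 * ((M * q : ℕ) : ℤ)) * ((t - v - i) / (2 * q)) := by
          push_cast; ring
        rw [h2, Int.add_mul_emod_self_left]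
        apply Int.emod_eq_of_lt
        · nlinarith
        · push_cast; nlinarith
      rw [hmod]
      push_cast
      rw [← abs_of_pos (show (0 : ℤ) < 4 by norm_num), ← abs_mul]
      rw [abs_le]
      constructor <;> nlinarith
    · intro i hi i' hi' h
      have hi1 : i < q / 2 := by simpa using hi
      have hi2 : i' < q / 2 := by simpa using hi'
      have hs0 : 0 ≤ (t - v - i) % (2 * (q : ℤ)) := Int.emod_nonneg _ (by positivity)
      have hs0' : 0 ≤ (t - v - i') % (2 * (q : ℤ)) := Int.emod_nonneg _ (by positivity)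
      have h' : (t - v - i) % (2 * (q : ℤ)) = (t - v - i') % (2 * (q : ℤ)) := by
        simp only at h
        omega
      have h3 : (2 * (q : ℤ)) ∣ (t - v - i) - (t - v - i') := Int.ModEq.dvd (Int.ModEq.symm h')
      obtain ⟨c, hc⟩ := h3
      have h4 : (i' : ℤ) - i = 2 * q * c := by linarith
      have h5 : c = 0 := by
        by_contra hne
        rcases lt_or_gt_of_ne hne with hlt | hgt
        · have : (2 : ℤ) * q * c ≤ -(2 * q) := by nlinarith
          omega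
        · have : (2 : ℤ) * q ≤ 2 * q * c := by nlinarith
          omega
      rw [h5] at h4
      omega
  simpa using key

/-- the weight of one scale -/
noncomputable def bulkW (L : ℕ) (z : ℝ) (x : ℤ × ℤ) (a b : ℕ) : ℝ :=
  if @decide (bulk L ((a : ℤ), (b : ℤ)) x) (Classical.dec _) = true then Real.exp (-z) else 1

theorem bulkW_pos (L : ℕ) (z : ℝ) (x : ℤ × ℤ) (a b : ℕ) (h : bulk L ((a : ℤ), (b : ℤ)) x) :
    bulkW L z x a b = Real.exp (-z) := by
  unfold bulkW
  rw [if_pos (@decide_eq_true _ (Classical.dec _) h)]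

theorem bulkW_neg (L : ℕ) (z : ℝ) (x : ℤ × ℤ) (a b : ℕ) (h : ¬ bulk L ((a : ℤ), (b : ℤ)) x) :
    bulkW L z x a b = 1 := by
  unfold bulkW
  rw [if_neg (fun h' => h (@of_decide_eq_true _ (Classical.dec _) h'))]

theorem bulkW_nonneg (L : ℕ) (z : ℝ) (x : ℤ × ℤ) (a b : ℕ) : 0 ≤ bulkW L z x a b := by
  unfold bulkW
  split_ifs
  · positivity
  · norm_num

theorem bulkW_periodic (L : ℕ) (z : ℝ) (x : ℤ × ℤ) (M : ℕ) (hM : 2 * L ∣ M) (a b s s' : ℕ) :
    bulkW L z x (a + M * s) (b + M * s') = bulkW L z x a b := by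
  obtain ⟨c, hc⟩ := hM
  have h1 : ∀ (y : ℤ) (a s : ℕ), (y - ((a + M * s : ℕ) : ℤ)) % (2 * (L : ℤ)) = (y - (a : ℤ)) % (2 * (L : ℤ)) := by
    intro y a s
    have : (y - ((a + M * s : ℕ) : ℤ)) = (y - (a : ℤ)) + (2 * (L : ℤ)) * (-(c * s)) := by
      subst hc; push_cast; ring
    rw [this, Int.add_mul_emod_self_left]
  have hb : bulk L (((a + M * s : ℕ) : ℤ), ((b + M * s' : ℕ) : ℤ)) x ↔ bulk L ((a : ℤ), (b : ℤ)) x := by
    unfold bulk
    simp only [h1]
  by_cases h : bulk L ((a : ℤ), (b : ℤ)) x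
  · rw [bulkW_pos _ _ _ _ _ h, bulkW_pos _ _ _ _ _ (hb.mpr h)]
  · rw [bulkW_neg _ _ _ _ _ h, bulkW_neg _ _ _ _ _ (fun h' => h (hb.mp h'))]

theorem bulkW_inner (M q : ℕ) (hM : 0 < M) (hq : 8 ≤ q) (z : ℝ) (hz : 0 ≤ z) (x : ℤ × ℤ)
    (r r' : ℕ) :
    ∑ s ∈ Finset.range (2 * q), ∑ s' ∈ Finset.range (2 * q),
      bulkW (M * q) z x (r + M * s) (r' + M * s')
      ≤ ((2 * q : ℕ) : ℝ) ^ 2 * (1 - (1 / 30) * (1 - Real.exp (-z))) := by
  classical
  set A : ℕ → Prop := fun s => 4 * |((x.1 - r) - (M : ℤ) * s) % (2 * ((M * q : ℕ) : ℤ)) - ((M * q : ℕ) : ℤ)|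
        ≤ ((M * q : ℕ) : ℤ) with hA
  set B : ℕ → Prop := fun s => 4 * |((x.2 - r') - (M : ℤ) * s) % (2 * ((M * q : ℕ) : ℤ)) - ((M * q : ℕ) : ℤ)|
        ≤ ((M * q : ℕ) : ℤ) with hB
  have hcA : q / 2 ≤ ((Finset.range (2 * q)).filter A).card := by
    convert bulk_avg_cnt M q hM (x.1 - r) hq
  have hcB : q / 2 ≤ ((Finset.range (2 * q)).filter B).card := by
    convert bulk_avg_cnt M q hM (x.2 - r') hq
  have hW : ∀ s s' : ℕ, bulkW (M * q) z x (r + M * s) (r' + M * s')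
      = 1 - (1 - Real.exp (-z)) * ((if A s then (1 : ℝ) else 0) * (if B s' then (1 : ℝ) else 0)) := by
    intro s s'
    have e1 : (x.1 - ((r + M * s : ℕ) : ℤ)) = (x.1 - r) - (M : ℤ) * s := by push_cast; ring
    have e2 : (x.2 - ((r' + M * s' : ℕ) : ℤ)) = (x.2 - r') - (M : ℤ) * s' := by push_cast; ring
    have hb : bulk (M * q) (((r + M * s : ℕ) : ℤ), ((r' + M * s' : ℕ) : ℤ)) x ↔ (A s ∧ B s') := by
      unfold bulk
      simp only [e1, e2, hA, hB]
    by_cases h1 : A s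
    · by_cases h2 : B s'
      · rw [bulkW_pos _ _ _ _ _ (hb.mpr ⟨h1, h2⟩), if_pos h1, if_pos h2]; ring
      · rw [bulkW_neg _ _ _ _ _ (fun h' => h2 (hb.mp h').2), if_neg h2]; ring
    · rw [bulkW_neg _ _ _ _ _ (fun h' => h1 (hb.mp h').1), if_neg h1]; ring
  simp_rw [hW]
  have hsum : ∑ s ∈ Finset.range (2 * q), ∑ s' ∈ Finset.range (2 * q),
      (1 - (1 - Real.exp (-z)) * ((if A s then (1 : ℝ) else 0) * (if B s' then (1 : ℝ) else 0)))
      = ((2 * q : ℕ) : ℝ) ^ 2 - (1 - Real.exp (-z)) *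
        ((((Finset.range (2 * q)).filter A).card : ℝ) * (((Finset.range (2 * q)).filter B).card : ℝ)) := by
    have eA : ∑ s ∈ Finset.range (2 * q), (if A s then (1 : ℝ) else 0)
        = (((Finset.range (2 * q)).filter A).card : ℝ) := by
      rw [Finset.card_filter]; push_cast; rfl
    have eB : ∑ s ∈ Finset.range (2 * q), (if B s then (1 : ℝ) else 0)
        = (((Finset.range (2 * q)).filter B).card : ℝ) := by
      rw [Finset.card_filter]; push_cast; rfl
    simp only [Finset.sum_sub_distrib, ← Finset.mul_sum, ← Finset.sum_mul, eA, eB]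
    simp
    ring
  rw [hsum]
  have he : 0 ≤ 1 - Real.exp (-z) := by
    have : Real.exp (-z) ≤ 1 := Real.exp_le_one_iff.mpr (by linarith)
    linarith
  have hq1 : ((q : ℝ) - 1) / 2 ≤ ((q / 2 : ℕ) : ℝ) := by
    have : q ≤ 2 * (q / 2) + 1 := by omega
    have : (q : ℝ) ≤ 2 * ((q / 2 : ℕ) : ℝ) + 1 := by exact_mod_cast this
    linarith
  have hqr : (8 : ℝ) ≤ q := by exact_mod_cast hq
  have a1 : ((q : ℝ) - 1) / 2 ≤ (((Finset.range (2 * q)).filter A).card : ℝ) :=
    hq1.trans (by exact_mod_cast hcA)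
  have a2 : ((q : ℝ) - 1) / 2 ≤ (((Finset.range (2 * q)).filter B).card : ℝ) :=
    hq1.trans (by exact_mod_cast hcB)
  have hprod : ((2 * q : ℕ) : ℝ) ^ 2 * (1 / 30) ≤
      (((Finset.range (2 * q)).filter A).card : ℝ) * (((Finset.range (2 * q)).filter B).card : ℝ) := by
    have h1 : ((q : ℝ) - 1) / 2 * (((q : ℝ) - 1) / 2) ≤
      (((Finset.range (2 * q)).filter A).card : ℝ) * (((Finset.range (2 * q)).filter B).card : ℝ) :=
      mul_le_mul a1 a2 (by linarith) (by positivity)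
    refine le_trans ?_ h1
    push_cast
    nlinarith
  nlinarith [mul_le_mul_of_nonneg_left hprod he]

theorem bulk_avg_block (N K : ℕ) (f : ℕ → ℕ → ℝ) (hf : ∀ a b s s', f (a + N * s) (b + N * s') = f a b) :
    ∑ a ∈ Finset.range (N * K), ∑ b ∈ Finset.range (N * K), f a b
      = (K : ℝ) ^ 2 * ∑ a ∈ Finset.range N, ∑ b ∈ Finset.range N, f a b := by
  rw [bulk_avg_sum_mul]
  simp_rw [bulk_avg_sum_mul N K, hf]
  simp only [Finset.sum_const, Finset.card_range, nsmul_eq_mul, ← Finset.mul_sum]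
  ring

theorem bulk_avg_W (j : ℕ) : ∀ (Λ : ℕ) (L : ℕ → ℕ) (_ : ∀ i < j, 16 ≤ L i) (_ : ∀ i < j, 2 * L i ∣ Λ)
    (_ : ∀ i, i + 1 < j → 2 * L (i + 1) ∣ L i ∧ 16 * L (i + 1) ≤ L i) (x : ℤ × ℤ) (z : ℕ → ℝ) (_ : ∀ i, 0 ≤ z i),
    ∑ a ∈ Finset.range Λ, ∑ b ∈ Finset.range Λ, ∏ k ∈ Finset.range j, bulkW (L k) (z k) x a b ≤
      (Λ : ℝ) ^ 2 * ∏ k ∈ Finset.range j, (1 - (1 / 30) * (1 - Real.exp (-(z k)))) := by
  induction j with
  | zero =>
    intro Λ L hL h0 hdvd x z hz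
    simp [sq]
  | succ j ih =>
    intro Λ L hL h0 hdvd x z hz
    -- the next finer mesh
    obtain ⟨M, q, hM, hMq, hq, hdM⟩ : ∃ M q : ℕ, 0 < M ∧ M * q = L 0 ∧ 8 ≤ q ∧ ∀ i < j, 2 * L (i + 1) ∣ M := by
      rcases Nat.eq_zero_or_pos j with hj | hj
      · refine ⟨1, L 0, one_pos, one_mul _, ?_, ?_⟩
        · have := hL 0 (by omega); omega
        · intro i hi; omega
      · obtain ⟨⟨c, hc⟩, h2⟩ := hdvd 0 (by omega)
        have hL1 := hL 1 (by omega)
        refine ⟨2 * L 1, c, by omega, by rw [hc], ?_, ?_⟩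
        · by_contra hlt
          have : c ≤ 7 := by omega
          have : L 0 ≤ 2 * L 1 * 7 := by
            rw [hc]; exact Nat.mul_le_mul_left _ this
          simp only [zero_add] at h2
          omega
        · intro i
          induction i with
          | zero => intro _; simp
          | succ i ihi =>
            intro hi
            have h3 := ihi (by omega)
            obtain ⟨h4, -⟩ := hdvd (i + 1) (by omega)
            exact (h4.trans (Dvd.intro_left 2 rfl)).trans h3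
    obtain ⟨K, hK⟩ := h0 0 (by omega)
    have hLN : 2 * L 0 = M * (2 * q) := by rw [← hMq]; ring
    -- reduction to one period
    set c0 := (1 - (1 / 30) * (1 - Real.exp (-(z 0)))) with hc0
    have hc0' : 0 ≤ c0 := by
      have h1 : Real.exp (-(z 0)) ≤ 1 := Real.exp_le_one_iff.mpr (by linarith [hz 0])
      have h2 := Real.exp_pos (-(z 0))
      rw [hc0]; linarith
    set G : ℕ → ℕ → ℝ := fun a b => ∏ k ∈ Finset.range j, bulkW (L (k + 1)) (z (k + 1)) x a b with hG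
    have hG0 : ∀ a b, 0 ≤ G a b := fun a b => Finset.prod_nonneg (fun k _ => bulkW_nonneg _ _ _ _ _)
    have hGper : ∀ a b s s', G (a + M * s) (b + M * s') = G a b := by
      intro a b s s'
      apply Finset.prod_congr rfl
      intro k hk
      exact bulkW_periodic _ _ _ _ (hdM k (by simpa using hk)) _ _ _ _
    have hprod : ∀ a b : ℕ, ∏ k ∈ Finset.range (j + 1), bulkW (L k) (z k) x a b
        = G a b * bulkW (L 0) (z 0) x a b := by
      intro a b
      rw [Finset.prod_range_succ']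
    simp_rw [hprod]
    rw [hK, hLN]
    rw [bulk_avg_block (M * (2 * q)) K]
    swap
    · intro a b s s'
      have h1 := hGper a b (2 * q * s) (2 * q * s')
      rw [← mul_assoc M (2 * q) s, ← mul_assoc M (2 * q) s'] at h1
      rw [h1, bulkW_periodic _ _ _ _ (by rw [hLN]) _ _ _ _]
    have hmain : ∑ a ∈ Finset.range (M * (2 * q)), ∑ b ∈ Finset.range (M * (2 * q)),
        G a b * bulkW (L 0) (z 0) x a b ≤
        (((2 * q : ℕ) : ℝ) ^ 2 * c0) * ∑ r ∈ Finset.range M, ∑ r' ∈ Finset.range M, G r r' := by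
      rw [bulk_avg_sum_mul]
      simp_rw [bulk_avg_sum_mul M (2 * q), hGper]
      rw [Finset.mul_sum]
      apply Finset.sum_le_sum
      intro r _
      rw [Finset.sum_comm, Finset.mul_sum]
      apply Finset.sum_le_sum
      intro r' _
      simp_rw [← Finset.mul_sum]
      rw [mul_comm]
      apply mul_le_mul_of_nonneg_right _ (hG0 _ _)
      rw [← hMq]
      exact bulkW_inner M q hM hq (z 0) (hz 0) x r r'
    have hih := ih M (fun i => L (i + 1)) (fun i hi => hL (i + 1) (by omega)) hdM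
      (fun i hi => hdvd (i + 1) (by omega)) x (fun i => z (i + 1)) (fun i => hz (i + 1))
    rw [Finset.prod_range_succ']
    have hpn : 0 ≤ (((2 * q : ℕ) : ℝ) ^ 2 * c0) := by positivity
    calc (K : ℝ) ^ 2 * ∑ a ∈ Finset.range (M * (2 * q)), ∑ b ∈ Finset.range (M * (2 * q)),
        G a b * bulkW (L 0) (z 0) x a b
        ≤ (K : ℝ) ^ 2 * ((((2 * q : ℕ) : ℝ) ^ 2 * c0) * ∑ r ∈ Finset.range M, ∑ r' ∈ Finset.range M, G r r') :=
          mul_le_mul_of_nonneg_left hmain (by positivity)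
      _ ≤ (K : ℝ) ^ 2 * ((((2 * q : ℕ) : ℝ) ^ 2 * c0) * ((M : ℝ) ^ 2 *
            ∏ k ∈ Finset.range j, (1 - (1 / 30) * (1 - Real.exp (-(z (k + 1))))))) :=
          mul_le_mul_of_nonneg_left (mul_le_mul_of_nonneg_left hih hpn) (by positivity)
      _ = _ := by
          push_cast
          ring

theorem _root_.H941.bulk_avg (Λ j : ℕ) (L : ℕ → ℕ) (hL : ∀ i < j, 16 ≤ L i) (h0 : ∀ i < j, 2 * L i ∣ Λ)
    (hdvd : ∀ i, i + 1 < j → 2 * L (i + 1) ∣ L i ∧ 16 * L (i + 1) ≤ L i) (x : ℤ × ℤ) (z : ℕ → ℝ) (hz : ∀ i, 0 ≤ z i) :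
    ∑ a ∈ Finset.range Λ, ∑ b ∈ Finset.range Λ, ∏ k ∈ Finset.range j,
        (if @decide (bulk (L k) ((a : ℤ), (b : ℤ)) x) (Classical.dec _) = true then Real.exp (-(z k)) else 1) ≤
      (Λ : ℝ) ^ 2 * ∏ k ∈ Finset.range j, (1 - (1 / 30) * (1 - Real.exp (-(z k)))) := 
  bulk_avg_W j Λ L hL h0 hdvd x z hz

end H941.bulk_avg
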