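import Pool.Agent.KS6_63.GFF.Defs4
import Pool.Agent.KS6_63.GFF.A3
import Pool.Agent.KS6_63.GFF.A6
import Pool.Agent.KS6_63.GFF.A7
import Pool.Agent.KS6_63.GFF.A8

open MeasureTheory ProbabilityTheory

namespace H941.gs_facts

theorem gs_sub (D : Finset (ℤ × ℤ)) (L : ℕ) (s : ℤ × ℤ) : gridSet D L s ⊆ gridSet D (2 * L) s := by
  intro z hz
  unfold gridSet at hz ⊢
  rw [Finset.mem_filter] at hz ⊢
  obtain ⟨h1, h2, h3⟩ := hz
  refine ⟨h1, fun h => h2 ?_, fun h => h3 ?_⟩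
  · exact Dvd.dvd.trans ⟨2, by push_cast; ring⟩ h
  · exact Dvd.dvd.trans ⟨2, by push_cast; ring⟩ h

theorem gs_subD (D : Finset (ℤ × ℤ)) (L : ℕ) (s : ℤ × ℤ) : gridSet D L s ⊆ D := by
  unfold gridSet
  exact Finset.filter_subset _ _

theorem gs_sum (D : Finset (ℤ × ℤ)) (L : ℕ) (s x : ℤ × ℤ) :
    ∑ y ∈ D, green (gridSet D L s) x y = ∑ y ∈ gridSet D L s, green (gridSet D L s) x y := by
  symm
  apply Finset.sum_subset (gs_subD D L s)
  intro y _ hy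
  exact (green_basic (gridSet D L s)).2.1 x y (Or.inr hy)

theorem gs_row (D : Finset (ℤ × ℤ)) (L : ℕ) (a x : ℤ × ℤ) :
    ∑ y ∈ D, Gs D L a x y = (1 / 4) *
      (∑ y ∈ gridSet D (2 * L) a, green (gridSet D (2 * L) a) x y
          - ∑ y ∈ gridSet D L a, green (gridSet D L a) x y) := by
  unfold Gs
  rw [← Finset.mul_sum, Finset.sum_sub_distrib, gs_sum, gs_sum]

/-- the middle part of the cell of mesh `2 L` -/
theorem gs_mid (L : ℤ) (hL : 1 ≤ L) (t : ℤ) (h : 4 * |t % (2 * L) - L| ≤ L) :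
    15 * L ^ 2 ≤ 16 * (t % (2 * L) * (2 * L - t % (2 * L))) ∧
    16 * (t % L * (L - t % L)) ≤ 3 * L ^ 2 := by
  have hmod : t % L = (t % (2 * L)) % L := (Int.emod_emod_of_dvd t (Dvd.intro_left 2 rfl)).symm
  set P := t % (2 * L) with hP
  have hP0 : 0 ≤ P := Int.emod_nonneg _ (by omega)
  have hP1 : P < 2 * L := Int.emod_lt_of_pos _ (by omega)
  have habs : |P - L| ≤ |P - L| := le_rfl
  obtain ⟨h1, h2⟩ := abs_le.mp habs
  have h3 : 4 * (P - L) ≤ L := by omega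
  have h4 : -L ≤ 4 * (P - L) := by omega
  constructor
  · nlinarith
  · rcases lt_or_ge P L with hlt | hge
    · have hp : t % L = P := by rw [hmod, Int.emod_eq_of_lt hP0 hlt]
      rw [hp]
      nlinarith
    · have hp : t % L = P - L := by
        rw [hmod]
        have h5 : P = (P - L) + L * 1 := by ring
        have h6 : (P - L + L * 1) % L = (P - L) % L := Int.add_mul_emod_self_left _ _ _
        rw [← h5] at h6
        rw [h6, Int.emod_eq_of_lt (by omega) (by omega)]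
      rw [hp]
      nlinarith

theorem _root_.H941.gs_facts (V : Finset (ℤ × ℤ)) (L : ℕ) (hL : 1 ≤ L) (a : ℤ × ℤ) :
    (∀ x y, 0 ≤ Gs V L a x y) ∧
    (∀ x y, Gs V L a x y = Gs V L a y x) ∧
    (∀ x y, x ∉ V ∨ y ∉ V → Gs V L a x y = 0) ∧
    (∀ x y, ¬ (|x.1 - y.1| < 2 * (L : ℤ) ∧ |x.2 - y.2| < 2 * (L : ℤ)) → Gs V L a x y = 0) ∧
    (∀ x, ∑ y ∈ V, Gs V L a x y ≤ (L : ℝ) ^ 2 / 2) ∧
    (∀ x : ℤ × ℤ, (∀ z : ℤ × ℤ, |z.1 - x.1| < 2 * (L : ℤ) → |z.2 - x.2| < 2 * (L : ℤ) → z ∈ V) → bulk L a x →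
      (L : ℝ) ^ 2 / 36 ≤ ∑ y ∈ V, Gs V L a x y) := by
  have hL' : (1 : ℤ) ≤ (L : ℤ) := by exact_mod_cast hL
  refine ⟨?_, ?_, ?_, ?_, ?_, ?_⟩
  · intro x y
    unfold Gs
    apply mul_nonneg (by norm_num)
    rw [sub_nonneg]
    exact (green_basic (gridSet V L a)).2.2.2.1 _ (gs_sub V L _) x y
  · intro x y
    unfold Gs
    rw [(green_basic (gridSet V L a)).2.2.1 x y, (green_basic (gridSet V (2 * L) a)).2.2.1 x y]
  · intro x y hxy
    unfold Gs
    have key : ∀ M : ℕ, green (gridSet V M a) x y = 0 := by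
      intro M
      apply (green_basic (gridSet V M a)).2.1 x y
      rcases hxy with h | h
      · exact Or.inl (fun h' => h (gs_subD V M _ h'))
      · exact Or.inr (fun h' => h (gs_subD V M _ h'))
    rw [key, key, sub_zero, mul_zero]
  · intro x y hxy
    unfold Gs
    have h1 : green (gridSet V (2 * L) a) x y = 0 := by
      by_contra h
      have := gridSet_range V (2 * L) (by omega) a x y h
      push_cast at this
      exact hxy this
    have h2 : green (gridSet V L a) x y = 0 := by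
      by_contra h
      have := gridSet_range V L hL a x y h
      exact hxy ⟨by linarith [this.1], by linarith [this.2]⟩
    rw [h1, h2, sub_zero, mul_zero]
  · intro x
    rw [gs_row]
    have h1 := gridSet_mass_le V (2 * L) (by omega) a x
    have h2 : 0 ≤ ∑ y ∈ gridSet V L a, green (gridSet V L a) x y :=
      Finset.sum_nonneg (fun y _ => (green_basic (gridSet V L a)).1 x y)
    set p : ℝ := (((x.1 - a.1) % ((2 * L : ℕ) : ℤ) : ℤ) : ℝ) with hp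
    have h3 : 2 * p * (((2 * L : ℕ) : ℝ) - p) ≤ 2 * (L : ℝ) ^ 2 := by
      push_cast
      nlinarith [sq_nonneg (p - L)]
    linarith
  · intro x hx hb
    rw [gs_row]
    obtain ⟨hb1, hb2⟩ := hb
    obtain ⟨c1, c2⟩ := gs_mid (L : ℤ) hL' (x.1 - a.1) hb1
    obtain ⟨c3, -⟩ := gs_mid (L : ℤ) hL' (x.2 - a.2) hb2
    have hLr : (1 : ℝ) ≤ (L : ℝ) := by exact_mod_cast hL
    have h1 := gridSet_mass_ge V (2 * L) (by omega) a x
      (by
        intro z hz1 hz2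
        push_cast at hz1 hz2
        exact hx z hz1 hz2)
      _ _ rfl rfl
    have h2 := gridSet_mass_le V L hL a x
    push_cast at h1 h2
    have d1 : 15 * (L : ℝ) ^ 2 ≤ 16 * ((((x.1 - a.1) % (2 * (L : ℤ)) : ℤ) : ℝ)
        * (2 * (L : ℝ) - (((x.1 - a.1) % (2 * (L : ℤ)) : ℤ) : ℝ))) := by
      exact_mod_cast c1
    have d3 : 15 * (L : ℝ) ^ 2 ≤ 16 * ((((x.2 - a.2) % (2 * (L : ℤ)) : ℤ) : ℝ)
        * (2 * (L : ℝ) - (((x.2 - a.2) % (2 * (L : ℤ)) : ℤ) : ℝ))) := by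
      exact_mod_cast c3
    have d2 : 16 * ((((x.1 - a.1) % (L : ℤ) : ℤ) : ℝ)
        * ((L : ℝ) - (((x.1 - a.1) % (L : ℤ) : ℤ) : ℝ))) ≤ 3 * (L : ℝ) ^ 2 := by
      exact_mod_cast c2
    set X : ℝ := (((x.1 - a.1) % (2 * (L : ℤ)) : ℤ) : ℝ)
        * (2 * (L : ℝ) - (((x.1 - a.1) % (2 * (L : ℤ)) : ℤ) : ℝ)) with hX
    set Y : ℝ := (((x.2 - a.2) % (2 * (L : ℤ)) : ℤ) : ℝ)
        * (2 * (L : ℝ) - (((x.2 - a.2) % (2 * (L : ℤ)) : ℤ) : ℝ)) with hY
    set p : ℝ := (((x.1 - a.1) % (L : ℤ) : ℤ) : ℝ) with hp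
    have hL2 : (0 : ℝ) < (L : ℝ) ^ 2 := by positivity
    have e1 : (225 / 256) * (L : ℝ) ^ 2 ≤ 4 * X * Y / (2 * (L : ℝ)) ^ 2 := by
      rw [le_div_iff₀ (by positivity)]
      have e2 : (15 / 16 * (L : ℝ) ^ 2) * (15 / 16 * (L : ℝ) ^ 2) ≤ X * Y :=
        mul_le_mul (by linarith) (by linarith) (by positivity) (by linarith)
      nlinarith
    have e3 : 2 * p * ((L : ℝ) - p) ≤ 3 / 8 * (L : ℝ) ^ 2 := by nlinarith
    linarith

end H941.gs_facts
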