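import Pool.Agent.KS6_63.GFF.Defs4
import Pool.Agent.KS6_63.GFF.C.gs_facts_
import Pool.Agent.KS6_63.GFF.C.gs_psd_
import Pool.Agent.KS6_63.GFF.G4
import Pool.Agent.KS6_63.GFF.K5

open MeasureTheory ProbabilityTheory

namespace H941.level_fixed

theorem h7312_w_nonneg (S : Finset (ℤ × ℤ)) (T ρ : ℕ) (δ : ℝ) (s : ℂ × ℂ) (b : Bool)
    (y : (S : Finset (ℤ × ℤ))) (h : (y : ℤ × ℤ) ∉ region T ρ δ (!b) s) :
    0 ≤ (if b then (1 : ℝ) else -1) * Wfun S T ρ δ s y := by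
  unfold Wfun
  cases b
  · simp only [Bool.not_false] at h
    rw [if_neg h, if_neg (by simp)]
    split_ifs <;> norm_num
  · simp only [Bool.not_true] at h
    rw [if_neg h, if_pos rfl]
    split_ifs <;> norm_num

theorem h7312_w_one (S : Finset (ℤ × ℤ)) (T ρ : ℕ) (δ : ℝ) (s : ℂ × ℂ) (b : Bool)
    (y : (S : Finset (ℤ × ℤ))) (h : (y : ℤ × ℤ) ∉ region T ρ δ (!b) s)
    (h' : (y : ℤ × ℤ) ∈ region T ρ δ b s) :
    (if b then (1 : ℝ) else -1) * Wfun S T ρ δ s y = 1 := by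
  unfold Wfun
  cases b
  · simp only [Bool.not_false] at h
    rw [if_neg h, if_pos h', if_neg (by simp)]
    norm_num
  · simp only [Bool.not_true] at h
    rw [if_neg h, if_pos h', if_pos rfl]
    norm_num

theorem h7312_w_abs (S : Finset (ℤ × ℤ)) (T ρ : ℕ) (δ : ℝ) (s : ℂ × ℂ) (b : Bool)
    (y : (S : Finset (ℤ × ℤ))) :
    |(if b then (1 : ℝ) else -1) * Wfun S T ρ δ s y| ≤ 1 := by
  unfold Wfun
  cases b <;> split_ifs <;> norm_num

theorem h7312_w_sum (S : Finset (ℤ × ℤ)) (T ρ : ℕ) (δ : ℝ) (s : ℂ × ℂ) (b : Bool) :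
    ∑ y : (S : Finset (ℤ × ℤ)), |(if b then (1 : ℝ) else -1) * Wfun S T ρ δ s y| ≤
      (region T ρ δ true s).card + (region T ρ δ false s).card := by
  classical
  have h1 : ∀ y : (S : Finset (ℤ × ℤ)), |(if b then (1 : ℝ) else -1) * Wfun S T ρ δ s y| ≤
      (if (y : ℤ × ℤ) ∈ region T ρ δ true s then (1 : ℝ) else 0) +
      (if (y : ℤ × ℤ) ∈ region T ρ δ false s then (1 : ℝ) else 0) := by
    intro y
    unfold Wfun
    cases b <;> split_ifs <;> norm_num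
  refine (Finset.sum_le_sum fun y _ => h1 y).trans ?_
  rw [Finset.sum_add_distrib]
  have h2 : ∀ R : Finset (ℤ × ℤ), ∑ y : (S : Finset (ℤ × ℤ)), (if (y : ℤ × ℤ) ∈ R then (1 : ℝ) else 0) ≤
      R.card := by
    intro R
    rw [Finset.sum_coe_sort S (fun y => if y ∈ R then (1 : ℝ) else 0), ← Finset.sum_filter,
      Finset.sum_const, nsmul_eq_mul, mul_one]
    have h3 : (S.filter (fun y => y ∈ R)).card ≤ R.card :=
      Finset.card_le_card fun y hy => (Finset.mem_filter.1 hy).2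
    exact_mod_cast h3
  exact add_le_add (h2 _) (h2 _)

theorem h7312_norm_toC (v z : ℤ × ℤ) (L : ℕ) (h1 : |z.1 - v.1| < 2 * (L : ℤ))
    (h2 : |z.2 - v.2| < 2 * (L : ℤ)) : ‖toC z - toC v‖ ≤ 4 * L := by
  have h3 : ‖toC z - toC v‖ ≤ |(toC z - toC v).re| + |(toC z - toC v).im| :=
    Complex.norm_le_abs_re_add_abs_im _
  have h4 : (toC z - toC v).re = ((z.1 - v.1 : ℤ) : ℝ) := by
    simp [toC]
  have h5 : (toC z - toC v).im = ((z.2 - v.2 : ℤ) : ℝ) := by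
    simp [toC]
  have h6 : |((z.1 - v.1 : ℤ) : ℝ)| ≤ 2 * L := by
    have : ((|z.1 - v.1| : ℤ) : ℝ) ≤ ((2 * (L : ℤ) : ℤ) : ℝ) := by exact_mod_cast h1.le
    rw [Int.cast_abs] at this
    push_cast at this ⊢
    exact this
  have h7 : |((z.2 - v.2 : ℤ) : ℝ)| ≤ 2 * L := by
    have : ((|z.2 - v.2| : ℤ) : ℝ) ≤ ((2 * (L : ℤ) : ℤ) : ℝ) := by exact_mod_cast h2.le
    rw [Int.cast_abs] at this
    push_cast at this ⊢
    exact this
  rw [h4, h5] at h3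
  linarith

theorem h7312_norm_rd (z : ℂ) : ‖toC (rd z) - z‖ ≤ 2 := by
  have h3 : ‖toC (rd z) - z‖ ≤ |(toC (rd z) - z).re| + |(toC (rd z) - z).im| :=
    Complex.norm_le_abs_re_add_abs_im _
  have h4 : (toC (rd z) - z).re = ⌊z.re⌋ - z.re := by
    simp [toC, rd]
  have h5 : (toC (rd z) - z).im = ⌊z.im⌋ - z.im := by
    simp [toC, rd]
  have h6 : |(⌊z.re⌋ : ℝ) - z.re| ≤ 1 := by
    have a := Int.floor_le z.re
    have b := Int.lt_floor_add_one z.re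
    rw [abs_le]
    constructor <;> linarith
  have h7 : |(⌊z.im⌋ : ℝ) - z.im| ≤ 1 := by
    have a := Int.floor_le z.im
    have b := Int.lt_floor_add_one z.im
    rw [abs_le]
    constructor <;> linarith
  rw [h4, h5] at h3
  linarith

theorem h7312_norm_off (b : Bool) (δ t : ℝ) (hδ : 0 ≤ δ) (ht : 0 ≤ t) (w : ℂ) :
    ‖bsign b * δ * Complex.I * (t : ℂ) * w‖ = t * (δ * ‖w‖) := by
  have h1 : ‖bsign b‖ = 1 := by
    cases b <;> simp [bsign]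
  rw [norm_mul, norm_mul, norm_mul, norm_mul, h1, Complex.norm_I, Complex.norm_real, Complex.norm_real,
    Real.norm_of_nonneg hδ, Real.norm_of_nonneg ht]
  ring

/-- facts about a point near the segment -/
theorem h7312_near (D S : Finset (ℤ × ℤ)) (hDS : D ⊆ S) (L T ρ : ℕ) (a : ℤ × ℤ) (hL1 : 1 ≤ L)
    (δ : ℝ) (s : ℂ × ℂ) (hδ : 0 < δ) (hδ' : δ ≤ 1 / 8)
    (hd : 96 ≤ δ * ‖s.2‖) (hT : 16 / δ ≤ T) (hρ : 3 / 8 * (δ * ‖s.2‖) ≤ ρ)
    (hρ' : (ρ : ℝ) ≤ 3 / 8 * (δ * ‖s.2‖) + 1) (hL : 2 * (L : ℝ) ≤ δ * ‖s.2‖ / 16)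
    (hbulk : ∀ (z : ℤ × ℤ) (τ : ℝ), 0 ≤ τ → τ ≤ 1 →
        ‖toC z - (s.1 + (τ : ℂ) * s.2)‖ ≤ 2 * (δ * ‖s.2‖) → z ∈ D)
    (b : Bool) (v : ℤ × ℤ) (τ t : ℝ) (h0τ : 0 ≤ τ) (hτ1 : τ ≤ 1) (h0t : 0 ≤ t) (ht1 : t ≤ 1)
    (hv : ‖toC v - (s.1 + (τ : ℂ) * s.2 + bsign b * δ * Complex.I * (t : ℂ) * s.2)‖ ≤ δ * ‖s.2‖ / 16) :
    v ∈ D ∧ 0 ≤ ∑ y : (S : Finset (ℤ × ℤ)), Gs D L a v y * ((if b then (1 : ℝ) else -1) * Wfun S T ρ δ s y) ∧
    (3 / 4 ≤ t → bulk L a v → (L : ℝ) ^ 2 / 36 ≤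
      ∑ y : (S : Finset (ℤ × ℤ)), Gs D L a v y * ((if b then (1 : ℝ) else -1) * Wfun S T ρ δ s y)) := by
  obtain ⟨g1, g2, g3, g4, g5, g6⟩ := gs_facts D L hL1 a
  obtain ⟨-, hreg⟩ := region_facts T ρ L δ hδ hδ' s hd hT hρ hρ' hL b
  obtain ⟨r1, r2⟩ := hreg v τ t h0τ hτ1 h0t ht1 hv
  have hball : ∀ z : ℤ × ℤ, |z.1 - v.1| < 2 * (L : ℤ) → |z.2 - v.2| < 2 * (L : ℤ) → z ∈ D := by
    intro z hz1 hz2
    refine hbulk z τ h0τ hτ1 ?_
    have h1 := h7312_norm_toC v z L hz1 hz2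
    have h2 := h7312_norm_off b δ t hδ.le h0t s.2
    have h3 : toC z - (s.1 + (τ : ℂ) * s.2) = (toC z - toC v) +
        (toC v - (s.1 + (τ : ℂ) * s.2 + bsign b * δ * Complex.I * (t : ℂ) * s.2)) +
        bsign b * δ * Complex.I * (t : ℂ) * s.2 := by ring
    rw [h3]
    refine (norm_add_le _ _).trans ?_
    have h4 := norm_add_le (toC z - toC v)
      (toC v - (s.1 + (τ : ℂ) * s.2 + bsign b * δ * Complex.I * (t : ℂ) * s.2))
    rw [h2]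
    have h5 : t * (δ * ‖s.2‖) ≤ 1 * (δ * ‖s.2‖) := by
      refine mul_le_mul_of_nonneg_right ht1 (by positivity)
    linarith
  have hLZ : (0 : ℤ) < 2 * (L : ℤ) := by
    have : (1 : ℤ) ≤ L := by exact_mod_cast hL1
    omega
  refine ⟨hball v (by rw [sub_self, abs_zero]; exact hLZ) (by rw [sub_self, abs_zero]; exact hLZ), ?_, ?_⟩
  · refine Finset.sum_nonneg fun y _ => ?_
    by_cases hy : (y : ℤ × ℤ) ∈ region T ρ δ (!b) s
    · rw [g4 v y (r1 y hy), zero_mul]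
    · exact mul_nonneg (g1 _ _) (h7312_w_nonneg S T ρ δ s b y hy)
  · intro ht hbk
    have h1 : ∀ y : (S : Finset (ℤ × ℤ)), Gs D L a v y *
        ((if b then (1 : ℝ) else -1) * Wfun S T ρ δ s y) = Gs D L a v y := by
      intro y
      by_cases hn : |v.1 - (y : ℤ × ℤ).1| < 2 * (L : ℤ) ∧ |v.2 - (y : ℤ × ℤ).2| < 2 * (L : ℤ)
      · have h2 : (y : ℤ × ℤ) ∉ region T ρ δ (!b) s := fun hy => r1 y hy hn
        have h3 := r2 ht y hn.1 hn.2
        rw [h7312_w_one S T ρ δ s b y h2 h3, mul_one]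
      · rw [g4 v y hn, zero_mul]
    rw [Finset.sum_congr rfl (fun y _ => h1 y), Finset.sum_coe_sort S (fun y => Gs D L a v y)]
    exact (g6 v hball hbk).trans (Finset.sum_le_sum_of_subset_of_nonneg hDS (fun y _ _ => g1 _ _))

/-- the coordinate of a central point of a cell close to `u` -/
theorem h7312_coord (u a : ℤ) (L : ℕ) (hL1 : 1 ≤ L) :
    ∃ y : ℤ, |y - u| ≤ L ∧ 4 * |(y - a) % (2 * (L : ℤ)) - L| ≤ L := by
  have hL : (1 : ℤ) ≤ L := by exact_mod_cast hL1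
  have h0 : 0 ≤ (u - a) % (2 * (L : ℤ)) := Int.emod_nonneg _ (by omega)
  have h1 : (u - a) % (2 * (L : ℤ)) < 2 * (L : ℤ) := Int.emod_lt_of_pos _ (by omega)
  refine ⟨u + (L - (u - a) % (2 * (L : ℤ))), ?_, ?_⟩
  · rw [abs_le]
    constructor <;> omega
  · have h2 : (u + (L - (u - a) % (2 * (L : ℤ))) - a) % (2 * (L : ℤ)) = L := by
      have h3 : u + (L - (u - a) % (2 * (L : ℤ))) - a = L + (2 * (L : ℤ)) * ((u - a) / (2 * (L : ℤ))) := by
        have h4 := Int.emod_add_mul_ediv (u - a) (2 * (L : ℤ))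
        linarith
      rw [h3, Int.add_mul_emod_self_left]
      exact Int.emod_eq_of_lt (by omega) (by omega)
    rw [h2, sub_self, abs_zero, mul_zero]
    omega

/-- a central point of a cell close to `P` -/
theorem h7312_bulk (P : ℂ) (a : ℤ × ℤ) (L : ℕ) (hL1 : 1 ≤ L) (d : ℝ) (hd : 96 ≤ d) (hL : 2 * (L : ℝ) ≤ d / 16) :
    ∃ y : ℤ × ℤ, bulk L a y ∧ ‖toC y - P‖ ≤ d / 16 := by
  obtain ⟨y1, h1, h1'⟩ := h7312_coord (rd P).1 a.1 L hL1
  obtain ⟨y2, h2, h2'⟩ := h7312_coord (rd P).2 a.2 L hL1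
  refine ⟨(y1, y2), ⟨h1', h2'⟩, ?_⟩
  have key : ∀ (y : ℤ) (x : ℝ), |y - ⌊x⌋| ≤ (L : ℤ) → |(y : ℝ) - x| ≤ d / 24 := by
    intro y x h
    have h3 : |((y : ℝ) - (⌊x⌋ : ℝ))| ≤ L := by
      have : ((|y - ⌊x⌋| : ℤ) : ℝ) ≤ ((L : ℤ) : ℝ) := by exact_mod_cast h
      rw [Int.cast_abs] at this
      push_cast at this
      exact this
    have h4 := Int.floor_le x
    have h5 := Int.lt_floor_add_one x
    rw [abs_le] at h3 ⊢
    constructor <;> linarith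
  have h3 : |(toC (y1, y2) - P).re| ≤ d / 24 := by
    have := key y1 P.re h1
    simpa [toC] using this
  have h4 : |(toC (y1, y2) - P).im| ≤ d / 24 := by
    have := key y2 P.im h2
    simpa [toC] using this
  have h5 : ‖toC (y1, y2) - P‖ ^ 2 ≤ (d / 16) ^ 2 := by
    rw [Complex.sq_norm, Complex.normSq_apply]
    have h6 := sq_le_sq' (abs_le.1 h3).1 (abs_le.1 h3).2
    have h7 := sq_le_sq' (abs_le.1 h4).1 (abs_le.1 h4).2
    have h8 : 0 ≤ d ^ 2 := by positivity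
    nlinarith
  exact (pow_le_pow_iff_left₀ (norm_nonneg _) (by linarith) two_ne_zero).1 h5

theorem _root_.H941.level_fixed : ∃ c1 : ℝ, 0 < c1 ∧ c1 ≤ 1 ∧
    ∀ (D S : Finset (ℤ × ℤ)), D ⊆ S → ∀ (L T ρ : ℕ) (a : ℤ × ℤ), 1 ≤ L →
    ∀ (δ : ℝ) (s : ℂ × ℂ), 0 < δ → δ ≤ 1 / 8 → 96 ≤ δ * ‖s.2‖ → 16 / δ ≤ T → (T : ℝ) ≤ 16 / δ + 1 →
      3 / 8 * (δ * ‖s.2‖) ≤ ρ → (ρ : ℝ) ≤ 3 / 8 * (δ * ‖s.2‖) + 1 →
      2 * (L : ℝ) ≤ δ * ‖s.2‖ / 16 → δ * ‖s.2‖ / 64 ≤ L →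
      (∀ (z : ℤ × ℤ) (τ : ℝ), 0 ≤ τ → τ ≤ 1 →
        ‖toC z - (s.1 + (τ : ℂ) * s.2)‖ ≤ 2 * (δ * ‖s.2‖) → z ∈ D) →
    (0 < ∑ x : (S : Finset (ℤ × ℤ)), ∑ y : (S : Finset (ℤ × ℤ)), Wfun S T ρ δ s x * Gs D L a x y * Wfun S T ρ δ s y) ∧
    ∀ (b : Bool) (v : (S : Finset (ℤ × ℤ))) (τ t : ℝ), 0 ≤ τ → τ ≤ 1 → 0 ≤ t → t ≤ 1 →
      ‖toC v - (s.1 + (τ : ℂ) * s.2 + bsign b * δ * Complex.I * (t : ℂ) * s.2)‖ ≤ δ * ‖s.2‖ / 16 →
    ∀ θ : ℝ, 0 ≤ θ → θ * Real.sqrt δ ≤ 1 →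
      ∫ x : EuclideanSpace ℝ (S : Finset (ℤ × ℤ)), Set.indicator
          {x : EuclideanSpace ℝ (S : Finset (ℤ × ℤ)) |
            (if b then (1 : ℝ) else -1) * ∑ y, Wfun S T ρ δ s y * x y ≤ 0}
          (fun x => Real.exp (θ * x v)) x
          ∂(multivariateGaussian (0 : EuclideanSpace ℝ (S : Finset (ℤ × ℤ)))
              (Matrix.of fun x y : (S : Finset (ℤ × ℤ)) => Gs D L a x y)) ≤
        (1 / 2) * Real.exp (θ ^ 2 * Gs D L a v v / 2) *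
          (if 3 / 4 ≤ t ∧ @decide (bulk L a v) (Classical.dec _) = true then Real.exp (-(c1 * (θ * Real.sqrt δ))) else 1) := by
  obtain ⟨c0, hc0, hc01, hG⟩ := gaussian_factor
  refine ⟨c0 / 8000, by positivity, by linarith, ?_⟩
  intro D S hDS L T ρ a hL1 δ s hδ hδ' hd hT hT' hρ hρ' hL hL' hbulk
  obtain ⟨g1, g2, g3, g4, g5, g6⟩ := gs_facts D L hL1 a
  have hpsd : (Matrix.of fun x y : (S : Finset (ℤ × ℤ)) => Gs D L a x y).PosSemidef :=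
    (gs_psd D S ∅ (fun _ => L) a 0 (fun i hi => absurd hi (by omega)) (Finset.empty_subset _)
      (fun h => absurd h (by omega))).1 0
  set d : ℝ := δ * ‖s.2‖ with hd_def
  set Γ : Matrix ↥S ↥S ℝ :=
    (Matrix.of fun x y : (S : Finset (ℤ × ℤ)) => Gs D L a x y) with hΓ
  have hΓa : ∀ x y, Γ x y = Gs D L a x y := fun x y => rfl
  have hLpos : (0 : ℝ) < L := by exact_mod_cast hL1
  -- the variance
  have hQpos0 : 0 < ∑ x : (S : Finset (ℤ × ℤ)), ∑ y : (S : Finset (ℤ × ℤ)),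
      Wfun S T ρ δ s x * Gs D L a x y * Wfun S T ρ δ s y := by
    set Q : ℝ := ∑ x : (S : Finset (ℤ × ℤ)), ∑ y : (S : Finset (ℤ × ℤ)),
      Wfun S T ρ δ s x * Gs D L a x y * Wfun S T ρ δ s y with hQ
    have hQdot : Q = star (Wfun S T ρ δ s) ⬝ᵥ (Γ.mulVec (Wfun S T ρ δ s)) := by
      rw [hQ]
      simp only [dotProduct, Matrix.mulVec, star_trivial]
      refine Finset.sum_congr rfl fun x _ => ?_
      rw [Finset.mul_sum]
      refine Finset.sum_congr rfl fun y _ => ?_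
      rw [hΓa]
      ring
    have hQ0 : 0 ≤ Q := by
      rw [hQdot]
      exact hpsd.dotProduct_mulVec_nonneg _
    refine lt_of_le_of_ne hQ0 (Ne.symm ?_)
    intro h0
    have h1 : Γ.mulVec (Wfun S T ρ δ s) = 0 := by
      rw [← hpsd.dotProduct_mulVec_zero_iff (Wfun S T ρ δ s), ← hQdot]
      exact h0
    -- a bulk point on the left side
    obtain ⟨y0, hy0, hy0'⟩ := h7312_bulk
      (s.1 + ((1 / 2 : ℝ) : ℂ) * s.2 + bsign true * δ * Complex.I * ((1 : ℝ) : ℂ) * s.2) a L hL1 d hd hL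
    obtain ⟨h2, -, h3⟩ := h7312_near D S hDS L T ρ a hL1 δ s hδ hδ' hd hT hρ hρ' hL hbulk true y0
      (1 / 2) 1 (by norm_num) (by norm_num) (by norm_num) (by norm_num) hy0'
    have h4 := h3 (by norm_num) hy0
    have h5 := congrFun h1 ⟨y0, hDS h2⟩
    have h6 : Γ.mulVec (Wfun S T ρ δ s) ⟨y0, hDS h2⟩ =
        ∑ y : (S : Finset (ℤ × ℤ)), Gs D L a y0 y * ((if true then (1 : ℝ) else -1) * Wfun S T ρ δ s y) := by
      simp only [Matrix.mulVec, dotProduct, hΓa]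
      refine Finset.sum_congr rfl fun y _ => ?_
      simp only [if_true]
      ring
    rw [h6] at h5
    have h7 : (0 : ℝ) < (L : ℝ) ^ 2 / 36 := by positivity
    rw [h5] at h4
    simp only [Pi.zero_apply] at h4
    linarith
  refine ⟨hQpos0, ?_⟩
  intro b v τ t h0τ hτ1 h0t ht1 hv θ hθ hθδ
  set w : ↥S → ℝ := fun y => (if b then (1 : ℝ) else -1) * Wfun S T ρ δ s y with hw
  obtain ⟨hvD, hκ0, hκ1⟩ := h7312_near D S hDS L T ρ a hL1 δ s hδ hδ' hd hT hρ hρ' hL hbulk b v τ t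
    h0τ hτ1 h0t ht1 hv
  set κ : ℝ := ∑ y : (S : Finset (ℤ × ℤ)), Gs D L a v y * ((if b then (1 : ℝ) else -1) * Wfun S T ρ δ s y)
    with hκ
  set Q : ℝ := ∑ x, ∑ y, w x * Γ x y * w y with hQ
  have hQeq : Q = ∑ x : (S : Finset (ℤ × ℤ)), ∑ y : (S : Finset (ℤ × ℤ)),
      Wfun S T ρ δ s x * Gs D L a x y * Wfun S T ρ δ s y := by
    rw [hQ]
    refine Finset.sum_congr rfl fun x _ => Finset.sum_congr rfl fun y _ => ?_
    simp only [hw, hΓa]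
    cases b <;> simp
  have hQpos : 0 < Q := by rw [hQeq]; exact hQpos0
  have hQ0 : 0 ≤ Q := hQpos.le
  -- the upper bound for the variance
  have hcard := fun b' => (region_facts T ρ L δ hδ hδ' s hd hT hρ hρ' hL b').1
  have hQup : Q ≤ (T + 1) * (2 * ρ + 1) ^ 2 * (L : ℝ) ^ 2 := by
    have h1 : Q ≤ ∑ x, |w x| * ((L : ℝ) ^ 2 / 2) := by
      refine Finset.sum_le_sum fun x _ => ?_
      have h2 : ∑ y : ↥S, w x * Γ x y * w y ≤ ∑ y : ↥S, |w x| * Gs D L a x y := by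
        refine Finset.sum_le_sum fun y _ => ?_
        rw [hΓa]
        have h3 : w x * Gs D L a x y * w y ≤ |w x * Gs D L a x y * w y| := le_abs_self _
        refine h3.trans ?_
        rw [abs_mul, abs_mul, abs_of_nonneg (g1 _ _)]
        have h4 := h7312_w_abs S T ρ δ s b y
        have h5 : 0 ≤ |w x| * Gs D L a x y := mul_nonneg (abs_nonneg _) (g1 _ _)
        exact mul_le_of_le_one_right h5 h4
      refine h2.trans ?_
      rw [← Finset.mul_sum]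
      refine mul_le_mul_of_nonneg_left ?_ (abs_nonneg _)
      rw [Finset.sum_coe_sort S (fun y => Gs D L a x y)]
      refine le_trans (le_of_eq ?_) (g5 x)
      exact (Finset.sum_subset hDS (fun y _ hy => g3 _ _ (Or.inr hy))).symm
    have h6 := h7312_w_sum S T ρ δ s b
    have h7 : ((region T ρ δ true s).card : ℝ) ≤ (T + 1) * (2 * ρ + 1) ^ 2 := by exact_mod_cast hcard true
    have h8 : ((region T ρ δ false s).card : ℝ) ≤ (T + 1) * (2 * ρ + 1) ^ 2 := by exact_mod_cast hcard false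
    rw [← Finset.sum_mul] at h1
    refine h1.trans ?_
    have h9 : ∑ x, |w x| ≤ 2 * ((T + 1) * (2 * ρ + 1) ^ 2) := by
      refine h6.trans ?_
      linarith
    calc (∑ x, |w x|) * ((L : ℝ) ^ 2 / 2) ≤ 2 * ((T + 1) * (2 * ρ + 1) ^ 2) * ((L : ℝ) ^ 2 / 2) := by
          refine mul_le_mul_of_nonneg_right h9 (by positivity)
      _ = (T + 1) * (2 * ρ + 1) ^ 2 * (L : ℝ) ^ 2 := by ring
  have hQup2 : Q * δ ≤ 40625 * ((L : ℝ) ^ 2) ^ 2 := by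
    have h1 : ((T : ℝ) + 1) * δ ≤ 65 / 4 := by
      have h2 : (T : ℝ) * δ ≤ 16 + δ := by
        have := mul_le_mul_of_nonneg_right hT' hδ.le
        have h3 : (16 / δ + 1) * δ = 16 + δ := by field_simp
        linarith
      linarith
    have h2 : 2 * (ρ : ℝ) + 1 ≤ 50 * L := by linarith
    have h3 : (2 * (ρ : ℝ) + 1) ^ 2 ≤ (50 * L) ^ 2 := pow_le_pow_left₀ (by positivity) h2 2
    calc Q * δ ≤ ((T + 1) * (2 * ρ + 1) ^ 2 * (L : ℝ) ^ 2) * δ := mul_le_mul_of_nonneg_right hQup hδ.le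
      _ = (((T : ℝ) + 1) * δ) * ((2 * ρ + 1) ^ 2 * (L : ℝ) ^ 2) := by ring
      _ ≤ 65 / 4 * ((2 * ρ + 1) ^ 2 * (L : ℝ) ^ 2) := mul_le_mul_of_nonneg_right h1 (by positivity)
      _ ≤ 65 / 4 * ((50 * L) ^ 2 * (L : ℝ) ^ 2) := by
          refine mul_le_mul_of_nonneg_left (mul_le_mul_of_nonneg_right h3 (by positivity)) (by norm_num)
      _ = 40625 * ((L : ℝ) ^ 2) ^ 2 := by ring
  set σ : ℝ := Real.sqrt Q with hσ
  have hσpos : 0 < σ := Real.sqrt_pos.2 hQpos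
  have hσ2 : σ ^ 2 = Q := Real.sq_sqrt hQ0
  have hmain := hG ↥S Γ hpsd v w θ κ σ hθ hκ0 hσpos rfl (by rw [hσ2])
  have hset : {x : EuclideanSpace ℝ (S : Finset (ℤ × ℤ)) |
      (if b then (1 : ℝ) else -1) * ∑ y, Wfun S T ρ δ s y * x y ≤ 0} =
      {x : EuclideanSpace ℝ (S : Finset (ℤ × ℤ)) | ∑ y, w y * x y ≤ 0} := by
    ext x
    simp only [Set.mem_ofPred_eq, hw]
    rw [Finset.mul_sum]
    simp only [mul_assoc]
  rw [hset]
  refine hmain.trans ?_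
  rw [hΓa]
  refine mul_le_mul_of_nonneg_left ?_ (by positivity)
  have hmin0 : 0 ≤ min 1 (θ * κ / σ) := le_min zero_le_one (by positivity)
  split_ifs with ht
  · rw [Real.exp_le_exp, neg_le_neg_iff]
    have hκ2 := hκ1 ht.1 (@of_decide_eq_true _ (Classical.dec _) ht.2)
    have hsδ : 0 ≤ Real.sqrt δ := Real.sqrt_nonneg δ
    have hσδ : σ * Real.sqrt δ ≤ 202 * (L : ℝ) ^ 2 := by
      have h1 : (σ * Real.sqrt δ) ^ 2 ≤ (202 * (L : ℝ) ^ 2) ^ 2 := by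
        rw [mul_pow, hσ2, Real.sq_sqrt hδ.le]
        refine hQup2.trans ?_
        have h2 : (202 * (L : ℝ) ^ 2) ^ 2 = 40804 * ((L : ℝ) ^ 2) ^ 2 := by ring
        rw [h2]
        refine mul_le_mul_of_nonneg_right (by norm_num) (by positivity)
      exact (pow_le_pow_iff_left₀ (by positivity) (by positivity) two_ne_zero).1 h1
    have h2 : θ * Real.sqrt δ / 8000 ≤ min 1 (θ * κ / σ) := by
      refine le_min (by linarith) ?_
      rw [le_div_iff₀ hσpos]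
      have h3 : θ * Real.sqrt δ / 8000 * σ = θ * (σ * Real.sqrt δ / 8000) := by ring
      rw [h3]
      refine mul_le_mul_of_nonneg_left ?_ hθ
      have h4 : 0 ≤ (L : ℝ) ^ 2 := by positivity
      linarith
    have h5 := mul_le_mul_of_nonneg_left h2 hc0.le
    calc c0 / 8000 * (θ * Real.sqrt δ) = c0 * (θ * Real.sqrt δ / 8000) := by ring
      _ ≤ _ := h5
  · rw [Real.exp_le_one_iff]
    have := mul_nonneg hc0.le hmin0
    linarith

end H941.level_fixed
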