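import Pool.Agent.KS6_63.GFF.Defs4
import Pool.Agent.KS6_63.GFF.T2

open MeasureTheory ProbabilityTheory

namespace H941.point_abs

theorem _root_.H941.point_abs {ι : Type} [Fintype ι] [DecidableEq ι] (j : ℕ) (Γ : Fin (j + 1) → Matrix ι ι ℝ)
    (hΓ : ∀ k, (Γ k).PosSemidef) (E : Fin j → Set (EuclideanSpace ℝ ι)) (hE : ∀ k, MeasurableSet (E k)) (x0 : ι)
    (θ b : ℝ) (hθ : 0 ≤ θ) (e : Fin j → ℝ)
    (he : ∀ k : Fin j, ∫ x, (E k).indicator (fun x => Real.exp (θ * x x0)) x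
        ∂(multivariateGaussian (0 : EuclideanSpace ℝ ι) (Γ k.castSucc)) ≤ e k) :
    (Measure.pi fun k => multivariateGaussian (0 : EuclideanSpace ℝ ι) (Γ k))
        {ω | (∀ k : Fin j, ω k.castSucc ∈ E k) ∧ b < ∑ k, ω k x0} ≤
      ENNReal.ofReal (Real.exp (-(θ * b)) * ((∏ k, e k) * Real.exp (θ ^ 2 * Γ (Fin.last j) x0 x0 / 2))) := by
  obtain ⟨hint, hle⟩ := prod_integral j Γ hΓ x0 θ E hE e he
  set μ := (Measure.pi fun k => multivariateGaussian (0 : EuclideanSpace ℝ ι) (Γ k)) with hμ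
  set F : (Fin (j + 1) → EuclideanSpace ℝ ι) → ℝ := fun ω =>
    (∏ i : Fin j, (E i).indicator (fun _ => (1 : ℝ)) (ω i.castSucc)) * Real.exp (θ * ∑ k, ω k x0) with hF
  have hF0 : ∀ ω, 0 ≤ F ω := fun ω => by
    apply mul_nonneg _ (Real.exp_pos _).le
    exact Finset.prod_nonneg fun i _ => Set.indicator_nonneg (fun _ _ => zero_le_one) _
  have hset : MeasurableSet {ω : Fin (j + 1) → EuclideanSpace ℝ ι | (∀ k : Fin j, ω k.castSucc ∈ E k) ∧ b < ∑ k, ω k x0} := by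
    have e1 : {ω : Fin (j + 1) → EuclideanSpace ℝ ι | (∀ k : Fin j, ω k.castSucc ∈ E k) ∧ b < ∑ k, ω k x0} =
        (⋂ k : Fin j, (fun ω : Fin (j + 1) → EuclideanSpace ℝ ι => ω k.castSucc) ⁻¹' (E k)) ∩
          {ω : Fin (j + 1) → EuclideanSpace ℝ ι | b < ∑ k, ω k x0} := by
      ext ω; simp
    rw [e1]
    refine MeasurableSet.inter (MeasurableSet.iInter fun k => (measurable_pi_apply _) (hE k)) ?_
    refine measurableSet_lt measurable_const ?_
    fun_prop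
  have hpt : ∀ ω : Fin (j + 1) → EuclideanSpace ℝ ι, ({ω : Fin (j + 1) → EuclideanSpace ℝ ι | (∀ k : Fin j, ω k.castSucc ∈ E k) ∧ b < ∑ k, ω k x0}).indicator
      (fun _ => (1 : ENNReal)) ω ≤ ENNReal.ofReal (Real.exp (-(θ * b)) * F ω) := by
    intro ω
    by_cases hω : ω ∈ {ω : Fin (j + 1) → EuclideanSpace ℝ ι | (∀ k : Fin j, ω k.castSucc ∈ E k) ∧ b < ∑ k, ω k x0}
    · rw [Set.indicator_of_mem hω]
      obtain ⟨h1, h2⟩ := hω
      rw [← ENNReal.ofReal_one]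
      apply ENNReal.ofReal_le_ofReal
      have : ∏ i : Fin j, (E i).indicator (fun _ => (1 : ℝ)) (ω i.castSucc) = 1 :=
        Finset.prod_eq_one fun i _ => Set.indicator_of_mem (h1 i) _
      simp only [hF, this, one_mul]
      rw [← Real.exp_add]
      apply Real.one_le_exp
      nlinarith [mul_le_mul_of_nonneg_left h2.le hθ]
    · rw [Set.indicator_of_notMem hω]
      exact zero_le
  calc μ {ω | (∀ k : Fin j, ω k.castSucc ∈ E k) ∧ b < ∑ k, ω k x0}
      = (∫⁻ ω, (({ω : Fin (j + 1) → EuclideanSpace ℝ ι | (∀ k : Fin j, ω k.castSucc ∈ E k) ∧ b < ∑ k, ω k x0}).indicator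
      (fun _ => (1 : ENNReal)) ω) ∂μ) := by
        rw [lintegral_indicator hset]; simp
    _ ≤ ∫⁻ ω, ENNReal.ofReal (Real.exp (-(θ * b)) * F ω) ∂μ := lintegral_mono hpt
    _ = ENNReal.ofReal (∫ ω, Real.exp (-(θ * b)) * F ω ∂μ) := by
        rw [ofReal_integral_eq_lintegral_ofReal]
        · exact hint.const_mul _
        · exact Filter.Eventually.of_forall fun ω => mul_nonneg (Real.exp_pos _).le (hF0 ω)
    _ ≤ _ := by
        apply ENNReal.ofReal_le_ofReal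
        rw [integral_const_mul]
        exact mul_le_mul_of_nonneg_left hle (Real.exp_pos _).le

end H941.point_abs
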