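import Pool.Agent.KS6_63.GFF.Defs4
import Pool.Agent.KS6_63.GFF.A3
import Pool.Agent.KS6_63.GFF.A5
import Pool.Agent.KS6_63.GFF.B.law_group_
import Pool.Agent.KS6_63.GFF.B.pst_near_
import Pool.Agent.KS6_63.GFF.C.GC_facts
import Pool.Agent.KS6_63.GFF.C.bulk_avg_
import Pool.Agent.KS6_63.GFF.C.levC_
import Pool.Agent.KS6_63.GFF.C.point_abs_
import Pool.Agent.KS6_63.GFF.K2

open MeasureTheory ProbabilityTheory

namespace H941.avg_bot

theorem avb_bb : (∀ i, 0 < bb i) ∧ (∀ i, bb i ≤ 1 / 100) ∧ Antitone bb := by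
  refine ⟨fun i => ?_, fun i => ?_, fun i j hij => ?_⟩
  · unfold bb bd; positivity
  · unfold bb bd
    have h1 : ((i : ℝ) + 1) ^ (-(3 / 5) : ℝ) ≤ 1 :=
      Real.rpow_le_one_of_one_le_of_nonpos (by linarith [Nat.cast_nonneg (α := ℝ) i]) (by norm_num)
    nlinarith
  · unfold bb bd
    refine mul_le_mul_of_nonneg_left ?_ (by norm_num)
    refine Real.rpow_le_rpow_of_nonpos (by positivity) ?_ (by norm_num)
    have : (i : ℝ) ≤ j := by exact_mod_cast hij
    linarith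

theorem avb_norm (w : ℕ) (c : ℕ → Fin 64 × Bool) (i : ℕ) : ‖(ps w c i).2‖ = ll w i := by
  obtain ⟨h1, h2, h3⟩ := avb_bb
  have := (pst_near bb (fun j => (h1 j).le) (fun j => (h2 j).trans (by norm_num)) h3 c (sg0 w) i).2.2 i
  unfold ps
  rw [this]
  unfold ll dl sg0 bb
  simp

theorem avb_w (u w : ℕ) (h : ParC u w) : 0 < w := by
  rcases Nat.eq_zero_or_pos w with h0 | h0
  · exfalso
    have h1 := (h.wi_ge (nb u w) le_rfl).1
    have h2 : wi w (nb u w) = 0 := by unfold wi; rw [h0]; simp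
    rw [h2] at h1
    have h3 : 0 < (Nat.log 2 w + u) ^ 16 := by
      have := h.u_ge
      positivity
    omega
  · exact h0

theorem avb_ll (u w : ℕ) (h : ParC u w) (i : ℕ) : 0 < ll w i := by
  have h0 := avb_w u w h
  unfold ll dl
  have : (0 : ℝ) < w := by exact_mod_cast h0
  have h2 : ∀ k, (0 : ℝ) < Real.sqrt (1 + 4 * bd (1 / 100) k ^ 2) / 64 := fun k => by positivity
  exact mul_pos (by linarith) (Finset.prod_pos fun k _ => h2 k)

theorem avb_near (u w : ℕ) (h : ParC u w) (c : ℕ → Fin 64 × Bool) (v : ℤ × ℤ)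
    (hv : v ∈ finalVerts ⌈ll w (nb u w)⌉₊ (ps w c (nb u w))) (k : ℕ)
    (hk : k < nb u w - gap u (nb u w)) :
    ‖toC v - (ps w c (nb u w)).1‖ ≤ bb k * ll w k / 50 := by
  set n := nb u w with hn
  have hll := avb_ll u w h n
  have hq : 1 ≤ ⌈ll w n⌉₊ := Nat.one_le_iff_ne_zero.2 (by
    have := Nat.ceil_pos.2 hll
    omega)
  have hnorm := avb_norm w c n
  obtain ⟨-, h2, -⟩ := finalVerts_facts ⌈ll w n⌉₊ hq (ps w c n) (by rw [hnorm]; exact Nat.le_ceil _)
  obtain ⟨τ, t0, t1, t2⟩ := h2 v hv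
  have h3 : ‖toC v - (ps w c n).1‖ ≤ 3 + ll w n := by
    have e1 : toC v - (ps w c n).1 = (toC v - ((ps w c n).1 + (τ : ℂ) * (ps w c n).2)) +
        (τ : ℂ) * (ps w c n).2 := by ring
    rw [e1]
    refine (norm_add_le _ _).trans (add_le_add t2 ?_)
    rw [norm_mul, hnorm, Complex.norm_real, Real.norm_eq_abs, abs_of_nonneg t0]
    nlinarith
  have h4 := h.near n le_rfl k (by omega)
  have hkn : k < n := by omega
  obtain ⟨-, h5, -⟩ := h.cc_fac k hkn
  have h6 := h.ll_le n le_rfl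
  have hwi : 1 ≤ wi w n := by
    have h1 := (h.wi_ge n le_rfl).1
    have h3 : 0 < (Nat.log 2 w + u) ^ 16 := by
      have := h.u_ge
      positivity
    omega
  have h7 : wi w n * 10 ^ 6 ≤ cc w k := by
    refine le_trans ?_ h4
    rw [mul_assoc]
    refine Nat.mul_le_mul_left _ ?_
    have hu := h.u_ge
    calc 10 ^ 6 ≤ (n + u) := by omega
      _ = (n + u) ^ 1 * 1 := by ring
      _ ≤ (n + u) ^ 34 * 64 ^ (n - gap u n - 1 - k) :=
        Nat.mul_le_mul (Nat.pow_le_pow_right (by omega) (by norm_num)) (Nat.one_le_pow _ _ (by norm_num))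
  have h7' : (wi w n : ℝ) * 10 ^ 6 ≤ cc w k := by exact_mod_cast h7
  have hwi' : (1 : ℝ) ≤ wi w n := by exact_mod_cast hwi
  linarith

theorem avb_var (u w : ℕ) (h : ParC u w) (v : ℤ × ℤ) :
    (1 / 4) * green (Dw w) v v ≤ 6 * nb u w + u + 10 := by
  have hw := avb_w u w h
  have hl2 : 0 < Real.log 2 := Real.log_pos (by norm_num)
  have h0 := green_log (Dw w) (7 * w) (by omega) (by
    intro x hx y hy
    simp only [Dw, rect, Finset.mem_product, Finset.mem_Icc] at hx hy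
    obtain ⟨⟨a1, a2⟩, a3, a4⟩ := hx
    obtain ⟨⟨b1, b2⟩, b3, b4⟩ := hy
    constructor <;> rw [abs_lt] <;> constructor <;> push_cast <;> omega) v
  have h1 : w < 2 ^ (Nat.log 2 w + 1) := Nat.lt_pow_succ_log_self (by norm_num) w
  have h2 : 1 + 2 * (7 * w) ^ 2 ≤ 2 ^ (2 * Nat.log 2 w + 9) := by
    have h3 : w ^ 2 < 2 ^ (2 * Nat.log 2 w + 2) := by
      calc w ^ 2 < (2 ^ (Nat.log 2 w + 1)) ^ 2 := Nat.pow_lt_pow_left h1 (by norm_num)
        _ = 2 ^ (2 * Nat.log 2 w + 2) := by rw [← pow_mul]; congr 1; ring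
    have h4 : 2 ^ (2 * Nat.log 2 w + 9) = 128 * 2 ^ (2 * Nat.log 2 w + 2) := by
      rw [show 2 * Nat.log 2 w + 9 = (2 * Nat.log 2 w + 2) + 7 by ring, pow_add]; ring
    have h5 : (7 * w) ^ 2 = 49 * w ^ 2 := by ring
    omega
  have h2' : 1 + 2 * ((7 * w : ℕ) : ℝ) ^ 2 ≤ 2 ^ (2 * Nat.log 2 w + 9) := by exact_mod_cast h2
  have h3 : Real.log (1 + 2 * ((7 * w : ℕ) : ℝ) ^ 2) ≤ (2 * Nat.log 2 w + 9) * Real.log 2 := by
    have := Real.log_le_log (by positivity) h2'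
    rw [Real.log_pow] at this
    push_cast at this
    push_cast
    exact this
  have h4 : Real.log (1 + 2 * ((7 * w : ℕ) : ℝ) ^ 2) / Real.log 2 ≤ 2 * Nat.log 2 w + 9 := by
    rw [div_le_iff₀ hl2]; exact h3
  have h5 : (Nat.log 2 w : ℝ) ≤ 12 * nb u w + u + 12 := by exact_mod_cast h.log_le
  have h6 : (0 : ℝ) ≤ u := Nat.cast_nonneg _
  linarith

/-- probability for one shift, one digit sequence and one vertex -/
theorem avb_point (c1 : ℝ) (hlev : ∀ (u w : ℕ), ParC u w → ∀ (a : ℤ × ℤ) (c : ℕ → Fin 64 × Bool) (k : ℕ), k < nb u w →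
    (0 < ∑ x, ∑ y, WC w k (ps w c k) x * GC u w a k x y * WC w k (ps w c k) y) ∧
    multivariateGaussian (0 : EuclideanSpace ℝ ↥(Dw w)) (GC u w a k) (sC w (c k).2 k (ps w c k)) ≤ 1 / 2 ∧
    ∀ i, k < i → i ≤ nb u w → ∀ v : ↥(Dw w), ‖toC v - (ps w c i).1‖ ≤ bb k * ll w k / 50 → ∀ θ : ℝ, 0 ≤ θ → θ ≤ 1 →
      ∫ x, Set.indicator (sC w (c k).2 k (ps w c k)) (fun x => Real.exp (θ * x v)) x
          ∂(multivariateGaussian (0 : EuclideanSpace ℝ ↥(Dw w)) (GC u w a k)) ≤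
        (1 / 2) * Real.exp (θ ^ 2 * GC u w a k v v / 2) *
          (if @decide (24 ≤ ((c k).1 : ℕ) ∧ ((c k).1 : ℕ) < 40 ∧ bulk (cc w k) a v) (Classical.dec _) = true then
            Real.exp (-(c1 * (θ * Real.sqrt (bb k)))) else 1))
    (u w : ℕ) (h : ParC u w) (θ : ℝ) (hθ : 0 ≤ θ) (hθ1 : θ ≤ 1) (a : ℤ × ℤ) (c : ℕ → Fin 64 × Bool)
    (v : ℤ × ℤ) (hv : v ∈ finalVerts ⌈ll w (nb u w)⌉₊ (ps w c (nb u w))) (hvD : v ∈ Dw w) :
    PC u w a {ω | (∀ k : Fin (nb u w + 1), (k : ℕ) < nb u w - gap u (nb u w) → ω k ∈ sC w (c k).2 k (ps w c k)) ∧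
      (u : ℝ) < ∑ k, ω k ⟨v, hvD⟩} ≤
    ENNReal.ofReal (Real.exp (-(θ * u) + θ ^ 2 * (6 * nb u w + u + 10) / 2) *
      (1 / 2) ^ (nb u w - gap u (nb u w)) *
      ∏ k ∈ Finset.range (nb u w - gap u (nb u w)),
        (if @decide (bulk (cc w k) a v) (Classical.dec _) = true then
          Real.exp (-(if 24 ≤ ((c k).1 : ℕ) ∧ ((c k).1 : ℕ) < 40 then c1 * (θ * Real.sqrt (bb k)) else 0)) else 1)) := by
  classical
  obtain ⟨hpsd, hsum, hsumj⟩ := GC_facts u w h a
  set n := nb u w with hn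
  set j := n - gap u n with hj
  have hjn : j ≤ n := Nat.sub_le _ _
  have hgap : 1 ≤ gap u n := by unfold gap; omega
  have hlaw := law_group (ι := ↥(Dw w)) n j hjn (fun i => GC u w a i) (fun i => hpsd i)
  set F : (Fin (n + 1) → EuclideanSpace ℝ ↥(Dw w)) → (Fin (j + 1) → EuclideanSpace ℝ ↥(Dw w)) :=
    fun (ω : Fin (n + 1) → EuclideanSpace ℝ ↥(Dw w)) (k : Fin (j + 1)) =>
          if h : (k : ℕ) < j then ω ⟨k, by omega⟩ else
            ∑ i : Fin (n + 1), if (i : ℕ) < j then 0 else ω i with hF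
  set Γ : Fin (j + 1) → Matrix ↥(Dw w) ↥(Dw w) ℝ := fun k =>
    if (k : ℕ) < j then GC u w a k else ∑ i ∈ Finset.Ico j (n + 1), GC u w a i with hΓdef
  have hΓ : ∀ k, (Γ k).PosSemidef := by
    intro k
    simp only [hΓdef]
    split_ifs
    · exact hpsd _
    · exact Matrix.posSemidef_sum _ (fun i _ => hpsd i)
  set S : Set (Fin (j + 1) → EuclideanSpace ℝ ↥(Dw w)) :=
    {ω | (∀ k : Fin j, ω k.castSucc ∈ sC w (c k).2 k (ps w c k)) ∧ (u : ℝ) < ∑ k, ω k ⟨v, hvD⟩} with hS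
  have hFm : Measurable F := by
    rw [hF]
    refine measurable_pi_lambda _ fun k => ?_
    by_cases hk : (k : ℕ) < j
    · simp only [dif_pos hk]
      exact measurable_pi_apply _
    · simp only [dif_neg hk]
      refine Finset.measurable_sum _ fun i _ => ?_
      split_ifs
      · exact measurable_const
      · exact measurable_pi_apply _
  have hsub : {ω : Fin (n + 1) → EuclideanSpace ℝ ↥(Dw w) | (∀ k : Fin (n + 1), (k : ℕ) < j → ω k ∈ sC w (c k).2 k (ps w c k)) ∧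
      (u : ℝ) < ∑ k, ω k ⟨v, hvD⟩} ⊆ F ⁻¹' S := by
    rintro ω ⟨h1, h2⟩
    refine ⟨fun k => ?_, ?_⟩
    · have : F ω k.castSucc = ω ⟨k, by omega⟩ := by
        simp only [hF]
        rw [dif_pos (by simp)]
        rfl
      rw [this]
      exact h1 ⟨k, by omega⟩ k.2
    · have e1 : ∑ k, F ω k ⟨v, hvD⟩ = ∑ k, ω k ⟨v, hvD⟩ := by
        rw [Fin.sum_univ_castSucc]
        have e2 : F ω (Fin.last j) = ∑ i : Fin (n + 1), if (i : ℕ) < j then 0 else ω i := by
          simp only [hF]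
          rw [dif_neg (by simp)]
        have e3 : ∀ k : Fin j, F ω k.castSucc = ω ⟨k, by omega⟩ := by
          intro k
          simp only [hF]
          rw [dif_pos (by simp)]
          rfl
        rw [e2]
        simp only [e3]
        have e4 : (∑ i : Fin (n + 1), if (i : ℕ) < j then (0 : EuclideanSpace ℝ ↥(Dw w)) else ω i) ⟨v, hvD⟩ =
            ∑ i : Fin (n + 1), if (i : ℕ) < j then 0 else ω i ⟨v, hvD⟩ := by
          rw [show (∑ i : Fin (n + 1), if (i : ℕ) < j then (0 : EuclideanSpace ℝ ↥(Dw w)) else ω i) ⟨v, hvD⟩ =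
            ∑ i : Fin (n + 1), (if (i : ℕ) < j then (0 : EuclideanSpace ℝ ↥(Dw w)) else ω i) ⟨v, hvD⟩ by simp]
          refine Finset.sum_congr rfl fun i _ => ?_
          split_ifs <;> simp
        rw [e4]
        have e5 : ∑ k : Fin j, ω ⟨k, by omega⟩ ⟨v, hvD⟩ =
            ∑ i : Fin (n + 1), if (i : ℕ) < j then ω i ⟨v, hvD⟩ else 0 := by
          rw [← Finset.sum_filter]
          refine Finset.sum_bij (fun (k : Fin j) _ => (⟨k, by omega⟩ : Fin (n + 1))) ?_ ?_ ?_ ?_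
          · intro k _
            simp
          · intro k _ k' _ hkk
            ext
            simpa using hkk
          · intro b hb
            simp only [Finset.mem_filter, Finset.mem_univ, true_and] at hb
            exact ⟨⟨b, hb⟩, Finset.mem_univ _, rfl⟩
          · intro k _
            rfl
        rw [e5, ← Finset.sum_add_distrib]
        refine Finset.sum_congr rfl fun i _ => ?_
        split_ifs <;> simp
      show (u : ℝ) < ∑ k, F ω k ⟨v, hvD⟩
      rw [e1]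
      exact h2
  have hmeasE : ∀ k : Fin j, MeasurableSet (sC w (c k).2 k (ps w c k)) := by
    intro k
    unfold sC
    refine measurableSet_le ?_ measurable_const
    refine Measurable.const_mul ?_ _
    refine Finset.measurable_sum _ fun y _ => ?_
    refine Measurable.const_mul ?_ _
    fun_prop
  set e : Fin j → ℝ := fun k => (1 / 2) * Real.exp (θ ^ 2 * GC u w a k ⟨v, hvD⟩ ⟨v, hvD⟩ / 2) *
          (if @decide (24 ≤ ((c k).1 : ℕ) ∧ ((c k).1 : ℕ) < 40 ∧ bulk (cc w k) a v) (Classical.dec _) = true then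
            Real.exp (-(c1 * (θ * Real.sqrt (bb k)))) else 1) with he
  have hpt := point_abs (ι := ↥(Dw w)) j Γ hΓ (fun k => sC w (c k).2 k (ps w c k)) hmeasE ⟨v, hvD⟩ θ u hθ e (by
    intro k
    have hk : (k : ℕ) < j := k.2
    have e0 : Γ k.castSucc = GC u w a k := by
      simp only [hΓdef]
      rw [if_pos (by simp)]
      rfl
    rw [e0]
    exact (hlev u w h a c k (by omega)).2.2 n (by omega) le_rfl ⟨v, hvD⟩
      (avb_near u w h c v hv k (by omega)) θ hθ hθ1)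
  have hmain : PC u w a {ω : Fin (n + 1) → EuclideanSpace ℝ ↥(Dw w) | (∀ k : Fin (n + 1), (k : ℕ) < j → ω k ∈ sC w (c k).2 k (ps w c k)) ∧
      (u : ℝ) < ∑ k, ω k ⟨v, hvD⟩} ≤
      (Measure.pi fun k => multivariateGaussian (0 : EuclideanSpace ℝ ↥(Dw w)) (Γ k)) S := by
    refine (measure_mono hsub).trans ?_
    have h1 : PC u w a (F ⁻¹' S) ≤ (PC u w a).map F S := Measure.le_map_apply hFm.aemeasurable S
    refine h1.trans (le_of_eq ?_)
    congr 1
  refine hmain.trans (hpt.trans (ENNReal.ofReal_le_ofReal ?_))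
  have hprod : (∏ k, e k) * Real.exp (θ ^ 2 * Γ (Fin.last j) ⟨v, hvD⟩ ⟨v, hvD⟩ / 2) =
      (1 / 2) ^ j * Real.exp (θ ^ 2 * ((1 / 4) * green (Dw w) v v) / 2) *
      ∏ k ∈ Finset.range j,
        (if @decide (bulk (cc w k) a v) (Classical.dec _) = true then
          Real.exp (-(if 24 ≤ ((c k).1 : ℕ) ∧ ((c k).1 : ℕ) < 40 then c1 * (θ * Real.sqrt (bb k)) else 0)) else 1) := by
    simp only [he]
    rw [Finset.prod_mul_distrib, Finset.prod_mul_distrib, Finset.prod_const, Finset.card_univ, Fintype.card_fin,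
      ← Real.exp_sum]
    have e1 : Γ (Fin.last j) ⟨v, hvD⟩ ⟨v, hvD⟩ = ∑ i ∈ Finset.Ico j (n + 1), GC u w a i ⟨v, hvD⟩ ⟨v, hvD⟩ := by
      simp only [hΓdef]
      rw [if_neg (by simp), Matrix.sum_apply]
    have e2 : (∑ k : Fin j, θ ^ 2 * GC u w a k ⟨v, hvD⟩ ⟨v, hvD⟩ / 2) + θ ^ 2 * Γ (Fin.last j) ⟨v, hvD⟩ ⟨v, hvD⟩ / 2 =
        θ ^ 2 * ((1 / 4) * green (Dw w) v v) / 2 := by
      have e3 := congrFun (congrFun hsum ⟨v, hvD⟩) ⟨v, hvD⟩
      rw [Matrix.sum_apply] at e3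
      have e4 : (1 / 4) * green (Dw w) v v = ∑ k : Fin (n + 1), GC u w a k ⟨v, hvD⟩ ⟨v, hvD⟩ := by
        rw [e3]; rfl
      rw [e1, e4, Fin.sum_univ_eq_sum_range (fun k => GC u w a k ⟨v, hvD⟩ ⟨v, hvD⟩),
        Fin.sum_univ_eq_sum_range (fun k => θ ^ 2 * GC u w a k ⟨v, hvD⟩ ⟨v, hvD⟩ / 2),
        ← Finset.sum_range_add_sum_Ico _ (show j ≤ n + 1 by omega), mul_add, add_div, Finset.mul_sum,
        Finset.mul_sum, Finset.sum_div, Finset.sum_div]
    rw [← e2, Real.exp_add]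
    have e5 : ∏ k : Fin j, (if @decide (24 ≤ ((c k).1 : ℕ) ∧ ((c k).1 : ℕ) < 40 ∧ bulk (cc w k) a v) (Classical.dec _) = true then
            Real.exp (-(c1 * (θ * Real.sqrt (bb k)))) else 1) =
        ∏ k ∈ Finset.range j,
        (if @decide (bulk (cc w k) a v) (Classical.dec _) = true then
          Real.exp (-(if 24 ≤ ((c k).1 : ℕ) ∧ ((c k).1 : ℕ) < 40 then c1 * (θ * Real.sqrt (bb k)) else 0)) else 1) := by
      rw [← Fin.prod_univ_eq_prod_range (fun k => (if @decide (bulk (cc w k) a v) (Classical.dec _) = true then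
          Real.exp (-(if 24 ≤ ((c k).1 : ℕ) ∧ ((c k).1 : ℕ) < 40 then c1 * (θ * Real.sqrt (bb k)) else 0)) else 1))]
      refine Finset.prod_congr rfl fun k _ => ?_
      simp only [decide_eq_true_eq]
      by_cases hb : bulk (cc w k) a v
      · by_cases hc1 : 24 ≤ ((c k).1 : ℕ)
        · by_cases hc2 : ((c k).1 : ℕ) < 40
          · simp [hb, hc1, hc2]
          · simp [hb, hc1, hc2]
        · simp [hb, hc1]
      · simp [hb]
    rw [e5]
    ring
  rw [hprod]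
  have hF0 : 0 ≤ ∏ k ∈ Finset.range j,
        (if @decide (bulk (cc w k) a v) (Classical.dec _) = true then
          Real.exp (-(if 24 ≤ ((c k).1 : ℕ) ∧ ((c k).1 : ℕ) < 40 then c1 * (θ * Real.sqrt (bb k)) else 0)) else 1) := by
    refine Finset.prod_nonneg fun k _ => ?_
    split_ifs <;> positivity
  rw [Real.exp_add]
  have hvar := avb_var u w h v
  have hexp : Real.exp (θ ^ 2 * ((1 / 4) * green (Dw w) v v) / 2) ≤ Real.exp (θ ^ 2 * (6 * n + u + 10) / 2) := by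
    apply Real.exp_le_exp.2
    have := mul_le_mul_of_nonneg_left hvar (sq_nonneg θ)
    linarith
  have hA : 0 ≤ Real.exp (-(θ * u)) * (1 / 2 : ℝ) ^ j := by positivity
  calc Real.exp (-(θ * u)) * ((1 / 2) ^ j * Real.exp (θ ^ 2 * ((1 / 4) * green (Dw w) v v) / 2) *
        ∏ k ∈ Finset.range j,
        (if @decide (bulk (cc w k) a v) (Classical.dec _) = true then
          Real.exp (-(if 24 ≤ ((c k).1 : ℕ) ∧ ((c k).1 : ℕ) < 40 then c1 * (θ * Real.sqrt (bb k)) else 0)) else 1))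
      = (Real.exp (-(θ * u)) * (1 / 2) ^ j) * Real.exp (θ ^ 2 * ((1 / 4) * green (Dw w) v v) / 2) *
        ∏ k ∈ Finset.range j,
        (if @decide (bulk (cc w k) a v) (Classical.dec _) = true then
          Real.exp (-(if 24 ≤ ((c k).1 : ℕ) ∧ ((c k).1 : ℕ) < 40 then c1 * (θ * Real.sqrt (bb k)) else 0)) else 1) := by ring
    _ ≤ (Real.exp (-(θ * u)) * (1 / 2) ^ j) * Real.exp (θ ^ 2 * (6 * n + u + 10) / 2) *
        ∏ k ∈ Finset.range j,
        (if @decide (bulk (cc w k) a v) (Classical.dec _) = true then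
          Real.exp (-(if 24 ≤ ((c k).1 : ℕ) ∧ ((c k).1 : ℕ) < 40 then c1 * (θ * Real.sqrt (bb k)) else 0)) else 1) :=
        mul_le_mul_of_nonneg_right (mul_le_mul_of_nonneg_left hexp hA) hF0
    _ = _ := by ring

theorem avb_sum64 (g : ℝ → ℝ) (z : ℝ) :
    ∑ x : Fin 64 × Bool, g (if 24 ≤ ((x.1 : Fin 64) : ℕ) ∧ ((x.1 : Fin 64) : ℕ) < 40 then z else 0) =
      32 * g z + 96 * g 0 := by
  rw [Fintype.sum_prod_type]
  have h1 : ∀ d : Fin 64, ∑ b : Bool, g (if 24 ≤ (((d, b).1 : Fin 64) : ℕ) ∧ (((d, b).1 : Fin 64) : ℕ) < 40 then z else 0) =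
      if 24 ≤ (d : ℕ) ∧ (d : ℕ) < 40 then 2 * g z else 2 * g 0 := by
    intro d
    rw [Fintype.sum_bool]
    split_ifs <;> ring
  simp only [h1]
  rw [Finset.sum_ite, Finset.sum_const, Finset.sum_const]
  have c1 : (Finset.univ.filter (fun d : Fin 64 => 24 ≤ (d : ℕ) ∧ (d : ℕ) < 40)).card = 16 := by decide
  have c2 : (Finset.univ.filter (fun d : Fin 64 => ¬ (24 ≤ (d : ℕ) ∧ (d : ℕ) < 40))).card = 48 := by decide
  rw [c1, c2]
  simp only [nsmul_eq_mul]
  push_cast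
  ring

theorem avb_sum_c (n j : ℕ) (hj : j ≤ n) (z : ℕ → ℝ) :
    ∑ c : Fin n → Fin 64 × Bool, ∏ k ∈ Finset.range j,
      (1 - (1 / 30) * (1 - Real.exp (-(if 24 ≤ ((extd c k).1 : ℕ) ∧ ((extd c k).1 : ℕ) < 40 then z k else 0)))) =
    64 ^ n * 2 ^ n * ∏ k ∈ Finset.range j, (1 - (1 / 120) * (1 - Real.exp (-(z k)))) := by
  classical
  have h1 : ∀ c : Fin n → Fin 64 × Bool, ∏ k ∈ Finset.range j,
      (1 - (1 / 30) * (1 - Real.exp (-(if 24 ≤ ((extd c k).1 : ℕ) ∧ ((extd c k).1 : ℕ) < 40 then z k else 0)))) =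
      ∏ i : Fin n, (if (i : ℕ) < j then
        (1 - (1 / 30) * (1 - Real.exp (-(if 24 ≤ ((c i).1 : ℕ) ∧ ((c i).1 : ℕ) < 40 then z i else 0)))) else 1) := by
    intro c
    have e1 : ∏ k ∈ Finset.range j,
      (1 - (1 / 30) * (1 - Real.exp (-(if 24 ≤ ((extd c k).1 : ℕ) ∧ ((extd c k).1 : ℕ) < 40 then z k else 0)))) =
      ∏ k ∈ Finset.range n, (if k < j then
        (1 - (1 / 30) * (1 - Real.exp (-(if 24 ≤ ((extd c k).1 : ℕ) ∧ ((extd c k).1 : ℕ) < 40 then z k else 0)))) else 1) := by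
      rw [← Finset.prod_filter]
      refine Finset.prod_congr ?_ fun _ _ => rfl
      ext k
      simp only [Finset.mem_range, Finset.mem_filter]
      omega
    rw [e1, ← Fin.prod_univ_eq_prod_range (fun k => (if k < j then
        (1 - (1 / 30) * (1 - Real.exp (-(if 24 ≤ ((extd c k).1 : ℕ) ∧ ((extd c k).1 : ℕ) < 40 then z k else 0)))) else 1))]
    refine Finset.prod_congr rfl fun i _ => ?_
    have e2 : extd c (i : ℕ) = c i := by
      unfold extd
      rw [dif_pos i.2]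
    rw [e2]
  simp only [h1]
  have h2 := Finset.prod_univ_sum (fun _ : Fin n => (Finset.univ : Finset (Fin 64 × Bool)))
    (fun (i : Fin n) (x : Fin 64 × Bool) => (if (i : ℕ) < j then
        (1 - (1 / 30) * (1 - Real.exp (-(if 24 ≤ (x.1 : ℕ) ∧ (x.1 : ℕ) < 40 then z i else 0)))) else 1))
  rw [Fintype.piFinset_univ] at h2
  rw [← h2]
  have h3 : ∀ i : Fin n, ∑ x : Fin 64 × Bool, (if (i : ℕ) < j then
        (1 - (1 / 30) * (1 - Real.exp (-(if 24 ≤ (x.1 : ℕ) ∧ (x.1 : ℕ) < 40 then z i else 0)))) else 1) =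
      128 * (if (i : ℕ) < j then (1 - (1 / 120) * (1 - Real.exp (-(z i)))) else 1) := by
    intro i
    by_cases hi : (i : ℕ) < j
    · simp only [if_pos hi]
      rw [avb_sum64 (fun t => 1 - (1 / 30) * (1 - Real.exp (-t))) (z i)]
      simp only [neg_zero, Real.exp_zero]
      ring
    · simp only [if_neg hi]
      rw [Finset.sum_const, Finset.card_univ]
      norm_num
  simp only [h3]
  rw [Finset.prod_mul_distrib, Finset.prod_const, Finset.card_univ, Fintype.card_fin,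
    Fin.prod_univ_eq_prod_range (fun k => (if k < j then (1 - (1 / 120) * (1 - Real.exp (-(z k)))) else 1)),
    ← Finset.prod_filter, ← mul_pow]
  norm_num
  congr 1
  ext k
  simp only [Finset.mem_range, Finset.mem_filter]
  omega

theorem _root_.H941.avg_bot : ∃ c1 : ℝ, 0 < c1 ∧ c1 ≤ 1 ∧ ∀ (u w : ℕ), ParC u w → ∀ θ : ℝ, 0 ≤ θ → θ ≤ 1 →
      ∑ a1 ∈ Finset.range (2 * cc w 0), ∑ a2 ∈ Finset.range (2 * cc w 0), ∑ c : Fin (nb u w) → Fin 64 × Bool,
        PC u w ((a1 : ℤ), (a2 : ℤ)) {ω | (∀ k : Fin (nb u w + 1), (k : ℕ) < nb u w - gap u (nb u w) → ω k ∈ sC w (extd c k).2 k (ps w (extd c) k)) ∧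
          ¬ ∀ v ∈ finalVerts ⌈ll w (nb u w)⌉₊ (ps w (extd c) (nb u w)), extf (Dw w) (∑ k, ω k) v ≤ u} ≤
      ENNReal.ofReal ((2 * (cc w 0 : ℝ)) ^ 2 * (2 * ⌈ll w (nb u w)⌉₊ * 64 ^ (nb u w) * 2 ^ (min (nb u w) (gap u (nb u w)))) *
        (Real.exp (-(θ * u) + θ ^ 2 * (6 * nb u w + u + 10) / 2) *
          (∏ k ∈ Finset.range (nb u w - gap u (nb u w)), (1 - (1 / 120) * (1 - Real.exp (-(c1 * (θ * Real.sqrt (bb k))))))))) := by
  classical
  obtain ⟨c1, hc1, hc1', hlev⟩ := levC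
  refine ⟨c1, hc1, hc1', ?_⟩
  intro u w h θ hθ hθ1
  set n := nb u w with hn
  set j := n - gap u n with hj
  have hjn : j ≤ n := Nat.sub_le _ _
  set q := ⌈ll w n⌉₊ with hq
  have hq1 : 1 ≤ q := by
    have := Nat.ceil_pos.2 (avb_ll u w h n)
    omega
  set K : ℝ := Real.exp (-(θ * u) + θ ^ 2 * (6 * n + u + 10) / 2) * (1 / 2) ^ j with hK
  have hK0 : 0 ≤ K := by positivity
  set z : ℕ → ℝ := fun k => c1 * (θ * Real.sqrt (bb k)) with hz
  have hz0 : ∀ k, 0 ≤ z k := fun k => mul_nonneg hc1.le (mul_nonneg hθ (Real.sqrt_nonneg _))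
  set z' : (Fin n → Fin 64 × Bool) → ℕ → ℝ := fun c k =>
    if 24 ≤ ((extd c k).1 : ℕ) ∧ ((extd c k).1 : ℕ) < 40 then z k else 0 with hz'
  have hz'0 : ∀ c k, 0 ≤ z' c k := by
    intro c k
    simp only [hz']
    split_ifs
    · exact hz0 k
    · exact le_rfl
  set A : (Fin n → Fin 64 × Bool) → ℤ × ℤ → ℤ × ℤ → ℝ := fun c a v =>
    ∏ k ∈ Finset.range j, (if @decide (bulk (cc w k) a v) (Classical.dec _) = true then
          Real.exp (-(z' c k)) else 1) with hA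
  have hA0 : ∀ c a v, 0 ≤ A c a v := by
    intro c a v
    refine Finset.prod_nonneg fun k _ => ?_
    split_ifs <;> positivity
  set Fs : (Fin n → Fin 64 × Bool) → Finset (ℤ × ℤ) := fun c =>
    (finalVerts q (ps w (extd c) n)).toFinset.filter (fun v => v ∈ Dw w) with hFs
  have hcard : ∀ c, (Fs c).card ≤ 2 * q := by
    intro c
    refine (Finset.card_filter_le _ _).trans ((List.toFinset_card_le _).trans ?_)
    rw [(finalVerts_facts q hq1 (ps w (extd c) n) (by rw [avb_norm]; exact Nat.le_ceil _)).2.2]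
  have hstep : ∀ (a : ℤ × ℤ) (c : Fin n → Fin 64 × Bool),
      PC u w a {ω : Fin (n + 1) → EuclideanSpace ℝ ↥(Dw w) | (∀ k : Fin (n + 1), (k : ℕ) < j → ω k ∈ sC w (extd c k).2 k (ps w (extd c) k)) ∧
          ¬ ∀ v ∈ finalVerts q (ps w (extd c) n), extf (Dw w) (∑ k, ω k) v ≤ u} ≤
      ∑ v ∈ Fs c, ENNReal.ofReal (K * A c a v) := by
    intro a c
    have hsub : {ω : Fin (n + 1) → EuclideanSpace ℝ ↥(Dw w) | (∀ k : Fin (n + 1), (k : ℕ) < j → ω k ∈ sC w (extd c k).2 k (ps w (extd c) k)) ∧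
          ¬ ∀ v ∈ finalVerts q (ps w (extd c) n), extf (Dw w) (∑ k, ω k) v ≤ u} ⊆
        ⋃ v ∈ Fs c, {ω : Fin (n + 1) → EuclideanSpace ℝ ↥(Dw w) | (∀ k : Fin (n + 1), (k : ℕ) < j → ω k ∈ sC w (extd c k).2 k (ps w (extd c) k)) ∧
          (u : ℝ) < extf (Dw w) (∑ k, ω k) v} := by
      rintro ω ⟨h1, h2⟩
      push Not at h2
      obtain ⟨v, hv, hv2⟩ := h2
      have hvD : v ∈ Dw w := by
        by_contra hne
        have : extf (Dw w) (∑ k, ω k) v = 0 := by
          unfold extf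
          rw [dif_neg hne]
        rw [this] at hv2
        have : (0 : ℝ) ≤ u := Nat.cast_nonneg _
        linarith
      refine Set.mem_iUnion₂.2 ⟨v, ?_, h1, hv2⟩
      simp only [hFs, Finset.mem_filter, List.mem_toFinset]
      exact ⟨hv, hvD⟩
    refine (measure_mono hsub).trans ((measure_biUnion_finset_le _ _).trans ?_)
    refine Finset.sum_le_sum fun v hv => ?_
    simp only [hFs, Finset.mem_filter, List.mem_toFinset] at hv
    obtain ⟨hv1, hvD⟩ := hv
    have key := avb_point c1 hlev u w h θ hθ hθ1 a (extd c) v hv1 hvD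
    refine le_trans (le_of_eq ?_) key
    congr 1
    ext ω
    have e1 : extf (Dw w) (∑ k, ω k) v = ∑ k, ω k ⟨v, hvD⟩ := by
      unfold extf
      rw [dif_pos hvD]
      simp
    constructor
    · rintro ⟨h1, h2⟩
      exact ⟨h1, by rw [← e1]; exact h2⟩
    · rintro ⟨h1, h2⟩
      exact ⟨h1, by rw [e1]; exact h2⟩
  -- average over the shifts
  have havg : ∀ (c : Fin n → Fin 64 × Bool) (v : ℤ × ℤ),
      ∑ a1 ∈ Finset.range (2 * cc w 0), ∑ a2 ∈ Finset.range (2 * cc w 0), A c ((a1 : ℤ), (a2 : ℤ)) v ≤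
        (2 * (cc w 0 : ℝ)) ^ 2 * ∏ k ∈ Finset.range j, (1 - (1 / 30) * (1 - Real.exp (-(z' c k)))) := by
    intro c v
    have := bulk_avg (2 * cc w 0) j (cc w) (fun i hi => (h.cc_fac i (by omega)).1)
      (fun i hi => h.cc_dvd0 i (by omega)) (fun i hi => h.cc_dvd i (by omega)) v (z' c) (hz'0 c)
    push_cast at this
    exact this
  set G : (Fin n → Fin 64 × Bool) → ℝ := fun c =>
    ∏ k ∈ Finset.range j, (1 - (1 / 30) * (1 - Real.exp (-(z' c k)))) with hG
  have hG0 : ∀ c, 0 ≤ G c := by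
    intro c
    refine Finset.prod_nonneg fun k _ => ?_
    have := Real.exp_pos (-(z' c k))
    linarith
  calc ∑ a1 ∈ Finset.range (2 * cc w 0), ∑ a2 ∈ Finset.range (2 * cc w 0), ∑ c : Fin n → Fin 64 × Bool,
        PC u w ((a1 : ℤ), (a2 : ℤ)) {ω : Fin (n + 1) → EuclideanSpace ℝ ↥(Dw w) | (∀ k : Fin (n + 1), (k : ℕ) < j → ω k ∈ sC w (extd c k).2 k (ps w (extd c) k)) ∧
          ¬ ∀ v ∈ finalVerts q (ps w (extd c) n), extf (Dw w) (∑ k, ω k) v ≤ u}
      ≤ ∑ a1 ∈ Finset.range (2 * cc w 0), ∑ a2 ∈ Finset.range (2 * cc w 0), ∑ c : Fin n → Fin 64 × Bool,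
        ∑ v ∈ Fs c, ENNReal.ofReal (K * A c ((a1 : ℤ), (a2 : ℤ)) v) :=
        Finset.sum_le_sum fun a1 _ => Finset.sum_le_sum fun a2 _ => Finset.sum_le_sum fun c _ => hstep _ c
    _ = ∑ c : Fin n → Fin 64 × Bool, ∑ v ∈ Fs c, ∑ a1 ∈ Finset.range (2 * cc w 0),
          ∑ a2 ∈ Finset.range (2 * cc w 0), ENNReal.ofReal (K * A c ((a1 : ℤ), (a2 : ℤ)) v) := by
        have e1 : ∀ a1 ∈ Finset.range (2 * cc w 0), ∑ a2 ∈ Finset.range (2 * cc w 0), ∑ c : Fin n → Fin 64 × Bool,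
            ∑ v ∈ Fs c, ENNReal.ofReal (K * A c ((a1 : ℤ), (a2 : ℤ)) v) =
            ∑ c : Fin n → Fin 64 × Bool, ∑ v ∈ Fs c, ∑ a2 ∈ Finset.range (2 * cc w 0),
              ENNReal.ofReal (K * A c ((a1 : ℤ), (a2 : ℤ)) v) := by
          intro a1 _
          rw [Finset.sum_comm]
          refine Finset.sum_congr rfl fun c _ => ?_
          rw [Finset.sum_comm]
        rw [Finset.sum_congr rfl e1, Finset.sum_comm]
        refine Finset.sum_congr rfl fun c _ => ?_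
        rw [Finset.sum_comm]
    _ ≤ ∑ c : Fin n → Fin 64 × Bool, ∑ v ∈ Fs c, ENNReal.ofReal (K * ((2 * (cc w 0 : ℝ)) ^ 2 * G c)) := by
        refine Finset.sum_le_sum fun c _ => Finset.sum_le_sum fun v _ => ?_
        have e1 : ∑ a1 ∈ Finset.range (2 * cc w 0), ∑ a2 ∈ Finset.range (2 * cc w 0),
            ENNReal.ofReal (K * A c ((a1 : ℤ), (a2 : ℤ)) v) =
            ENNReal.ofReal (K * ∑ a1 ∈ Finset.range (2 * cc w 0), ∑ a2 ∈ Finset.range (2 * cc w 0),
              A c ((a1 : ℤ), (a2 : ℤ)) v) := by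
          rw [Finset.mul_sum, ENNReal.ofReal_sum_of_nonneg]
          · refine Finset.sum_congr rfl fun a1 _ => ?_
            rw [Finset.mul_sum, ENNReal.ofReal_sum_of_nonneg]
            intro a2 _
            exact mul_nonneg hK0 (hA0 _ _ _)
          · intro a1 _
            exact mul_nonneg hK0 (Finset.sum_nonneg fun a2 _ => hA0 _ _ _)
        rw [e1]
        exact ENNReal.ofReal_le_ofReal (mul_le_mul_of_nonneg_left (havg c v) hK0)
    _ ≤ ∑ c : Fin n → Fin 64 × Bool, ENNReal.ofReal (2 * q * (K * ((2 * (cc w 0 : ℝ)) ^ 2 * G c))) := by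
        refine Finset.sum_le_sum fun c _ => ?_
        rw [Finset.sum_const, nsmul_eq_mul]
        have e1 : ENNReal.ofReal (2 * q * (K * ((2 * (cc w 0 : ℝ)) ^ 2 * G c))) =
            ((2 * q : ℕ) : ENNReal) * ENNReal.ofReal (K * ((2 * (cc w 0 : ℝ)) ^ 2 * G c)) := by
          rw [ENNReal.ofReal_mul (by positivity)]
          congr 1
          rw [← ENNReal.ofReal_natCast]
          push_cast
          rfl
        rw [e1]
        gcongr
        exact_mod_cast hcard c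
    _ = ENNReal.ofReal (2 * q * (K * ((2 * (cc w 0 : ℝ)) ^ 2 * ∑ c : Fin n → Fin 64 × Bool, G c))) := by
        rw [← ENNReal.ofReal_sum_of_nonneg]
        · congr 1
          rw [Finset.mul_sum, Finset.mul_sum, Finset.mul_sum]
        · intro c _
          have := hG0 c
          positivity
    _ = _ := by
        congr 1
        have e1 := avb_sum_c n j hjn z
        have e2 : ∑ c : Fin n → Fin 64 × Bool, G c = 64 ^ n * 2 ^ n * ∏ k ∈ Finset.range j, (1 - (1 / 120) * (1 - Real.exp (-(z k)))) := by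
          rw [← e1]
        rw [e2, hK]
        have e3 : (2 : ℝ) ^ n * (1 / 2) ^ j = 2 ^ (min n (gap u n)) := by
          have e4 : n = min n (gap u n) + j := by omega
          rw [one_div, inv_pow]
          nth_rewrite 1 [e4]
          rw [pow_add]
          field_simp
        rw [← e3]
        ring

end H941.avg_bot
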