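import Pool.Agent.KS6_63.GFF.Defs4
import Pool.Agent.KS6_63.GFF.A3
import Pool.Agent.KS6_63.GFF.A4
import Pool.Agent.KS6_63.GFF.B.coarse_var_
import Pool.Agent.KS6_63.GFF.B.pst_near_
import Pool.Agent.KS6_63.GFF.C.GC_facts
import Pool.Agent.KS6_63.GFF.C.coarse_abs_
import Pool.Agent.KS6_63.GFF.C.inc_arm_
import Pool.Agent.KS6_63.GFF.C.inc_gs_
import Pool.Agent.KS6_63.GFF.C.levC_
import Pool.Agent.KS6_63.GFF.C.point_abs_

open MeasureTheory ProbabilityTheory

namespace H941.coarseC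

theorem cC_place_mem (a b c d : ℤ) (o : Bool) (t z : ℤ × ℤ) :
    z ∈ (rect a b c d).image (place o t) ↔
      (if o then (a ≤ z.1 - t.1 ∧ z.1 - t.1 ≤ b ∧ c ≤ z.2 - t.2 ∧ z.2 - t.2 ≤ d)
      else (a ≤ z.2 - t.2 ∧ z.2 - t.2 ≤ b ∧ c ≤ z.1 - t.1 ∧ z.1 - t.1 ≤ d)) := by
  rw [Finset.mem_image]
  cases o
  · simp only [Bool.false_eq_true, if_false]
    constructor
    · rintro ⟨v, hv, rfl⟩
      simp only [rect, Finset.mem_product, Finset.mem_Icc] at hv
      simp only [place, Bool.false_eq_true, if_false]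
      constructor
      · linarith [hv.1.1]
      · refine ⟨by linarith [hv.1.2], by linarith [hv.2.1], by linarith [hv.2.2]⟩
    · rintro ⟨h1, h2, h3, h4⟩
      refine ⟨(z.2 - t.2, z.1 - t.1), ?_, ?_⟩
      · simp only [rect, Finset.mem_product, Finset.mem_Icc]
        exact ⟨⟨h1, h2⟩, h3, h4⟩
      · simp only [place, Bool.false_eq_true, if_false]
        ext <;> simp
  · simp only [if_true]
    constructor
    · rintro ⟨v, hv, rfl⟩
      simp only [rect, Finset.mem_product, Finset.mem_Icc] at hv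
      simp only [place, if_true]
      constructor
      · linarith [hv.1.1]
      · refine ⟨by linarith [hv.1.2], by linarith [hv.2.1], by linarith [hv.2.2]⟩
    · rintro ⟨h1, h2, h3, h4⟩
      refine ⟨(z.1 - t.1, z.2 - t.2), ?_, ?_⟩
      · simp only [rect, Finset.mem_product, Finset.mem_Icc]
        exact ⟨⟨h1, h2⟩, h3, h4⟩
      · simp only [place, if_true]
        ext <;> simp

theorem cC_ball (x z : ℤ × ℤ) (r : ℤ) : z ∈ ball x r ↔
    (x.1 - r ≤ z.1 ∧ z.1 ≤ x.1 + r) ∧ (x.2 - r ≤ z.2 ∧ z.2 ≤ x.2 + r) := by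
  simp only [ball, rect, Finset.mem_product, Finset.mem_Icc]

/-- geometry of a placed arm -/
theorem cC_geo (o : Bool) (t : ℤ × ℤ) (W d : ℕ) (hd : 64 ≤ d) (hdW : 10 ^ 9 * d ≤ W) :
    (∀ z ∈ (Dw W).image (place o t), z ∈ ball (xa o t W) ((8 * W : ℕ) : ℤ)) ∧
    (∀ z ∈ ball (xa o t W) ((d / 4 : ℕ) : ℤ), z ∈ (Dw W).image (place o t)) ∧
    (∀ z : ℤ × ℤ, |z.1 - (xa o t W).1| ≤ ((W / 2 - 1 : ℕ) : ℤ) →
      |z.2 - (xa o t W).2| ≤ ((W / 2 - 1 : ℕ) : ℤ) → z ∈ (Dw W).image (place o t)) ∧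
    (∀ p ∈ (rect W (5 * W) d (W - d)).image (place o t),
      p ∈ (Dw W).image (place o t) ∧
      ∀ z ∈ ball p (2 * ((d / 8 : ℕ) : ℤ) + 1), z ∈ (Dw W).image (place o t) ∧
        z ∈ ball (xa o t W) ((6 * W : ℕ) : ℤ) ∧
        ∀ y ∈ ball z ((d / 4 : ℕ) : ℤ), y ∈ (Dw W).image (place o t)) := by
  have h8 : 8 * (d / 8) ≤ d := Nat.mul_div_le d 8
  have h4 : 4 * (d / 4) ≤ d := Nat.mul_div_le d 4
  have hW2 : 2 * (W / 2) ≤ W := Nat.mul_div_le W 2
  have hW3 : W < 2 * (W / 2) + 2 := by omega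
  refine ⟨?_, ?_, ?_, ?_⟩
  · intro z hz
    rw [Dw, cC_place_mem] at hz
    rw [cC_ball]
    cases o
    · simp only [Bool.false_eq_true, if_false, xa, place] at hz ⊢
      omega
    · simp only [if_true, xa, place] at hz ⊢
      omega
  · intro z hz
    rw [cC_ball] at hz
    rw [Dw, cC_place_mem]
    cases o
    · simp only [Bool.false_eq_true, if_false, xa, place] at hz ⊢
      omega
    · simp only [if_true, xa, place] at hz ⊢
      omega
  · intro z hz1 hz2
    rw [abs_le] at hz1 hz2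
    rw [Dw, cC_place_mem]
    cases o
    · simp only [Bool.false_eq_true, if_false, xa, place] at hz1 hz2 ⊢
      omega
    · simp only [if_true, xa, place] at hz1 hz2 ⊢
      omega
  · intro p hp
    rw [cC_place_mem] at hp
    refine ⟨?_, ?_⟩
    · rw [Dw, cC_place_mem]
      cases o
      · simp only [Bool.false_eq_true, if_false] at hp ⊢
        omega
      · simp only [if_true] at hp ⊢
        omega
    · intro z hz
      rw [cC_ball] at hz
      refine ⟨?_, ?_, ?_⟩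
      · rw [Dw, cC_place_mem]
        cases o
        · simp only [Bool.false_eq_true, if_false] at hp ⊢
          omega
        · simp only [if_true] at hp ⊢
          omega
      · rw [cC_ball]
        cases o
        · simp only [Bool.false_eq_true, if_false, xa, place] at hp ⊢
          omega
        · simp only [if_true, xa, place] at hp ⊢
          omega
      · intro y hy
        rw [cC_ball] at hy
        rw [Dw, cC_place_mem]
        cases o
        · simp only [Bool.false_eq_true, if_false] at hp ⊢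
          omega
        · simp only [if_true] at hp ⊢
          omega

theorem cC_xa_near (c : ℤ × ℤ) (W : ℕ) (o : Bool) (t : ℤ × ℤ) (h : armAt c W o t) :
    |(xa o t W).1 - c.1| ≤ 2 * (W : ℤ) ∧ |(xa o t W).2 - c.2| ≤ 2 * (W : ℤ) := by
  rw [abs_le, abs_le]
  rcases h with ⟨rfl, rfl⟩ | ⟨rfl, rfl⟩ | ⟨rfl, rfl⟩ | ⟨rfl, rfl⟩
  · simp only [xa, place, if_true]
    omega
  · simp only [xa, place, if_true]
    omega
  · simp only [xa, place, Bool.false_eq_true, if_false]
    omega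
  · simp only [xa, place, Bool.false_eq_true, if_false]
    omega

/-- the net -/
theorem cC_net (w d τ : ℕ) (hτ : 1 ≤ τ) (o : Bool) (t : ℤ × ℤ) :
    ∃ S : Finset (ℤ × ℤ), S.card ≤ (4 * w / τ + 1) * (w / τ + 1) ∧
      (∀ y ∈ S, y ∈ (rect w (5 * w) d (w - d)).image (place o t)) ∧
      ∀ x ∈ (rect w (5 * w) d (w - d)).image (place o t),
        ∃ y ∈ S, x ∈ ball y (τ : ℤ) := by
  classical
  refine ⟨(((Finset.range (4 * w / τ + 1)) ×ˢ (Finset.range (w / τ + 1))).image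
    (fun p => place o t ((w : ℤ) + τ * p.1, (d : ℤ) + τ * p.2))).filter
      (fun y => y ∈ (rect w (5 * w) d (w - d)).image (place o t)), ?_, ?_, ?_⟩
  · refine (Finset.card_filter_le _ _).trans (Finset.card_image_le.trans ?_)
    rw [Finset.card_product, Finset.card_range, Finset.card_range]
  · intro y hy
    exact (Finset.mem_filter.1 hy).2
  · intro x hx
    rw [Finset.mem_image] at hx
    obtain ⟨v, hv, rfl⟩ := hx
    simp only [rect, Finset.mem_product, Finset.mem_Icc] at hv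
    obtain ⟨⟨a1, a2⟩, a3, a4⟩ := hv
    obtain ⟨p, hp⟩ : ∃ p : ℕ, v.1 = w + p := ⟨(v.1 - w).toNat, by omega⟩
    obtain ⟨q, hq⟩ : ∃ q : ℕ, v.2 = d + q := ⟨(v.2 - d).toNat, by omega⟩
    have e1 : τ * (p / τ) ≤ p := Nat.mul_div_le p τ
    have e2 : p < τ * (p / τ + 1) := Nat.lt_mul_div_succ p (by omega)
    have e3 : τ * (q / τ) ≤ q := Nat.mul_div_le q τ
    have e4 : q < τ * (q / τ + 1) := Nat.lt_mul_div_succ q (by omega)
    have f1 : (τ : ℤ) * ((p / τ : ℕ) : ℤ) ≤ p := by exact_mod_cast e1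
    have f2 : (p : ℤ) < (τ : ℤ) * (((p / τ : ℕ) : ℤ) + 1) := by exact_mod_cast e2
    have f3 : (τ : ℤ) * ((q / τ : ℕ) : ℤ) ≤ q := by exact_mod_cast e3
    have f4 : (q : ℤ) < (τ : ℤ) * (((q / τ : ℕ) : ℤ) + 1) := by exact_mod_cast e4
    have g1 : (0 : ℤ) ≤ (τ : ℤ) * ((p / τ : ℕ) : ℤ) := by positivity
    have g2 : (0 : ℤ) ≤ (τ : ℤ) * ((q / τ : ℕ) : ℤ) := by positivity
    refine ⟨place o t ((w : ℤ) + τ * ((p / τ : ℕ) : ℤ), (d : ℤ) + τ * ((q / τ : ℕ) : ℤ)), ?_, ?_⟩
    · rw [Finset.mem_filter]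
      refine ⟨?_, ?_⟩
      · rw [Finset.mem_image]
        refine ⟨(p / τ, q / τ), ?_, rfl⟩
        rw [Finset.mem_product, Finset.mem_range, Finset.mem_range]
        constructor
        · have : p / τ ≤ 4 * w / τ := Nat.div_le_div_right (by omega)
          simp only; omega
        · have : q / τ ≤ w / τ := Nat.div_le_div_right (by omega)
          simp only; omega
      · apply Finset.mem_image_of_mem
        simp only [rect, Finset.mem_product, Finset.mem_Icc]
        refine ⟨⟨by linarith, by linarith⟩, by linarith, by linarith⟩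
    · rw [cC_ball]
      cases o
      · simp only [place, Bool.false_eq_true, if_false]
        refine ⟨⟨by linarith, by linarith⟩, by linarith, by linarith⟩
      · simp only [place, if_true]
        refine ⟨⟨by linarith, by linarith⟩, by linarith, by linarith⟩

theorem cC_norm_toC {y z : ℤ × ℤ} {w : ℝ} (hw : 0 ≤ w) (h1 : |((y.1 : ℝ) - z.1)| ≤ w)
    (h2 : |((y.2 : ℝ) - z.2)| ≤ w) : ‖toC y - toC z‖ ≤ 2 * w := by
  refine (Complex.norm_le_abs_re_add_abs_im _).trans ?_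
  simp only [toC, Complex.sub_re, Complex.sub_im]
  linarith

theorem cC_norm_rd (m : ℂ) : ‖toC (rd m) - m‖ ≤ 2 := by
  refine (Complex.norm_le_abs_re_add_abs_im _).trans ?_
  simp only [toC, rd, Complex.sub_re, Complex.sub_im]
  have h1 := Int.floor_le m.re
  have h2 := Int.lt_floor_add_one m.re
  have h3 := Int.floor_le m.im
  have h4 := Int.lt_floor_add_one m.im
  have h5 : |(⌊m.re⌋ : ℝ) - m.re| ≤ 1 := by rw [abs_le]; constructor <;> linarith
  have h6 : |(⌊m.im⌋ : ℝ) - m.im| ≤ 1 := by rw [abs_le]; constructor <;> linarith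
  linarith

theorem cC_bb_pos (k : ℕ) : 0 < bb k := by
  unfold bb bd; positivity

theorem cC_bb_anti : Antitone bb := by
  intro a b hab
  unfold bb bd
  apply mul_le_mul_of_nonneg_left _ (by norm_num)
  apply Real.rpow_le_rpow_of_nonpos (by positivity) _ (by norm_num)
  have : (a : ℝ) ≤ b := by exact_mod_cast hab
  linarith

theorem cC_bb_zero : bb 0 = 1 / 100 := by
  simp [bb, bd]

theorem cC_bb_le (k : ℕ) : bb k ≤ 1 / 100 := by
  have := cC_bb_anti (Nat.zero_le k)
  rwa [cC_bb_zero] at this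

theorem cC_sg0_norm (w : ℕ) : ‖(sg0 w).2‖ = 5 * w := by
  simp [sg0]

theorem cC_len (w : ℕ) (c : ℕ → Fin 64 × Bool) (k : ℕ) : ‖(ps w c k).2‖ = ll w k := by
  have h := (pst_near bb (fun j => (cC_bb_pos j).le)
    (fun j => (cC_bb_le j).trans (by norm_num)) cC_bb_anti c (sg0 w) 0).2.2 k
  unfold ps
  rw [h, cC_sg0_norm]
  rfl

theorem cC_pos (w : ℕ) (c : ℕ → Fin 64 × Bool) (i : ℕ) :
    ∃ τ' : ℝ, 0 ≤ τ' ∧ τ' ≤ 1 ∧
      ‖((ps w c i).1 + (1 / 2) * (ps w c i).2) - ((sg0 w).1 + (τ' : ℂ) * (sg0 w).2)‖ ≤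
        (60 / 59) * (1 / 100 * (5 * w)) := by
  obtain ⟨-, h2, -⟩ := pst_near bb (fun j => (cC_bb_pos j).le)
    (fun j => (cC_bb_le j).trans (by norm_num)) cC_bb_anti c (sg0 w) i
  obtain ⟨τ', e1, e2, e3⟩ := h2 i le_rfl (1 / 2) (by norm_num) (by norm_num)
  rw [cC_sg0_norm, cC_bb_zero] at e3
  refine ⟨τ', e1, e2, ?_⟩
  have h : (((1 / 2 : ℝ) : ℂ)) = 1 / 2 := by push_cast; rfl
  rw [h] at e3
  exact e3

/-- increments of a positive semidefinite matrix -/
theorem cC_psd {ι : Type} [Fintype ι] [DecidableEq ι] {M : Matrix ι ι ℝ} (hM : M.PosSemidef)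
    (z x : ι) : 0 ≤ M z z - 2 * M z x + M x x := by
  have h1 := hM.dotProduct_mulVec_nonneg (Pi.single z 1 - Pi.single x 1)
  have h2 : M x z = M z x := by
    have := hM.isHermitian.apply z x
    simpa using this
  simp only [star_trivial, Matrix.mulVec_sub, sub_dotProduct, dotProduct_sub,
    Matrix.mulVec_single_one, single_one_dotProduct] at h1
  simp only [Matrix.col_apply] at h1
  rw [h2] at h1
  linarith

/-- the increments at one level -/
theorem cC_level (W cc r l : ℕ) (hW : 1 ≤ W) (hr : r = Nat.sqrt (W * cc))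
    (hcc : W * 64 ^ l * 600 ≤ cc) :
    24 * W ≤ r ∧ r ≤ 2 * cc ∧
    (((6 * W : ℕ) : ℝ) / r) * (1 + Real.log (2 * cc / r)) ≤ 96 * (4 / 9) ^ l := by
  have h64 : 1 ≤ 64 ^ l := Nat.one_le_pow _ _ (by norm_num)
  have hcW : W * 600 ≤ cc := by
    calc W * 600 ≤ W * 64 ^ l * 600 := by nlinarith
      _ ≤ cc := hcc
  have h1 : 24 * W ≤ r := by
    rw [hr, Nat.le_sqrt]
    nlinarith
  have h2 : r * r ≤ W * cc := by rw [hr]; exact Nat.sqrt_le _
  have h3 : W * cc < (r + 1) * (r + 1) := by rw [hr]; exact Nat.lt_succ_sqrt (W * cc)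
  have h4 : r ≤ cc := by
    by_contra h
    push Not at h
    nlinarith
  refine ⟨h1, by omega, ?_⟩
  have hr0 : (0 : ℝ) < r := by
    have : 0 < r := by omega
    exact_mod_cast this
  have hc0 : (0 : ℝ) < cc := by
    have : 0 < cc := by omega
    exact_mod_cast this
  have hW0 : (0 : ℝ) < W := by exact_mod_cast hW
  set X : ℝ := 2 * cc / r with hX
  have hX0 : 0 < X := by positivity
  have h5 : (r : ℝ) * r ≤ W * cc := by exact_mod_cast h2
  have h6 : (W : ℝ) * cc ≤ 4 * (r * r) := by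
    have h7 : W * cc ≤ 4 * (r * r) := by nlinarith
    exact_mod_cast h7
  have h7 : (((6 * W : ℕ) : ℝ) / r) ≤ 48 / X := by
    rw [hX]
    push_cast
    rw [div_le_iff₀ hr0]
    have : 48 / (2 * (cc : ℝ) / r) * r = 24 * (r * r) / cc := by
      field_simp
      ring
    rw [this, le_div_iff₀ hc0]
    linarith
  have h8 : (8 : ℝ) ^ l ≤ X := by
    have h9 : ((8 : ℝ) ^ l) ^ 2 ≤ X ^ 2 := by
      have h10 : ((8 : ℝ) ^ l) ^ 2 = 64 ^ l := by
        rw [← pow_mul, mul_comm l 2, pow_mul]; norm_num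
      rw [h10, hX, div_pow, le_div_iff₀ (by positivity)]
      have h11 : (W : ℝ) * 64 ^ l * 600 ≤ cc := by exact_mod_cast hcc
      have h12 : (64 : ℝ) ^ l * (r : ℝ) ^ 2 ≤ 64 ^ l * (W * cc) := by
        apply mul_le_mul_of_nonneg_left _ (by positivity)
        rw [sq]; exact h5
      have h13 : (64 : ℝ) ^ l * (W * cc) ≤ cc * cc := by
        have : (64 : ℝ) ^ l * (W * cc) = (W * 64 ^ l) * cc := by ring
        rw [this]
        apply mul_le_mul_of_nonneg_right _ hc0.le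
        have : 0 ≤ (W : ℝ) * 64 ^ l := by positivity
        linarith
      have h14 : (2 * (cc : ℝ)) ^ 2 = 4 * (cc * cc) := by ring
      rw [h14]
      have : 0 ≤ (cc : ℝ) * cc := by positivity
      linarith
    exact (abs_le_of_sq_le_sq' h9 hX0.le).2
  have h9 : (9 / 4 : ℝ) ^ l ≤ Real.sqrt X := by
    apply Real.le_sqrt_of_sq_le
    refine le_trans ?_ h8
    rw [← pow_mul, mul_comm l 2, pow_mul]
    exact pow_le_pow_left₀ (by norm_num) (by norm_num) l
  have h10 : 1 + Real.log X ≤ 2 * Real.sqrt X := by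
    have h11 : Real.log X = 2 * Real.log (Real.sqrt X) := by
      rw [Real.log_sqrt hX0.le]; ring
    have h12 := Real.log_le_sub_one_of_pos (Real.sqrt_pos.2 hX0)
    linarith
  have h11 : 0 ≤ 1 + Real.log X := by
    have : 1 ≤ X := le_trans (one_le_pow₀ (by norm_num)) h8
    have := Real.log_nonneg this
    linarith
  have hs : 0 < Real.sqrt X := Real.sqrt_pos.2 hX0
  calc (((6 * W : ℕ) : ℝ) / r) * (1 + Real.log X) ≤ (48 / X) * (2 * Real.sqrt X) :=
        mul_le_mul h7 h10 h11 (by positivity)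
    _ = 96 * (Real.sqrt X)⁻¹ := by
        have : X = Real.sqrt X * Real.sqrt X := (Real.mul_self_sqrt hX0.le).symm
        rw [this, Real.sqrt_mul_self hs.le]
        field_simp
        ring
    _ ≤ 96 * (4 / 9) ^ l := by
        apply mul_le_mul_of_nonneg_left _ (by norm_num)
        have : ((4 : ℝ) / 9) ^ l = ((9 / 4 : ℝ) ^ l)⁻¹ := by
          rw [← inv_pow]; norm_num
        rw [this]
        exact inv_anti₀ (by positivity) h9

theorem cC_big (u w : ℕ) (h : ParC u w) (i : ℕ) (hi : i ≤ nb u w) :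
    10 ^ 6 ≤ wi w i ∧ 10 ^ 6 ≤ i + u ∧ 10 ^ 6 ≤ w := by
  have hu := h.u_ge
  have h1 := (h.wi_ge i hi).1
  have h2 : 10 ^ 6 ≤ (Nat.log 2 w + u) ^ 16 := by
    calc 10 ^ 6 ≤ u := hu
      _ ≤ Nat.log 2 w + u := Nat.le_add_left _ _
      _ = (Nat.log 2 w + u) ^ 1 := (pow_one _).symm
      _ ≤ (Nat.log 2 w + u) ^ 16 := Nat.pow_le_pow_right (by omega) (by norm_num)
  refine ⟨h2.trans h1, by omega, ?_⟩
  have h3 : wi w i ≤ 6 * w := by
    have h4 := (h.wi_ge i hi).2.2
    have h5 : 1 ≤ 64 ^ i := Nat.one_le_pow _ _ (by norm_num)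
    calc wi w i = 1 * wi w i := (one_mul _).symm
      _ ≤ 64 ^ i * wi w i := Nat.mul_le_mul_right _ h5
      _ ≤ 6 * w := h4
  have h6 : (Nat.log 2 w + u) ^ 16 ≤ 6 * w := (h.wi_ge i hi).1.trans h3
  have h7 : 6 * 10 ^ 6 ≤ (Nat.log 2 w + u) ^ 16 := by
    calc 6 * 10 ^ 6 ≤ (10 ^ 6) ^ 2 := by norm_num
      _ ≤ (Nat.log 2 w + u) ^ 2 := Nat.pow_le_pow_left (by omega) 2
      _ ≤ (Nat.log 2 w + u) ^ 16 := Nat.pow_le_pow_right (by omega) (by norm_num)
  omega

theorem cC_x0 (u w : ℕ) (h : ParC u w) (i : ℕ) (hi2 : 2 ≤ i) (hi : i ≤ nb u w)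
    (c : ℕ → Fin 64 × Bool) (o : Bool) (t : ℤ × ℤ) (ha : armAt (mid (ps w c i)) (wi w i) o t) :
    (∀ z ∈ ball (xa o t (wi w i)) ((8 * wi w i : ℕ) : ℤ), z ∈ Dw w) ∧
    ‖toC (xa o t (wi w i)) - (ps w c i).1‖ ≤ 10 * wi w i := by
  obtain ⟨b1, b2, b3⟩ := cC_big u w h i hi
  have hW : (10 ^ 6 : ℝ) ≤ wi w i := by exact_mod_cast b1
  have hw : (10 ^ 6 : ℝ) ≤ w := by exact_mod_cast b3
  obtain ⟨x1, x2⟩ := cC_xa_near _ _ _ _ ha
  have n1 : ‖toC (xa o t (wi w i)) - toC (mid (ps w c i))‖ ≤ 2 * (2 * wi w i) := by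
    apply cC_norm_toC (by positivity)
    · exact_mod_cast x1
    · exact_mod_cast x2
  have n2 : ‖toC (mid (ps w c i)) - ((ps w c i).1 + (1 / 2) * (ps w c i).2)‖ ≤ 2 := cC_norm_rd _
  have n3 : ‖(1 / 2 : ℂ) * (ps w c i).2‖ ≤ (1 / 2) * wi w i := by
    rw [norm_mul, cC_len]
    have : ‖(1 / 2 : ℂ)‖ = 1 / 2 := by norm_num
    rw [this]
    have := h.ll_le i hi
    linarith
  have n4 : 4096 * (wi w i : ℝ) ≤ 6 * w := by
    have h4 := (h.wi_ge i hi).2.2
    have h5 : 4096 ≤ 64 ^ i := by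
      calc 4096 = 64 ^ 2 := by norm_num
        _ ≤ 64 ^ i := Nat.pow_le_pow_right (by norm_num) hi2
    have h6 : 4096 * wi w i ≤ 6 * w := (Nat.mul_le_mul_right _ h5).trans h4
    exact_mod_cast h6
  refine ⟨?_, ?_⟩
  · intro z hz
    obtain ⟨τ', e1, e2, e3⟩ := cC_pos w c i
    apply h.bulkD z τ' e1 e2
    have n5 : ‖toC z - toC (xa o t (wi w i))‖ ≤ 2 * (8 * wi w i) := by
      rw [cC_ball] at hz
      apply cC_norm_toC (by positivity)
      · have : |z.1 - (xa o t (wi w i)).1| ≤ 8 * (wi w i : ℤ) := by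
          rw [abs_le]; push_cast at hz; constructor <;> linarith [hz.1.1, hz.1.2]
        exact_mod_cast this
      · have : |z.2 - (xa o t (wi w i)).2| ≤ 8 * (wi w i : ℤ) := by
          rw [abs_le]; push_cast at hz; constructor <;> linarith [hz.2.1, hz.2.2]
        exact_mod_cast this
    have e : toC z - ((sg0 w).1 + (τ' : ℂ) * (sg0 w).2) =
        (toC z - toC (xa o t (wi w i))) + (toC (xa o t (wi w i)) - toC (mid (ps w c i))) +
        (toC (mid (ps w c i)) - ((ps w c i).1 + (1 / 2) * (ps w c i).2)) +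
        (((ps w c i).1 + (1 / 2) * (ps w c i).2) - ((sg0 w).1 + (τ' : ℂ) * (sg0 w).2)) := by ring
    rw [e]
    have m1 := norm_add_le ((toC z - toC (xa o t (wi w i))) +
      (toC (xa o t (wi w i)) - toC (mid (ps w c i))) +
        (toC (mid (ps w c i)) - ((ps w c i).1 + (1 / 2) * (ps w c i).2)))
        (((ps w c i).1 + (1 / 2) * (ps w c i).2) - ((sg0 w).1 + (τ' : ℂ) * (sg0 w).2))
    have m2 := norm_add_le ((toC z - toC (xa o t (wi w i))) +
      (toC (xa o t (wi w i)) - toC (mid (ps w c i))))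
        (toC (mid (ps w c i)) - ((ps w c i).1 + (1 / 2) * (ps w c i).2))
    have m3 := norm_add_le (toC z - toC (xa o t (wi w i)))
      (toC (xa o t (wi w i)) - toC (mid (ps w c i)))
    have e3' := e3
    linarith
  · have e : toC (xa o t (wi w i)) - (ps w c i).1 =
        (toC (xa o t (wi w i)) - toC (mid (ps w c i))) +
        (toC (mid (ps w c i)) - ((ps w c i).1 + (1 / 2) * (ps w c i).2)) +
        (1 / 2 : ℂ) * (ps w c i).2 := by ring
    rw [e]
    have m1 := norm_add_le ((toC (xa o t (wi w i)) - toC (mid (ps w c i))) +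
        (toC (mid (ps w c i)) - ((ps w c i).1 + (1 / 2) * (ps w c i).2))) ((1 / 2 : ℂ) * (ps w c i).2)
    have m2 := norm_add_le (toC (xa o t (wi w i)) - toC (mid (ps w c i)))
        (toC (mid (ps w c i)) - ((ps w c i).1 + (1 / 2) * (ps w c i).2))
    linarith

theorem cC_near (u w : ℕ) (h : ParC u w) (i : ℕ) (hi : i ≤ nb u w) (k : ℕ)
    (hk : k < i - gap u i) :
    wi w i * 64 ^ (i - gap u i - 1 - k) * 600 ≤ cc w k ∧
      10 * (wi w i : ℝ) ≤ bb k * ll w k / 50 := by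
  obtain ⟨b1, b2, b3⟩ := cC_big u w h i hi
  have h1 := h.near i hi k (by omega)
  have h2 : 600 ≤ (i + u) ^ 34 := by
    calc 600 ≤ i + u := by omega
      _ = (i + u) ^ 1 := (pow_one _).symm
      _ ≤ (i + u) ^ 34 := Nat.pow_le_pow_right (by omega) (by norm_num)
  have h3 : wi w i * 64 ^ (i - gap u i - 1 - k) * 600 ≤ cc w k := by
    refine le_trans ?_ h1
    calc wi w i * 64 ^ (i - gap u i - 1 - k) * 600 ≤
        wi w i * 64 ^ (i - gap u i - 1 - k) * (i + u) ^ 34 := Nat.mul_le_mul_left _ h2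
      _ = wi w i * (i + u) ^ 34 * 64 ^ (i - gap u i - 1 - k) := by ring
  refine ⟨h3, ?_⟩
  have h4 := (h.cc_fac k (by omega)).2.1
  have h5 : 1 ≤ 64 ^ (i - gap u i - 1 - k) := Nat.one_le_pow _ _ (by norm_num)
  have h6 : wi w i * 600 ≤ cc w k := by
    calc wi w i * 600 = wi w i * 1 * 600 := by ring
      _ ≤ wi w i * 64 ^ (i - gap u i - 1 - k) * 600 :=
        Nat.mul_le_mul_right _ (Nat.mul_le_mul_left _ h5)
      _ ≤ cc w k := h3
  have h7 : (wi w i : ℝ) * 600 ≤ cc w k := by exact_mod_cast h6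
  have h8 : (0 : ℝ) ≤ wi w i := Nat.cast_nonneg _
  linarith

theorem cC_Dw_mem (w : ℕ) (z : ℤ × ℤ) : z ∈ Dw w ↔
    (1 ≤ z.1 ∧ z.1 ≤ 7 * (w : ℤ) - 1) ∧ (1 ≤ z.2 ∧ z.2 ≤ (w : ℤ) - 1) := by
  simp only [Dw, rect, Finset.mem_product, Finset.mem_Icc]

theorem cC_diag (w W i : ℕ) (Da : Finset (ℤ × ℤ)) (x0 : ℤ × ℤ) (hw : 1 ≤ w) (hDa : Da ⊆ Dw w)
    (hW : 8 ≤ W) (hwW : 5 * w ≤ 64 ^ i * W)
    (hb : ∀ z : ℤ × ℤ, |z.1 - x0.1| ≤ ((W / 2 - 1 : ℕ) : ℤ) →
      |z.2 - x0.2| ≤ ((W / 2 - 1 : ℕ) : ℤ) → z ∈ Da) :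
    (1 / 4) * green (Dw w) x0 x0 - (1 / 4) * green Da x0 x0 ≤ 3 * i + 10 := by
  have g1 := coarse_var (Dw w) Da hDa (7 * w) (by omega) (by
    intro x hx y hy
    rw [cC_Dw_mem] at hx hy
    constructor
    · rw [abs_lt]; push_cast; omega
    · rw [abs_lt]; push_cast; omega) x0 (W / 2 - 1) hb
  have hl2 : 0 < Real.log 2 := Real.log_pos (by norm_num)
  set r : ℕ := W / 2 - 1 with hr
  have h1 : w ≤ 64 ^ i * r := by
    have h2 : W ≤ 4 * r := by omega
    have h3 : 5 * w ≤ 64 ^ i * (4 * r) := hwW.trans (Nat.mul_le_mul_left _ h2)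
    have h4 : 64 ^ i * (4 * r) = 4 * (64 ^ i * r) := by ring
    rw [h4] at h3
    omega
  have h2 : (w : ℝ) ≤ 64 ^ i * r := by exact_mod_cast h1
  have h3 : 1 + 2 * ((7 * w : ℕ) : ℝ) ^ 2 ≤ 2 ^ (12 * i + 7) * (1 + (r : ℝ) ^ 2) := by
    push_cast
    have h4 : (w : ℝ) ^ 2 ≤ (64 ^ i * r) ^ 2 := pow_le_pow_left₀ (Nat.cast_nonneg _) h2 2
    have h5 : (2 : ℝ) ^ (12 * i + 7) = 128 * (64 ^ i) ^ 2 := by
      rw [pow_add, pow_mul, ← pow_mul (64 : ℝ), mul_comm i 2, pow_mul (64 : ℝ)]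
      norm_num
      ring
    rw [h5]
    have h6 : (1 : ℝ) ≤ (64 ^ i) ^ 2 := one_le_pow₀ (one_le_pow₀ (by norm_num))
    have h7 : (0 : ℝ) ≤ (64 ^ i * r) ^ 2 := by positivity
    have h8 : (128 * (64 ^ i : ℝ) ^ 2) * (1 + (r : ℝ) ^ 2) =
      128 * (64 ^ i : ℝ) ^ 2 + 128 * (64 ^ i * r) ^ 2 := by ring
    rw [h8]
    nlinarith
  have h4 : Real.log (1 + 2 * ((7 * w : ℕ) : ℝ) ^ 2) ≤
      (12 * i + 7) * Real.log 2 + Real.log (1 + (r : ℝ) ^ 2) := by
    have h5 := Real.log_le_log (by positivity) h3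
    rw [Real.log_mul (by positivity) (by positivity), Real.log_pow] at h5
    push_cast at h5 ⊢
    exact h5
  have h5 : (Real.log (1 + 2 * ((7 * w : ℕ) : ℝ) ^ 2) - Real.log (1 + (r : ℝ) ^ 2)) / Real.log 2 ≤
      12 * i + 7 := by
    rw [div_le_iff₀ hl2]
    linarith
  have h6 := g1.trans h5
  linarith

theorem cC_geom (q : ℝ) (h0 : 0 ≤ q) (h1 : q < 1) (j : ℕ) :
    ∑ k : Fin j, q ^ (j - 1 - (k : ℕ)) ≤ 1 / (1 - q) := by
  rw [Fin.sum_univ_eq_sum_range (fun k => q ^ (j - 1 - k)) j,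
    Finset.sum_range_reflect (fun k => q ^ k) j, le_div_iff₀ (by linarith), geom_sum_mul_neg]
  have : 0 ≤ q ^ j := pow_nonneg h0 j
  linarith

theorem cC_sum (K : ℝ) (hK : 0 ≤ K) (j : ℕ) :
    ∑ k : Fin j, K * (4 / 9) ^ (j - 1 - (k : ℕ)) ≤ 2 * K ∧
    ∑ k : Fin j, Real.sqrt (K * (4 / 9) ^ (j - 1 - (k : ℕ))) ≤ 3 * Real.sqrt K := by
  constructor
  · rw [← Finset.mul_sum]
    have := cC_geom (4 / 9) (by norm_num) (by norm_num) j
    nlinarith
  · have h1 : ∀ l : ℕ, Real.sqrt (K * (4 / 9) ^ l) = Real.sqrt K * (2 / 3) ^ l := by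
      intro l
      rw [Real.sqrt_mul hK]
      congr 1
      rw [show ((4 : ℝ) / 9) ^ l = ((2 / 3) ^ l) ^ 2 by
        rw [← pow_mul, mul_comm l 2, pow_mul]; norm_num]
      exact Real.sqrt_sq (by positivity)
    simp only [h1]
    rw [← Finset.mul_sum]
    have h2 := cC_geom (2 / 3) (by norm_num) (by norm_num) j
    have h3 := Real.sqrt_nonneg K
    have h4 : (1 : ℝ) / (1 - 2 / 3) = 3 := by norm_num
    rw [h4] at h2
    nlinarith

theorem cC_card (W r Y : ℕ) (hr : 1 ≤ r) (hY : 1 ≤ Y) (h : W ≤ 32 * Y * r) :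
    (4 * W / r + 1) * (W / r + 1) ≤ 5000 * Y ^ 2 := by
  have h1 : W / r ≤ 32 * Y := by
    apply Nat.div_le_of_le_mul
    calc W ≤ 32 * Y * r := h
      _ = r * (32 * Y) := by ring
  have h2 : 4 * W / r ≤ 128 * Y := by
    apply Nat.div_le_of_le_mul
    calc 4 * W ≤ 4 * (32 * Y * r) := Nat.mul_le_mul_left _ h
      _ = r * (128 * Y) := by ring
  calc (4 * W / r + 1) * (W / r + 1) ≤ (128 * Y + 1) * (32 * Y + 1) :=
        Nat.mul_le_mul (by omega) (by omega)
    _ ≤ 5000 * Y ^ 2 := by nlinarith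

theorem cC_final (C2 C3 K g N y L S1 S2 : ℝ) (hC2 : 0 < C2) (hC3 : 1 ≤ C3) (hK : 0 ≤ K)
    (hy : 1 ≤ y) (hN : 0 ≤ N) (hN2 : N ≤ 5000 * y ^ 18)
    (hL : L ≤ Real.log 16 + 9 * Real.log y) (hS1 : S1 ≤ 2 * K) (hS2 : S2 ≤ 3 * Real.sqrt K) :
    C3 * N * Real.exp (-(g / 4) + (S1 / 2 + C2 * (1 + L) / 2) + S2) ≤
      (C3 * 5000 * Real.exp (C2 * (1 + Real.log 16) / 2 + K + 3 * Real.sqrt K) +
        (18 + 9 * C2 / 2) + 1) *
      y ^ (C3 * 5000 * Real.exp (C2 * (1 + Real.log 16) / 2 + K + 3 * Real.sqrt K) +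
        (18 + 9 * C2 / 2) + 1) * Real.exp (-(g / 4)) := by
  set A0 : ℝ := C3 * 5000 * Real.exp (C2 * (1 + Real.log 16) / 2 + K + 3 * Real.sqrt K) with hA0
  have hA0' : 0 ≤ A0 := by positivity
  have hy0 : 0 < y := by linarith
  have h1 : Real.exp (-(g / 4) + (S1 / 2 + C2 * (1 + L) / 2) + S2) ≤
      Real.exp (-(g / 4)) * (Real.exp (C2 * (1 + Real.log 16) / 2 + K + 3 * Real.sqrt K) *
        y ^ (9 * C2 / 2)) := by
    rw [Real.rpow_def_of_pos hy0, ← Real.exp_add, ← Real.exp_add]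
    apply Real.exp_le_exp.2
    have h2 : C2 * (1 + L) / 2 ≤ C2 * (1 + (Real.log 16 + 9 * Real.log y)) / 2 := by
      apply div_le_div_of_nonneg_right _ (by norm_num)
      apply mul_le_mul_of_nonneg_left _ hC2.le
      linarith
    nlinarith
  have h2 : C3 * N ≤ C3 * (5000 * y ^ 18) := mul_le_mul_of_nonneg_left hN2 (by linarith)
  have h3 : y ^ (18 : ℕ) * y ^ (9 * C2 / 2) = y ^ (18 + 9 * C2 / 2) := by
    rw [Real.rpow_add hy0]
    norm_num
  have h4 : y ^ (18 + 9 * C2 / 2) ≤ y ^ (A0 + (18 + 9 * C2 / 2) + 1) :=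
    Real.rpow_le_rpow_of_exponent_le hy (by linarith)
  have h5 : 0 ≤ y ^ (18 + 9 * C2 / 2) := by positivity
  calc C3 * N * Real.exp (-(g / 4) + (S1 / 2 + C2 * (1 + L) / 2) + S2)
      ≤ C3 * (5000 * y ^ 18) * (Real.exp (-(g / 4)) *
        (Real.exp (C2 * (1 + Real.log 16) / 2 + K + 3 * Real.sqrt K) * y ^ (9 * C2 / 2))) :=
        mul_le_mul h2 h1 (Real.exp_pos _).le (by positivity)
    _ = A0 * (y ^ (18 : ℕ) * y ^ (9 * C2 / 2)) * Real.exp (-(g / 4)) := by rw [hA0]; ring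
    _ = A0 * y ^ (18 + 9 * C2 / 2) * Real.exp (-(g / 4)) := by rw [h3]
    _ ≤ _ := by
      apply mul_le_mul_of_nonneg_right _ (Real.exp_pos _).le
      exact mul_le_mul (by nlinarith) h4 h5 (by nlinarith)

theorem cC_sC_meas (w : ℕ) (b : Bool) (i : ℕ) (seg : ℂ × ℂ) : MeasurableSet (sC w b i seg) := by
  unfold sC
  apply measurableSet_le _ measurable_const
  apply Measurable.const_mul
  apply Finset.measurable_sum
  intro y _
  apply Measurable.const_mul
  fun_prop

theorem _root_.H941.coarseC : ∃ C c1 : ℝ, 1 ≤ C ∧ 0 < c1 ∧ c1 ≤ 1 ∧ ∀ (u w : ℕ), ParC u w → ∀ i, 2 ≤ i → i ≤ nb u w →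
    ∀ (a : ℤ × ℤ) (c : ℕ → Fin 64 × Bool) (o : Bool) (t : ℤ × ℤ) (θ g : ℝ), 0 ≤ θ → θ ≤ 1 →
      armAt (mid (ps w c i)) (wi w i) o t → clr w (wi w i) (i - gap u i) a (xa o t (wi w i)) →
    ∀ A : Matrix ↥(Dw w) ↥(Dw w) ℝ, A.PosSemidef →
      (A = Matrix.of fun x y : ↥(Dw w) => (1 / 4) * green (Dw w) x y - ∑ k ∈ Finset.range (i - gap u i), Gs (Dw w) (cc w k) a x y -
        (1 / 4) * green ((Dw (wi w i)).image (place o t)) x y) →
      (Measure.pi (fun k : Fin (i - gap u i + 1) => multivariateGaussian (0 : EuclideanSpace ℝ ↥(Dw w))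
          (if k = Fin.last (i - gap u i) then A else GC u w a k)))
        {ω | (∀ k : Fin (i - gap u i), ω k.castSucc ∈ sC w (c k).2 k (ps w c k)) ∧
          ∃ x : ↥(Dw w), (x : ℤ × ℤ) ∈ (rect (wi w i) (5 * wi w i) (di u w i) (wi w i - di u w i)).image (place o t) ∧
            u - g < ∑ k, ω k x} ≤
      ENNReal.ofReal ((1 / 2) ^ (i - gap u i) * (Real.exp (-(θ * (u - 5 / 4 * g)) + θ ^ 2 * (3 * i + 10) / 2) *
          (∏ k ∈ Finset.range (i - gap u i), (if @decide (24 ≤ ((c k).1 : ℕ) ∧ ((c k).1 : ℕ) < 40 ∧ bulk (cc w k) a (xa o t (wi w i))) (Classical.dec _) = true then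
            Real.exp (-(c1 * (θ * Real.sqrt (bb k)))) else 1)) + C * ((i : ℝ) + u) ^ C * Real.exp (-(g / 4)))) := by
  obtain ⟨c1, hc0, hc1, hlev⟩ := levC
  obtain ⟨C1, hC1, hgs⟩ := inc_gs
  obtain ⟨C2, hC2, harm⟩ := inc_arm
  obtain ⟨C3, hC3, habs⟩ := coarse_abs
  have hK : (0 : ℝ) ≤ 96 * C1 := by positivity
  refine ⟨C3 * 5000 * Real.exp (C2 * (1 + Real.log 16) / 2 + 96 * C1 + 3 * Real.sqrt (96 * C1)) +
        (18 + 9 * C2 / 2) + 1, c1, ?_, hc0, hc1, ?_⟩
  · have : 0 ≤ C3 * 5000 * Real.exp (C2 * (1 + Real.log 16) / 2 + 96 * C1 +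
      3 * Real.sqrt (96 * C1)) := by positivity
    linarith
  intro u w h i hi2 hi a c o t θ g hθ0 hθ1 hat hclr A hA hAdef
  obtain ⟨b1, b2, b3⟩ := cC_big u w h i hi
  obtain ⟨d1, d2, d3⟩ := h.di_ge i hi
  obtain ⟨G1, G2, G3, G4⟩ := cC_geo o t (wi w i) (di u w i) d1 d2
  obtain ⟨X1, X2⟩ := cC_x0 u w h i hi2 hi c o t hat
  have hDa : (Dw (wi w i)).image (place o t) ⊆ Dw w := fun z hz => X1 z (G1 z hz)
  have hx0D : xa o t (wi w i) ∈ (Dw (wi w i)).image (place o t) := by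
    apply G2
    rw [cC_ball]
    omega
  have hx0 : xa o t (wi w i) ∈ Dw w := hDa hx0D
  -- the matrices
  set Γ : Fin (i - gap u i + 1) → Matrix ↥(Dw w) ↥(Dw w) ℝ :=
    fun k => if k = Fin.last (i - gap u i) then A else GC u w a k with hΓ
  have hΓcast : ∀ k : Fin (i - gap u i), Γ k.castSucc = GC u w a k := by
    intro k
    simp only [hΓ]
    rw [if_neg (Fin.castSucc_lt_last k).ne]
    rfl
  have hΓlast : Γ (Fin.last (i - gap u i)) = A := by
    simp only [hΓ, if_true]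
  have hkn : ∀ k : Fin (i - gap u i), (k : ℕ) < nb u w ∧ (k : ℕ) < i := by
    intro k
    have := k.2
    omega
  have hGC : ∀ k : Fin (i - gap u i), ∀ x y : ↥(Dw w), GC u w a k x y =
      Gs (Dw w) (cc w k) a x y := by
    intro k x y
    unfold GC
    rw [if_pos (hkn k).1]
    rfl
  have hsum : ∀ x y : ↥(Dw w), (∑ k, Γ k) x y = (1 / 4) * green (Dw w) x y -
      (1 / 4) * green ((Dw (wi w i)).image (place o t)) x y := by
    intro x y
    rw [Fin.sum_univ_castSucc, Matrix.add_apply, Matrix.sum_apply, hΓlast, hAdef]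
    have h1 : ∑ k : Fin (i - gap u i), Γ k.castSucc x y = ∑ k ∈ Finset.range (i - gap u i),
        Gs (Dw w) (cc w k) a x y := by
      rw [← Fin.sum_univ_eq_sum_range (fun k => Gs (Dw w) (cc w k) a x y)]
      apply Finset.sum_congr rfl
      intro k _
      rw [hΓcast, hGC]
    rw [h1, Matrix.of_apply]
    ring
  have hsum2 : ∀ x y : ↥(Dw w), (∑ k : Fin (i - gap u i), GC u w a k x y) + A x y =
      (1 / 4) * green (Dw w) x y - (1 / 4) * green ((Dw (wi w i)).image (place o t)) x y := by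
    intro x y
    rw [← hsum, Fin.sum_univ_castSucc, Matrix.add_apply, Matrix.sum_apply, hΓlast]
    simp only [hΓcast]
  have hΓpsd : ∀ k, (Γ k).PosSemidef := by
    intro k
    simp only [hΓ]
    split_ifs
    · exact hA
    · exact (GC_facts u w h a).1 _
  -- the factors
  set fac : ℕ → ℝ := fun k => (if @decide (24 ≤ ((c k).1 : ℕ) ∧ ((c k).1 : ℕ) < 40 ∧
    bulk (cc w k) a (xa o t (wi w i))) (Classical.dec _) = true then
            Real.exp (-(c1 * (θ * Real.sqrt (bb k)))) else 1) with hfac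
  have hfac0 : ∀ k, 0 ≤ fac k := by
    intro k
    simp only [hfac]
    split_ifs <;> positivity
  have first : (Measure.pi fun k => multivariateGaussian (0 : EuclideanSpace ℝ ↥(Dw w)) (Γ k))
      {ω | (∀ k : Fin (i - gap u i), ω k.castSucc ∈ sC w (c k).2 k (ps w c k)) ∧
        (u : ℝ) - 5 / 4 * g < ∑ k, ω k ⟨xa o t (wi w i), hx0⟩} ≤
      ENNReal.ofReal ((1 / 2) ^ (i - gap u i) *
        (Real.exp (-(θ * (u - 5 / 4 * g)) + θ ^ 2 * (3 * i + 10) / 2) *
          ∏ k ∈ Finset.range (i - gap u i), fac k)) := by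
    refine (point_abs (i - gap u i) Γ hΓpsd (fun k => sC w (c k).2 k (ps w c k))
      (fun k => cC_sC_meas w _ _ _) ⟨xa o t (wi w i), hx0⟩ θ (u - 5 / 4 * g) hθ0
      (fun k => (1 / 2) * Real.exp (θ ^ 2 * GC u w a k ⟨xa o t (wi w i), hx0⟩
        ⟨xa o t (wi w i), hx0⟩ / 2) * fac k) ?_).trans ?_
    · intro k
      rw [hΓcast]
      refine (hlev u w h a c k (hkn k).1).2.2 i (hkn k).2 hi ⟨xa o t (wi w i), hx0⟩ ?_ θ hθ0 hθ1
      exact X2.trans (cC_near u w h i hi k k.2).2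
    · apply ENNReal.ofReal_le_ofReal
      rw [hΓlast, Finset.prod_mul_distrib, Finset.prod_mul_distrib, Finset.prod_const,
        Finset.card_fin, ← Real.exp_sum, Fin.prod_univ_eq_prod_range]
      have e1 : Real.exp (-(θ * (u - 5 / 4 * g))) * ((1 / 2) ^ (i - gap u i) *
          Real.exp (∑ k : Fin (i - gap u i), θ ^ 2 * GC u w a k ⟨xa o t (wi w i), hx0⟩
            ⟨xa o t (wi w i), hx0⟩ / 2) * (∏ k ∈ Finset.range (i - gap u i), fac k) *
          Real.exp (θ ^ 2 * A ⟨xa o t (wi w i), hx0⟩ ⟨xa o t (wi w i), hx0⟩ / 2)) =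
          (1 / 2) ^ (i - gap u i) * (Real.exp (-(θ * (u - 5 / 4 * g)) +
          (∑ k : Fin (i - gap u i), θ ^ 2 * GC u w a k ⟨xa o t (wi w i), hx0⟩
            ⟨xa o t (wi w i), hx0⟩ / 2 +
          θ ^ 2 * A ⟨xa o t (wi w i), hx0⟩ ⟨xa o t (wi w i), hx0⟩ / 2)) *
          ∏ k ∈ Finset.range (i - gap u i), fac k) := by
        rw [Real.exp_add, Real.exp_add]
        ring
      rw [e1]
      apply mul_le_mul_of_nonneg_left _ (by positivity)
      apply mul_le_mul_of_nonneg_right _ (Finset.prod_nonneg fun k _ => hfac0 k)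
      apply Real.exp_le_exp.2
      have h4 := cC_diag w (wi w i) i ((Dw (wi w i)).image (place o t)) (xa o t (wi w i))
        (by omega) hDa (by omega) (h.wi_ge i hi).2.1 G3
      have h5 := hsum2 ⟨xa o t (wi w i), hx0⟩ ⟨xa o t (wi w i), hx0⟩
      have h6 : ∑ k : Fin (i - gap u i), θ ^ 2 * GC u w a k ⟨xa o t (wi w i), hx0⟩
            ⟨xa o t (wi w i), hx0⟩ / 2 + θ ^ 2 * A ⟨xa o t (wi w i), hx0⟩
              ⟨xa o t (wi w i), hx0⟩ / 2 =
          θ ^ 2 * (∑ k : Fin (i - gap u i), GC u w a k ⟨xa o t (wi w i), hx0⟩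
            ⟨xa o t (wi w i), hx0⟩ + A ⟨xa o t (wi w i), hx0⟩ ⟨xa o t (wi w i), hx0⟩) / 2 := by
        rw [← Finset.sum_div, ← Finset.mul_sum]
        ring
      rw [h6, h5]
      have h7 := mul_le_mul_of_nonneg_left h4 (sq_nonneg θ)
      linarith
  -- the second part
  obtain ⟨net, hnc, hnR, hnn⟩ := cC_net (wi w i) (di u w i) (di u w i / 8) (by omega) o t
  obtain ⟨gr1, gr2, gr3, gr4, gr5, gr6⟩ := green_basic (Dw w)
  obtain ⟨gs1, gs2, gs3, gs4, gs5, gs6⟩ := green_basic ((Dw (wi w i)).image (place o t))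
  have second : (Measure.pi fun k => multivariateGaussian (0 : EuclideanSpace ℝ ↥(Dw w)) (Γ k))
      {ω | (∀ k : Fin (i - gap u i), ω k.castSucc ∈ sC w (c k).2 k (ps w c k)) ∧
        ∃ z : ↥(Dw w), (z : ℤ × ℤ) ∈
          (rect (wi w i) (5 * wi w i) (di u w i) (wi w i - di u w i)).image (place o t) ∧
          g / 4 + ∑ k, ω k ⟨xa o t (wi w i), hx0⟩ < ∑ k, ω k z} ≤
      ENNReal.ofReal ((1 / 2) ^ (i - gap u i) *
        ((C3 * 5000 * Real.exp (C2 * (1 + Real.log 16) / 2 + 96 * C1 + 3 * Real.sqrt (96 * C1)) +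
        (18 + 9 * C2 / 2) + 1) * ((i : ℝ) + u) ^ (C3 * 5000 * Real.exp
          (C2 * (1 + Real.log 16) / 2 + 96 * C1 + 3 * Real.sqrt (96 * C1)) +
        (18 + 9 * C2 / 2) + 1) * Real.exp (-(g / 4)))) := by
    have hmain := habs (Dw w) (i - gap u i) Γ hΓpsd
      (fun k y => (if (c k).2 then (1 : ℝ) else -1) * WC w k (ps w c k) y) ?_
      (fun x y => (1 / 4) * green (Dw w) x y -
        (1 / 4) * green ((Dw (wi w i)).image (place o t)) x y) hsum ?_ ?_
      ⟨xa o t (wi w i), hx0⟩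
      ((rect (wi w i) (5 * wi w i) (di u w i) (wi w i - di u w i)).image (place o t)) net
      (di u w i / 8) (by omega) hnn ?_
      (fun k => if k = Fin.last (i - gap u i) then
        C2 * (1 + Real.log ((wi w i : ℝ) / ((di u w i / 4 : ℕ) : ℝ)))
        else 96 * C1 * (4 / 9) ^ (i - gap u i - 1 - (k : ℕ))) ?_ ?_ (g / 4)
    · refine le_trans (le_of_eq ?_) (hmain.trans (ENNReal.ofReal_le_ofReal ?_))
      · congr 1
        ext ω
        simp only [Set.mem_ofPred_eq]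
        refine and_congr (forall_congr' fun k => ?_) Iff.rfl
        unfold sC
        simp only [Set.mem_ofPred_eq, Finset.mul_sum, mul_assoc]
      · rw [Fin.sum_univ_castSucc]
        simp only [if_true]
        have hne : ∀ k : Fin (i - gap u i), ¬ (k.castSucc = Fin.last (i - gap u i)) := fun k =>
          (Fin.castSucc_lt_last k).ne
        simp only [hne, if_false, Fin.val_castSucc]
        obtain ⟨s1, s2⟩ := cC_sum (96 * C1) hK (i - gap u i)
        have hY : 1 ≤ (i + u) ^ 9 := Nat.one_le_pow _ _ (by omega)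
        have hcard : (net.card : ℝ) ≤ 5000 * ((i : ℝ) + u) ^ 18 := by
          have h1 : wi w i ≤ 32 * (i + u) ^ 9 * (di u w i / 8) := by
            have h2 : di u w i ≤ 16 * (di u w i / 8) := by omega
            calc wi w i ≤ 2 * (i + u) ^ 9 * di u w i := d3
              _ ≤ 2 * (i + u) ^ 9 * (16 * (di u w i / 8)) := Nat.mul_le_mul_left _ h2
              _ = 32 * (i + u) ^ 9 * (di u w i / 8) := by ring
          have h2 := hnc.trans (cC_card (wi w i) (di u w i / 8) ((i + u) ^ 9) (by omega) hY h1)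
          rw [← pow_mul] at h2
          exact_mod_cast h2
        have hlog : Real.log ((wi w i : ℝ) / ((di u w i / 4 : ℕ) : ℝ)) ≤
            Real.log 16 + 9 * Real.log ((i : ℝ) + u) := by
          have h1 : wi w i ≤ 16 * (i + u) ^ 9 * (di u w i / 4) := by
            have h2 : di u w i ≤ 8 * (di u w i / 4) := by omega
            calc wi w i ≤ 2 * (i + u) ^ 9 * di u w i := d3
              _ ≤ 2 * (i + u) ^ 9 * (8 * (di u w i / 4)) := Nat.mul_le_mul_left _ h2
              _ = 16 * (i + u) ^ 9 * (di u w i / 4) := by ring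
          have h2 : (wi w i : ℝ) ≤ 16 * ((i : ℝ) + u) ^ 9 * ((di u w i / 4 : ℕ) : ℝ) := by
            exact_mod_cast h1
          have h3 : (0 : ℝ) < ((di u w i / 4 : ℕ) : ℝ) := by
            have : 0 < di u w i / 4 := by omega
            exact_mod_cast this
          have h4 : (0 : ℝ) < wi w i := by
            have : 0 < wi w i := by omega
            exact_mod_cast this
          have h5 : (0 : ℝ) < (i : ℝ) + u := by
            have : 0 < i + u := by omega
            exact_mod_cast this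
          have h6 : Real.log 16 + 9 * Real.log ((i : ℝ) + u) =
              Real.log (16 * ((i : ℝ) + u) ^ 9) := by
            rw [Real.log_mul (by norm_num) (by positivity), Real.log_pow]
            norm_num
          rw [h6]
          apply Real.log_le_log (by positivity)
          rw [div_le_iff₀ h3]
          exact h2
        have hy1 : (1 : ℝ) ≤ (i : ℝ) + u := by
          have : 1 ≤ i + u := by omega
          exact_mod_cast this
        have hfin := cC_final C2 C3 (96 * C1) g net.card ((i : ℝ) + u)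
          (Real.log ((wi w i : ℝ) / ((di u w i / 4 : ℕ) : ℝ))) _ _ hC2 hC3 hK hy1
          (Nat.cast_nonneg _) hcard hlog s1 s2
        rw [Finset.sum_div] at hfin
        have h2 : (0 : ℝ) ≤ (1 / 2) ^ (i - gap u i) := by positivity
        have h3 := mul_le_mul_of_nonneg_left hfin h2
        refine le_trans (le_of_eq ?_) h3
        ring
    · intro k
      have h1 := (hlev u w h a c k (hkn k).1).1
      rw [hΓcast]
      refine lt_of_lt_of_eq h1 ?_
      apply Finset.sum_congr rfl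
      intro x _
      apply Finset.sum_congr rfl
      intro y _
      cases (c k).2
      · simp only [Bool.false_eq_true, if_false]
        ring
      · simp only [if_true]
        ring
    · intro z hz y
      have hz' : z ∉ (Dw (wi w i)).image (place o t) := fun h1 => hz (hDa h1)
      simp only [gr2 z y (Or.inl hz), gs2 z y (Or.inl hz'), mul_zero, sub_zero]
    · intro x y
      simp only [gr3 x y, gs3 x y]
    · intro p hp
      have hG := (G4 p (hnR p hp)).2
      refine ⟨fun z hz => hDa (hG z hz).1, ?_⟩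
      intro z hz y
      have hz2 : z ∈ ball p (2 * ((di u w i / 8 : ℕ) : ℤ) + 1) := by
        rw [cC_ball] at hz ⊢
        omega
      have hzD := (hG z hz2).1
      have e1 := gr5 z (hDa hzD) y
      have e2 := gs5 z hzD y
      simp only [Finset.sum_sub_distrib, ← Finset.mul_sum]
      rw [e1, e2]
      ring
    · intro k
      by_cases hk : k = Fin.last (i - gap u i)
      · simp only [hk, if_true]
        have h3 : (0 : ℝ) < ((di u w i / 4 : ℕ) : ℝ) := by
          have : 0 < di u w i / 4 := by omega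
          exact_mod_cast this
        have h4 : ((di u w i / 4 : ℕ) : ℝ) ≤ wi w i := by
          have : di u w i / 4 ≤ wi w i := by omega
          exact_mod_cast this
        have h5 : 0 ≤ Real.log ((wi w i : ℝ) / ((di u w i / 4 : ℕ) : ℝ)) := by
          apply Real.log_nonneg
          rw [le_div_iff₀ h3]
          linarith
        positivity
      · simp only [hk, if_false]
        positivity
    · intro k p hp z hz
      have hG := (G4 p (hnR p hp)).2 z hz
      have g6 : z.1 ∈ ball (xa o t (wi w i)) ((6 * wi w i : ℕ) : ℤ) := hG.2.1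
      have inc : ∀ k : Fin (i - gap u i), GC u w a k z z -
          2 * GC u w a k z ⟨xa o t (wi w i), hx0⟩ +
          GC u w a k ⟨xa o t (wi w i), hx0⟩ ⟨xa o t (wi w i), hx0⟩ ≤
            96 * C1 * (4 / 9) ^ (i - gap u i - 1 - (k : ℕ)) := by
        intro k
        obtain ⟨l1, l2, l3⟩ := cC_level (wi w i) (cc w k) (Nat.sqrt (wi w i * cc w k))
          (i - gap u i - 1 - (k : ℕ)) (by omega) rfl (cC_near u w h i hi k k.2).1
        rw [hGC, hGC, hGC]
        have hcc1 : 1 ≤ cc w k := by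
          have := (h.cc_fac k (hkn k).1).1
          omega
        refine (hgs (Dw w) (cc w k) (Nat.sqrt (wi w i * cc w k)) (6 * wi w i) a
          (xa o t (wi w i)) z hcc1 (by omega) (by omega) l2
          (fun y hy => hclr k k.2 y hy) g6).trans ?_
        calc C1 * (((6 * wi w i : ℕ) : ℝ) / (Nat.sqrt (wi w i * cc w k) : ℝ)) *
            (1 + Real.log (2 * (cc w k : ℝ) / (Nat.sqrt (wi w i * cc w k) : ℝ))) =
            C1 * ((((6 * wi w i : ℕ) : ℝ) / (Nat.sqrt (wi w i * cc w k) : ℝ)) *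
            (1 + Real.log (2 * (cc w k : ℝ) / (Nat.sqrt (wi w i * cc w k) : ℝ)))) := by ring
          _ ≤ C1 * (96 * (4 / 9) ^ (i - gap u i - 1 - (k : ℕ))) :=
            mul_le_mul_of_nonneg_left l3 hC1.le
          _ = _ := by ring
      by_cases hk : k = Fin.last (i - gap u i)
      · subst hk
        rw [hΓlast]
        simp only [if_true]
        have hAk := harm (Dw w) ((Dw (wi w i)).image (place o t)) (xa o t (wi w i)) z (wi w i)
          (7 * w) (di u w i / 4) (by omega) (by omega) (by omega)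
          (by
            have h4 := (h.wi_ge i hi).2.2
            have h5 : 4096 ≤ 64 ^ i := by
              calc 4096 = 64 ^ 2 := by norm_num
                _ ≤ 64 ^ i := Nat.pow_le_pow_right (by norm_num) hi2
            have h6 : 4096 * wi w i ≤ 6 * w := (Nat.mul_le_mul_right _ h5).trans h4
            omega)
          (fun y hy => X1 y (by push_cast; exact hy))
          (fun y hy => by
            rw [cC_Dw_mem] at hy hx0
            rw [cC_ball]
            push_cast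
            omega)
          (fun y hy => by
            have := G1 y hy
            push_cast at this
            exact this)
          (fun y hy => G2 y hy) (fun y hy => hG.2.2 y hy)
          (by push_cast at g6; exact g6)
        refine le_trans ?_ hAk
        have k1 := hsum2 z z
        have k2 := hsum2 z ⟨xa o t (wi w i), hx0⟩
        have k3 := hsum2 ⟨xa o t (wi w i), hx0⟩ ⟨xa o t (wi w i), hx0⟩
        have k4 : 0 ≤ (∑ k : Fin (i - gap u i), GC u w a k z z) -
            2 * (∑ k : Fin (i - gap u i), GC u w a k z ⟨xa o t (wi w i), hx0⟩) +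
            ∑ k : Fin (i - gap u i), GC u w a k ⟨xa o t (wi w i), hx0⟩
              ⟨xa o t (wi w i), hx0⟩ := by
          rw [Finset.mul_sum, ← Finset.sum_sub_distrib, ← Finset.sum_add_distrib]
          exact Finset.sum_nonneg fun k _ => cC_psd ((GC_facts u w h a).1 k) _ _
        simp only at k1 k2 k3 ⊢
        linarith
      · obtain ⟨k', rfl⟩ : ∃ k' : Fin (i - gap u i), k = k'.castSucc := ⟨k.castPred hk, by simp⟩
        rw [hΓcast]
        simp only [hk, if_false, Fin.val_castSucc]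
        exact inc k'
  -- the union
  have hu : {ω : Fin (i - gap u i + 1) → EuclideanSpace ℝ ↥(Dw w) |
      (∀ k : Fin (i - gap u i), ω k.castSucc ∈ sC w (c k).2 k (ps w c k)) ∧
          ∃ x : ↥(Dw w), (x : ℤ × ℤ) ∈ (rect (wi w i) (5 * wi w i) (di u w i) (wi w i - di u w i)).image (place o t) ∧
            u - g < ∑ k, ω k x} ⊆
      {ω | (∀ k : Fin (i - gap u i), ω k.castSucc ∈ sC w (c k).2 k (ps w c k)) ∧
        (u : ℝ) - 5 / 4 * g < ∑ k, ω k ⟨xa o t (wi w i), hx0⟩} ∪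
      {ω | (∀ k : Fin (i - gap u i), ω k.castSucc ∈ sC w (c k).2 k (ps w c k)) ∧
        ∃ z : ↥(Dw w), (z : ℤ × ℤ) ∈
          (rect (wi w i) (5 * wi w i) (di u w i) (wi w i - di u w i)).image (place o t) ∧
          g / 4 + ∑ k, ω k ⟨xa o t (wi w i), hx0⟩ < ∑ k, ω k z} := by
    rintro ω ⟨h1, x, h2, h3⟩
    by_cases h4 : (u : ℝ) - 5 / 4 * g < ∑ k, ω k ⟨xa o t (wi w i), hx0⟩
    · exact Or.inl ⟨h1, h4⟩
    · refine Or.inr ⟨h1, x, h2, ?_⟩
      push Not at h4
      linarith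
  refine (measure_mono hu).trans ((measure_union_le _ _).trans ((add_le_add first second).trans ?_))
  rw [← ENNReal.ofReal_add, ← mul_add]
  · apply mul_nonneg (by positivity)
    exact mul_nonneg (Real.exp_nonneg _) (Finset.prod_nonneg fun k _ => hfac0 k)
  · have h1 : 0 ≤ C3 * 5000 * Real.exp (C2 * (1 + Real.log 16) / 2 + 96 * C1 +
      3 * Real.sqrt (96 * C1)) := by positivity
    have h2 : 0 ≤ C3 * 5000 * Real.exp (C2 * (1 + Real.log 16) / 2 + 96 * C1 +
      3 * Real.sqrt (96 * C1)) + (18 + 9 * C2 / 2) + 1 := by linarith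
    positivity

end H941.coarseC
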