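import Pool.Agent.KS6_63.GFF.Defs4

open MeasureTheory ProbabilityTheory

namespace H941.near_avg

/-- one residue class has at most `m` members below `L * m` -/
theorem near_avg_class (L m : ℕ) (hL : 1 ≤ L) (j : ℤ) :
    ((Finset.range (L * m)).filter (fun a : ℕ => (L : ℤ) ∣ j - a)).card ≤ m := by
  have hL0 : (0 : ℤ) < L := by exact_mod_cast hL
  have hsub : (Finset.range (L * m)).filter (fun a : ℕ => (L : ℤ) ∣ j - a) ⊆
      (Finset.range m).image (fun q => q * L + (j % L).toNat) := by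
    intro a ha
    rw [Finset.mem_filter, Finset.mem_range] at ha
    obtain ⟨h1, h2⟩ := ha
    rw [Finset.mem_image]
    refine ⟨a / L, ?_, ?_⟩
    · rw [Finset.mem_range]
      exact Nat.div_lt_of_lt_mul h1
    · have h3 : j % (L : ℤ) = (a : ℤ) % (L : ℤ) := Int.emod_eq_emod_iff_emod_sub_eq_zero.2 (Int.emod_eq_zero_of_dvd h2)
      rw [h3]
      have h4 : ((a : ℤ) % (L : ℤ)).toNat = a % L := by
        have h5 : ((a : ℤ) % (L : ℤ)) = ((a % L : ℕ) : ℤ) := (Int.natCast_mod a L).symm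
        rw [h5, Int.toNat_natCast]
      rw [h4, mul_comm]
      exact Nat.div_add_mod a L
  calc _ ≤ _ := Finset.card_le_card hsub
    _ ≤ (Finset.range m).card := Finset.card_image_le
    _ = m := Finset.card_range m

/-- the classes near `x` -/
theorem near_avg_line (L m r : ℕ) (hL : 1 ≤ L) (x : ℤ) :
    ((Finset.range (L * m)).filter (fun a : ℕ => ∃ j ∈ Finset.Icc (x - r) (x + r), (L : ℤ) ∣ j - a)).card ≤
      (2 * r + 1) * m := by
  have hsub : (Finset.range (L * m)).filter (fun a : ℕ => ∃ j ∈ Finset.Icc (x - r) (x + r), (L : ℤ) ∣ j - a) ⊆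
      (Finset.Icc (x - r) (x + r)).biUnion (fun j => (Finset.range (L * m)).filter (fun a : ℕ => (L : ℤ) ∣ j - a)) := by
    intro a ha
    rw [Finset.mem_filter] at ha
    obtain ⟨h1, j, hj, h2⟩ := ha
    rw [Finset.mem_biUnion]
    exact ⟨j, hj, Finset.mem_filter.2 ⟨h1, h2⟩⟩
  calc _ ≤ _ := Finset.card_le_card hsub
    _ ≤ ∑ j ∈ Finset.Icc (x - r) (x + r), ((Finset.range (L * m)).filter (fun a : ℕ => (L : ℤ) ∣ j - a)).card :=
        Finset.card_biUnion_le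
    _ ≤ ∑ _j ∈ Finset.Icc (x - r) (x + r), m := Finset.sum_le_sum fun j _ => near_avg_class L m hL j
    _ = (2 * r + 1) * m := by
        rw [Finset.sum_const, smul_eq_mul, Int.card_Icc]
        congr 1
        omega

theorem _root_.H941.near_avg (Λ L r : ℕ) (hL : 1 ≤ L) (h0 : L ∣ Λ) (x : ℤ × ℤ) :
    ((((Finset.range Λ) ×ˢ (Finset.range Λ)).filter (fun a : ℕ × ℕ => @decide (∃ z : ℤ × ℤ, |z.1 - x.1| ≤ (r : ℤ) ∧ |z.2 - x.2| ≤ (r : ℤ) ∧
        ((L : ℤ) ∣ z.1 - a.1 ∨ (L : ℤ) ∣ z.2 - a.2)) (Classical.dec _) = true)).card : ℝ) * L ≤ 2 * (2 * (r : ℝ) + 1) * (Λ : ℝ) ^ 2 := by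
  classical
  obtain ⟨m, rfl⟩ := h0
  set A := (Finset.range (L * m)).filter (fun a : ℕ => ∃ j ∈ Finset.Icc (x.1 - r) (x.1 + r), (L : ℤ) ∣ j - a) with hA
  set B := (Finset.range (L * m)).filter (fun a : ℕ => ∃ j ∈ Finset.Icc (x.2 - r) (x.2 + r), (L : ℤ) ∣ j - a) with hB
  have hA1 : A.card ≤ (2 * r + 1) * m := near_avg_line L m r hL x.1
  have hB1 : B.card ≤ (2 * r + 1) * m := near_avg_line L m r hL x.2
  have hsub : (((Finset.range (L * m)) ×ˢ (Finset.range (L * m))).filter (fun a : ℕ × ℕ => @decide (∃ z : ℤ × ℤ, |z.1 - x.1| ≤ (r : ℤ) ∧ |z.2 - x.2| ≤ (r : ℤ) ∧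
        ((L : ℤ) ∣ z.1 - a.1 ∨ (L : ℤ) ∣ z.2 - a.2)) (Classical.dec _) = true)) ⊆
      (A ×ˢ Finset.range (L * m)) ∪ (Finset.range (L * m) ×ˢ B) := by
    intro a ha
    rw [Finset.mem_filter, Finset.mem_product] at ha
    obtain ⟨⟨h1, h2⟩, h3⟩ := ha
    rw [decide_eq_true_iff] at h3
    obtain ⟨z, hz1, hz2, hz⟩ := h3
    rw [abs_le] at hz1 hz2
    rw [Finset.mem_union, Finset.mem_product, Finset.mem_product]
    rcases hz with hz | hz
    · left
      refine ⟨?_, h2⟩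
      rw [hA, Finset.mem_filter]
      exact ⟨h1, z.1, Finset.mem_Icc.2 ⟨by linarith, by linarith⟩, hz⟩
    · right
      refine ⟨h1, ?_⟩
      rw [hB, Finset.mem_filter]
      exact ⟨h2, z.2, Finset.mem_Icc.2 ⟨by linarith, by linarith⟩, hz⟩
  have hcard := (Finset.card_le_card hsub).trans (Finset.card_union_le _ _)
  rw [Finset.card_product, Finset.card_product, Finset.card_range] at hcard
  have h1 : A.card * (L * m) + (L * m) * B.card ≤ 2 * ((2 * r + 1) * m * (L * m)) := by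
    nlinarith [Nat.mul_le_mul_right (L * m) hA1, Nat.mul_le_mul_right (L * m) hB1]
  have h2 := hcard.trans h1
  have h3 : (((((Finset.range (L * m)) ×ˢ (Finset.range (L * m))).filter (fun a : ℕ × ℕ => @decide (∃ z : ℤ × ℤ, |z.1 - x.1| ≤ (r : ℤ) ∧ |z.2 - x.2| ≤ (r : ℤ) ∧
        ((L : ℤ) ∣ z.1 - a.1 ∨ (L : ℤ) ∣ z.2 - a.2)) (Classical.dec _) = true)).card : ℕ) : ℝ) ≤
      ((2 * ((2 * r + 1) * m * (L * m)) : ℕ) : ℝ) := by exact_mod_cast h2
  have hL0 : (0 : ℝ) ≤ L := Nat.cast_nonneg L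
  calc _ ≤ ((2 * ((2 * r + 1) * m * (L * m)) : ℕ) : ℝ) * L := mul_le_mul_of_nonneg_right h3 hL0
    _ = 2 * (2 * (r : ℝ) + 1) * ((L * m : ℕ) : ℝ) ^ 2 := by push_cast; ring

end H941.near_avg
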