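import Pool.Agent.KS6_63.GFF.Defs4
import Pool.Agent.KS6_63.GFF.B.circuit_lemma_
import Pool.Agent.KS6_63.GFF.B.hull_lemma_
import Pool.Agent.KS6_63.GFF.B.pst_near_
import Pool.Agent.KS6_63.GFF.B.segs_facts_
import Pool.Agent.KS6_63.GFF.B.subtree_cover_
import Pool.Agent.KS6_63.GFF.K1
import Pool.Agent.KS6_63.GFF.K2
import Pool.Agent.KS6_63.GFF.K3
import Pool.Agent.KS6_63.GFF.K4

open MeasureTheory ProbabilityTheory

namespace H941.det_finalC

theorem dfc_bd_nonneg (s : ℝ) (hs : 0 < s) (i : ℕ) : 0 ≤ bd s i := by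
  unfold bd; positivity

theorem dfc_bd_anti (s : ℝ) (hs : 0 < s) : Antitone (bd s) := by
  intro i j hij
  unfold bd
  apply mul_le_mul_of_nonneg_left _ hs.le
  apply Real.rpow_le_rpow_of_nonpos (by positivity) _ (by norm_num)
  have : (i : ℝ) ≤ j := by exact_mod_cast hij
  linarith

theorem dfc_bd_zero (s : ℝ) : bd s 0 = s := by
  unfold bd; simp

theorem dfc_bd_le (s : ℝ) (hs : 0 < s) (i : ℕ) : bd s i ≤ s := by
  have := dfc_bd_anti s hs (Nat.zero_le i)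
  rwa [dfc_bd_zero] at this

theorem dfc_dl_add (s ℓ : ℝ) (i m : ℕ) :
    dl s ℓ (i + m) = dl s ℓ i *
      ∏ k ∈ Finset.range m, (Real.sqrt (1 + 4 * bd s (i + k) ^ 2) / 64) := by
  unfold dl
  rw [Finset.prod_range_add]; ring

theorem dfc_norm_half (t : ℝ) : ‖(1 / 2 : ℂ) + (t : ℂ) * Complex.I‖ = Real.sqrt (1 + 4 * t ^ 2) / 2 := by
  have h := Complex.norm_add_mul_I (1 / 2) t
  have e : ((1 / 2 : ℝ) : ℂ) = 1 / 2 := by norm_num
  rw [e] at h
  rw [h]
  have : (1 / 2 : ℝ) ^ 2 + t ^ 2 = (1 + 4 * t ^ 2) / 2 ^ 2 := by ring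
  rw [this, Real.sqrt_div (by positivity), Real.sqrt_sq (by norm_num)]

theorem dfc_child_norm (δ : ℝ) (b : Bool) (k : ℕ) (s : ℂ × ℂ) :
    ‖(child δ b k s).2‖ = ‖s.2‖ * (Real.sqrt (1 + 4 * δ ^ 2) / 64) := by
  have h1 : ‖(1 / 2 : ℂ) + (δ : ℂ) * Complex.I‖ = Real.sqrt (1 + 4 * δ ^ 2) / 2 := dfc_norm_half δ
  have h2 : ‖(1 / 2 : ℂ) - (δ : ℂ) * Complex.I‖ = Real.sqrt (1 + 4 * δ ^ 2) / 2 := by
    have := dfc_norm_half (-δ)
    simp only [Complex.ofReal_neg, neg_mul, neg_sq] at this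
    rw [← this, sub_eq_add_neg]
  have h3 : ‖(1 / 32 : ℂ)‖ = 1 / 32 := by norm_num
  have h4 : ∀ x : ℂ, ‖x‖ = Real.sqrt (1 + 4 * δ ^ 2) / 2 →
      ‖(1 / 32 : ℂ) * (x * s.2)‖ = ‖s.2‖ * (Real.sqrt (1 + 4 * δ ^ 2) / 64) := by
    intro x hx
    rw [norm_mul, norm_mul, h3, hx]; ring
  unfold child
  cases b
  · split_ifs
    · apply h4
      rw [← h2]; congr 1; simp [bsign]; ring
    · apply h4
      rw [← h1]; congr 1; simp [bsign]
  · split_ifs
    · apply h4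
      rw [← h1]; congr 1; simp [bsign]
    · apply h4
      rw [← h2]; congr 1; simp [bsign]

theorem dfc_segs_norm (s ℓ : ℝ) (σ : ℕ → ℂ × ℂ → Bool) (m : ℕ) : ∀ (j : ℕ) (s1 : ℂ × ℂ),
    ‖s1.2‖ = dl s ℓ j → ∀ s' ∈ segs (bd s) σ m j s1, ‖s'.2‖ = dl s ℓ (j + m) := by
  induction m with
  | zero =>
    intro j s1 h s' hs'
    simp only [segs, List.mem_singleton] at hs'
    rw [hs']; simpa using h
  | succ m ih =>
    intro j s1 h s' hs'
    simp only [segs, List.mem_flatMap, List.mem_range] at hs'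
    obtain ⟨k, hk, hs'⟩ := hs'
    have := ih (j + 1) _ (by
      rw [dfc_child_norm, h, dfc_dl_add]; simp) s' hs'
    rw [this]; congr 1; ring

theorem dfc_hwalk (y : ℤ) (d : ℕ) : ∀ x : ℤ, ∃ p : grid.Walk (x, y) (x + d, y),
    ∀ z ∈ p.support, z.2 = y ∧ x ≤ z.1 ∧ z.1 ≤ x + d := by
  induction d with
  | zero =>
    intro x
    have h : (x, y) = (x + ((0 : ℕ) : ℤ), y) := by simp
    refine ⟨(SimpleGraph.Walk.nil : grid.Walk (x, y) (x, y)).copy rfl h, ?_⟩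
    intro z hz
    simp at hz
    subst hz
    simp
  | succ d ih =>
    intro x
    obtain ⟨p, hp⟩ := ih (x + 1)
    have hadj : grid.Adj (x, y) (x + 1, y) := by
      show |x - (x + 1)| + |y - y| = 1
      simp
    have h : (x + 1 + (d : ℤ), y) = (x + ((d + 1 : ℕ) : ℤ), y) := by
      push_cast; congr 1; ring
    refine ⟨(SimpleGraph.Walk.cons hadj p).copy rfl h, ?_⟩
    intro z hz
    rw [SimpleGraph.Walk.support_copy, SimpleGraph.Walk.support_cons, List.mem_cons] at hz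
    push_cast
    rcases hz with rfl | hz
    · refine ⟨rfl, le_refl _, ?_⟩
      show x ≤ x + ((d : ℤ) + 1)
      omega
    · obtain ⟨h1, h2, h3⟩ := hp z hz
      exact ⟨h1, by omega, by omega⟩

theorem dfc_vwalk (x : ℤ) (d : ℕ) : ∀ y : ℤ, ∃ p : grid.Walk (x, y) (x, y + d),
    ∀ z ∈ p.support, z.1 = x ∧ y ≤ z.2 ∧ z.2 ≤ y + d := by
  induction d with
  | zero =>
    intro y
    have h : (x, y) = (x, y + ((0 : ℕ) : ℤ)) := by simp
    refine ⟨(SimpleGraph.Walk.nil : grid.Walk (x, y) (x, y)).copy rfl h, ?_⟩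
    intro z hz
    simp at hz
    subst hz
    simp
  | succ d ih =>
    intro y
    obtain ⟨p, hp⟩ := ih (y + 1)
    have hadj : grid.Adj (x, y) (x, y + 1) := by
      show |x - x| + |y - (y + 1)| = 1
      simp
    have h : (x, y + 1 + (d : ℤ)) = (x, y + ((d + 1 : ℕ) : ℤ)) := by
      push_cast; congr 1; ring
    refine ⟨(SimpleGraph.Walk.cons hadj p).copy rfl h, ?_⟩
    intro z hz
    rw [SimpleGraph.Walk.support_copy, SimpleGraph.Walk.support_cons, List.mem_cons] at hz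
    push_cast
    rcases hz with rfl | hz
    · refine ⟨rfl, le_refl _, ?_⟩
      show y ≤ y + ((d : ℤ) + 1)
      omega
    · obtain ⟨h1, h2, h3⟩ := hp z hz
      exact ⟨h1, by omega, by omega⟩

theorem dfc_union {α : Type} (l : List α) (g : α → ℝ) (P : α → Finset (ℤ × ℤ) → Prop)
    (hmono : ∀ a U U', U ⊆ U' → P a U → P a U')
    (h : ∀ a ∈ l, ∃ U : Finset (ℤ × ℤ), (U.card : ℝ) ≤ g a ∧ P a U) :
    ∃ U : Finset (ℤ × ℤ), (U.card : ℝ) ≤ (l.map g).sum ∧ ∀ a ∈ l, P a U := by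
  classical
  induction l with
  | nil => exact ⟨∅, by simp, by simp⟩
  | cons a l ih =>
    obtain ⟨U1, h1, h1'⟩ := h a (by simp)
    obtain ⟨U2, h2, h2'⟩ := ih (fun b hb => h b (by simp [hb]))
    refine ⟨U1 ∪ U2, ?_, ?_⟩
    · have := Finset.card_union_le U1 U2
      have h3 : ((U1 ∪ U2).card : ℝ) ≤ U1.card + U2.card := by exact_mod_cast this
      rw [List.map_cons, List.sum_cons]
      linarith
    · intro b hb
      rcases List.mem_cons.mp hb with rfl | hb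
      · exact hmono _ _ _ Finset.subset_union_left h1'
      · exact hmono _ _ _ Finset.subset_union_right (h2' b hb)

theorem dfc_one (a x y τ E D : ℝ) (h : |a - (x + τ * y)| ≤ E) (hy : |y| ≤ D) (h0 : 0 ≤ τ)
    (h1 : τ ≤ 1) : |a - (⌊x + (1 / 2) * y⌋ : ℝ)| ≤ E + D / 2 + 1 := by
  have hf1 := Int.floor_le (x + (1 / 2) * y)
  have hf2 := Int.lt_floor_add_one (x + (1 / 2) * y)
  rw [abs_le] at h hy ⊢
  have hp : |(τ - 1 / 2) * y| ≤ D / 2 := by
    rw [abs_mul]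
    have h3 : |τ - 1 / 2| ≤ 1 / 2 := by rw [abs_le]; constructor <;> linarith
    have h4 : |y| ≤ D := by rw [abs_le]; exact hy
    calc |τ - 1 / 2| * |y| ≤ (1 / 2) * D := mul_le_mul h3 h4 (abs_nonneg _) (by norm_num)
      _ = D / 2 := by ring
  rw [abs_le] at hp
  obtain ⟨hp1, hp2⟩ := hp
  constructor <;> nlinarith

theorem dfc_near (s ℓ : ℝ) (hs : 0 < s) (hs' : s ≤ 1 / 8) (n q : ℕ) (hq : 1 ≤ q)
    (hqd : dl s ℓ n ≤ q) (σ : ℕ → ℂ × ℂ → Bool) (i : ℕ) (hi : i ≤ n) (s' : ℂ × ℂ)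
    (hn : ‖s'.2‖ = dl s ℓ i) (w : ℕ) (hw : 100 ≤ w) (hdl : dl s ℓ i ≤ w) :
    ∀ v ∈ leaves (bd s) q σ (n - i) i s',
      |v.1 - (mid s').1| ≤ w ∧ |v.2 - (mid s').2| ≤ w := by
  intro v hv
  have hw' : (100 : ℝ) ≤ w := by exact_mod_cast hw
  obtain ⟨τ, h0, h1, h⟩ := leaves_near (bd s) (dfc_bd_nonneg s hs)
    (fun j => (dfc_bd_le s hs j).trans hs') (dfc_bd_anti s hs) q hq σ (n - i) i s' (by
      rw [hn, ← dfc_dl_add, Nat.add_sub_cancel' hi]; exact hqd) v hv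
  have hE : 3 + (60 / 59) * (bd s i * ‖s'.2‖) + ‖s'.2‖ / 2 + 1 ≤ (w : ℝ) := by
    rw [hn]
    have hb : bd s i * dl s ℓ i ≤ (1 / 8) * dl s ℓ i := by
      apply mul_le_mul_of_nonneg_right ((dfc_bd_le s hs i).trans hs')
      rw [← hn]; exact norm_nonneg _
    linarith
  have hre : |(v.1 : ℝ) - (s'.1.re + τ * s'.2.re)| ≤ 3 + (60 / 59) * (bd s i * ‖s'.2‖) := by
    refine le_trans ?_ h
    refine le_trans (le_of_eq ?_) (Complex.abs_re_le_norm _)
    simp [toC]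
  have him : |(v.2 : ℝ) - (s'.1.im + τ * s'.2.im)| ≤ 3 + (60 / 59) * (bd s i * ‖s'.2‖) := by
    refine le_trans ?_ h
    refine le_trans (le_of_eq ?_) (Complex.abs_im_le_norm _)
    simp [toC]
  have k1 := dfc_one _ _ _ _ _ _ hre (Complex.abs_re_le_norm _) h0 h1
  have k2 := dfc_one _ _ _ _ _ _ him (Complex.abs_im_le_norm _) h0 h1
  have m1 : (mid s').1 = ⌊s'.1.re + (1 / 2) * s'.2.re⌋ := by
    simp [mid, rd]
  have m2 : (mid s').2 = ⌊s'.1.im + (1 / 2) * s'.2.im⌋ := by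
    simp [mid, rd]
  rw [m1, m2]
  constructor
  · have := k1.trans hE
    exact_mod_cast this
  · have := k2.trans hE
    exact_mod_cast this

/-- the separation property -/
def dfcSep (W : ℕ) (H : Finset (ℤ × ℤ)) (v : ℤ × ℤ) : Prop :=
  (∀ z ∈ H, |z.1 - v.1| ≤ 3 * (W : ℤ) ∧ |z.2 - v.2| ≤ 3 * (W : ℤ)) ∧
  ∀ b : ℤ × ℤ, (4 * (W : ℤ) ≤ |b.1 - v.1| ∨ 4 * (W : ℤ) ≤ |b.2 - v.2|) →
    ∀ r : grid.Walk v b, ∃ z ∈ r.support, z ∈ H

theorem dfc_wi_anti (w i j : ℕ) (h : i ≤ j) : wi w j ≤ wi w i := by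
  unfold wi
  exact Nat.div_le_div_left (Nat.pow_le_pow_right (by norm_num) h) (by positivity)

theorem dfc_finalVerts_length (q : ℕ) (s : ℂ × ℂ) : (finalVerts q s).length = 2 * q := by
  unfold finalVerts
  rw [List.length_flatMap]
  simp [mul_comm]

theorem dfc_hw (x x' y : ℤ) (h : x ≤ x') : ∃ p : grid.Walk (x, y) (x', y),
    ∀ z ∈ p.support, z.2 = y ∧ x ≤ z.1 ∧ z.1 ≤ x' := by
  obtain ⟨d, hd⟩ := Int.le.dest h
  subst hd
  exact dfc_hwalk y d x

theorem dfc_vw (x y y' : ℤ) (h : y ≤ y') : ∃ p : grid.Walk (x, y) (x, y'),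
    ∀ z ∈ p.support, z.1 = x ∧ y ≤ z.2 ∧ z.2 ≤ y' := by
  obtain ⟨d, hd⟩ := Int.le.dest h
  subst hd
  exact dfc_vwalk x d y

theorem dfc_tail {u v : ℤ × ℤ} (p : grid.Walk u v) (h : u ≠ v) :
    ∃ (w : ℤ × ℤ) (_ : grid.Adj u w) (p' : grid.Walk w v), p'.support = p.support.tail := by
  cases p with
  | nil => exact absurd rfl h
  | cons hadj p' => exact ⟨_, hadj, p', by simp⟩

theorem dfc_grid_connected : grid.Connected ∧
    ∀ {V : Type} (G : SimpleGraph V) (S : Set V) (U : Finset V), S ⊆ (U : Set V) → (G.induce S).Connected →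
      ∀ a ∈ S, ∀ b ∈ S, ∃ p : G.Walk a b, (∀ z ∈ p.support, z ∈ S) ∧ p.support.length ≤ U.card := by
  constructor
  · have step1 : ∀ x y : ℤ, grid.Adj (x, y) (x + 1, y) := by
      intro x y
      change |x - (x + 1)| + |y - y| = 1
      simp
    have step2 : ∀ x y : ℤ, grid.Adj (x, y) (x, y + 1) := by
      intro x y
      change |x - x| + |y - (y + 1)| = 1
      simp
    have row : ∀ x y : ℤ, grid.Reachable (0, y) (x, y) := by
      intro x y
      induction x using Int.induction_on with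
      | zero => exact SimpleGraph.Reachable.refl _
      | succ i ih => exact ih.trans (step1 _ _).reachable
      | pred i ih =>
        have h := step1 (-(i : ℤ) - 1) y
        rw [sub_add_cancel] at h
        exact ih.trans h.symm.reachable
    have col : ∀ y : ℤ, grid.Reachable (0, 0) (0, y) := by
      intro y
      induction y using Int.induction_on with
      | zero => exact SimpleGraph.Reachable.refl _
      | succ i ih => exact ih.trans (step2 _ _).reachable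
      | pred i ih =>
        have h := step2 0 (-(i : ℤ) - 1)
        rw [sub_add_cancel] at h
        exact ih.trans h.symm.reachable
    have all : ∀ u : ℤ × ℤ, grid.Reachable (0, 0) u := fun u => (col u.2).trans (row u.1 u.2)
    exact { preconnected := fun u v => (all u).symm.trans (all v), nonempty := ⟨(0, 0)⟩ }
  · intro V G S U hSU hc a ha b hb
    classical
    obtain ⟨w⟩ := hc.preconnected ⟨a, ha⟩ ⟨b, hb⟩
    let f : G.induce S →g G := (SimpleGraph.Embedding.induce S).toHom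
    have key : ∃ p : G.Walk (f ⟨a, ha⟩) (f ⟨b, hb⟩), (∀ z ∈ p.support, z ∈ S) ∧
        p.support.length ≤ U.card := by
      refine ⟨w.toPath.1.map f, ?_, ?_⟩
      · intro z hz
        rw [SimpleGraph.Walk.support_map, List.mem_map] at hz
        obtain ⟨y, _, rfl⟩ := hz
        exact y.2
      · rw [SimpleGraph.Walk.support_map]
        have hnd : (w.toPath.1.support.map f).Nodup :=
          (w.toPath.2.support_nodup).map (fun x y h => Subtype.ext h)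
        rw [← List.toFinset_card_of_nodup hnd]
        apply Finset.card_le_card
        intro z hz
        rw [List.mem_toFinset, List.mem_map] at hz
        obtain ⟨y, _, rfl⟩ := hz
        exact hSU y.2
    exact key

theorem dfc_adj_col {x y : ℤ × ℤ} (h : grid.Adj x y) : y.1 ≤ x.1 + 1 ∧ x.1 ≤ y.1 + 1 := by
  have h' : |x.1 - y.1| + |x.2 - y.2| = 1 := h
  have a2 := abs_nonneg (x.2 - y.2)
  have b1 : |x.1 - y.1| ≤ 1 := by omega
  rw [abs_le] at b1
  omega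

theorem dfc_cut1' (c : ℤ) {a b : ℤ × ℤ} (p : grid.Walk a b) (hb : c ≤ b.1) :
    (∀ z ∈ p.support, c ≤ z.1) ∨ ∃ (x : ℤ × ℤ) (r : grid.Walk x b), x.1 = c ∧
      (∀ z ∈ r.support, c ≤ z.1 ∧ z ∈ p.support) ∧ r.support.length ≤ p.support.length := by
  induction p with
  | nil =>
    left
    intro z hz
    rw [SimpleGraph.Walk.support_nil, List.mem_singleton] at hz
    rw [hz]; exact hb
  | @cons x y b h p ih =>
    rcases ih hb with h1 | ⟨x', r, h1, h2, h3⟩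
    · by_cases hx : c ≤ x.1
      · left
        intro z hz
        rw [SimpleGraph.Walk.support_cons, List.mem_cons] at hz
        rcases hz with rfl | hz
        · exact hx
        · exact h1 z hz
      · right
        have hy := h1 y p.start_mem_support
        have hxy := dfc_adj_col h
        refine ⟨y, p, by omega, fun z hz => ⟨h1 z hz, ?_⟩, ?_⟩
        · rw [SimpleGraph.Walk.support_cons]
          exact List.mem_cons_of_mem _ hz
        · rw [SimpleGraph.Walk.support_cons, List.length_cons]; omega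
    · right
      refine ⟨x', r, h1, fun z hz => ⟨(h2 z hz).1, ?_⟩, ?_⟩
      · rw [SimpleGraph.Walk.support_cons]
        exact List.mem_cons_of_mem _ (h2 z hz).2
      · rw [SimpleGraph.Walk.support_cons, List.length_cons]; omega

theorem dfc_cut1 (c : ℤ) {a b : ℤ × ℤ} (p : grid.Walk a b) (ha : a.1 ≤ c) (hb : c ≤ b.1) :
    ∃ (x : ℤ × ℤ) (r : grid.Walk x b), x.1 = c ∧
      (∀ z ∈ r.support, c ≤ z.1 ∧ z ∈ p.support) ∧ r.support.length ≤ p.support.length := by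
  rcases dfc_cut1' c p hb with h | h
  · exact ⟨a, p, le_antisymm ha (h a p.start_mem_support), fun z hz => ⟨h z hz, hz⟩, le_rfl⟩
  · exact h

theorem dfc_cut2 (c : ℤ) {a b : ℤ × ℤ} (p : grid.Walk a b) : a.1 ≤ c → c ≤ b.1 →
    ∃ (y : ℤ × ℤ) (r : grid.Walk a y), y.1 = c ∧
      (∀ z ∈ r.support, z.1 ≤ c ∧ z ∈ p.support) ∧ r.support.length ≤ p.support.length := by
  induction p with
  | nil =>
    intro h1 h2
    refine ⟨_, SimpleGraph.Walk.nil, le_antisymm h1 h2, fun z hz => ?_, le_rfl⟩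
    rw [SimpleGraph.Walk.support_nil, List.mem_singleton] at hz
    subst hz
    exact ⟨h1, by simp⟩
  | @cons x y b h p ih =>
    intro h1 h2
    by_cases hx : x.1 = c
    · refine ⟨x, SimpleGraph.Walk.nil, hx, fun z hz => ?_, ?_⟩
      · rw [SimpleGraph.Walk.support_nil, List.mem_singleton] at hz
        subst hz
        exact ⟨h1, SimpleGraph.Walk.start_mem_support _⟩
      · rw [SimpleGraph.Walk.support_nil, SimpleGraph.Walk.support_cons]; simp
    · have hxy := dfc_adj_col h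
      obtain ⟨y', r, e1, e2, e3⟩ := ih (by omega) h2
      refine ⟨y', SimpleGraph.Walk.cons h r, e1, fun z hz => ?_, ?_⟩
      · rw [SimpleGraph.Walk.support_cons, List.mem_cons] at hz
        rcases hz with rfl | hz
        · exact ⟨h1, SimpleGraph.Walk.start_mem_support _⟩
        · refine ⟨(e2 z hz).1, ?_⟩
          rw [SimpleGraph.Walk.support_cons]
          exact List.mem_cons_of_mem _ (e2 z hz).2
      · rw [SimpleGraph.Walk.support_cons, SimpleGraph.Walk.support_cons, List.length_cons,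
          List.length_cons]
        omega

theorem dfc_bd_eq (s : ℝ) (i : ℕ) : bd s i = s / ((((i : ℝ) + 1) ^ ((1:ℝ)/5)) ^ 3) := by
  have hx : (0:ℝ) < (i:ℝ) + 1 := by positivity
  unfold bd
  rw [← Real.rpow_natCast (((i:ℝ)+1) ^ ((1:ℝ)/5)) 3, ← Real.rpow_mul hx.le, Real.rpow_neg hx.le]
  norm_num
  exact (div_eq_mul_inv _ _).symm

theorem dfc_c5 (i : ℕ) : (((i : ℝ) + 1) ^ ((1:ℝ)/5)) ^ 5 = (i:ℝ) + 1 := by
  have hx : (0:ℝ) < (i:ℝ) + 1 := by positivity
  rw [← Real.rpow_natCast (((i:ℝ)+1) ^ ((1:ℝ)/5)) 5, ← Real.rpow_mul hx.le]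
  norm_num

theorem dfc_bd_sum (s : ℝ) (n : ℕ) :
    ∑ k ∈ Finset.range (n + 1), bd s k ^ 2 ≤ s ^ 2 * (6 - 5 / (((n : ℝ) + 1) ^ ((1:ℝ)/5))) := by
  induction n with
  | zero =>
    simp [bd]
    nlinarith [sq_nonneg s]
  | succ n ih =>
    rw [Finset.sum_range_succ]
    have e1 := dfc_c5 n
    have e2 := dfc_c5 (n + 1)
    have ha : 0 < ((n : ℝ) + 1) ^ ((1:ℝ)/5) := by positivity
    have hb : 0 < (((n + 1 : ℕ) : ℝ) + 1) ^ ((1:ℝ)/5) := by positivity
    have hab : ((n : ℝ) + 1) ^ ((1:ℝ)/5) ≤ (((n + 1 : ℕ) : ℝ) + 1) ^ ((1:ℝ)/5) := by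
      apply Real.rpow_le_rpow (by positivity) _ (by norm_num)
      push_cast; linarith
    rw [dfc_bd_eq s (n + 1)]
    generalize ((n : ℝ) + 1) ^ ((1:ℝ)/5) = a at *
    generalize (((n + 1 : ℕ) : ℝ) + 1) ^ ((1:ℝ)/5) = b at *
    have e3 : b ^ 5 - a ^ 5 = 1 := by rw [e1, e2]; push_cast; ring
    -- 1/b^6 ≤ 5/a - 5/b
    have key : 1 / b ^ 6 ≤ 5 / a - 5 / b := by
      have h1 : (b - a) * (5 * b ^ 4) ≥ 1 := by
        have h2 : b ^ 5 - a ^ 5 = (b - a) * (b ^ 4 + b ^ 3 * a + b ^ 2 * a ^ 2 + b * a ^ 3 + a ^ 4) := by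
          ring
        rw [← e3, h2]
        apply mul_le_mul_of_nonneg_left _ (by linarith)
        have g1 : b ^ 3 * a ≤ b ^ 3 * b := mul_le_mul_of_nonneg_left hab (by positivity)
        have g2 : b ^ 2 * a ^ 2 ≤ b ^ 2 * b ^ 2 :=
          mul_le_mul_of_nonneg_left (pow_le_pow_left₀ ha.le hab 2) (by positivity)
        have g3 : b * a ^ 3 ≤ b * b ^ 3 :=
          mul_le_mul_of_nonneg_left (pow_le_pow_left₀ ha.le hab 3) (by positivity)
        have g4 : a ^ 4 ≤ b ^ 4 := pow_le_pow_left₀ ha.le hab 4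
        nlinarith
      have h3 : 5 / a - 5 / b = 5 * (b - a) / (a * b) := by field_simp
      rw [h3, div_le_div_iff₀ (by positivity) (by positivity)]
      have h4 : a * b ≤ b * b := mul_le_mul_of_nonneg_right hab hb.le
      calc 1 * (a * b) ≤ b * b := by linarith
        _ ≤ ((b - a) * (5 * b ^ 4)) * (b * b) := by nlinarith [mul_pos hb hb]
        _ = 5 * (b - a) * b ^ 6 := by ring
    have h5 : (s / b ^ 3) ^ 2 = s ^ 2 * (1 / b ^ 6) := by
      field_simp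
    rw [h5]
    have h6 : s ^ 2 * (1 / b ^ 6) ≤ s ^ 2 * (5 / a - 5 / b) :=
      mul_le_mul_of_nonneg_left key (sq_nonneg s)
    nlinarith

theorem dfc_bd_sum6 (s : ℝ) (n : ℕ) : ∑ k ∈ Finset.range n, bd s k ^ 2 ≤ 6 * s ^ 2 := by
  cases n with
  | zero => simp; positivity
  | succ n =>
    have h := dfc_bd_sum s n
    have h2 : 0 ≤ s ^ 2 * (5 / (((n : ℝ) + 1) ^ ((1:ℝ)/5))) := by positivity
    nlinarith

theorem dfc_prod_le (i : ℕ) :
    ∏ k ∈ Finset.range i, Real.sqrt (1 + 4 * bd (1 / 100) k ^ 2) ≤ 101 / 100 := by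
  have h1 : ∏ k ∈ Finset.range i, Real.sqrt (1 + 4 * bd (1 / 100) k ^ 2) ≤
      ∏ k ∈ Finset.range i, Real.exp (2 * bd (1 / 100) k ^ 2) := by
    apply Finset.prod_le_prod
    · intro k _; exact Real.sqrt_nonneg _
    · intro k _
      have h2 : Real.sqrt (1 + 4 * bd (1 / 100) k ^ 2) ≤ 1 + 2 * bd (1 / 100) k ^ 2 := by
        rw [Real.sqrt_le_left (by positivity)]
        nlinarith [sq_nonneg (bd (1 / 100) k), sq_nonneg (bd (1 / 100) k ^ 2)]
      have h3 := Real.add_one_le_exp (2 * bd (1 / 100) k ^ 2)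
      linarith
  rw [← Real.exp_sum, ← Finset.mul_sum] at h1
  have h4 := dfc_bd_sum6 (1 / 100) i
  have h6 : Real.exp (2 * ∑ k ∈ Finset.range i, bd (1 / 100) k ^ 2) ≤ Real.exp (1 / 200) := by
    apply Real.exp_le_exp.mpr; nlinarith
  have h7 : Real.exp (1 / 200) ≤ 101 / 100 := by
    have h8 : Real.exp (1 / 200) ^ 200 = Real.exp 1 := by
      rw [← Real.exp_nat_mul]; norm_num
    have h9 : Real.exp 1 < 2.7182818286 := Real.exp_one_lt_d9
    have h10 : Real.exp 1 ≤ (101 / 100 : ℝ) ^ 200 := by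
      refine h9.le.trans ?_
      norm_num
    rw [← h8] at h10
    exact le_of_pow_le_pow_left₀ (by norm_num) (by norm_num) h10
  linarith

theorem dfc_dl_eq (s ℓ : ℝ) (i : ℕ) :
    dl s ℓ i = ℓ * (∏ k ∈ Finset.range i, Real.sqrt (1 + 4 * bd s k ^ 2)) / 64 ^ i := by
  unfold dl
  rw [Finset.prod_div_distrib, Finset.prod_const, Finset.card_range, mul_div_assoc]

theorem dfc_cover (u w : ℕ) (h : ParC u w) (q : ℕ) (hq : 1 ≤ q) (hqd : ll w (nb u w) ≤ q)
    (hqe : q = ⌈ll w (nb u w)⌉₊) (f : ℤ × ℤ → ℝ) (σ : ℕ → ℂ × ℂ → Bool)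
    (hJ0 : ∀ s' ∈ segs bb σ 2 0 (sg0 w), GdC u w f 2 s')
    (K : ℝ) (hK : (64 : ℝ) ^ nb u w * (2 * q) + ∑ k ∈ Finset.range (nb u w - 2),
      4 * ((((2 + k : ℕ) : ℝ) + u) ^ 9 * wi w (2 + k)) * (((segs bb σ (2 + k + 1) 0 (sg0 w)).countP (fun s' =>
        @decide (¬ GdC u w f (2 + k + 1) s') (Classical.dec _)) : ℕ) : ℝ) ≤ K) :
    ∃ U : Finset (ℤ × ℤ), (U.card : ℝ) ≤ K ∧
      ∀ v ∈ leaves bb q σ (nb u w) 0 (sg0 w), ∃ H : Finset (ℤ × ℤ), H ⊆ U ∧
        (grid.induce (H : Set (ℤ × ℤ))).Connected ∧ (∀ z ∈ H, f z ≤ u) ∧ dfcSep (wi w 2) H v := by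
  classical
  have hs : (0 : ℝ) < 1 / 100 := by norm_num
  have hs' : (1 / 100 : ℝ) ≤ 1 / 8 := by norm_num
  have hn4 := h.n_ge
  have hnorm0 : ‖(sg0 w).2‖ = dl (1 / 100) (5 * (w : ℝ)) 0 := by
    simp [dl, sg0]
  have main := subtree_cover (nb u w) q bb σ (dfc_finalVerts_length q) (fun z => f z ≤ u)
    (fun i => 4 * (((i : ℝ) + u) ^ 9 * wi w i)) (fun i => by positivity) (dfcSep (wi w 2))
    (GdC u w f) (fun i s' => 2 ≤ i ∧ ‖s'.2‖ = dl (1 / 100) (5 * (w : ℝ)) i)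
    (by
      rintro i s' k _ ⟨h1, h2⟩
      refine ⟨by omega, ?_⟩
      rw [dfc_child_norm, h2, dfc_dl_add]; simp [bb])
    (by
      rintro i hi s' ⟨h1, h2⟩ hG
      have hG' : circuitOK (mid s') (wi w i) (di u w i) u (((i : ℝ) + u) ^ 9 * wi w i) f := by
        unfold GdC at hG
        rwa [if_pos hi] at hG
      have hdi := h.di_ge i hi.le
      have w3 : 1 ≤ di u w i := by omega
      have w4 : 2 * di u w i ≤ wi w i := by omega
      have w1 : 100 ≤ wi w i := by omega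
      have w2 : dl (1 / 100) (5 * (w : ℝ)) i ≤ wi w i := h.ll_le i hi.le
      obtain ⟨H, hc, hf, hn, hcard, hsep⟩ := circuit_lemma (mid s') (wi w i) (di u w i) w3 w4 u
        (((i : ℝ) + u) ^ 9 * wi w i) f hG'
      refine ⟨H, hcard, hc, hf, ?_⟩
      intro v hv
      obtain ⟨n1, n2⟩ := dfc_near (1 / 100) (5 * (w : ℝ)) hs hs' (nb u w) q hq hqd σ i hi.le s' h2
        (wi w i) w1 w2 v hv
      have hle : (wi w i : ℤ) ≤ wi w 2 := by exact_mod_cast dfc_wi_anti w 2 i h1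
      rw [abs_le] at n1 n2
      refine ⟨?_, ?_⟩
      · intro z hz
        obtain ⟨z1, z2⟩ := hn z hz
        rw [abs_le] at z1 z2
        rw [abs_le, abs_le]
        refine ⟨⟨?_, ?_⟩, ⟨?_, ?_⟩⟩ <;> linarith
      · intro b hb r
        refine hsep v b (by rw [abs_le]; exact n1) (by rw [abs_le]; exact n2) ?_ r
        rcases hb with hb | hb
        · left
          rw [le_abs] at hb ⊢
          rcases hb with hb | hb
          · left; linarith
          · right; linarith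
        · right
          rw [le_abs] at hb ⊢
          rcases hb with hb | hb
          · left; linarith
          · right; linarith)
    (by
      intro s' hG
      unfold GdC at hG
      rw [if_neg (lt_irrefl _)] at hG
      rw [hqe]
      exact hG)
    (by
      intro v hv
      refine ⟨?_, ?_⟩
      · intro z hz
        rw [Finset.mem_singleton] at hz
        subst hz
        simp
      · intro b _ r
        exact ⟨v, r.start_mem_support, Finset.mem_singleton_self v⟩)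
  obtain ⟨sf1, sf2, sf3, sf4, sf5⟩ := segs_facts bb σ
  set m := nb u w - 2 with hm
  have hmn : 2 + m = nb u w := by omega
  obtain ⟨U, hU, hU'⟩ := dfc_union (segs bb σ 2 0 (sg0 w))
    (fun s' => 64 ^ m * (2 * q) + ∑ k ∈ Finset.range m, 4 * ((((2 + k : ℕ) : ℝ) + u) ^ 9 * wi w (2 + k)) *
        (((segs bb σ (k + 1) 2 s').countP (fun s'' => @decide (¬ GdC u w f (2 + k + 1) s'')
          (Classical.dec _)) : ℕ) : ℝ))
    (fun s' U => ∀ v ∈ leaves bb q σ m 2 s', ∃ H : Finset (ℤ × ℤ), H ⊆ U ∧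
        (grid.induce (H : Set (ℤ × ℤ))).Connected ∧ (∀ z ∈ H, f z ≤ u) ∧ dfcSep (wi w 2) H v)
    (by
      intro a U U' hUU h v hv
      obtain ⟨H, h1, h2⟩ := h v hv
      exact ⟨H, h1.trans hUU, h2⟩)
    (by
      intro s' hs'
      obtain ⟨U, H, hc, hH⟩ := main m 2 s' hmn
        ⟨le_refl _, by
          have := dfc_segs_norm (1 / 100) (5 * (w : ℝ)) σ 2 0 _ hnorm0 s' hs'
          rwa [zero_add] at this⟩ (hJ0 s' hs')
      exact ⟨U, hc, fun v hv => ⟨H v, hH v hv⟩⟩)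
  refine ⟨U, ?_, ?_⟩
  · refine hU.trans (le_trans (le_of_eq ?_) hK)
    have hsum : ∀ (l : List (ℂ × ℂ)) (c : ℝ) (g : ℕ → ℝ) (F : ℕ → ℂ × ℂ → ℕ),
        (l.map (fun s' => c + ∑ k ∈ Finset.range m, g k * ((F k s' : ℕ) : ℝ))).sum =
        l.length * c + ∑ k ∈ Finset.range m, g k * (((l.map (F k)).sum : ℕ) : ℝ) := by
      intro l c g F
      induction l with
      | nil => simp
      | cons a l ih =>
        rw [List.map_cons, List.sum_cons, ih]
        simp only [List.length_cons, List.map_cons, List.sum_cons]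
        push_cast
        have : ∑ k ∈ Finset.range m, g k * ((F k a : ℝ) + ((l.map (F k)).sum : ℕ)) =
          ∑ k ∈ Finset.range m, g k * (F k a : ℝ) + ∑ k ∈ Finset.range m, g k * ((l.map (F k)).sum : ℕ) := by
          rw [← Finset.sum_add_distrib]
          apply Finset.sum_congr rfl
          intro k _; ring
        push_cast at this
        rw [this]; ring
    rw [hsum _ _ (fun k => 4 * ((((2 + k : ℕ) : ℝ) + u) ^ 9 * wi w (2 + k))) (fun k s' =>
      (segs bb σ (k + 1) 2 s').countP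
      (fun s'' => @decide (¬ GdC u w f (2 + k + 1) s'') (Classical.dec _)))]
    rw [sf4]
    refine congrArg₂ (· + ·) ?_ ?_
    · push_cast
      rw [← mul_assoc, ← hmn, pow_add]
      norm_num
    · apply Finset.sum_congr rfl
      intro k _
      have h := sf2 2 (k + 1) 0 (sg0 w)
      rw [zero_add, ← add_assoc] at h
      rw [h, List.countP_flatMap]
      rfl
  · intro v hv
    rw [sf1, ← hmn, sf2, List.flatMap_assoc, List.mem_flatMap] at hv
    obtain ⟨s', hs1, hs2⟩ := hv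
    rw [← sf1, zero_add] at hs2
    exact hU' s' hs1 v hs2

theorem dfc_range (u w : ℕ) (q : ℕ) (hq : 1 ≤ q) (hqd : ll w (nb u w) ≤ q) (σ : ℕ → ℂ × ℂ → Bool) :
    ∀ v ∈ leaves bb q σ (nb u w) 0 (sg0 w),
      ((w / 2 : ℕ) : ℝ) - (3 + (3 / 59) * w) ≤ (v.1 : ℝ) ∧
      (v.1 : ℝ) ≤ ((w / 2 : ℕ) : ℝ) + 5 * w + (3 + (3 / 59) * w) ∧
      ((w / 2 : ℕ) : ℝ) - (3 + (3 / 59) * w) ≤ (v.2 : ℝ) ∧
      (v.2 : ℝ) ≤ ((w / 2 : ℕ) : ℝ) + (3 + (3 / 59) * w) := by
  intro v hv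
  have hs : (0 : ℝ) < 1 / 100 := by norm_num
  have hs' : (1 / 100 : ℝ) ≤ 1 / 8 := by norm_num
  have hnorm0 : ‖(sg0 w).2‖ = dl (1 / 100) (5 * (w : ℝ)) 0 := by
    simp [dl, sg0]
  obtain ⟨τ, h0, h1, h⟩ := leaves_near bb (dfc_bd_nonneg (1 / 100) hs)
    (fun j => (dfc_bd_le (1 / 100) hs j).trans hs') (dfc_bd_anti (1 / 100) hs) q hq σ (nb u w) 0 (sg0 w) (by
      rw [hnorm0]
      have := dfc_dl_add (1 / 100) (5 * (w : ℝ)) 0 (nb u w)
      rw [zero_add] at this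
      exact (le_of_eq this.symm).trans hqd) v hv
  have hw0 : (0 : ℝ) ≤ (w : ℝ) := Nat.cast_nonneg _
  have hn : ‖(sg0 w).2‖ = 5 * (w : ℝ) := by
    simp [sg0]
  have hb0 : bb 0 = 1 / 100 := dfc_bd_zero _
  rw [hn, hb0] at h
  have hre : |(v.1 : ℝ) - (((w / 2 : ℕ) : ℝ) + τ * (5 * w))| ≤ 3 + (60 / 59) * (1 / 100 * (5 * w)) := by
    refine le_trans ?_ h
    refine le_trans (le_of_eq ?_) (Complex.abs_re_le_norm _)
    simp [toC, sg0]
  have him : |(v.2 : ℝ) - ((w / 2 : ℕ) : ℝ)| ≤ 3 + (60 / 59) * (1 / 100 * (5 * w)) := by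
    refine le_trans ?_ h
    refine le_trans (le_of_eq ?_) (Complex.abs_im_le_norm _)
    simp [toC, sg0]
  rw [abs_le] at hre him
  have t1 : 0 ≤ τ * (5 * w) := mul_nonneg h0 (by positivity)
  have t2 : τ * (5 * w) ≤ 5 * w := by nlinarith
  refine ⟨by linarith, by linarith, by linarith, by linarith⟩

theorem _root_.H941.det_finalC (u w : ℕ) (h : ParC u w) (f : ℤ × ℤ → ℝ) (σ : ℕ → ℂ × ℂ → Bool)
    (hJ : ∀ s' ∈ segs bb σ 2 0 (sg0 w), GdC u w f 2 s')
    (hK : ∑ k ∈ Finset.range (nb u w - 2), 4 * ((((2 + k : ℕ) : ℝ) + u) ^ 9 * wi w (2 + k)) *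
        (((segs bb σ (2 + k + 1) 0 (sg0 w)).countP (fun s' => @decide (¬ GdC u w f (2 + k + 1) s') (Classical.dec _)) : ℕ) : ℝ) < (w : ℝ)) :
    armOK true (0, 0) w (w / 4) u (12 * w) f := by
  
  classical
  have hwi0 := (h.wi_ge 0 (Nat.zero_le _)).1
  have hu6 := h.u_ge
  have hwbig : 10 ^ 96 ≤ 6 * w := by
    have h1 : wi w 0 = 6 * w := by simp [wi]
    rw [h1] at hwi0
    have h2 : (10 ^ 6) ^ 16 ≤ (Nat.log 2 w + u) ^ 16 := Nat.pow_le_pow_left (by omega) 16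
    calc 10 ^ 96 = (10 ^ 6) ^ 16 := by norm_num
      _ ≤ _ := h2.trans hwi0
  have hw6 : 10 ^ 6 ≤ w := by
    have : (10 ^ 96 : ℕ) ≥ 6 * 10 ^ 6 := by norm_num
    omega
  have hw6r : (10 ^ 6 : ℝ) ≤ w := by exact_mod_cast hw6
  have hn4 := h.n_ge
  -- size of 64 ^ n
  have h64 : (64 : ℝ) ^ nb u w ≤ w / 10 := by
    have h1 := (h.wi_ge (nb u w) le_rfl)
    have h2 : 60 ≤ wi w (nb u w) := by
      have h3 : (10 ^ 6) ^ 16 ≤ (Nat.log 2 w + u) ^ 16 := Nat.pow_le_pow_left (by omega) 16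
      have h4 : 60 ≤ (10 ^ 6) ^ 16 := by norm_num
      exact h4.trans (h3.trans h1.1)
    have h3 : 64 ^ nb u w * 60 ≤ 6 * w := (Nat.mul_le_mul_left _ h2).trans h1.2.2
    have h4 : (64 : ℝ) ^ nb u w * 60 ≤ 6 * w := by exact_mod_cast h3
    linarith
  have hllpos : 0 < ll w (nb u w) := by
    unfold ll
    rw [dfc_dl_eq]
    apply div_pos _ (by positivity)
    apply mul_pos (by positivity)
    apply Finset.prod_pos
    intro k _
    apply Real.sqrt_pos.mpr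
    positivity
  have hll : (64 : ℝ) ^ nb u w * ll w (nb u w) ≤ 5.05 * w := by
    unfold ll
    rw [dfc_dl_eq]
    have hp := dfc_prod_le (nb u w)
    have h1 : (64 : ℝ) ^ nb u w * (5 * (w : ℝ) * (∏ k ∈ Finset.range (nb u w),
        Real.sqrt (1 + 4 * bd (1 / 100) k ^ 2)) / 64 ^ nb u w) = 5 * (w : ℝ) *
        (∏ k ∈ Finset.range (nb u w), Real.sqrt (1 + 4 * bd (1 / 100) k ^ 2)) := by
      field_simp
    rw [h1]
    nlinarith
  obtain ⟨q, hqe⟩ : ∃ q, q = ⌈ll w (nb u w)⌉₊ := ⟨_, rfl⟩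
  have hq : 1 ≤ q := by
    rw [hqe]; exact Nat.one_le_ceil_iff.mpr hllpos
  have hqd : ll w (nb u w) ≤ q := by rw [hqe]; exact Nat.le_ceil _
  have hq1 : (q : ℝ) < ll w (nb u w) + 1 := by rw [hqe]; exact Nat.ceil_lt_add_one hllpos.le
  have hqw : (64 : ℝ) ^ nb u w * (2 * q) ≤ 11 * w := by
    have h1 : (64 : ℝ) ^ nb u w * (2 * q) ≤ (64 : ℝ) ^ nb u w * (2 * (ll w (nb u w) + 1)) := by
      apply mul_le_mul_of_nonneg_left _ (by positivity)
      linarith
    linarith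
  obtain ⟨U, hUK, hU⟩ := dfc_cover u w h q hq hqd hqe f σ hJ (12 * w) (by linarith)
  have hrange := dfc_range u w q hq hqd σ
  have hs : (0 : ℝ) < 1 / 100 := by norm_num
  have hs' : (1 / 100 : ℝ) ≤ 1 / 8 := by norm_num
  have hnorm0 : ‖(sg0 w).2‖ = dl (1 / 100) (5 * (w : ℝ)) 0 := by
    simp [dl, sg0]
  obtain ⟨⟨p0, hp0⟩, -⟩ := exists_walk bb (dfc_bd_nonneg (1 / 100) hs)
    (fun j => (dfc_bd_le (1 / 100) hs j).trans hs') q hq σ (nb u w) 0 (sg0 w) (by
      rw [hnorm0]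
      have := dfc_dl_add (1 / 100) (5 * (w : ℝ)) 0 (nb u w)
      rw [zero_add] at this
      exact (le_of_eq this.symm).trans hqd)
  obtain ⟨hh, hhdef⟩ : ∃ hh : ℕ, hh = w / 2 := ⟨_, rfl⟩
  have hhw : 2 * hh ≤ w ∧ w ≤ 2 * hh + 1 := by omega
  have hr1 : rd (sg0 w).1 = ((hh : ℤ), (hh : ℤ)) := by
    rw [hhdef]
    simp only [rd, sg0]
    rw [Int.floor_natCast]
  have hr2 : rd ((sg0 w).1 + (sg0 w).2) = ((hh : ℤ) + 5 * w, (hh : ℤ)) := by
    rw [hhdef]
    simp only [rd, sg0, Complex.add_re, Complex.add_im, Complex.natCast_re, Complex.natCast_im,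
      add_zero]
    rw [Int.floor_natCast, Int.floor_add_natCast, Int.floor_natCast]
    push_cast
    rfl
  rw [← hhdef] at hrange
  have hne : ((hh : ℤ), (hh : ℤ)) ≠ ((hh : ℤ) + 5 * w, (hh : ℤ)) := by
    intro h
    have := congrArg Prod.fst h
    simp only at this
    omega
  obtain ⟨v1, hadj, γ, hγ⟩ := dfc_tail (p0.copy hr1 hr2) hne
  rw [SimpleGraph.Walk.support_copy] at hγ
  have hleaf : ∀ v ∈ γ.support, v ∈ leaves bb q σ (nb u w) 0 (sg0 w) := by
    intro v hv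
    rw [hγ] at hv
    exact hp0.subset hv
  choose! Hf hHU hHc hHf hHs using hU
  have hW : (wi w 2 : ℝ) ≤ w / 600 := by
    have h1 : wi w 2 * 4096 ≤ 6 * w := by
      unfold wi
      exact Nat.div_mul_le_self _ _
    have h2 : (wi w 2 : ℝ) * 4096 ≤ 6 * w := by exact_mod_cast h1
    linarith
  have hWr : (0 : ℝ) ≤ (wi w 2 : ℝ) := Nat.cast_nonneg _
  have hh1 : (hh : ℝ) ≤ w / 2 := by
    have : (2 * hh : ℝ) ≤ w := by exact_mod_cast hhw.1
    linarith
  have hh2 : (w : ℝ) / 2 - 1 / 2 ≤ hh := by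
    have : (w : ℝ) ≤ 2 * hh + 1 := by exact_mod_cast hhw.2
    linarith
  obtain ⟨S, hSc, hSH, hSs⟩ := hull_lemma grid dfc_grid_connected.1 (10 * (w : ℤ), (hh : ℤ)) γ
    (fun v => (Hf v : Set (ℤ × ℤ))) (fun v hv => hHc v (hleaf v hv)) (by
      intro v hv r
      refine (hHs v (hleaf v hv)).2 _ ?_ r
      left
      obtain ⟨r1, r2, r3, r4⟩ := hrange v (hleaf v hv)
      have h1 : 4 * (wi w 2 : ℝ) ≤ 10 * (w : ℝ) - v.1 := by linarith
      rw [le_abs]; left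
      show 4 * (wi w 2 : ℤ) ≤ 10 * (w : ℤ) - v.1
      exact_mod_cast h1)
  have hS : ∀ z ∈ S, z ∈ U ∧ f z ≤ u ∧ -(w : ℤ) ≤ z.1 ∧ z.1 ≤ 7 * w ∧
      (w : ℤ) ≤ 4 * z.2 ∧ 4 * z.2 ≤ 3 * w := by
    intro z hz
    obtain ⟨v, hv, hzv⟩ := hSH z hz
    have hzv' : z ∈ Hf v := hzv
    obtain ⟨r1, r2, r3, r4⟩ := hrange v (hleaf v hv)
    obtain ⟨d1, d2⟩ := (hHs v (hleaf v hv)).1 z hzv'
    have d1' : |(z.1 : ℝ) - v.1| ≤ 3 * (wi w 2 : ℝ) := by exact_mod_cast d1
    have d2' : |(z.2 : ℝ) - v.2| ≤ 3 * (wi w 2 : ℝ) := by exact_mod_cast d2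
    rw [abs_le] at d1' d2'
    obtain ⟨e1, e2⟩ := d1'
    obtain ⟨e3, e4⟩ := d2'
    refine ⟨hHU v (hleaf v hv) hzv', hHf v (hleaf v hv) z hzv', ?_, ?_, ?_, ?_⟩
    · have : -(w : ℝ) ≤ z.1 := by linarith
      exact_mod_cast this
    · have : (z.1 : ℝ) ≤ 7 * w := by linarith
      exact_mod_cast this
    · have : (w : ℝ) ≤ 4 * z.2 := by linarith
      exact_mod_cast this
    · have : (4 : ℝ) * z.2 ≤ 3 * w := by linarith
      exact_mod_cast this
  -- the left end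
  have hv1S : v1 ∈ γ.support := γ.start_mem_support
  have hv1a : |(hh : ℤ) - v1.1| + |(hh : ℤ) - v1.2| = 1 := hadj
  have hv1b : v1.1 ≤ hh + 1 ∧ (hh : ℤ) - 1 ≤ v1.1 ∧ (hh : ℤ) - 1 ≤ v1.2 ∧ v1.2 ≤ hh + 1 := by
    have a1 := abs_nonneg ((hh : ℤ) - v1.1)
    have a2 := abs_nonneg ((hh : ℤ) - v1.2)
    have b1 : |(hh : ℤ) - v1.1| ≤ 1 := by omega
    have b2 : |(hh : ℤ) - v1.2| ≤ 1 := by omega
    rw [abs_le] at b1 b2
    refine ⟨by omega, by omega, by omega, by omega⟩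
  obtain ⟨x1, y1⟩ := v1
  simp only at hv1b
  obtain ⟨w1, hw1⟩ := dfc_hw (-20 * (w : ℤ)) x1 y1 (by omega)
  obtain ⟨w2, hw2⟩ := dfc_vw (-20 * (w : ℤ)) y1 (20 * (w : ℤ)) (by omega)
  obtain ⟨w3, hw3⟩ := dfc_hw (-20 * (w : ℤ)) (10 * (w : ℤ)) (20 * (w : ℤ)) (by omega)
  obtain ⟨w4, hw4⟩ := dfc_vw (10 * (w : ℤ)) (hh : ℤ) (20 * (w : ℤ)) (by omega)
  obtain ⟨a, haw, haS⟩ := hSs _ hv1S (((w1.reverse.append w2).append w3).append w4.reverse)
  have ha4 : a.1 ≤ w := by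
    obtain ⟨_, _, s1, s2, s3, s4⟩ := hS a haS
    rw [SimpleGraph.Walk.mem_support_append_iff, SimpleGraph.Walk.mem_support_append_iff,
      SimpleGraph.Walk.mem_support_append_iff] at haw
    rcases haw with ((h | h) | h) | h
    · rw [SimpleGraph.Walk.support_reverse, List.mem_reverse] at h
      obtain ⟨h1, h2, h3⟩ := hw1 a h
      omega
    · obtain ⟨h1, h2, h3⟩ := hw2 a h
      omega
    · obtain ⟨h1, h2, h3⟩ := hw3 a h
      omega
    · rw [SimpleGraph.Walk.support_reverse, List.mem_reverse] at h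
      obtain ⟨h1, h2, h3⟩ := hw4 a h
      omega
  -- the right end
  obtain ⟨w5, hw5⟩ := dfc_hw ((hh : ℤ) + 5 * w) (10 * (w : ℤ)) (hh : ℤ) (by omega)
  obtain ⟨b, hbw, hbS⟩ := hSs _ γ.end_mem_support w5
  obtain ⟨hb1, hb2, hb3⟩ := hw5 b hbw
  obtain ⟨p2, hp2, hp2len⟩ := dfc_grid_connected.2 grid S U (fun z hz => (hS z hz).1) hSc a haS b hbS
  obtain ⟨x, r, hx, hr, hrl⟩ := dfc_cut1 (w : ℤ) p2 ha4 (by omega)
  obtain ⟨y, r', hy, hr', hrl'⟩ := dfc_cut2 (5 * (w : ℤ)) r (by omega) (by omega)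
  refine ⟨x, y, r', hx, hy, ?_, ?_⟩
  · intro z hz
    obtain ⟨z1, z2⟩ := hr' z hz
    obtain ⟨z3, z4⟩ := hr z z2
    obtain ⟨_, s0, s1, s2, s3, s4⟩ := hS z (hp2 z z4)
    refine ⟨?_, ?_⟩
    · simp only [rect, Finset.mem_product, Finset.mem_Icc]
      push_cast
      omega
    · have : place true (0, 0) z = z := by
        simp [place]
      rw [this]; exact s0
  · have h1 : (r'.support.length : ℝ) ≤ (U.card : ℝ) := by
      exact_mod_cast hrl'.trans (hrl.trans hp2len)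
    exact h1.trans hUK

end H941.det_finalC
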