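import Pool.Agent.KS6_63.GFF.Defs4

open MeasureTheory ProbabilityTheory

namespace H941.num_bottom

theorem nb_exp (z : ℝ) (h0 : 0 ≤ z) (h1 : z ≤ 1) : Real.exp (-z) ≤ 1 - z / 2 := by
  have h2 : Real.exp (-z) * Real.exp z = 1 := by rw [← Real.exp_add]; simp
  have h3 := Real.add_one_le_exp z
  have h4 := Real.exp_pos (-z)
  have h5 : Real.exp (-z) * (z + 1) ≤ 1 :=
    (mul_le_mul_of_nonneg_left h3 h4.le).trans h2.le
  have h6 : 1 ≤ (z + 1) * (1 - z / 2) := by nlinarith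
  have h7 : 0 < z + 1 := by linarith
  by_contra hcon
  rw [not_le] at hcon
  nlinarith [mul_lt_mul_of_pos_left hcon h7]

theorem nb_fac (c1 θ r : ℝ) (hc : 0 < c1) (hc1 : c1 ≤ 1) (hθ : 0 ≤ θ) (hθ1 : θ ≤ 1) (hr : 0 ≤ r) (hr1 : r ≤ 1) :
    0 ≤ 1 - (1 / 120) * (1 - Real.exp (-(c1 * (θ * r)))) ∧
      1 - (1 / 120) * (1 - Real.exp (-(c1 * (θ * r)))) ≤ Real.exp (-(c1 * θ * r / 240)) := by
  have hz0 : 0 ≤ c1 * (θ * r) := by positivity
  have hz1 : c1 * (θ * r) ≤ 1 := by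
    have h1 : θ * r ≤ 1 := mul_le_one₀ hθ1 hr hr1
    exact mul_le_one₀ hc1 (by positivity) h1
  have h1 := nb_exp _ hz0 hz1
  have h2 := Real.exp_pos (-(c1 * (θ * r)))
  constructor
  · linarith
  · have h3 := Real.add_one_le_exp (-(c1 * θ * r / 240))
    have h4 : c1 * (θ * r) = c1 * θ * r := by ring
    rw [h4] at h1 ⊢
    linarith

theorem nb_bb_lo (k n : ℕ) (hn : 0 < n) (h : k + 1 ≤ n) : (1 / 10 : ℝ) * (n : ℝ) ^ (-(3 / 10) : ℝ) ≤ Real.sqrt (bb k) := by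
  have hn0 : (0 : ℝ) < n := by exact_mod_cast hn
  have hk0 : (0 : ℝ) < (k : ℝ) + 1 := by positivity
  have h1 : (n : ℝ) ^ (-(3 / 5) : ℝ) ≤ ((k : ℝ) + 1) ^ (-(3 / 5) : ℝ) :=
    Real.rpow_le_rpow_of_nonpos hk0 (by exact_mod_cast h) (by norm_num)
  apply Real.le_sqrt_of_sq_le
  have h2 : ((n : ℝ) ^ (-(3 / 10) : ℝ)) ^ 2 = (n : ℝ) ^ (-(3 / 5) : ℝ) := by
    rw [← Real.rpow_natCast, ← Real.rpow_mul hn0.le]
    norm_num
  rw [mul_pow, h2]
  unfold bb bd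
  linarith

theorem nb_bb_hi (k : ℕ) : Real.sqrt (bb k) ≤ 1 := by
  rw [Real.sqrt_le_left (by norm_num), one_pow]
  unfold bb bd
  have h1 : ((k : ℝ) + 1) ^ (-(3 / 5) : ℝ) ≤ 1 := by
    apply Real.rpow_le_one_of_one_le_of_nonpos
    · have : (0 : ℝ) ≤ k := Nat.cast_nonneg k
      linarith
    · norm_num
  linarith

theorem nb_prod (c1 θ : ℝ) (hc : 0 < c1) (hc1 : c1 ≤ 1) (hθ : 0 ≤ θ) (hθ1 : θ ≤ 1) (j n : ℕ) (hn : 0 < n)
    (hj : j ≤ n) :
    0 ≤ (∏ k ∈ Finset.range j, (1 - (1 / 120) * (1 - Real.exp (-(c1 * (θ * Real.sqrt (bb k))))))) ∧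
    (∏ k ∈ Finset.range j, (1 - (1 / 120) * (1 - Real.exp (-(c1 * (θ * Real.sqrt (bb k))))))) ≤
      Real.exp (-(c1 * θ * ((n : ℝ) ^ (-(3 / 10) : ℝ)) / 2400 * j)) := by
  constructor
  · exact Finset.prod_nonneg (fun k _ => (nb_fac c1 θ _ hc hc1 hθ hθ1 (Real.sqrt_nonneg _) (nb_bb_hi k)).1)
  · calc (∏ k ∈ Finset.range j, (1 - (1 / 120) * (1 - Real.exp (-(c1 * (θ * Real.sqrt (bb k)))))))
        ≤ ∏ k ∈ Finset.range j, Real.exp (-(c1 * θ * ((n : ℝ) ^ (-(3 / 10) : ℝ)) / 2400)) := by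
          refine Finset.prod_le_prod (fun k _ => (nb_fac c1 θ _ hc hc1 hθ hθ1 (Real.sqrt_nonneg _) (nb_bb_hi k)).1)
            (fun k hk => (nb_fac c1 θ _ hc hc1 hθ hθ1 (Real.sqrt_nonneg _) (nb_bb_hi k)).2.trans ?_)
          rw [Real.exp_le_exp]
          have h1 := nb_bb_lo k n hn (by have := Finset.mem_range.1 hk; omega)
          have h2 := mul_le_mul_of_nonneg_left h1 (mul_nonneg hc.le hθ)
          linarith
      _ = Real.exp (-(c1 * θ * ((n : ℝ) ^ (-(3 / 10) : ℝ)) / 2400 * j)) := by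
          rw [Finset.prod_const, Finset.card_range, ← Real.exp_nat_mul]
          congr 1
          ring

theorem nb_log (m : ℕ) (h : 7 ≤ m) : 12 * (m + 2) ≤ 2 ^ m := by
  induction m, h using Nat.le_induction with
  | base => norm_num
  | succ k hk ih => rw [pow_succ]; omega

theorem nb_gap (u n : ℕ) (hn : 128 ≤ n) (hu : u < n) : 2 * gap u n ≤ n := by
  unfold gap
  have h1 : Nat.log 2 (n + u) ≤ Nat.log 2 n + 1 := by
    have h2 : Nat.log 2 (n + u) < Nat.log 2 n + 2 := by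
      apply Nat.log_lt_of_lt_pow (by omega)
      have h3 := Nat.lt_pow_succ_log_self (b := 2) (by norm_num) n
      rw [pow_succ] at h3 ⊢
      omega
    omega
  have h4 : 7 ≤ Nat.log 2 n := Nat.le_log_of_pow_le (by norm_num) (by norm_num; omega)
  have h5 := nb_log _ h4
  have h6 : 2 ^ Nat.log 2 n ≤ n := Nat.pow_log_le_self 2 (by omega)
  omega

theorem nb_two_gap (u n : ℕ) (h : 0 < n + u) : (2 : ℝ) ^ gap u n ≤ 64 * ((n : ℝ) + u) ^ 6 := by
  unfold gap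
  have h6 : 2 ^ Nat.log 2 (n + u) ≤ n + u := Nat.pow_log_le_self 2 (by omega)
  have h7 : (2 : ℝ) ^ Nat.log 2 (n + u) ≤ (n : ℝ) + u := by exact_mod_cast h6
  have e : (2 : ℝ) ^ (6 * (Nat.log 2 (n + u) + 1)) = 64 * ((2 : ℝ) ^ Nat.log 2 (n + u)) ^ 6 := by
    rw [← pow_mul, mul_add, pow_add, mul_one, mul_comm 6]
    norm_num
    ring
  rw [e]
  gcongr

/-- polynomial times stretched exponential -/
theorem nb_poly (c y : ℝ) (hc : 0 < c) (hy : 1 ≤ y) :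
    y ^ 33 * Real.exp (-(c * y ^ (2 / 5 : ℝ))) ≤ (Nat.factorial 83 : ℝ) / c ^ 83 := by
  have hy0 : 0 < y := by linarith
  have hx : 0 < y ^ (2 / 5 : ℝ) := Real.rpow_pos_of_pos hy0 _
  have h1 : y ^ 33 ≤ (y ^ (2 / 5 : ℝ)) ^ 83 := by
    rw [← Real.rpow_natCast, ← Real.rpow_natCast, ← Real.rpow_mul hy0.le]
    exact Real.rpow_le_rpow_of_exponent_le hy (by norm_num)
  have h2 := Real.pow_div_factorial_le_exp (c * y ^ (2 / 5 : ℝ)) (by positivity) 83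
  have h3 : Real.exp (-(c * y ^ (2 / 5 : ℝ))) * Real.exp (c * y ^ (2 / 5 : ℝ)) = 1 := by
    rw [← Real.exp_add]; simp
  have h4 := Real.exp_pos (-(c * y ^ (2 / 5 : ℝ)))
  have hf : (0 : ℝ) < (Nat.factorial 83 : ℝ) := by exact_mod_cast Nat.factorial_pos 83
  rw [le_div_iff₀ (by positivity)]
  calc y ^ 33 * Real.exp (-(c * y ^ (2 / 5 : ℝ))) * c ^ 83
      ≤ (y ^ (2 / 5 : ℝ)) ^ 83 * Real.exp (-(c * y ^ (2 / 5 : ℝ))) * c ^ 83 := by gcongr
    _ = Real.exp (-(c * y ^ (2 / 5 : ℝ))) * ((c * y ^ (2 / 5 : ℝ)) ^ 83 / (Nat.factorial 83 : ℝ)) *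
          (Nat.factorial 83 : ℝ) := by
        rw [mul_pow]
        field_simp
    _ ≤ Real.exp (-(c * y ^ (2 / 5 : ℝ))) * Real.exp (c * y ^ (2 / 5 : ℝ)) * (Nat.factorial 83 : ℝ) := by
        gcongr
    _ = (Nat.factorial 83 : ℝ) := by rw [h3, one_mul]

/-- the exponent -/
theorem nb_expo (c1 : ℝ) (hc : 0 < c1) (hc1 : c1 ≤ 1) (u n : ℕ) (hu : 128 ≤ u) :
    ∃ θ : ℝ, 0 ≤ θ ∧ θ ≤ 1 ∧
      Real.exp (-(θ * u) + θ ^ 2 * (6 * n + u + 10) / 2) *
          (∏ k ∈ Finset.range (n - gap u n), (1 - (1 / 120) * (1 - Real.exp (-(c1 * (θ * Real.sqrt (bb k)))))))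
        ≤ Real.exp (-((c1 / 4800) ^ 2 / 68 * ((n : ℝ) + u) ^ (2 / 5 : ℝ))) := by
  have hn0 : (0 : ℝ) ≤ n := Nat.cast_nonneg n
  have hu0 : (128 : ℝ) ≤ u := by exact_mod_cast hu
  obtain ⟨v, hv⟩ : ∃ v : ℝ, v = 6 * n + u + 10 := ⟨_, rfl⟩
  have hv0 : 0 < v := by rw [hv]; positivity
  rw [← hv]
  have hy1 : (1 : ℝ) ≤ (n : ℝ) + u := by linarith
  rcases le_or_gt n u with hnu | hnu
  · -- `n ≤ u`
    have hnu' : (n : ℝ) ≤ u := by exact_mod_cast hnu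
    refine ⟨u / v, by positivity, ?_, ?_⟩
    · rw [div_le_one hv0, hv]; linarith
    · have hθ1 : (u : ℝ) / v ≤ 1 := by rw [div_le_one hv0, hv]; linarith
      have hp : (∏ k ∈ Finset.range (n - gap u n),
          (1 - (1 / 120) * (1 - Real.exp (-(c1 * (u / v * Real.sqrt (bb k))))))) ≤ 1 := by
        apply Finset.prod_le_one
        · intro k _
          exact (nb_fac c1 _ _ hc hc1 (by positivity) hθ1 (Real.sqrt_nonneg _) (nb_bb_hi k)).1
        · intro k _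
          refine (nb_fac c1 _ _ hc hc1 (by positivity) hθ1 (Real.sqrt_nonneg _) (nb_bb_hi k)).2.trans ?_
          rw [Real.exp_le_one_iff]
          have := Real.sqrt_nonneg (bb k)
          have : 0 ≤ c1 * (u / v) * Real.sqrt (bb k) / 240 := by positivity
          linarith
      have he : -((u : ℝ) / v * u) + (u / v) ^ 2 * v / 2 = -(u ^ 2 / (2 * v)) := by
        field_simp
        ring
      calc Real.exp (-((u : ℝ) / v * u) + (u / v) ^ 2 * v / 2) * _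
          ≤ Real.exp (-((u : ℝ) / v * u) + (u / v) ^ 2 * v / 2) * 1 :=
            mul_le_mul_of_nonneg_left hp (Real.exp_pos _).le
        _ ≤ _ := by
            rw [mul_one, he, Real.exp_le_exp, neg_le_neg_iff]
            have h1 : ((n : ℝ) + u) ^ (2 / 5 : ℝ) ≤ (n : ℝ) + u := by
              calc ((n : ℝ) + u) ^ (2 / 5 : ℝ) ≤ ((n : ℝ) + u) ^ (1 : ℝ) :=
                    Real.rpow_le_rpow_of_exponent_le hy1 (by norm_num)
                _ = (n : ℝ) + u := Real.rpow_one _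
            have h2 : (c1 / 4800) ^ 2 / 68 ≤ 1 / 68 := by
              have : (c1 / 4800) ^ 2 ≤ 1 := by
                apply pow_le_one₀ (by positivity)
                rw [div_le_one (by norm_num)]
                linarith
              linarith
            have h3 : (0 : ℝ) ≤ ((n : ℝ) + u) ^ (2 / 5 : ℝ) := by positivity
            calc (c1 / 4800) ^ 2 / 68 * ((n : ℝ) + u) ^ (2 / 5 : ℝ)
                ≤ 1 / 68 * ((n : ℝ) + u) := mul_le_mul h2 h1 h3 (by norm_num)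
              _ ≤ (u : ℝ) / 34 := by linarith
              _ ≤ (u : ℝ) ^ 2 / (2 * v) := by
                  rw [div_le_div_iff₀ (by norm_num) (by positivity), hv]
                  nlinarith
  · -- `u < n`
    have hnu' : (u : ℝ) ≤ n := by exact_mod_cast hnu.le
    have hn1 : (128 : ℝ) ≤ n := by linarith
    have hnpos : (0 : ℝ) < n := by linarith
    have hg := nb_gap u n (by omega) hnu
    have hj : (n : ℝ) / 2 ≤ ((n - gap u n : ℕ) : ℝ) := by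
      have h1 : n ≤ 2 * (n - gap u n) := by omega
      have h2 : (n : ℝ) ≤ 2 * ((n - gap u n : ℕ) : ℝ) := by exact_mod_cast h1
      linarith
    obtain ⟨a, ha⟩ : ∃ a : ℝ, a = c1 / 4800 * (n : ℝ) ^ (7 / 10 : ℝ) := ⟨_, rfl⟩
    have ha0 : 0 < a := by rw [ha]; positivity
    have hn7 : (n : ℝ) ^ (7 / 10 : ℝ) ≤ n := by
      calc (n : ℝ) ^ (7 / 10 : ℝ) ≤ (n : ℝ) ^ (1 : ℝ) :=
            Real.rpow_le_rpow_of_exponent_le (by linarith) (by norm_num)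
        _ = (n : ℝ) := Real.rpow_one _
    have han : a ≤ n := by
      rw [ha]
      have h1 : c1 / 4800 ≤ 1 := by rw [div_le_one (by norm_num)]; linarith
      calc c1 / 4800 * (n : ℝ) ^ (7 / 10 : ℝ) ≤ 1 * n := mul_le_mul h1 hn7 (by positivity) (by norm_num)
        _ = n := one_mul _
    have hav : a ≤ v := by rw [hv]; linarith
    have hθ0 : 0 ≤ a / v := by positivity
    have hθ1 : a / v ≤ 1 := by rw [div_le_one hv0]; exact hav
    refine ⟨a / v, hθ0, hθ1, ?_⟩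
    obtain ⟨hp0, hp⟩ := nb_prod c1 (a / v) hc hc1 hθ0 hθ1 (n - gap u n) n (by omega) (by omega)
    have h37 : (n : ℝ) ^ (-(3 / 10) : ℝ) * n = (n : ℝ) ^ (7 / 10 : ℝ) := by
      nth_rewrite 2 [← Real.rpow_one (n : ℝ)]
      rw [← Real.rpow_add hnpos]
      norm_num
    have hw : a / v * a ≤ c1 * (a / v) * ((n : ℝ) ^ (-(3 / 10) : ℝ)) / 2400 * ((n - gap u n : ℕ) : ℝ) := by
      calc a / v * a = c1 * (a / v) * ((n : ℝ) ^ (-(3 / 10) : ℝ)) / 2400 * (n / 2) := by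
            nth_rewrite 2 [ha]
            rw [← h37]
            ring
        _ ≤ _ := by gcongr
    calc Real.exp (-(a / v * u) + (a / v) ^ 2 * v / 2) * _
        ≤ Real.exp (-(a / v * u) + (a / v) ^ 2 * v / 2) *
          Real.exp (-(c1 * (a / v) * ((n : ℝ) ^ (-(3 / 10) : ℝ)) / 2400 * ((n - gap u n : ℕ) : ℝ))) :=
          mul_le_mul_of_nonneg_left hp (Real.exp_pos _).le
      _ ≤ _ := by
          rw [← Real.exp_add, Real.exp_le_exp]
          have he : (a / v) ^ 2 * v / 2 - a / v * a = -(a ^ 2 / (2 * v)) := by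
            field_simp
            ring
          have h1 : 0 ≤ a / v * u := by positivity
          have h2 : (c1 / 4800) ^ 2 / 68 * ((n : ℝ) + u) ^ (2 / 5 : ℝ) ≤ a ^ 2 / (2 * v) := by
            have h3 : ((n : ℝ) + u) ^ (2 / 5 : ℝ) ≤ 2 * (n : ℝ) ^ (2 / 5 : ℝ) := by
              calc ((n : ℝ) + u) ^ (2 / 5 : ℝ) ≤ (2 * (n : ℝ)) ^ (2 / 5 : ℝ) :=
                    Real.rpow_le_rpow (by positivity) (by linarith) (by norm_num)
                _ = (2 : ℝ) ^ (2 / 5 : ℝ) * (n : ℝ) ^ (2 / 5 : ℝ) := Real.mul_rpow (by norm_num) hn0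
                _ ≤ (2 : ℝ) ^ (1 : ℝ) * (n : ℝ) ^ (2 / 5 : ℝ) := by
                    apply mul_le_mul_of_nonneg_right _ (by positivity)
                    exact Real.rpow_le_rpow_of_exponent_le (by norm_num) (by norm_num)
                _ = 2 * (n : ℝ) ^ (2 / 5 : ℝ) := by rw [Real.rpow_one]
            have h4 : a ^ 2 = (c1 / 4800) ^ 2 * ((n : ℝ) ^ (2 / 5 : ℝ) * n) := by
              rw [ha, mul_pow]
              congr 1
              rw [← Real.rpow_natCast, ← Real.rpow_mul hn0]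
              nth_rewrite 3 [← Real.rpow_one (n : ℝ)]
              rw [← Real.rpow_add hnpos]
              norm_num
            have h5 : v ≤ 17 * n := by rw [hv]; linarith
            rw [le_div_iff₀ (by positivity), h4]
            calc (c1 / 4800) ^ 2 / 68 * ((n : ℝ) + u) ^ (2 / 5 : ℝ) * (2 * v)
                ≤ (c1 / 4800) ^ 2 / 68 * (2 * (n : ℝ) ^ (2 / 5 : ℝ)) * (2 * (17 * n)) := by gcongr
              _ = (c1 / 4800) ^ 2 * ((n : ℝ) ^ (2 / 5 : ℝ) * n) := by ring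
          linarith

theorem _root_.H941.num_bottom (c1 : ℝ) (hc1 : 0 < c1) (hc1' : c1 ≤ 1) :
    ∃ (C3 : ℝ) (u0 : ℕ), 0 < C3 ∧ ∀ u ≥ u0, ∀ n M : ℕ, M ≤ 12 * n + 2 * u + 12 → ∃ θ : ℝ, 0 ≤ θ ∧ θ ≤ 1 ∧
      ((n : ℝ) + u) ^ 9 * (2 ^ (gap u n) * (800 * (M : ℝ) ^ 16)) *
        (Real.exp (-(θ * u) + θ ^ 2 * (6 * n + u + 10) / 2) *
          (∏ k ∈ Finset.range (n - gap u n), (1 - (1 / 120) * (1 - Real.exp (-(c1 * (θ * Real.sqrt (bb k)))))))) ≤ C3 / ((n : ℝ) + u) ^ 2 := by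
  have hf : (0 : ℝ) < (Nat.factorial 83 : ℝ) := by exact_mod_cast Nat.factorial_pos 83
  obtain ⟨F, hF⟩ : ∃ F : ℝ, F = (Nat.factorial 83 : ℝ) := ⟨_, rfl⟩
  rw [← hF] at hf
  refine ⟨64 * 800 * 24 ^ 16 * (F / ((c1 / 4800) ^ 2 / 68) ^ 83), 128, by positivity, fun u hu n M hM => ?_⟩
  obtain ⟨θ, h0, h1, h2⟩ := nb_expo c1 hc1 hc1' u n hu
  refine ⟨θ, h0, h1, ?_⟩
  have hu0 : (128 : ℝ) ≤ u := by exact_mod_cast hu
  have hn0 : (0 : ℝ) ≤ n := Nat.cast_nonneg n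
  obtain ⟨y, hy⟩ : ∃ y : ℝ, y = (n : ℝ) + u := ⟨_, rfl⟩
  have hy1 : 1 ≤ y := by rw [hy]; linarith
  have hy0 : 0 < y := by linarith
  have hMy : (M : ℝ) ≤ 24 * y := by
    have h3 : (M : ℝ) ≤ 12 * n + 2 * u + 12 := by exact_mod_cast hM
    rw [hy]
    linarith
  have hg : (2 : ℝ) ^ gap u n ≤ 64 * y ^ 6 := by
    rw [hy]
    exact nb_two_gap u n (by omega)
  have hp := nb_poly ((c1 / 4800) ^ 2 / 68) y (by positivity) hy1
  rw [← hy] at h2 ⊢
  rw [← hF] at hp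
  rw [le_div_iff₀ (by positivity)]
  have hM16 : (M : ℝ) ^ 16 ≤ 24 ^ 16 * y ^ 16 := by
    rw [← mul_pow]
    exact pow_le_pow_left₀ (Nat.cast_nonneg M) hMy 16
  have hE : 0 ≤ Real.exp (-(θ * u) + θ ^ 2 * (6 * n + u + 10) / 2) *
          (∏ k ∈ Finset.range (n - gap u n), (1 - (1 / 120) * (1 - Real.exp (-(c1 * (θ * Real.sqrt (bb k)))))))  := by
    refine mul_nonneg (Real.exp_pos _).le (Finset.prod_nonneg fun k _ => ?_)
    exact (nb_fac c1 θ _ hc1 hc1' h0 h1 (Real.sqrt_nonneg _) (nb_bb_hi k)).1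
  obtain ⟨X, hX⟩ : ∃ X : ℝ, X = Real.exp (-(θ * u) + θ ^ 2 * (6 * n + u + 10) / 2) *
          (∏ k ∈ Finset.range (n - gap u n), (1 - (1 / 120) * (1 - Real.exp (-(c1 * (θ * Real.sqrt (bb k))))))) := ⟨_, rfl⟩
  rw [← hX] at h2 hE ⊢
  calc y ^ 9 * (2 ^ gap u n * (800 * (M : ℝ) ^ 16)) * X * y ^ 2
      ≤ y ^ 9 * (64 * y ^ 6 * (800 * (24 ^ 16 * y ^ 16))) *
        Real.exp (-((c1 / 4800) ^ 2 / 68 * y ^ (2 / 5 : ℝ))) * y ^ 2 := by gcongr
    _ = 64 * 800 * 24 ^ 16 * (y ^ 33 * Real.exp (-((c1 / 4800) ^ 2 / 68 * y ^ (2 / 5 : ℝ)))) := by ring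
    _ ≤ 64 * 800 * 24 ^ 16 * (F / ((c1 / 4800) ^ 2 / 68) ^ 83) := by gcongr

end H941.num_bottom
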