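import Pool.Agent.KS6_63.GFF.Defs4
import Pool.Agent.KS6_63.GFF.A3
import Pool.Agent.KS6_63.GFF.A4
import Pool.Agent.KS6_63.GFF.B.shift_bound_
import Pool.Agent.KS6_63.GFF.G2

open MeasureTheory ProbabilityTheory

namespace H941.full_small

theorem fs_hwalk (y : ℤ) (k : ℕ) : ∀ x x' : ℤ, x' = x + k → ∃ p : grid.Walk (x, y) (x', y),
    p.support.length = k + 1 ∧ ∀ w ∈ p.support, w.2 = y ∧ x ≤ w.1 ∧ w.1 ≤ x' := by
  induction k with
  | zero =>
    intro x x' h
    have h' : x' = x := by simpa using h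
    subst h'
    exact ⟨SimpleGraph.Walk.nil, by simp, by simp⟩
  | succ k ih =>
    intro x x' h
    push_cast at h
    obtain ⟨p, hp1, hp2⟩ := ih (x + 1) x' (by omega)
    have hadj : grid.Adj (x, y) (x + 1, y) := by
      show |x - (x + 1)| + |y - y| = 1
      simp
    refine ⟨SimpleGraph.Walk.cons hadj p, by simp [hp1], ?_⟩
    intro w hw
    rw [SimpleGraph.Walk.support_cons, List.mem_cons] at hw
    rcases hw with rfl | hw
    · refine ⟨rfl, le_refl _, ?_⟩
      show x ≤ x'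
      omega
    · obtain ⟨h1, h2, h3⟩ := hp2 w hw
      exact ⟨h1, by omega, h3⟩

theorem fs_gauss {ι : Type} [Fintype ι] [DecidableEq ι] (Γ : Matrix ι ι ℝ) (hΓ : Γ.PosSemidef)
    (hnn : ∀ i j, 0 ≤ Γ i j) (lam : ℝ) (hlam : 0 ≤ lam) :
    ∃ c : ℝ, 0 < c ∧ ENNReal.ofReal c ≤
      multivariateGaussian (0 : EuclideanSpace ℝ ι) Γ {x | ∀ i, x i ≤ lam} := by
  have hae : ∀ᵐ x ∂(multivariateGaussian (0 : EuclideanSpace ℝ ι) Γ), ∀ i, Γ i i = 0 → x i = 0 := by
    rw [ae_all_iff]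
    intro i
    by_cases hi : Γ i i = 0
    · have h1 := measurePreserving_eval_multivariateGaussian (μ := (0 : EuclideanSpace ℝ ι)) hΓ (i := i)
      rw [hi, Real.toNNReal_zero, gaussianReal_zero_var] at h1
      have h2 : ∀ᵐ y ∂(Measure.dirac ((0 : EuclideanSpace ℝ ι) i)), y = 0 := by
        rw [ae_dirac_eq]
        simp
      have h3 := h1.quasiMeasurePreserving.ae h2
      filter_upwards [h3] with x hx _
      exact hx
    · filter_upwards with x hx
      exact absurd hx hi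
  by_cases hz : ∀ i, Γ i i = 0
  · refine ⟨1, one_pos, ?_⟩
    have h1 : multivariateGaussian (0 : EuclideanSpace ℝ ι) Γ {x | ∀ i, x i ≤ lam} = 1 := by
      refine le_antisymm prob_le_one ?_
      rw [← measure_univ (μ := multivariateGaussian (0 : EuclideanSpace ℝ ι) Γ)]
      refine measure_mono_ae ?_
      filter_upwards [hae] with x hx _ i
      rw [hx i (hz i)]
      exact hlam
    rw [h1]
    simp
  push Not at hz
  obtain ⟨i0, hi0⟩ := hz
  have hi0' : 0 < Γ i0 i0 := lt_of_le_of_ne (hnn _ _) (Ne.symm hi0)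
  have hSpos : 0 < ∑ i, ∑ j, (1 : ℝ) * Γ i j * 1 := by
    refine Finset.sum_pos' (fun i _ => Finset.sum_nonneg fun j _ => by simpa using hnn i j)
      ⟨i0, Finset.mem_univ _, ?_⟩
    refine Finset.sum_pos' (fun j _ => by simpa using hnn i0 j) ⟨i0, Finset.mem_univ _, ?_⟩
    simpa using hi0'
  obtain ⟨σ, hσ⟩ : ∃ σ : ℝ, σ = Real.sqrt (∑ i, ∑ j, (1 : ℝ) * Γ i j * 1) := ⟨_, rfl⟩
  have hσpos : 0 < σ := by rw [hσ]; exact Real.sqrt_pos.2 hSpos
  have hσsq : ∑ i, ∑ j, (1 : ℝ) * Γ i j * 1 = σ ^ 2 := by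
    rw [hσ, Real.sq_sqrt hSpos.le]
  obtain ⟨h, hh⟩ : ∃ h : EuclideanSpace ℝ ι, ∀ i, h i = (∑ j, Γ i j * (1 : ℝ)) / σ :=
    ⟨WithLp.toLp 2 (fun i => (∑ j, Γ i j * (1 : ℝ)) / σ), fun i => rfl⟩
  have hh0 : ∀ i, 0 ≤ h i := by
    intro i
    rw [hh]
    exact div_nonneg (Finset.sum_nonneg fun j _ => by simpa using hnn i j) hσpos.le
  have hhpos : ∀ i, Γ i i ≠ 0 → 0 < h i := by
    intro i hi
    rw [hh]
    refine div_pos ?_ hσpos
    refine Finset.sum_pos' (fun j _ => by simpa using hnn i j) ⟨i, Finset.mem_univ _, ?_⟩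
    simpa using lt_of_le_of_ne (hnn i i) (Ne.symm hi)
  obtain ⟨A, hA⟩ : ∃ A : ℕ → Set (EuclideanSpace ℝ ι), 
      A = fun n : ℕ => {x : EuclideanSpace ℝ ι | ∀ i, x i ≤ lam + (n : ℝ) * h i} :=
    ⟨_, rfl⟩
  have hAmeas : ∀ n, MeasurableSet (A n) := by
    intro n
    rw [hA]
    have : {x : EuclideanSpace ℝ ι | ∀ i, x i ≤ lam + n * h i} =
        ⋂ i, {x : EuclideanSpace ℝ ι | x i ≤ lam + n * h i} := by
      ext x; simp
    show MeasurableSet {x : EuclideanSpace ℝ ι | ∀ i, x i ≤ lam + n * h i}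
    rw [this]
    refine MeasurableSet.iInter fun i => measurableSet_le (by fun_prop) (by fun_prop)
  have hAmono : Monotone A := by
    intro m n hmn x hx
    rw [hA] at hx ⊢
    intro i
    have h1 : x i ≤ lam + m * h i := hx i
    have h2 : (m : ℝ) ≤ n := by exact_mod_cast hmn
    have h3 := mul_le_mul_of_nonneg_right h2 (hh0 i)
    show x i ≤ lam + n * h i
    linarith
  have hlim : Filter.Tendsto (fun n => multivariateGaussian (0 : EuclideanSpace ℝ ι) Γ (A n))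
      Filter.atTop (nhds 1) := by
    have h1 : multivariateGaussian (0 : EuclideanSpace ℝ ι) Γ (⋃ n, A n) = 1 := by
      refine le_antisymm prob_le_one ?_
      rw [← measure_univ (μ := multivariateGaussian (0 : EuclideanSpace ℝ ι) Γ)]
      refine measure_mono_ae ?_
      filter_upwards [hae] with x hx _
      have h2 : ∀ᶠ n : ℕ in Filter.atTop, ∀ i, x i ≤ lam + (n : ℝ) * h i := by
        rw [Filter.eventually_all]
        intro i
        by_cases hi : Γ i i = 0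
        · refine Filter.Eventually.of_forall fun n => ?_
          rw [hx i hi]
          exact add_nonneg hlam (mul_nonneg (Nat.cast_nonneg n) (hh0 i))
        · have h3 : Filter.Tendsto (fun n : ℕ => (n : ℝ) * h i) Filter.atTop Filter.atTop :=
            tendsto_natCast_atTop_atTop.atTop_mul_const (hhpos i hi)
          filter_upwards [h3.eventually_ge_atTop (x i)] with n hn
          linarith
      obtain ⟨n, hn⟩ := h2.exists
      refine Set.mem_iUnion.2 ⟨n, ?_⟩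
      rw [hA]
      exact hn
    rw [← h1]
    exact tendsto_measure_iUnion_atTop hAmono
  have hev : ∀ᶠ n in Filter.atTop, (3 / 4 : ENNReal) <
      multivariateGaussian (0 : EuclideanSpace ℝ ι) Γ (A n) := by
    refine hlim.eventually (lt_mem_nhds ?_)
    rw [ENNReal.div_lt_iff (by simp) (by simp)]
    norm_num
  obtain ⟨t, ht⟩ := hev.exists
  have hB : MeasurableSet {x : EuclideanSpace ℝ ι | ∀ i, x i ≤ lam} := by
    have : {x : EuclideanSpace ℝ ι | ∀ i, x i ≤ lam} =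
        ⋂ i, {x : EuclideanSpace ℝ ι | x i ≤ lam} := by
      ext x; simp
    rw [this]
    refine MeasurableSet.iInter fun i => measurableSet_le (by fun_prop) (by fun_prop)
  have hkey := shift_bound Γ hΓ (fun _ => 1) σ t hσpos hσsq h hh (A t)
    {x : EuclideanSpace ℝ ι | ∀ i, x i ≤ lam} (hAmeas t) hB
    (by
      intro x hx u hu i
      have h1 := hh0 i
      have h2 : x i ≤ lam := hx i
      have h3 := mul_nonneg hu h1
      show x i - u * h i ≤ lam
      linarith)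
    (by
      intro x hx i
      rw [hA] at hx
      have h2 : x i ≤ lam + t * h i := hx i
      show x i - t * h i ≤ lam
      linarith)
  have hgpos : 0 < gaussianReal 0 1 (Set.Iic (-(t : ℝ))) := by
    rw [pos_iff_ne_zero]
    intro h0
    have h1 := gaussianReal_absolutelyContinuous' (0 : ℝ) (v := 1) one_ne_zero h0
    rw [Real.volume_Iic] at h1
    exact absurd h1 (by simp)
  have hgfin : gaussianReal 0 1 (Set.Iic (-(t : ℝ))) ≠ ⊤ := measure_ne_top _ _
  have hquart : (1 / 4 : ENNReal) ≤ multivariateGaussian (0 : EuclideanSpace ℝ ι) Γ (A t) - 1 / 2 := by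
    refine ENNReal.le_sub_of_add_le_right (by simp) ?_
    refine le_trans (le_of_eq ?_) ht.le
    rw [← ENNReal.toReal_eq_toReal_iff' (by simp) (by simp [ENNReal.div_eq_top]),
      ENNReal.toReal_add (by simp) (by simp)]
    norm_num
  refine ⟨(gaussianReal 0 1 (Set.Iic (-(t : ℝ)))).toReal * (1 / 4), ?_, ?_⟩
  · exact mul_pos (ENNReal.toReal_pos hgpos.ne' hgfin) (by norm_num)
  · refine le_trans ?_ hkey
    rw [ENNReal.ofReal_mul ENNReal.toReal_nonneg, ENNReal.ofReal_toReal hgfin]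
    refine mul_le_mul_right ?_ _
    refine le_trans (le_of_eq ?_) hquart
    rw [ENNReal.ofReal_div_of_pos (by norm_num)]
    norm_num

theorem _root_.H941.full_small (α β lam : ℝ) (hlam : 0 ≤ lam) (N : ℕ) (h1 : 1 ≤ ⌊α * (N : ℝ)⌋₊) (h2 : ⌊α * (N : ℝ)⌋₊ ≤ ⌊β * (N : ℝ)⌋₊)
    (h3 : ⌊β * (N : ℝ)⌋₊ ≤ N) :
    ∃ c : ℝ, 0 < c ∧ ∀ (Ω : Type*) [MeasurableSpace Ω] (P : Measure Ω) (η : ℤ × ℤ → Ω → ℝ), IsDGFF N η P →
      ENNReal.ofReal c ≤ P {ω | ∃ (u v : ℤ × ℤ) (p : grid.Walk u v),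
          u ∈ innerBdry ⌊α * (N : ℝ)⌋₊ ∧ v ∈ innerBdry ⌊β * (N : ℝ)⌋₊ ∧
          (∀ w ∈ p.support, w ∈ box N ∧ η w ω ≤ lam) ∧ (p.support.length : ℝ) ≤ (N : ℝ) ^ 2} := by
  obtain ⟨V, hV⟩ : ∃ V, V = box N \ innerBdry N := ⟨_, rfl⟩
  have hVsub : V ⊆ box N := by rw [hV]; exact Finset.sdiff_subset
  obtain ⟨gb1, gb2, gb3, -, -, -⟩ := green_basic V
  obtain ⟨-, gbe, -, -, -, -⟩ := green_basic ∅
  obtain ⟨Γ, hΓdef⟩ : ∃ Γ : Matrix {v // v ∈ box N} {v // v ∈ box N} ℝ,
      ∀ u v, Γ u v = (1 / 4) * green V u v := ⟨fun u v => (1 / 4) * green V u v, fun _ _ => rfl⟩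
  have hΓ : Γ.PosSemidef := by
    refine Matrix.PosSemidef.of_dotProduct_mulVec_nonneg ?_ ?_
    · ext u v
      rw [Matrix.conjTranspose_apply, star_trivial, hΓdef, hΓdef, gb3]
    · intro f
      obtain ⟨F, hF⟩ : ∃ F : ℤ × ℤ → ℝ, ∀ u : {v // v ∈ box N}, F u = f u :=
        ⟨fun z => if hz : z ∈ box N then f ⟨z, hz⟩ else 0, fun u => by simp⟩
      have h1 := green_psd ∅ V (Finset.empty_subset _) F
      have h2 : ∑ x ∈ V, ∑ y ∈ V, F x * (green V x y - green ∅ x y) * F y =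
          ∑ x ∈ box N, ∑ y ∈ box N, F x * green V x y * F y := by
        refine (Finset.sum_congr rfl fun x hx => ?_).trans (Finset.sum_subset hVsub ?_)
        · refine (Finset.sum_congr rfl fun y hy => ?_).trans (Finset.sum_subset hVsub ?_)
          · rw [gbe x y (Or.inl (Finset.notMem_empty x)), sub_zero]
          · intro y _ hy
            rw [gb2 x y (Or.inr hy)]
            ring
        · intro x _ hx
          refine Finset.sum_eq_zero fun y _ => ?_
          rw [gb2 x y (Or.inl hx)]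
          ring
      rw [h2] at h1
      have h3 : star f ⬝ᵥ (Γ.mulVec f) =
          (1 / 4) * ∑ x ∈ box N, ∑ y ∈ box N, F x * green V x y * F y := by
        rw [dotProduct, Finset.mul_sum, ← Finset.sum_coe_sort (box N)]
        refine Finset.sum_congr rfl fun u _ => ?_
        rw [Matrix.mulVec, dotProduct, Finset.mul_sum, ← Finset.sum_coe_sort (box N),
          Finset.mul_sum]
        refine Finset.sum_congr rfl fun v _ => ?_
        rw [hΓdef, hF, hF, Pi.star_apply, star_trivial]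
        ring
      rw [h3]
      exact mul_nonneg (by norm_num) h1
  have hnn : ∀ i j, 0 ≤ Γ i j := fun i j => by
    rw [hΓdef]
    exact mul_nonneg (by norm_num) (gb1 _ _)
  obtain ⟨c, hc, hcle⟩ := fs_gauss Γ hΓ hnn lam hlam
  refine ⟨c, hc, ?_⟩
  intro Ω _ P η hη
  have hXg : IsGaussianProcess (fun v : {v // v ∈ box N} => η v) P := hη.gaussian
  obtain ⟨hm1, hm2⟩ := law_of_cov P (fun v : {v // v ∈ box N} => η v) hXg
    (fun v => hη.mean_zero v v.2) Γ hΓ (fun i j => by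
      rw [hΓdef, hV]
      exact hη.cov i i.2 j j.2)
  rw [← hm2] at hcle
  refine hcle.trans ?_
  have hB : MeasurableSet {x : EuclideanSpace ℝ {v // v ∈ box N} | ∀ i, x i ≤ lam} := by
    have : {x : EuclideanSpace ℝ {v // v ∈ box N} | ∀ i, x i ≤ lam} =
        ⋂ i, {x : EuclideanSpace ℝ {v // v ∈ box N} | x i ≤ lam} := by
      ext x; simp
    rw [this]
    refine MeasurableSet.iInter fun i => measurableSet_le (by fun_prop) (by fun_prop)
  rw [Measure.map_apply_of_aemeasurable hm1 hB]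
  refine measure_mono ?_
  intro ω hω
  have hω' : ∀ z ∈ box N, η z ω ≤ lam := fun z hz => hω ⟨z, hz⟩
  obtain ⟨a, ha⟩ : ∃ a, a = ⌊α * (N : ℝ)⌋₊ := ⟨_, rfl⟩
  obtain ⟨b, hb⟩ : ∃ b, b = ⌊β * (N : ℝ)⌋₊ := ⟨_, rfl⟩
  rw [← ha] at h1 h2
  rw [← hb] at h2 h3
  obtain ⟨p, hp1, hp2⟩ := fs_hwalk ((a / 2 : ℕ) : ℤ) (b / 2 - a / 2) ((a / 2 : ℕ) : ℤ)
    ((b / 2 : ℕ) : ℤ) (by omega)
  have hbd : ∀ M : ℕ, ∀ y : ℤ, 1 ≤ M → (-(((M - 1) / 2 : ℕ) : ℤ)) ≤ y → y ≤ ((M / 2 : ℕ) : ℤ) →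
      ((((M / 2 : ℕ) : ℤ), y) : ℤ × ℤ) ∈ innerBdry M := by
    intro M y hM hy1 hy2
    unfold innerBdry
    classical
    refine Finset.mem_filter.2 ?_
    constructor
    · unfold box
      rw [Finset.mem_product, Finset.mem_Icc, Finset.mem_Icc]
      refine ⟨⟨?_, le_refl _⟩, hy1, hy2⟩
      show (-(((M - 1) / 2 : ℕ) : ℤ)) ≤ ((M / 2 : ℕ) : ℤ)
      omega
    · refine ⟨(((M / 2 : ℕ) : ℤ) + 1, y), ?_, ?_⟩
      · show |((M / 2 : ℕ) : ℤ) - (((M / 2 : ℕ) : ℤ) + 1)| + |y - y| = 1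
        simp
      · unfold box
        rw [Finset.mem_product, Finset.mem_Icc, Finset.mem_Icc]
        rintro ⟨⟨_, h⟩, _⟩
        have h' : ((M / 2 : ℕ) : ℤ) + 1 ≤ ((M / 2 : ℕ) : ℤ) := h
        omega
  refine ⟨_, _, p, ?_, ?_, ?_, ?_⟩
  · rw [← ha]
    exact hbd a _ h1 (by omega) (le_refl _)
  · rw [← hb]
    exact hbd b _ (by omega) (by omega) (by omega)
  · intro w hw
    obtain ⟨hw1, hw2, hw3⟩ := hp2 w hw
    have hwN : w ∈ box N := by
      unfold box
      rw [Finset.mem_product, Finset.mem_Icc, Finset.mem_Icc, hw1]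
      refine ⟨⟨?_, ?_⟩, ?_, ?_⟩ <;> omega
    exact ⟨hwN, hω' w hwN⟩
  · rw [hp1]
    have h5 : b / 2 - a / 2 + 1 ≤ N ^ 2 := by
      have : b / 2 - a / 2 + 1 ≤ N := by omega
      nlinarith
    exact_mod_cast h5

end H941.full_small
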