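import Pool.Agent.KS6_63.GFF.Defs4
import Pool.Agent.KS6_63.GFF.A3
import Pool.Agent.KS6_63.GFF.A4
import Pool.Agent.KS6_63.GFF.A5
import Pool.Agent.KS6_63.GFF.B.expl_facts_
import Pool.Agent.KS6_63.GFF.C.density_
import Pool.Agent.KS6_63.GFF.C.gauss_eight_

open MeasureTheory ProbabilityTheory

namespace H941.mom_single

lemma mom_single_sub (w d : ℕ) (hd : 1 ≤ d) (hw : 2 * d + 1 ≤ w) :
    rect w (5 * w) d (w - d) ⊆ Dw w := by
  intro v hv
  simp only [rect, Dw, Finset.mem_product, Finset.mem_Icc] at hv ⊢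
  omega

lemma mom_single_K0 (w d : ℕ) : rect w w d (w - d) ⊆ rect w (5 * w) d (w - d) := by
  intro v hv
  simp only [rect, Finset.mem_product, Finset.mem_Icc] at hv ⊢
  omega

lemma mom_single_card (w d : ℕ) (hd : 1 ≤ d) (hw : 2 * d + 1 ≤ w) :
    (((rect w (5 * w) d (w - d)).card : ℕ) : ℝ) ≤ 5 * (w : ℝ) ^ 2 := by
  have h1 : (rect w (5 * w) d (w - d)).card ≤ 5 * w ^ 2 := by
    unfold rect
    rw [Finset.card_product, Int.card_Icc, Int.card_Icc]
    have e1 : ((5 * (w : ℤ) + 1 - w).toNat) = 4 * w + 1 := by omega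
    have e2 : (((w : ℤ) - d + 1 - d).toNat) = w - 2 * d + 1 := by omega
    rw [e1, e2]
    have e3 : w - 2 * d + 1 ≤ w := by omega
    calc (4 * w + 1) * (w - 2 * d + 1) ≤ (4 * w + w) * w := by
          apply Nat.mul_le_mul _ e3
          omega
      _ = 5 * w ^ 2 := by ring
  calc (((rect w (5 * w) d (w - d)).card : ℕ) : ℝ) ≤ ((5 * w ^ 2 : ℕ) : ℝ) := by exact_mod_cast h1
    _ = _ := by push_cast; ring

lemma mom_single_psd (D : Finset (ℤ × ℤ)) :
    (Matrix.of fun x y : (D : Finset (ℤ × ℤ)) => (1 / 4) * green D x y).PosSemidef := by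
  obtain ⟨_, h2, h3, _⟩ := green_basic D
  obtain ⟨_, g2, _⟩ := green_basic ∅
  refine Matrix.PosSemidef.of_dotProduct_mulVec_nonneg ?_ (fun x => ?_)
  · ext i j
    simp [Matrix.conjTranspose_apply, h3 i j]
  · have h := green_psd ∅ D (Finset.empty_subset _)
      (fun v => if h : v ∈ D then x ⟨v, h⟩ else 0)
    have h4 : ∀ a b, green ∅ a b = 0 := fun a b => g2 a b (Or.inl (Finset.notMem_empty a))
    simp only [h4, sub_zero] at h
    rw [← Finset.sum_coe_sort D] at h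
    have h5 : star x ⬝ᵥ (Matrix.of fun x y : (D : Finset (ℤ × ℤ)) => (1 / 4) * green D x y).mulVec x
        = (1 / 4) * ∑ i : D, ∑ y ∈ D, (if h : (i : ℤ × ℤ) ∈ D then x ⟨i, h⟩ else 0) *
          green D i y * (if h : y ∈ D then x ⟨y, h⟩ else 0) := by
      rw [Finset.mul_sum]
      unfold dotProduct
      refine Finset.sum_congr rfl fun i _ => ?_
      rw [← Finset.sum_coe_sort D]
      unfold Matrix.mulVec dotProduct
      rw [Finset.mul_sum, Finset.mul_sum]
      refine Finset.sum_congr rfl fun j _ => ?_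
      simp only [Pi.star_apply, star_trivial, Matrix.of_apply, Finset.coe_mem, dite_true,
        Subtype.coe_eta]
      ring
    rw [h5]
    exact mul_nonneg (by norm_num) h

/-- the eighth moment at one vertex -/
lemma mom_single_eight : ∃ C : ℝ, 0 < C ∧ ∀ (w : ℕ) (_ : 1 ≤ w) (lam : ℝ) (_ : 1 ≤ lam)
    (v : ℤ × ℤ) (_ : v ∈ Dw w),
    Integrable (fun x : EuclideanSpace ℝ (Dw w : Finset (ℤ × ℤ)) => (lam - extf (Dw w) x v) ^ 8)
      (gf (Dw w) (Dw w)) ∧
    ∫ x, (lam - extf (Dw w) x v) ^ 8 ∂(gf (Dw w) (Dw w)) ≤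
      (C * lam ^ 4) ^ 2 * (2 + (Nat.log 2 w : ℝ)) ^ 4 := by
  obtain ⟨C, hC, hg⟩ := gauss_eight
  refine ⟨16 * (C + 1), by positivity, fun w hw lam hl v hv => ?_⟩
  have hvar : green (Dw w) v v ≤ 2 * (Nat.log 2 w : ℝ) + 9 := by
    refine (green_log (Dw w) (7 * w) (by omega) ?_ v).trans ?_
    · intro x hx y hy
      simp only [rect, Dw, Finset.mem_product, Finset.mem_Icc] at hx hy
      push_cast
      rw [abs_lt, abs_lt]
      omega
    · rw [div_le_iff₀ (Real.log_pos (by norm_num))]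
      have h1 : w < 2 ^ (Nat.log 2 w + 1) := Nat.lt_pow_succ_log_self (by norm_num) w
      have h2 : (w : ℝ) ≤ 2 ^ (Nat.log 2 w + 1) := by exact_mod_cast h1.le
      have hw1 : (1 : ℝ) ≤ w := by exact_mod_cast hw
      have h3 : 1 + 2 * ((7 * w : ℕ) : ℝ) ^ 2 ≤ 2 ^ (2 * Nat.log 2 w + 9) := by
        push_cast
        calc 1 + 2 * (7 * (w : ℝ)) ^ 2 ≤ 128 * (w : ℝ) ^ 2 := by nlinarith
          _ ≤ 128 * (2 ^ (Nat.log 2 w + 1)) ^ 2 := by gcongr
          _ = 2 ^ (2 * Nat.log 2 w + 9) := by ring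
      calc Real.log (1 + 2 * ((7 * w : ℕ) : ℝ) ^ 2) ≤ Real.log (2 ^ (2 * Nat.log 2 w + 9)) :=
            Real.log_le_log (by positivity) h3
        _ = (2 * (Nat.log 2 w : ℝ) + 9) * Real.log 2 := by
            rw [Real.log_pow]
            push_cast
            ring
  set E : ℝ := (Nat.log 2 w : ℝ) with hE
  have hE0 : 0 ≤ E := by positivity
  have h := hg (Dw w : Finset (ℤ × ℤ))
    (Matrix.of fun x y : (Dw w : Finset (ℤ × ℤ)) => (1 / 4) * green (Dw w) x y)
    (mom_single_psd (Dw w)) (fun i => if i = ⟨v, hv⟩ then 1 else 0) lam (3 * (2 + E))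
    (by positivity) (by
      simp only [ite_mul, one_mul, zero_mul, mul_ite, mul_one, mul_zero, Finset.sum_ite_eq',
        Finset.mem_univ, if_true, Matrix.of_apply]
      linarith)
  have h6 : ∀ x : EuclideanSpace ℝ (Dw w : Finset (ℤ × ℤ)),
      (lam - ∑ i, (if i = (⟨v, hv⟩ : (Dw w : Finset (ℤ × ℤ))) then (1 : ℝ) else 0) * x i) ^ 8
        = (lam - extf (Dw w) x v) ^ 8 := by
    intro x
    unfold extf
    rw [dif_pos hv]
    simp
  simp only [h6] at h
  refine ⟨h.1, h.2.trans ?_⟩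
  have h7 : lam ^ 2 + 3 * (2 + E) ≤ 4 * lam ^ 2 * (2 + E) := by
    have h8 : 1 ≤ lam ^ 2 := by nlinarith
    nlinarith
  calc C * (lam ^ 2 + 3 * (2 + E)) ^ 4 ≤ (C + 1) ^ 2 * (4 * lam ^ 2 * (2 + E)) ^ 4 := by
        gcongr
        nlinarith
    _ = (16 * (C + 1) * lam ^ 4) ^ 2 * (2 + E) ^ 4 := by ring

/-- the depth of `v` in the rectangle -/
def mom_single_dep (w d : ℕ) (v : ℤ × ℤ) : ℕ :=
  (min (min (v.1 - (w + 1)) (5 * w - v.1)) (min (v.2 - d) (w - d - v.2))).toNat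

lemma mom_single_count (w d m : ℕ) (hd : 1 ≤ d) (hw : 2 * d + 1 ≤ w) (hm : 2 ≤ m) :
    ((rect w (5 * w) d (w - d)).filter (fun v => mom_single_dep w d v < m)).card ≤ 13 * m * w := by
  classical
  have h1 : (rect w (5 * w) d (w - d)).filter (fun v => mom_single_dep w d v < m) ⊆
      ((rect w (w + m) d (w - d)) ∪ (rect (5 * w - m + 1) (5 * w) d (w - d))) ∪
      ((rect w (5 * w) d (d + m - 1)) ∪ (rect w (5 * w) (w - d - m + 1) (w - d))) := by
    intro v hv
    obtain ⟨hv1, hv2⟩ := Finset.mem_filter.1 hv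
    simp only [Finset.mem_union, rect, Finset.mem_product,
      Finset.mem_Icc, mom_single_dep] at hv1 hv2 ⊢
    omega
  refine (Finset.card_le_card h1).trans ?_
  refine (Finset.card_union_le _ _).trans ?_
  have c1 : (rect w (w + m) d (w - d)).card ≤ (m + 1) * w := by
    unfold rect
    rw [Finset.card_product, Int.card_Icc, Int.card_Icc]
    apply Nat.mul_le_mul <;> omega
  have c2 : (rect (5 * w - m + 1) (5 * w) d (w - d)).card ≤ m * w := by
    unfold rect
    rw [Finset.card_product, Int.card_Icc, Int.card_Icc]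
    apply Nat.mul_le_mul <;> omega
  have c3 : (rect w (5 * w) d (d + m - 1)).card ≤ (5 * w) * m := by
    unfold rect
    rw [Finset.card_product, Int.card_Icc, Int.card_Icc]
    apply Nat.mul_le_mul <;> omega
  have c4 : (rect w (5 * w) (w - d - m + 1) (w - d)).card ≤ (5 * w) * m := by
    unfold rect
    rw [Finset.card_product, Int.card_Icc, Int.card_Icc]
    apply Nat.mul_le_mul <;> omega
  have c5 := Finset.card_union_le (rect w (w + m) d (w - d)) (rect (5 * w - m + 1) (5 * w) d (w - d))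
  have c6 := Finset.card_union_le (rect w (5 * w) d (d + m - 1))
    (rect w (5 * w) (w - d - m + 1) (w - d))
  nlinarith

lemma mom_single_summable : Summable fun n : ℕ => ((n : ℝ) + 2) ^ 3 * (1 / 2) ^ n := by
  have h : ∀ k : ℕ, Summable fun n : ℕ => (n : ℝ) ^ k * (1 / 2 : ℝ) ^ n := fun k =>
    summable_pow_mul_geometric_of_norm_lt_one k (by norm_num)
  have h1 := (((h 3).add ((h 2).mul_left 6)).add ((h 1).mul_left 12)).add ((h 0).mul_left 8)
  refine h1.congr fun n => ?_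
  simp only [pow_zero, pow_one]
  ring

/-- the sum over the rectangle of the cube of the depth index -/
lemma mom_single_sum : ∃ S : ℝ, 0 < S ∧ ∀ (w d : ℕ), 1 ≤ d → 2 * d + 1 ≤ w →
    ∑ v ∈ rect w (5 * w) d (w - d),
      ((Nat.log 2 w : ℝ) - (Nat.log 2 (mom_single_dep w d v) : ℝ) + 2) ^ 3 ≤ S * (w : ℝ) ^ 2 := by
  classical
  refine ⟨26 * (∑' n : ℕ, ((n : ℝ) + 2) ^ 3 * (1 / 2) ^ n + 1), ?_, fun w d hd hw => ?_⟩
  · have : 0 ≤ ∑' n : ℕ, ((n : ℝ) + 2) ^ 3 * (1 / 2 : ℝ) ^ n := tsum_nonneg fun n => by positivity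
    positivity
  set E := Nat.log 2 w with hE
  have hmaps : ∀ v ∈ rect w (5 * w) d (w - d), Nat.log 2 (mom_single_dep w d v) ∈
      Finset.range (E + 1) := by
    intro v hv
    rw [Finset.mem_range, Nat.lt_succ_iff]
    apply Nat.log_mono_right
    simp only [rect, Finset.mem_product, Finset.mem_Icc] at hv
    unfold mom_single_dep
    omega
  rw [← Finset.sum_fiberwise_of_maps_to hmaps]
  have hfib : ∀ e ∈ Finset.range (E + 1),
      ∑ v ∈ (rect w (5 * w) d (w - d)).filter (fun v => Nat.log 2 (mom_single_dep w d v) = e),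
        ((E : ℝ) - (Nat.log 2 (mom_single_dep w d v) : ℝ) + 2) ^ 3 ≤
      26 * (2 : ℝ) ^ e * w * ((E : ℝ) - e + 2) ^ 3 := by
    intro e he
    rw [Finset.mem_range, Nat.lt_succ_iff] at he
    have heE : (e : ℝ) ≤ E := by exact_mod_cast he
    have h1 : ∑ v ∈ (rect w (5 * w) d (w - d)).filter (fun v => Nat.log 2 (mom_single_dep w d v) = e),
        ((E : ℝ) - (Nat.log 2 (mom_single_dep w d v) : ℝ) + 2) ^ 3 =
        ∑ v ∈ (rect w (5 * w) d (w - d)).filter (fun v => Nat.log 2 (mom_single_dep w d v) = e),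
        ((E : ℝ) - e + 2) ^ 3 := by
      refine Finset.sum_congr rfl fun v hv => ?_
      rw [(Finset.mem_filter.1 hv).2]
    rw [h1, Finset.sum_const, nsmul_eq_mul]
    have h2 : ((rect w (5 * w) d (w - d)).filter
        (fun v => Nat.log 2 (mom_single_dep w d v) = e)).card ≤ 13 * 2 ^ (e + 1) * w := by
      refine le_trans (Finset.card_le_card ?_) (mom_single_count w d (2 ^ (e + 1)) hd hw ?_)
      · intro v hv
        rw [Finset.mem_filter] at hv ⊢
        refine ⟨hv.1, ?_⟩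
        rw [← hv.2]
        exact Nat.lt_pow_succ_log_self (by norm_num) _
      · calc 2 = 2 ^ 1 := rfl
          _ ≤ 2 ^ (e + 1) := Nat.pow_le_pow_right (by norm_num) (by omega)
    have h3 : (((rect w (5 * w) d (w - d)).filter
        (fun v => Nat.log 2 (mom_single_dep w d v) = e)).card : ℝ) ≤ 26 * (2 : ℝ) ^ e * w := by
      calc _ ≤ ((13 * 2 ^ (e + 1) * w : ℕ) : ℝ) := by exact_mod_cast h2
        _ = 26 * (2 : ℝ) ^ e * w := by push_cast; ring
    have h4 : 0 ≤ (E : ℝ) - e + 2 := by linarith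
    exact mul_le_mul_of_nonneg_right h3 (by positivity)
  refine (Finset.sum_le_sum hfib).trans ?_
  rw [← Finset.sum_range_reflect]
  have hterm : ∀ n ∈ Finset.range (E + 1),
      26 * (2 : ℝ) ^ (E + 1 - 1 - n) * w * ((E : ℝ) - ((E + 1 - 1 - n : ℕ) : ℝ) + 2) ^ 3 ≤
      26 * (w : ℝ) ^ 2 * (((n : ℝ) + 2) ^ 3 * (1 / 2) ^ n) := by
    intro n hn
    rw [Finset.mem_range, Nat.lt_succ_iff] at hn
    have h1 : E + 1 - 1 - n = E - n := by omega
    rw [h1, Nat.cast_sub hn]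
    have h2 : (2 : ℝ) ^ (E - n) = 2 ^ E * (1 / 2) ^ n := by
      have h3 : (2 : ℝ) ^ E = 2 ^ (E - n) * 2 ^ n := by rw [← pow_add]; congr 1; omega
      rw [h3, mul_assoc, ← mul_pow]
      norm_num
    have h4 : ((2 : ℝ)) ^ E ≤ w := by
      have := Nat.pow_log_le_self 2 (x := w) (by omega)
      exact_mod_cast this
    rw [h2]
    have h5 : (E : ℝ) - ((E : ℝ) - n) + 2 = n + 2 := by ring
    rw [h5]
    calc 26 * ((2 : ℝ) ^ E * (1 / 2) ^ n) * w * ((n : ℝ) + 2) ^ 3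
        ≤ 26 * ((w : ℝ) * (1 / 2) ^ n) * w * ((n : ℝ) + 2) ^ 3 := by gcongr
      _ = 26 * (w : ℝ) ^ 2 * (((n : ℝ) + 2) ^ 3 * (1 / 2) ^ n) := by ring
  refine (Finset.sum_le_sum hterm).trans ?_
  rw [← Finset.mul_sum]
  have h9 : ∑ n ∈ Finset.range (E + 1), (((n : ℝ) + 2) ^ 3 * (1 / 2) ^ n) ≤
      ∑' n : ℕ, ((n : ℝ) + 2) ^ 3 * (1 / 2 : ℝ) ^ n :=
    mom_single_summable.sum_le_tsum _ fun n _ => by positivity
  have h10 : 0 ≤ (w : ℝ) ^ 2 := by positivity
  nlinarith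

lemma mom_single_Lk (w d : ℕ) (lam : ℝ) (f : ℤ × ℤ → ℝ) :
    (∀ k, Lk w d lam f k ⊆ rect w (5 * w) d (w - d)) ∧
    ∀ i k, i < k → Disjoint (Lk w d lam f i) (Lk w d lam f k) := by
  obtain ⟨h1, h2, h3, _⟩ := expl_facts (rect w (5 * w) d (w - d)) (rect w w d (w - d))
    (mom_single_K0 w d) (fun v => f v ≤ lam)
  have hmono : ∀ i k, i ≤ k →
      (expl (rect w (5 * w) d (w - d)) (rect w w d (w - d)) (fun v => f v ≤ lam) i).1 ⊆
      (expl (rect w (5 * w) d (w - d)) (rect w w d (w - d)) (fun v => f v ≤ lam) k).1 := by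
    intro i k hik
    induction hik with
    | refl => exact Finset.Subset.refl _
    | step _ ih => exact ih.trans (h1 _).2.2
  refine ⟨fun k => ((h2 k).1).trans (h1 k).2.1, fun i k hik => ?_⟩
  obtain ⟨k', rfl⟩ : ∃ k', k = k' + 1 := ⟨k - 1, by omega⟩
  exact ((h3 k').mono_right (((h2 i).1).trans (hmono i k' (by omega)))).symm

open Classical in
lemma mom_single_Ys (w d : ℕ) (lam Kp : ℝ) (f : ℤ × ℤ → ℝ) (T : ℕ) (hd : 1 ≤ d)
    (hw : 2 * d + 1 ≤ w) :
    (Ys w d lam Kp f T) ^ 2 ≤ 5 * (w : ℝ) ^ 2 * ∑ v ∈ rect w (5 * w) d (w - d),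
      (if (∃ k, v ∈ Lk w d lam f k) ∧ sgl w d lam Kp f v then (lam - f v) ^ 4 else 0) := by
  obtain ⟨h1, h2⟩ := mom_single_Lk w d lam f
  have h0 : 0 ≤ Ys w d lam Kp f T := by
    unfold Ys
    exact Finset.sum_nonneg fun k _ => Finset.sum_nonneg fun v _ => sq_nonneg _
  have hdisj : Set.PairwiseDisjoint (↑(Finset.range T) : Set ℕ)
      (fun k => (Lk w d lam f k).filter (fun v => sgl w d lam Kp f v)) := by
    intro i _ k _ hik
    have h3 : Disjoint (Lk w d lam f i) (Lk w d lam f k) := by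
      rcases lt_or_gt_of_ne hik with h | h
      · exact h2 i k h
      · exact (h2 k i h).symm
    exact Finset.disjoint_filter_filter h3
  have h3 : Ys w d lam Kp f T ≤ ∑ v ∈ rect w (5 * w) d (w - d),
      (if (∃ k, v ∈ Lk w d lam f k) ∧ sgl w d lam Kp f v then (lam - f v) ^ 2 else 0) := by
    unfold Ys
    rw [← Finset.sum_biUnion hdisj, ← Finset.sum_filter]
    refine Finset.sum_le_sum_of_subset_of_nonneg ?_ fun v _ _ => sq_nonneg _
    intro v hv
    obtain ⟨k, _, hk⟩ := Finset.mem_biUnion.1 hv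
    obtain ⟨hk1, hk2⟩ := Finset.mem_filter.1 hk
    exact Finset.mem_filter.2 ⟨h1 k hk1, ⟨k, hk1⟩, hk2⟩
  calc (Ys w d lam Kp f T) ^ 2 ≤ (∑ v ∈ rect w (5 * w) d (w - d),
      (if (∃ k, v ∈ Lk w d lam f k) ∧ sgl w d lam Kp f v then (lam - f v) ^ 2 else 0)) ^ 2 := by
        gcongr
    _ ≤ ((rect w (5 * w) d (w - d)).card : ℝ) * ∑ v ∈ rect w (5 * w) d (w - d),
      (if (∃ k, v ∈ Lk w d lam f k) ∧ sgl w d lam Kp f v then (lam - f v) ^ 2 else 0) ^ 2 :=
        sq_sum_le_card_mul_sum_sq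
    _ = ((rect w (5 * w) d (w - d)).card : ℝ) * ∑ v ∈ rect w (5 * w) d (w - d),
      (if (∃ k, v ∈ Lk w d lam f k) ∧ sgl w d lam Kp f v then (lam - f v) ^ 4 else 0) := by
        congr 1
        refine Finset.sum_congr rfl fun v _ => ?_
        split_ifs
        · ring
        · ring
    _ ≤ _ := by
        refine mul_le_mul_of_nonneg_right (mom_single_card w d hd hw) ?_
        refine Finset.sum_nonneg fun v _ => ?_
        split_ifs
        · positivity
        · exact le_rfl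

lemma mom_single_exp (kd u e : ℝ) (hk : 0 < kd) (hu : 1 ≤ u) (he : 0 ≤ e) :
    (1 + e) ^ 4 * Real.exp (-(kd * e / u ^ 2)) ≤ 8 * (1 + 24 / kd ^ 4) * u ^ 8 := by
  have hu0 : 0 < u := by linarith
  set s : ℝ := kd / u ^ 2 with hs
  have hs0 : 0 < s := by positivity
  have h1 : kd * e / u ^ 2 = s * e := by rw [hs]; ring
  rw [h1]
  have h2 : (s * e) ^ 4 / ((Nat.factorial 4 : ℕ) : ℝ) ≤ Real.exp (s * e) :=
    Real.pow_div_factorial_le_exp _ (by positivity) 4
  have h3 : ((Nat.factorial 4 : ℕ) : ℝ) = 24 := by norm_num [Nat.factorial]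
  rw [h3] at h2
  have h4 : Real.exp (s * e) * Real.exp (-(s * e)) = 1 := by
    rw [← Real.exp_add]
    simp
  have h5 : 0 < Real.exp (-(s * e)) := Real.exp_pos _
  have h6 : e ^ 4 * Real.exp (-(s * e)) ≤ 24 / s ^ 4 := by
    rw [le_div_iff₀ (by positivity)]
    have h7 : (s * e) ^ 4 ≤ 24 * Real.exp (s * e) := by linarith
    calc e ^ 4 * Real.exp (-(s * e)) * s ^ 4 = (s * e) ^ 4 * Real.exp (-(s * e)) := by ring
      _ ≤ 24 * Real.exp (s * e) * Real.exp (-(s * e)) := by gcongr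
      _ = 24 := by rw [mul_assoc, h4, mul_one]
  have h8 : Real.exp (-(s * e)) ≤ 1 := by
    rw [Real.exp_le_one_iff]
    have : 0 ≤ s * e := by positivity
    linarith
  have h9 : (1 + e) ^ 4 ≤ 8 * (1 + e ^ 4) := by
    have : 0 ≤ (e - 1) ^ 2 * (7 * e ^ 2 + 10 * e + 7) := by positivity
    nlinarith
  have h10 : 24 / s ^ 4 = 24 / kd ^ 4 * u ^ 8 := by
    rw [hs]
    field_simp
  have h11 : (1 : ℝ) ≤ u ^ 8 := one_le_pow₀ hu
  calc (1 + e) ^ 4 * Real.exp (-(s * e)) ≤ 8 * (1 + e ^ 4) * Real.exp (-(s * e)) := by gcongr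
    _ = 8 * (Real.exp (-(s * e)) + e ^ 4 * Real.exp (-(s * e))) := by ring
    _ ≤ 8 * (1 + 24 / s ^ 4) := by gcongr
    _ ≤ 8 * (u ^ 8 + 24 / kd ^ 4 * u ^ 8) := by rw [h10]; gcongr
    _ = _ := by ring

lemma mom_single_prob : ∃ C : ℝ, 1 ≤ C ∧ ∀ (u Kh q lam : ℝ) (w d : ℕ) (v : ℤ × ℤ),
    1 ≤ u → 0 ≤ q → q ≤ 1 / 64 → 1 ≤ d → 2 * d + 1 ≤ w →
    (∀ w' : ℕ, 128 ≤ w' → w' < w → HypA u Kh q w') → v ∈ rect w (5 * w) d (w - d) →
    ∃ p : ℝ, 0 ≤ p ∧ gf (Dw w) (Dw w) {x | (∃ k, v ∈ Lk w d lam (extf (Dw w) x) k) ∧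
      sgl w d lam (512 * Kh) (extf (Dw w) x) v} ≤ ENNReal.ofReal p ∧
      p * (2 + (Nat.log 2 w : ℝ)) ^ 4 ≤ (C * u ^ 5 *
        ((Nat.log 2 w : ℝ) - (Nat.log 2 (mom_single_dep w d v) : ℝ) + 2) ^ 3) ^ 2 := by
  obtain ⟨Cd, kd, hCd, hkd, hden⟩ := density
  have hc1 : 1 ≤ 8 * Cd * (1 + 24 / kd ^ 4) := by
    have : 0 ≤ 24 / kd ^ 4 := by positivity
    nlinarith
  refine ⟨8 * Cd * (1 + 24 / kd ^ 4), hc1,
    fun u Kh q lam w d v hu hq hq1 hd hw hyp hv => ?_⟩
  set c1 : ℝ := 8 * Cd * (1 + 24 / kd ^ 4) with hc1d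
  set E := Nat.log 2 w with hE
  have hu10 : (1 : ℝ) ≤ u ^ 10 := one_le_pow₀ hu
  have hc11 : c1 ≤ c1 ^ 2 := by nlinarith
  have hprob : IsProbabilityMeasure (gf (Dw w) (Dw w)) := by
    unfold gf
    infer_instance
  rcases Nat.eq_zero_or_pos (mom_single_dep w d v) with h0 | h0
  · refine ⟨1, zero_le_one, by rw [ENNReal.ofReal_one]; exact prob_le_one, ?_⟩
    rw [h0, Nat.log_zero_right]
    have h1 : (1 : ℝ) ≤ 2 + (E : ℝ) := by
      have : (0 : ℝ) ≤ (E : ℝ) := by positivity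
      linarith
    calc 1 * (2 + (E : ℝ)) ^ 4 ≤ 1 * (2 + (E : ℝ)) ^ 6 :=
          mul_le_mul_of_nonneg_left (pow_le_pow_right₀ h1 (by norm_num)) zero_le_one
      _ ≤ (c1 ^ 2 * u ^ 10) * (2 + (E : ℝ)) ^ 6 := by
          gcongr
          nlinarith
      _ = _ := by push_cast; ring
  · set e := Nat.log 2 (mom_single_dep w d v) with he
    have h2 : 2 ^ e ≤ mom_single_dep w d v := Nat.pow_log_le_self 2 (by omega)
    have hdepw : mom_single_dep w d v ≤ w := by
      simp only [rect, Finset.mem_product, Finset.mem_Icc] at hv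
      unfold mom_single_dep
      omega
    have heE : e ≤ E := Nat.log_mono_right hdepw
    have hball : ball v (2 ^ e) ⊆ rect (w + 1) (5 * w) d (w - d) := by
      have h3 : ((2 : ℤ) ^ e) ≤ (mom_single_dep w d v : ℤ) := by exact_mod_cast h2
      intro z hz
      generalize (2 : ℤ) ^ e = P at *
      simp only [ball, rect, Finset.mem_product, Finset.mem_Icc, mom_single_dep] at hz h3 h0 ⊢
      omega
    refine ⟨_, ?_, (measure_mono ?_).trans (hden u Kh q lam w d 0 e v hu hq hq1 hd hw hyp hball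
      (Nat.zero_le _)), ?_⟩
    · have h4 : (1 : ℝ) ≤ w / 2 ^ e := by
        rw [le_div_iff₀ (by positivity), one_mul]
        exact_mod_cast h2.trans hdepw
      have h5 : 0 ≤ Real.log ((w : ℝ) / 2 ^ e) := Real.log_nonneg h4
      have h6 : 0 < Real.exp (-(kd * ((e : ℝ) - ((0 : ℕ) : ℝ)) / u ^ 2)) := Real.exp_pos _
      positivity
    · rintro x ⟨⟨k, hk⟩, hs⟩
      refine ⟨⟨k, v, hk, ?_⟩, fun i _ => hs i⟩
      simp only [ball, rect, Finset.mem_product, Finset.mem_Icc]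
      omega
    · have h4 : (1 : ℝ) ≤ w / 2 ^ e := by
        rw [le_div_iff₀ (by positivity), one_mul]
        exact_mod_cast h2.trans hdepw
      have h5 : 0 ≤ Real.log ((w : ℝ) / 2 ^ e) := Real.log_nonneg h4
      have heE' : (e : ℝ) ≤ E := by exact_mod_cast heE
      set n : ℝ := (E : ℝ) - e with hn
      have hn0 : 0 ≤ n := by linarith
      have h6 : Real.log ((w : ℝ) / 2 ^ e) ≤ n + 1 := by
        have h7 : (w : ℝ) ≤ 2 ^ (E + 1) := by
          exact_mod_cast (Nat.lt_pow_succ_log_self (b := 2) (by norm_num) w).le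
        have h8 : (w : ℝ) / 2 ^ e ≤ 2 ^ (E + 1) / 2 ^ e := by gcongr
        calc Real.log ((w : ℝ) / 2 ^ e) ≤ Real.log (2 ^ (E + 1) / 2 ^ e) :=
              Real.log_le_log (by positivity) h8
          _ = (n + 1) * Real.log 2 := by
              rw [Real.log_div (by positivity) (by positivity), Real.log_pow, Real.log_pow, hn]
              push_cast
              ring
          _ ≤ (n + 1) * 1 := by
              gcongr
              have := Real.log_two_lt_d9
              linarith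
          _ = n + 1 := mul_one _
      have h9 := mom_single_exp kd u e hkd hu (by positivity)
      have h10 : (2 : ℝ) + E ≤ (n + 2) * (1 + e) := by
        have he0 : (0 : ℝ) ≤ e := by positivity
        have : (E : ℝ) = n + e := by rw [hn]; ring
        rw [this]
        nlinarith
      have h11 : 0 < Real.exp (-(kd * (e : ℝ) / u ^ 2)) := Real.exp_pos _
      rw [Nat.cast_zero, sub_zero]
      calc Cd * u ^ 2 * (1 + Real.log ((w : ℝ) / 2 ^ e)) * Real.exp (-(kd * (e : ℝ) / u ^ 2)) *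
            (2 + (E : ℝ)) ^ 4
          ≤ Cd * u ^ 2 * (1 + (n + 1)) * Real.exp (-(kd * (e : ℝ) / u ^ 2)) *
            ((n + 2) * (1 + e)) ^ 4 := by gcongr
        _ = Cd * u ^ 2 * (n + 2) ^ 5 *
            ((1 + (e : ℝ)) ^ 4 * Real.exp (-(kd * (e : ℝ) / u ^ 2))) := by ring
        _ ≤ Cd * u ^ 2 * (n + 2) ^ 5 * (8 * (1 + 24 / kd ^ 4) * u ^ 8) := by gcongr
        _ = c1 * u ^ 10 * (n + 2) ^ 5 := by rw [hc1d]; ring
        _ ≤ c1 ^ 2 * u ^ 10 * (n + 2) ^ 6 := by
            gcongr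
            · linarith
            · norm_num
        _ = _ := by ring

lemma mom_single_holder {α : Type} [MeasurableSpace α] (μ : Measure α) [IsProbabilityMeasure μ]
    (Y : α → ℝ) (hY : Measurable Y) (h8 : Integrable (fun x => Y x ^ 8) μ) (A : Set α)
    (p K F W : ℝ) (hp : 0 ≤ p) (hA : μ A ≤ ENNReal.ofReal p) (hK : 0 < K) (hF : 0 < F)
    (hW : 0 < W) (hM : ∫ x, Y x ^ 8 ∂μ ≤ K ^ 2 * F) (hpF : p * F ≤ W ^ 2) :
    Integrable ((toMeasurable μ A).indicator (fun x => Y x ^ 4)) μ ∧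
    ∫ x, (toMeasurable μ A).indicator (fun x => Y x ^ 4) x ∂μ ≤ K * W := by
  have hB : MeasurableSet (toMeasurable μ A) := measurableSet_toMeasurable μ A
  set B := toMeasurable μ A with hBd
  have hBm : μ.real B ≤ p := by
    rw [measureReal_def]
    apply ENNReal.toReal_le_of_le_ofReal hp
    rw [hBd, measure_toMeasurable]
    exact hA
  set θ : ℝ := K * F / W with hθ
  have hθ0 : 0 < θ := by positivity
  have hdom : Integrable (fun x => (θ * B.indicator (fun _ => (1 : ℝ)) x + θ⁻¹ * Y x ^ 8) / 2) μ := by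
    refine Integrable.div_const (Integrable.add ?_ (h8.const_mul _)) 2
    exact ((integrable_const (1 : ℝ)).indicator hB).const_mul θ
  have hpt : ∀ x, B.indicator (fun x => Y x ^ 4) x ≤
      (θ * B.indicator (fun _ => (1 : ℝ)) x + θ⁻¹ * Y x ^ 8) / 2 := by
    intro x
    have h1 : 0 ≤ Y x ^ 8 := by positivity
    by_cases hx : x ∈ B
    · rw [Set.indicator_of_mem hx, Set.indicator_of_mem hx]
      have h2 : 0 ≤ θ⁻¹ * (θ - Y x ^ 4) ^ 2 := by positivity
      have h3 : θ⁻¹ * (θ - Y x ^ 4) ^ 2 = θ * (θ⁻¹ * θ) - 2 * (θ⁻¹ * θ) * Y x ^ 4 + θ⁻¹ * Y x ^ 8 := by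
        ring
      rw [inv_mul_cancel₀ hθ0.ne'] at h3
      linarith
    · rw [Set.indicator_of_notMem hx, Set.indicator_of_notMem hx]
      positivity
  have hnn : ∀ x, 0 ≤ B.indicator (fun x => Y x ^ 4) x := fun x =>
    Set.indicator_nonneg (fun x _ => by positivity) x
  have hint : Integrable (B.indicator (fun x => Y x ^ 4)) μ := by
    refine hdom.mono' ((hY.pow_const 4).indicator hB).aestronglyMeasurable ?_
    refine Filter.Eventually.of_forall fun x => ?_
    rw [Real.norm_eq_abs, abs_of_nonneg (hnn x)]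
    exact hpt x
  refine ⟨hint, ?_⟩
  calc ∫ x, B.indicator (fun x => Y x ^ 4) x ∂μ
      ≤ ∫ x, (θ * B.indicator (fun _ => (1 : ℝ)) x + θ⁻¹ * Y x ^ 8) / 2 ∂μ :=
        integral_mono hint hdom hpt
    _ = (θ * μ.real B + θ⁻¹ * ∫ x, Y x ^ 8 ∂μ) / 2 := by
        rw [integral_div, integral_add (((integrable_const (1 : ℝ)).indicator hB).const_mul θ)
          (h8.const_mul _), integral_const_mul, integral_const_mul, integral_indicator hB]
        simp
    _ ≤ (θ * p + θ⁻¹ * (K ^ 2 * F)) / 2 := by gcongr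
    _ ≤ (K * W + K * W) / 2 := by
        have h4 : θ * p ≤ K * W := by
          rw [hθ, div_mul_eq_mul_div, div_le_iff₀ hW]
          nlinarith
        have h5 : θ⁻¹ * (K ^ 2 * F) = K * W := by
          rw [hθ]
          field_simp
        linarith
    _ = K * W := by ring

theorem _root_.H941.mom_single : ∃ C : ℝ, 0 < C ∧ ∀ (u Kh q lam t : ℝ) (w d T : ℕ), 1 ≤ u → 1 ≤ Kh → 0 ≤ q → q ≤ 1 / 64 → 1 ≤ d → 2 * d + 1 ≤ w → 1 ≤ lam → 0 < t →
    (∀ w' : ℕ, 128 ≤ w' → w' < w → HypA u Kh q w') →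
    gf (Dw w) (Dw w) {x | t ≤ Real.sqrt (Ys w d lam (512 * Kh) (extf (Dw w) x) T)} ≤
      ENNReal.ofReal (C * w ^ 4 * lam ^ 4 * u ^ 5 / t ^ 4) := by
  classical
  obtain ⟨C8, hC8, h8⟩ := mom_single_eight
  obtain ⟨Cp, hCp, hprob⟩ := mom_single_prob
  obtain ⟨S, hS, hsum⟩ := mom_single_sum
  refine ⟨5 * C8 * Cp * S, by positivity, ?_⟩
  intro u Kh q lam t w d T hu hKh hq hq1 hd hw hl ht hyp
  have hw1 : 1 ≤ w := by omega
  set μ := gf (Dw w) (Dw w) with hμ
  have hpm : IsProbabilityMeasure μ := by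
    rw [hμ]
    unfold gf
    infer_instance
  set R := rect w (5 * w) d (w - d) with hR
  set E : ℝ := (Nat.log 2 w : ℝ) with hE
  have hE0 : 0 ≤ E := by positivity
  let A : ℤ × ℤ → Set (EuclideanSpace ℝ (Dw w : Finset (ℤ × ℤ))) := fun v =>
    {x | (∃ k, v ∈ Lk w d lam (extf (Dw w) x) k) ∧ sgl w d lam (512 * Kh) (extf (Dw w) x) v}
  let W : ℤ × ℤ → ℝ := fun v => Cp * u ^ 5 * (E - (Nat.log 2 (mom_single_dep w d v) : ℝ) + 2) ^ 3
  have hdepE : ∀ v ∈ R, (Nat.log 2 (mom_single_dep w d v) : ℝ) ≤ E := by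
    intro v hv
    rw [hE]
    have : Nat.log 2 (mom_single_dep w d v) ≤ Nat.log 2 w := by
      apply Nat.log_mono_right
      simp only [hR, rect, Finset.mem_product, Finset.mem_Icc] at hv
      unfold mom_single_dep
      omega
    exact_mod_cast this
  have hone : ∀ v ∈ R,
      Integrable ((toMeasurable μ (A v)).indicator (fun x => (lam - extf (Dw w) x v) ^ 4)) μ ∧
      ∫ x, (toMeasurable μ (A v)).indicator (fun x => (lam - extf (Dw w) x v) ^ 4) x ∂μ ≤
        (C8 * lam ^ 4) * W v := by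
    intro v hv
    have hvD : v ∈ Dw w := mom_single_sub w d hd hw hv
    obtain ⟨p, hp0, hp1, hp2⟩ := hprob u Kh q lam w d v hu hq hq1 hd hw hyp hv
    obtain ⟨i1, i2⟩ := h8 w hw1 lam hl v hvD
    have hmeas : Measurable (fun x : EuclideanSpace ℝ (Dw w : Finset (ℤ × ℤ)) =>
        lam - extf (Dw w) x v) := by
      unfold extf
      simp only [hvD, dite_true]
      fun_prop
    have hWpos : 0 < W v := by
      have := hdepE v hv
      have h3 : 0 < E - (Nat.log 2 (mom_single_dep w d v) : ℝ) + 2 := by linarith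
      have h4 : 0 < Cp := by linarith
      have h5 : 0 < u := by linarith
      positivity
    exact mom_single_holder μ _ hmeas i1 (A v) p (C8 * lam ^ 4) ((2 + E) ^ 4) (W v) hp0 hp1
      (by positivity) (by positivity) hWpos i2 hp2
  let G : EuclideanSpace ℝ (Dw w : Finset (ℤ × ℤ)) → ℝ := fun x => 5 * (w : ℝ) ^ 2 *
    ∑ v ∈ R, (toMeasurable μ (A v)).indicator (fun x => (lam - extf (Dw w) x v) ^ 4) x
  have hGint : Integrable G μ := by
    refine Integrable.const_mul ?_ _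
    exact integrable_finsetSum R fun v hv => (hone v hv).1
  have hGnn : ∀ x, 0 ≤ G x := by
    intro x
    refine mul_nonneg (by positivity) (Finset.sum_nonneg fun v _ => ?_)
    exact Set.indicator_nonneg (fun x _ => by positivity) x
  have hGI : ∫ x, G x ∂μ ≤ 5 * C8 * Cp * S * w ^ 4 * lam ^ 4 * u ^ 5 := by
    calc ∫ x, G x ∂μ = 5 * (w : ℝ) ^ 2 * ∑ v ∈ R,
        ∫ x, (toMeasurable μ (A v)).indicator (fun x => (lam - extf (Dw w) x v) ^ 4) x ∂μ := by
          rw [← integral_finsetSum R fun v hv => (hone v hv).1, ← integral_const_mul]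
      _ ≤ 5 * (w : ℝ) ^ 2 * ∑ v ∈ R, (C8 * lam ^ 4) * W v := by
          gcongr with v hv
          exact (hone v hv).2
      _ = 5 * (w : ℝ) ^ 2 * (C8 * lam ^ 4 * (Cp * u ^ 5 *
          ∑ v ∈ R, (E - (Nat.log 2 (mom_single_dep w d v) : ℝ) + 2) ^ 3)) := by
          rw [Finset.mul_sum, Finset.mul_sum]
          simp only [W, Finset.mul_sum]
      _ ≤ 5 * (w : ℝ) ^ 2 * (C8 * lam ^ 4 * (Cp * u ^ 5 * (S * (w : ℝ) ^ 2))) := by
          have := hsum w d hd hw
          have h4 : 0 < Cp := by linarith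
          gcongr
      _ = _ := by ring
  have hsub : {x | t ≤ Real.sqrt (Ys w d lam (512 * Kh) (extf (Dw w) x) T)} ⊆ {x | t ^ 4 ≤ G x} := by
    intro x hx
    have h1 : t ^ 2 ≤ Ys w d lam (512 * Kh) (extf (Dw w) x) T := (Real.le_sqrt' ht).1 hx
    have h2 := mom_single_Ys w d lam (512 * Kh) (extf (Dw w) x) T hd hw
    have h3 : t ^ 4 ≤ (Ys w d lam (512 * Kh) (extf (Dw w) x) T) ^ 2 := by
      calc t ^ 4 = (t ^ 2) ^ 2 := by ring
        _ ≤ _ := by gcongr
    refine h3.trans (h2.trans ?_)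
    show _ ≤ 5 * (w : ℝ) ^ 2 *
      ∑ v ∈ R, (toMeasurable μ (A v)).indicator (fun x => (lam - extf (Dw w) x v) ^ 4) x
    gcongr with v hv
    split_ifs with hc
    · rw [Set.indicator_of_mem (subset_toMeasurable μ (A v) hc)]
    · exact Set.indicator_nonneg (fun x _ => by positivity) x
  have hmk := mul_meas_ge_le_integral_of_nonneg (μ := μ) (f := G)
    (Filter.Eventually.of_forall hGnn) hGint (t ^ 4)
  have ht4 : 0 < t ^ 4 := by positivity
  have hreal : μ.real {x | t ^ 4 ≤ G x} ≤ 5 * C8 * Cp * S * w ^ 4 * lam ^ 4 * u ^ 5 / t ^ 4 := by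
    rw [le_div_iff₀ ht4]
    linarith
  calc μ {x | t ≤ Real.sqrt (Ys w d lam (512 * Kh) (extf (Dw w) x) T)}
      ≤ μ {x | t ^ 4 ≤ G x} := measure_mono hsub
    _ = ENNReal.ofReal (μ.real {x | t ^ 4 ≤ G x}) := by
        rw [ofReal_measureReal]
    _ ≤ _ := ENNReal.ofReal_le_ofReal hreal

end H941.mom_single
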